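import Pool.Agent.M5.Defs
import Pool.Agent.MLD.Ord
import Pool.Agent.MLD.Q1

/-!
PROJECT M5, PART G: general lemmas on germs: orders of ideals, discrepancies, and the reduction of
`Q1` to the semicontinuity for fixed positive exponents.
-/

open MLD

namespace M5

universe u

section
variable {k K : Type u} [Field k] [Field K] [Algebra k K] {n : ℕ} (X : Germ k K n)

/-- the functions of `R` have nonnegative order -/
def Germ.Reg (E : Dv k K n) : Prop := ∀ f : X.R, f ≠ 0 → 0 ≤ E.ord (f : K)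

variable {X}

theorem Germ.Centre.reg {E : Dv k K n} (h : X.Centre E) : X.Reg E := h.1

theorem G1_ne {f : X.R} (h0 : f ≠ 0) : (f : K) ≠ 0 := fun h => h0 (Subtype.ext h)

theorem Germ.Reg.ge {E : Dv k K n} (hE : X.Reg E) (f : X.R) : E.ge 0 (f : K) := by
  by_cases h0 : f = 0
  · left
    rw [h0]
    rfl
  · exact Or.inr (hE f h0)

theorem ordI_le {E : Dv k K n} (hE : X.Reg E) {I : Ideal X.R} {f : X.R} (hf : f ∈ I)
    (h0 : f ≠ 0) : (X.ordI E I : ℤ) ≤ E.ord (f : K) := by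
  have h1 := hE f h0
  have h2 : X.ordI E I ≤ (E.ord (f : K)).toNat :=
    Nat.sInf_le ⟨f, hf, h0, (Int.toNat_of_nonneg h1).symm⟩
  have h3 := Int.toNat_of_nonneg h1
  omega

theorem ordI_mem {E : Dv k K n} (hE : X.Reg E) {I : Ideal X.R} (hI : I ≠ ⊥) :
    ∃ f ∈ I, f ≠ 0 ∧ E.ord (f : K) = X.ordI E I := by
  obtain ⟨f, hf, h0⟩ := Submodule.exists_mem_ne_zero_of_ne_bot hI
  have h1 := hE f h0
  have hne : {m : ℕ | ∃ f ∈ I, f ≠ 0 ∧ E.ord (f : K) = m}.Nonempty :=
    ⟨(E.ord (f : K)).toNat, f, hf, h0, (Int.toNat_of_nonneg h1).symm⟩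
  exact Nat.sInf_mem hne

theorem le_ordI {E : Dv k K n} (hE : X.Reg E) {I : Ideal X.R} (hI : I ≠ ⊥) (N : ℕ)
    (h : ∀ f ∈ I, f ≠ 0 → (N : ℤ) ≤ E.ord (f : K)) : N ≤ X.ordI E I := by
  obtain ⟨f, hf, h0, h1⟩ := ordI_mem hE hI
  have h2 := h f hf h0
  omega

theorem le_ordI_of_ge {E : Dv k K n} (hE : X.Reg E) {I : Ideal X.R} (hI : I ≠ ⊥) (N : ℕ)
    (h : ∀ f ∈ I, E.ge N (f : K)) : N ≤ X.ordI E I := by
  refine le_ordI hE hI N fun f hf h0 => ?_
  rcases h f hf with h1 | h1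
  · exact absurd h1 (G1_ne h0)
  · exact h1

theorem ordI_ge {E : Dv k K n} (hE : X.Reg E) {I : Ideal X.R} {f : X.R} (hf : f ∈ I) :
    E.ge (X.ordI E I) (f : K) := by
  by_cases h0 : f = 0
  · left
    rw [h0]
    rfl
  · exact Or.inr (ordI_le hE hf h0)

theorem ge_span {E : Dv k K n} (hE : X.Reg E) {S : Set X.R} (N : ℕ)
    (h : ∀ f ∈ S, E.ge N (f : K)) : ∀ f ∈ Ideal.span S, E.ge N (f : K) := by
  intro f hf
  refine Submodule.span_induction ?_ ?_ ?_ ?_ hf
  · intro x hx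
    exact h x hx
  · left
    rfl
  · intro x y _ _ hx hy
    exact E.ge_add hx hy
  · intro a x _ hx
    have h1 := E.ge_mul (hE.ge a) hx
    rwa [zero_add] at h1

theorem le_ordI_span {E : Dv k K n} (hE : X.Reg E) {S : Set X.R} (hI : Ideal.span S ≠ ⊥) (N : ℕ)
    (h : ∀ f ∈ S, E.ge N (f : K)) : N ≤ X.ordI E (Ideal.span S) :=
  le_ordI_of_ge hE hI N (ge_span hE N h)

theorem ordI_mono {E : Dv k K n} (hE : X.Reg E) {I J : Ideal X.R} (hI : I ≠ ⊥) (h : I ≤ J) :
    X.ordI E J ≤ X.ordI E I := by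
  obtain ⟨f, hf, h0, h1⟩ := ordI_mem hE hI
  have h2 := ordI_le hE (h hf) h0
  omega

theorem ordI_top {E : Dv k K n} (hE : X.Reg E) : X.ordI E (⊤ : Ideal X.R) = 0 := by
  have h1 := ordI_le hE (I := ⊤) (f := 1) Submodule.mem_top one_ne_zero
  have h2 : ((1 : X.R) : K) = 1 := rfl
  rw [h2, E.ord_one] at h1
  omega

theorem ordI_mul {E : Dv k K n} (hE : X.Reg E) {I J : Ideal X.R} (hI : I ≠ ⊥) (hJ : J ≠ ⊥) :
    X.ordI E (I * J) = X.ordI E I + X.ordI E J := by
  have hIJ : I * J ≠ ⊥ := by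
    intro h
    rcases Ideal.mul_eq_bot.1 h with h | h
    · exact hI h
    · exact hJ h
  apply le_antisymm
  · obtain ⟨f, hf, hf0, hf1⟩ := ordI_mem hE hI
    obtain ⟨g, hg, hg0, hg1⟩ := ordI_mem hE hJ
    have h1 := ordI_le hE (Ideal.mul_mem_mul hf hg) (mul_ne_zero hf0 hg0)
    have h2 : ((f * g : X.R) : K) = (f : K) * (g : K) := rfl
    rw [h2, E.ord_mul (G1_ne hf0) (G1_ne hg0)] at h1
    omega
  · refine le_ordI_of_ge hE hIJ _ fun f hf => ?_
    refine Submodule.mul_induction_on hf ?_ ?_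
    · intro m hm n hn
      have h1 := E.ge_mul (ordI_ge hE hm) (ordI_ge hE hn)
      push_cast
      exact h1
    · intro x y hx hy
      exact E.ge_add hx hy

theorem prod_ne_bot {ι : Type*} (s : Finset ι) (I : ι → Ideal X.R) (hI : ∀ i ∈ s, I i ≠ ⊥) :
    (∏ i ∈ s, I i) ≠ ⊥ := by
  classical
  induction s using Finset.induction_on with
  | empty =>
    rw [Finset.prod_empty, Ideal.one_eq_top]
    exact top_ne_bot
  | insert a s ha ih =>
    rw [Finset.prod_insert ha]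
    intro h
    rcases Ideal.mul_eq_bot.1 h with h | h
    · exact hI a (Finset.mem_insert_self a s) h
    · exact ih (fun i hi => hI i (Finset.mem_insert_of_mem hi)) h

theorem ordI_prod {E : Dv k K n} (hE : X.Reg E) {ι : Type*} (s : Finset ι) (I : ι → Ideal X.R)
    (hI : ∀ i ∈ s, I i ≠ ⊥) : X.ordI E (∏ i ∈ s, I i) = ∑ i ∈ s, X.ordI E (I i) := by
  classical
  induction s using Finset.induction_on with
  | empty =>
    rw [Finset.prod_empty, Finset.sum_empty, Ideal.one_eq_top]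
    exact ordI_top hE
  | insert a s ha ih =>
    have h1 := ih fun i hi => hI i (Finset.mem_insert_of_mem hi)
    rw [Finset.prod_insert ha, Finset.sum_insert ha,
      ordI_mul hE (hI a (Finset.mem_insert_self a s))
        (prod_ne_bot s I fun i hi => hI i (Finset.mem_insert_of_mem hi)), h1]

theorem ordI_sup {E : Dv k K n} (hE : X.Reg E) {I J : Ideal X.R} (hI : I ≠ ⊥) (hJ : J ≠ ⊥) :
    X.ordI E (I ⊔ J) = min (X.ordI E I) (X.ordI E J) := by
  have hIJ : I ⊔ J ≠ ⊥ := by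
    intro h
    rw [sup_eq_bot_iff] at h
    exact hI h.1
  apply le_antisymm
  · exact le_min (ordI_mono hE hI le_sup_left) (ordI_mono hE hJ le_sup_right)
  · refine le_ordI_of_ge hE hIJ _ fun f hf => ?_
    obtain ⟨a, ha, b, hb, rfl⟩ := Submodule.mem_sup.1 hf
    refine E.ge_add (E.ge_mono ?_ (ordI_ge hE ha)) (E.ge_mono ?_ (ordI_ge hE hb))
    · exact_mod_cast min_le_left _ _
    · exact_mod_cast min_le_right _ _

/-- the elements of `m ^ s` have order at least `s` -/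
theorem Germ.Centre.ge_pow {E : Dv k K n} (hE : X.Centre E) (s : ℕ) {f : X.R}
    (hf : f ∈ X.m ^ s) : E.ge s (f : K) := by
  induction s generalizing f with
  | zero => exact hE.reg.ge f
  | succ s ih =>
    rw [pow_succ] at hf
    refine Submodule.mul_induction_on hf ?_ ?_
    · intro a ha b hb
      have h1 : E.ge 1 (b : K) := by
        by_cases h0 : b = 0
        · left
          rw [h0]
          rfl
        · right
          have := hE.2 b hb h0
          omega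
      have h2 := E.ge_mul (ih ha) h1
      push_cast
      exact h2
    · intro x y hx hy
      exact E.ge_add hx hy

theorem ordI_eq_of_lt {E : Dv k K n} (hE : X.Centre E) {I J : Ideal X.R} (hI : I ≠ ⊥)
    (hJ : J ≠ ⊥) (s : ℕ) (h : I ⊔ X.m ^ s = J ⊔ X.m ^ s) (hlt : X.ordI E I < s) :
    X.ordI E J = X.ordI E I := by
  have key : ∀ {I J : Ideal X.R}, I ≠ ⊥ → J ≠ ⊥ → I ⊔ X.m ^ s = J ⊔ X.m ^ s →
      X.ordI E I < s → X.ordI E J ≤ X.ordI E I := by
    intro I J hI hJ h hlt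
    obtain ⟨f, hf, h0, h1⟩ := ordI_mem hE.reg hI
    have hf' : f ∈ J ⊔ X.m ^ s := by
      rw [← h]
      exact Ideal.mem_sup_left hf
    by_contra hcon
    rw [not_le] at hcon
    obtain ⟨a, ha, b, hb, rfl⟩ := Submodule.mem_sup.1 hf'
    have h2 : E.ge (X.ordI E I + 1 : ℤ) ((a + b : X.R) : K) := by
      refine E.ge_add (E.ge_mono ?_ (ordI_ge hE.reg ha)) (E.ge_mono ?_ (hE.ge_pow s hb))
      · omega
      · omega
    rcases h2 with h2 | h2
    · exact G1_ne h0 h2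
    · omega
  have h1 := key hI hJ h hlt
  exact le_antisymm h1 (key hJ hI h.symm (h1.trans_lt hlt))

theorem le_ordI_of_le {E : Dv k K n} (hE : X.Centre E) {I J : Ideal X.R} (hI : I ≠ ⊥)
    (hJ : J ≠ ⊥) (s : ℕ) (h : I ⊔ X.m ^ s = J ⊔ X.m ^ s) (hle : s ≤ X.ordI E I) :
    s ≤ X.ordI E J := by
  by_contra hcon
  rw [not_le] at hcon
  have h1 := ordI_eq_of_lt hE hJ hI s h.symm hcon
  omega

theorem mld_le {E : Dv k K n} (hE : X.Centre E) {r : ℕ} (lam : Fin r → ℝ)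
    (a : Fin r → Ideal X.R) : X.mld lam a ≤ X.aDisc E lam a :=
  iInf_le (fun E : {E : Dv k K n // X.Centre E} => X.aDisc E.1 lam a) ⟨E, hE⟩

theorem le_mld {r : ℕ} (lam : Fin r → ℝ) (a : Fin r → Ideal X.R) (x : EReal)
    (h : ∀ E : Dv k K n, X.Centre E → x ≤ X.aDisc E lam a) : x ≤ X.mld lam a := by
  unfold Germ.mld
  exact le_iInf fun E => h E.1 E.2

/-- `mld < x` is attained -/
theorem exists_of_mld_lt {r : ℕ} (lam : Fin r → ℝ) (a : Fin r → Ideal X.R) {x : EReal}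
    (h : X.mld lam a < x) : ∃ E : Dv k K n, X.Centre E ∧ X.aDisc E lam a < x := by
  by_contra hno
  push Not at hno
  exact absurd (le_mld lam a x hno) (not_le.2 h)

theorem aDisc_real (E : Dv k K n) {r : ℕ} (lam : Fin r → ℝ) (a : Fin r → Ideal X.R) {B : ℝ}
    (hB : X.logDisc E = (B : EReal)) :
    X.aDisc E lam a = ((B - ∑ j, lam j * (X.ordI E (a j) : ℝ) : ℝ) : EReal) := by
  unfold Germ.aDisc
  rw [hB, EReal.coe_sub]

/-- dropping the exponents zero does not change the discrepancies -/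
theorem aDisc_drop {r : ℕ} (lam : Fin r → ℝ) (hlam : ∀ j, 0 ≤ lam j) :
    ∃ (r' : ℕ) (ι : Fin r' → Fin r), (∀ i, 0 < lam (ι i)) ∧
      ∀ (X : Germ k K n) (E : Dv k K n) (a : Fin r → Ideal X.R),
        X.aDisc E lam a = X.aDisc E (fun i => lam (ι i)) (fun i => a (ι i)) := by
  classical
  let e := Fintype.equivFin {j : Fin r // 0 < lam j}
  refine ⟨Fintype.card {j : Fin r // 0 < lam j}, fun i => (e.symm i).1, fun i => (e.symm i).2,
    fun X E a => ?_⟩
  unfold Germ.aDisc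
  congr 2
  have h1 : ∑ i, lam (e.symm i).1 * (X.ordI E (a (e.symm i).1) : ℝ) =
      ∑ j : {j : Fin r // 0 < lam j}, lam j.1 * (X.ordI E (a j.1) : ℝ) :=
    Equiv.sum_comp e.symm (fun j : {j : Fin r // 0 < lam j} => lam j.1 * (X.ordI E (a j.1) : ℝ))
  have h2 : ∑ j ∈ Finset.univ.filter (fun j => 0 < lam j), lam j * (X.ordI E (a j) : ℝ) =
      ∑ j : {j : Fin r // 0 < lam j}, lam j.1 * (X.ordI E (a j.1) : ℝ) :=
    Finset.sum_subtype (Finset.univ.filter (fun j => 0 < lam j)) (fun j => by simp)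
      (fun j => lam j * (X.ordI E (a j) : ℝ))
  have h3 : ∑ j ∈ Finset.univ.filter (fun j => 0 < lam j), lam j * (X.ordI E (a j) : ℝ) =
      ∑ j, lam j * (X.ordI E (a j) : ℝ) := by
    refine Finset.sum_subset (Finset.subset_univ _) fun j _ hj => ?_
    have h4 : ¬ 0 < lam j := fun h => hj (Finset.mem_filter.2 ⟨Finset.mem_univ _, h⟩)
    rw [le_antisymm (not_lt.1 h4) (hlam j), zero_mul]
  rw [h1, ← h2, h3]

/-- grouping of equal exponents -/
theorem aDisc_group {r R : ℕ} (lam : Fin r → ℝ) (t : Fin R → ℝ) (g : Fin r → Fin R)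
    (hg : ∀ j, t (g j) = lam j) (a : Fin r → Ideal X.R) (ha : ∀ j, a j ≠ ⊥)
    {E : Dv k K n} (hE : X.Reg E) :
    X.aDisc E lam a =
      X.aDisc E t (fun i => ∏ j ∈ Finset.univ.filter (fun j => g j = i), a j) := by
  unfold Germ.aDisc
  congr 2
  have h1 : ∀ i, X.ordI E (∏ j ∈ Finset.univ.filter (fun j => g j = i), a j) =
      ∑ j ∈ Finset.univ.filter (fun j => g j = i), X.ordI E (a j) := fun i =>
    ordI_prod hE _ a fun j _ => ha j
  rw [← Finset.sum_fiberwise Finset.univ g (fun j => lam j * (X.ordI E (a j) : ℝ))]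
  apply Finset.sum_congr rfl
  intro i _
  rw [h1 i]
  push_cast
  rw [Finset.mul_sum]
  apply Finset.sum_congr rfl
  intro j hj
  rw [Finset.mem_filter] at hj
  rw [← hg j, hj.2]

theorem G1_prod {A : Type*} [CommRing A] {ι : Type*} (T : Finset ι) (a b : ι → Ideal A)
    (M : Ideal A) (h : ∀ j ∈ T, a j ⊔ M = b j ⊔ M) :
    (∏ j ∈ T, a j) ⊔ M = (∏ j ∈ T, b j) ⊔ M := by
  classical
  induction T using Finset.induction_on with
  | empty => rfl
  | insert x T hx ih =>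
    rw [Finset.prod_insert hx, Finset.prod_insert hx, Q1_mul (a x), Q1_mul (b x),
      h x (Finset.mem_insert_self _ _), ih fun j hj => h j (Finset.mem_insert_of_mem hj)]

/-- `Q1` follows from the semicontinuity for fixed positive exponents. -/
theorem Q1_of_semi (X : Germ k K n)
    (h : ∀ (r : ℕ) (lam : Fin r → ℝ), (∀ j, 0 < lam j) → ∃ s : ℕ, ∀ a b : Fin r → Ideal X.R,
      (∀ j, a j ≠ ⊥) → (∀ j, b j ≠ ⊥) → (∀ j, a j ⊔ X.m ^ s = b j ⊔ X.m ^ s) →
      0 ≤ X.mld lam a → X.mld lam a ≤ X.mld lam b) : X.Q1 := by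
  classical
  intro S hS hS0
  have hnn : ∀ (r : ℕ) (lam : Fin r → ℝ), (∀ j, 0 ≤ lam j) → ∃ s : ℕ,
      ∀ a b : Fin r → Ideal X.R, (∀ j, a j ≠ ⊥) → (∀ j, b j ≠ ⊥) →
      (∀ j, a j ⊔ X.m ^ s = b j ⊔ X.m ^ s) → 0 ≤ X.mld lam a → X.mld lam a ≤ X.mld lam b := by
    intro r lam hlam
    obtain ⟨r', ι, h1, h2⟩ := aDisc_drop (k := k) (K := K) (n := n) lam hlam
    obtain ⟨s, hs⟩ := h r' (fun i => lam (ι i)) h1
    have h3 : ∀ c : Fin r → Ideal X.R,
        X.mld lam c = X.mld (fun i => lam (ι i)) (fun i => c (ι i)) := by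
      intro c
      unfold Germ.mld
      exact iInf_congr fun E => h2 X E.1 c
    refine ⟨s, fun a b ha hb hab h0 => ?_⟩
    rw [h3 a] at h0
    rw [h3 a, h3 b]
    exact hs _ _ (fun i => ha _) (fun i => hb _) (fun i => hab _) h0
  let e := hS.toFinset.equivFin
  let t : Fin hS.toFinset.card → ℝ := fun i => ((e.symm i : hS.toFinset) : ℝ)
  have ht : ∀ i, t i ∈ S := fun i => hS.mem_toFinset.1 (e.symm i).2
  obtain ⟨s, hs⟩ := hnn _ t (fun i => hS0 _ (ht i))
  have key : ∀ (r : ℕ) (lam : Fin r → ℝ) (a b : Fin r → Ideal X.R), (∀ j, lam j ∈ S) →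
      (∀ j, a j ≠ ⊥) → (∀ j, b j ≠ ⊥) → (∀ j, a j ⊔ X.m ^ (s + 1) = b j ⊔ X.m ^ (s + 1)) →
      0 ≤ X.mld lam a → X.mld lam a ≤ X.mld lam b := by
    intro r lam a b hlam ha hb hab
    let g : Fin r → Fin hS.toFinset.card := fun j => e ⟨lam j, hS.mem_toFinset.2 (hlam j)⟩
    have hg : ∀ j, t (g j) = lam j := by
      intro j
      show ((e.symm (e ⟨lam j, _⟩) : hS.toFinset) : ℝ) = lam j
      rw [Equiv.symm_apply_apply]
    have h1 : ∀ c : Fin r → Ideal X.R, (∀ j, c j ≠ ⊥) → X.mld lam c =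
        X.mld t (fun i => ∏ j ∈ Finset.univ.filter (fun j => g j = i), c j) := by
      intro c hc
      unfold Germ.mld
      exact iInf_congr fun E => aDisc_group lam t g hg c hc E.2.reg
    have h2 : ∀ j, a j ⊔ X.m ^ s = b j ⊔ X.m ^ s := by
      intro j
      have h3 : X.m ^ (s + 1) ≤ X.m ^ s := Ideal.pow_le_pow_right (Nat.le_succ s)
      have h4 : ∀ I : Ideal X.R, I ⊔ X.m ^ s = I ⊔ X.m ^ (s + 1) ⊔ X.m ^ s := by
        intro I
        rw [sup_assoc, sup_eq_right.2 h3]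
      rw [h4 (a j), h4 (b j), hab j]
    rw [h1 a ha, h1 b hb]
    exact hs _ _ (fun i => prod_ne_bot _ a fun j _ => ha j)
      (fun i => prod_ne_bot _ b fun j _ => hb j) (fun i => G1_prod _ a b _ fun j _ => h2 j)
  refine ⟨s + 1, by omega, fun r lam a b hlam ha hb hab => ?_⟩
  have h1 := key r lam a b hlam ha hb hab
  have h2 := key r lam b a hlam hb ha fun j => (hab j).symm
  exact ⟨⟨fun h => h.trans (h1 h), fun h => h.trans (h2 h)⟩,
    fun h h' => le_antisymm (h1 h) (h2 h')⟩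

end

end M5
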