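import Pool.Agent.M5.QDefs
import Pool.Agent.M5.G1

/-!
PIECE M5-QA: the statement Q1 is invariant under isomorphisms.

PROOF.  For `E : Dv k K n` let `E'` be the divisor of `K'` with `E'.ord f = E.ord (ψ f)` (define it as a function `QA_tr`, and
the same for `ψ.symm`; the fields of the structure `Dv` transport: `aeval g P` with `g` replaced by `ψ.symm ∘ g`,
`ψ (aeval (ψ.symm ∘ g) P) = aeval g P` is `map_aeval`-type).  `E ↦ E'` is a bijection (round trip `= ` id on `ord`, use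
surjectivity only: it suffices that every `E' : Dv k K' n` is `QA_tr` of some `E`).
(1) `X.Centre E ↔ X'.Centre E'`: by `hR`, `hm`.
(2) `X.logDisc E = X'.logDisc E'`: for `D` on `K` let `D' := derT ψ.symm D` on `K'` (QDefs); `jac_derT` gives
`ψ (jac D' y') = jac D (ψ ∘ y')` (apply `jac_map` with `φ = ψ`, since `ψ (D' f) = D (ψ f)`); so by `hω`
`ψ (X'.g * jac D' X'.y ^ N) = c * (X.g * jac D X.y ^ N)`, so one Jacobian is `0` iff the other is, and otherwise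
`E'.ord X'.g + N * E'.ord (jac D' X'.y) = E.ord X.g + N * E.ord (jac D X.y)` (`ord_mul'`, `ord_pow`, `ord_const'`), divide by `N`.
`D` is integral for `E` iff `D'` is for `E'`.  Prove `≤` of the two infima in one lemma for (`K, K', ψ`) and get the other by
symmetry from the data (`ψ.symm`, `c⁻¹`), or do both directions by hand (`le_iInf`, `iInf_le`).
(3) for an ideal `a` of `X.R` let `a' := {f ∈ X'.R | ψ f ∈ a}` (`Ideal.comap` of the ring isomorphism `X'.R ≃+* X.R` given by `hR`):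
`X.ordI E a = X'.ordI E' a'` (the two sets of natural numbers are equal), so `aDisc`, and by (1) `mld` correspond.
(4) `a ≠ ⊥ ↔ a' ≠ ⊥`, `(X.m)' = X'.m` by `hm`, `(a ⊔ X.m ^ s)' = a' ⊔ X'.m ^ s` (`Ideal.comap` of a ring ISO is `Ideal.map` of the
inverse: `Ideal.map_sup`, `Ideal.map_pow`, `Ideal.map_symm`, `Ideal.comap_symm`).  Conclude.
-/

open MvPolynomial

namespace M5

open MLD

universe u

variable {k K K' : Type u} [Field k] [Field K] [Algebra k K] [Field K'] [Algebra k K'] {n : ℕ}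

/-- transport of a divisor -/
noncomputable def QA_tr (ψ : K' ≃ₐ[k] K) (E : Dv k K n) : Dv k K' n where
  ord f := E.ord (ψ f)
  ord_mul' f g hf hg := by
    rw [map_mul]
    exact E.ord_mul' _ _ ((map_ne_zero ψ).2 hf) ((map_ne_zero ψ).2 hg)
  ord_add' f g hf hg hfg := by
    have h : ψ f + ψ g ≠ 0 := by
      rw [← map_add]
      exact (map_ne_zero ψ).2 hfg
    rw [map_add]
    exact E.ord_add' _ _ ((map_ne_zero ψ).2 hf) ((map_ne_zero ψ).2 hg) h
  ord_const' c hc := by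
    rw [ψ.commutes]
    exact E.ord_const' c hc
  ord_surj' := by
    obtain ⟨f, hf, h⟩ := E.ord_surj'
    exact ⟨ψ.symm f, (map_ne_zero ψ.symm).2 hf, by rw [ψ.apply_symm_apply]; exact h⟩
  residue' := by
    obtain ⟨g, hg⟩ := E.residue'
    refine ⟨fun i => ψ.symm (g i), fun P hP => ?_⟩
    have h : ψ (aeval (fun i => ψ.symm (g i)) P) = aeval g P := by
      have h1 := MvPolynomial.comp_aeval_apply (fun i => ψ.symm (g i)) (ψ : K' →ₐ[k] K) P
      have h2 : (fun i => (ψ : K' →ₐ[k] K) (ψ.symm (g i))) = g := by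
        funext i
        exact ψ.apply_symm_apply (g i)
      rw [h2] at h1
      exact h1
    obtain ⟨h3, h4⟩ := hg P hP
    constructor
    · intro h0
      rw [h0, map_zero] at h
      exact h3 h.symm
    · rw [h]
      exact h4

/-- the data of an isomorphism of germs -/
private structure QA_iso (X : Germ k K n) (X' : Germ k K' n) (ψ : K' ≃ₐ[k] K) : Prop where
  hR : ∀ f : K', f ∈ X'.R ↔ ψ f ∈ X.R
  hm : ∀ (f : X'.R) (h : ψ f ∈ X.R), f ∈ X'.m ↔ (⟨ψ f, h⟩ : X.R) ∈ X.m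
  hN : X'.N = X.N
  hN0 : 0 < X.N
  hg : X.g ≠ 0
  hg' : X'.g ≠ 0
  hω : ∃ c : k, c ≠ 0 ∧ ∀ D : Fin n → Derivation k K K,
    ψ X'.g * jac D (fun j => ψ (X'.y j)) ^ X.N = algebraMap k K c * (X.g * jac D X.y ^ X.N)

private theorem QA_symm {X : Germ k K n} {X' : Germ k K' n} {ψ : K' ≃ₐ[k] K}
    (h : QA_iso X X' ψ) : QA_iso X' X ψ.symm where
  hR f := by
    rw [h.hR (ψ.symm f), ψ.apply_symm_apply]
  hm f hf := by
    have h1 : ψ (ψ.symm (f : K)) ∈ X.R := by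
      rw [ψ.apply_symm_apply]
      exact f.2
    rw [h.hm ⟨ψ.symm f, hf⟩ h1]
    have h2 : (⟨ψ (ψ.symm (f : K)), h1⟩ : X.R) = f := Subtype.ext (ψ.apply_symm_apply _)
    rw [h2]
  hN := h.hN.symm
  hN0 := by
    rw [h.hN]
    exact h.hN0
  hg := h.hg'
  hg' := h.hg
  hω := by
    obtain ⟨c, hc, hω⟩ := h.hω
    refine ⟨c⁻¹, inv_ne_zero hc, fun D' => ?_⟩
    have h1 := hω (fun i => derT ψ (D' i))
    have h2 : jac (fun i => derT ψ (D' i)) X.y = ψ (jac D' fun j => ψ.symm (X.y j)) := by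
      rw [← jac_derT]
      congr 1
      funext j
      exact (ψ.apply_symm_apply _).symm
    rw [jac_derT, h2] at h1
    have h3 := congrArg ψ.symm h1
    simp only [map_mul, map_pow, ψ.symm_apply_apply, AlgEquiv.commutes] at h3
    rw [h.hN, h3, ← mul_assoc, ← map_mul, inv_mul_cancel₀ hc, map_one, one_mul]

private theorem QA_centre {X : Germ k K n} {X' : Germ k K' n} {ψ : K' ≃ₐ[k] K}
    (h : QA_iso X X' ψ) {E : Dv k K n} (hE : X.Centre E) : X'.Centre (QA_tr ψ E) := by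
  have h0 : ∀ f : X'.R, f ≠ 0 → (⟨ψ f, (h.hR f).1 f.2⟩ : X.R) ≠ 0 := by
    intro f hf h1
    have h2 : ψ (f : K') = 0 := congrArg Subtype.val h1
    exact hf (Subtype.ext ((map_eq_zero ψ).1 h2))
  refine ⟨fun f hf => ?_, fun f hf hf0 => ?_⟩
  · exact hE.1 ⟨ψ f, (h.hR f).1 f.2⟩ (h0 f hf)
  · exact hE.2 ⟨ψ f, (h.hR f).1 f.2⟩ ((h.hm f ((h.hR f).1 f.2)).1 hf) (h0 f hf0)

private theorem QA_logDisc {X : Germ k K n} {X' : Germ k K' n} {ψ : K' ≃ₐ[k] K}
    (h : QA_iso X X' ψ) (E : Dv k K n) : X'.logDisc (QA_tr ψ E) ≤ X.logDisc E := by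
  obtain ⟨c, hc, hω⟩ := h.hω
  refine le_iInf fun D => ?_
  obtain ⟨D, hD1, hD2⟩ := D
  have hval : ∀ i (f : K'), ψ (derT ψ.symm (D i) f) = D i (ψ f) := by
    intro i f
    rw [derT_apply, ψ.apply_symm_apply]
    rfl
  have hj : jac D (fun j => ψ (X'.y j)) = ψ (jac (fun i => derT ψ.symm (D i)) X'.y) :=
    jac_map (ψ : K' →+* K) _ D _ _ fun i j => (hval i (X'.y j)).symm
  have h1 := hω D
  have hr : algebraMap k K c * (X.g * jac D X.y ^ X.N) ≠ 0 :=
    mul_ne_zero ((map_ne_zero _).2 hc) (mul_ne_zero h.hg (pow_ne_zero _ hD2))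
  have hl : jac D (fun j => ψ (X'.y j)) ≠ 0 := by
    intro h0
    rw [← h1, h0, zero_pow h.hN0.ne', mul_zero] at hr
    exact hr rfl
  have hj' : jac (fun i => derT ψ.symm (D i)) X'.y ≠ 0 := by
    intro h0
    rw [hj, h0, map_zero] at hl
    exact hl rfl
  have hint : ∀ i, (QA_tr ψ E).IntegralDer (derT ψ.symm (D i)) := by
    intro i f hf h0
    rcases hD1 i (ψ f) ((map_ne_zero ψ).2 hf) h0 with h2 | h2
    · left
      have h3 := hval i f
      rw [h2] at h3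
      exact (map_eq_zero ψ).1 h3
    · right
      change 0 ≤ E.ord (ψ (derT ψ.symm (D i) f))
      rw [hval]
      exact h2
  refine (iInf_le _ ⟨fun i => derT ψ.symm (D i), hint, hj'⟩).trans (le_of_eq ?_)
  have h2 : E.ord (ψ X'.g) + X.N * E.ord (jac D (fun j => ψ (X'.y j))) =
      E.ord X.g + X.N * E.ord (jac D X.y) := by
    have h3 := congrArg E.ord h1
    rw [E.ord_mul' _ _ ((map_ne_zero ψ).2 h.hg') (pow_ne_zero _ hl),
      E.ord_mul' _ _ ((map_ne_zero _).2 hc) (mul_ne_zero h.hg (pow_ne_zero _ hD2)),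
      E.ord_const' c hc, E.ord_mul' _ _ h.hg (pow_ne_zero _ hD2), E.ord_pow hl, E.ord_pow hD2,
      zero_add] at h3
    exact h3
  have hN : (X.N : ℝ) ≠ 0 := Nat.cast_ne_zero.2 h.hN0.ne'
  have h4 : (1 + ((QA_tr ψ E).ord (jac (fun i => derT ψ.symm (D i)) X'.y) : ℝ) +
      ((QA_tr ψ E).ord X'.g : ℝ) / (X'.N : ℝ)) =
      1 + (E.ord (jac D X.y) : ℝ) + (E.ord X.g : ℝ) / (X.N : ℝ) := by
    change 1 + ((E.ord (ψ (jac (fun i => derT ψ.symm (D i)) X'.y)) : ℤ) : ℝ) +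
      ((E.ord (ψ X'.g) : ℤ) : ℝ) / (X'.N : ℝ) = _
    rw [← hj, h.hN]
    have h5 : ((E.ord (ψ X'.g) : ℤ) : ℝ) + X.N * ((E.ord (jac D (fun j => ψ (X'.y j))) : ℤ) : ℝ) =
        ((E.ord X.g : ℤ) : ℝ) + X.N * ((E.ord (jac D X.y) : ℤ) : ℝ) := by exact_mod_cast h2
    field_simp
    linarith
  exact congrArg (fun t : ℝ => (t : EReal)) h4

/-- the isomorphism of the coordinate rings -/
private noncomputable def QA_e {X : Germ k K n} {X' : Germ k K' n} {ψ : K' ≃ₐ[k] K}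
    (h : QA_iso X X' ψ) : X'.R ≃+* X.R where
  toFun f := ⟨ψ f, (h.hR f).1 f.2⟩
  invFun f := ⟨ψ.symm f, (h.hR _).2 (by rw [ψ.apply_symm_apply]; exact f.2)⟩
  left_inv f := Subtype.ext (ψ.symm_apply_apply _)
  right_inv f := Subtype.ext (ψ.apply_symm_apply _)
  map_mul' f g := Subtype.ext (map_mul ψ _ _)
  map_add' f g := Subtype.ext (map_add ψ _ _)

private theorem QA_ordI {X : Germ k K n} {X' : Germ k K' n} {ψ : K' ≃ₐ[k] K}
    (h : QA_iso X X' ψ) (E : Dv k K n) {I : Ideal X.R} {I' : Ideal X'.R}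
    (hI : ∀ f : X'.R, f ∈ I' ↔ QA_e h f ∈ I) : X'.ordI (QA_tr ψ E) I' = X.ordI E I := by
  unfold Germ.ordI
  congr 1
  ext m
  constructor
  · rintro ⟨f, hf, hf0, hf1⟩
    exact ⟨QA_e h f, (hI f).1 hf, (map_ne_zero_iff _ (QA_e h).injective).2 hf0, hf1⟩
  · rintro ⟨f, hf, hf0, hf1⟩
    refine ⟨(QA_e h).symm f, (hI _).2 (by rw [(QA_e h).apply_symm_apply]; exact hf),
      (map_ne_zero_iff _ (QA_e h).symm.injective).2 hf0, ?_⟩
    change E.ord (ψ (ψ.symm (f : K))) = m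
    rw [ψ.apply_symm_apply]
    exact hf1

private theorem QA_mld {X : Germ k K n} {X' : Germ k K' n} {ψ : K' ≃ₐ[k] K}
    (h : QA_iso X X' ψ) {r : ℕ} (lam : Fin r → ℝ) {a : Fin r → Ideal X.R}
    {a' : Fin r → Ideal X'.R} (ha : ∀ j (f : X'.R), f ∈ a' j ↔ QA_e h f ∈ a j) :
    X'.mld lam a' ≤ X.mld lam a := by
  refine le_iInf fun E => ?_
  refine (iInf_le _ (⟨QA_tr ψ E.1, QA_centre h E.2⟩ : {E : Dv k K' n // X'.Centre E})).trans ?_
  unfold Germ.aDisc
  have h1 : (∑ j, lam j * (X'.ordI (QA_tr ψ E.1) (a' j) : ℝ)) =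
      ∑ j, lam j * (X.ordI E.1 (a j) : ℝ) :=
    Finset.sum_congr rfl fun j _ => by rw [QA_ordI h E.1 (ha j)]
  rw [h1]
  exact EReal.sub_le_sub (QA_logDisc h E.1) le_rfl

theorem iso_Q1 (X : Germ k K n) (X' : Germ k K' n) (ψ : K' ≃ₐ[k] K)
    (hR : ∀ f : K', f ∈ X'.R ↔ ψ f ∈ X.R)
    (hm : ∀ (f : X'.R) (h : ψ f ∈ X.R), f ∈ X'.m ↔ (⟨ψ f, h⟩ : X.R) ∈ X.m)
    (hN : X'.N = X.N) (hN0 : 0 < X.N) (hg : X.g ≠ 0) (hg' : X'.g ≠ 0) {c : k} (hc : c ≠ 0)
    (hω : ∀ D : Fin n → Derivation k K K,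
      ψ X'.g * jac D (fun j => ψ (X'.y j)) ^ X.N = algebraMap k K c * (X.g * jac D X.y ^ X.N))
    (h : X'.Q1) : X.Q1 := by
  have hi : QA_iso X X' ψ := ⟨hR, hm, hN, hN0, hg, hg', c, hc, hω⟩
  have hi' := QA_symm hi
  set e := QA_e hi with he
  have hmld : ∀ (r : ℕ) (lam : Fin r → ℝ) (a : Fin r → Ideal X.R),
      X.mld lam a = X'.mld lam (fun j => (a j).comap (e : X'.R →+* X.R)) := by
    intro r lam a
    apply le_antisymm
    · refine QA_mld hi' lam fun j f => ?_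
      change f ∈ a j ↔ e (QA_e hi' f) ∈ a j
      have h1 : e (QA_e hi' f) = f := Subtype.ext (ψ.apply_symm_apply _)
      rw [h1]
    · exact QA_mld hi lam fun j f => Iff.rfl
  have hbot : ∀ a : Ideal X.R, a ≠ ⊥ → a.comap (e : X'.R →+* X.R) ≠ ⊥ := by
    intro a ha h0
    obtain ⟨f, hf, hf0⟩ := Submodule.exists_mem_ne_zero_of_ne_bot ha
    have h1 : e.symm f ∈ a.comap (e : X'.R →+* X.R) := by
      change e (e.symm f) ∈ a
      rw [e.apply_symm_apply]
      exact hf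
    rw [h0, Ideal.mem_bot] at h1
    exact hf0 ((map_eq_zero_iff _ e.symm.injective).1 h1)
  have hcm : X.m.comap (e : X'.R →+* X.R) = X'.m := by
    ext f
    exact (hm f ((hR f).1 f.2)).symm
  have hcomap : ∀ (a : Ideal X.R) (s : ℕ), (a ⊔ X.m ^ s).comap (e : X'.R →+* X.R) =
      a.comap (e : X'.R →+* X.R) ⊔ X'.m ^ s := by
    intro a s
    have h1 : ∀ I : Ideal X.R, I.comap (e : X'.R →+* X.R) = I.map (e.symm : X.R →+* X'.R) := by
      intro I
      exact (Ideal.map_comap_of_equiv e.symm).symm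
    rw [← hcm, h1, h1, h1, Ideal.map_sup, Ideal.map_pow]
  intro I hI hI0
  obtain ⟨s, hs, hs'⟩ := h I hI hI0
  refine ⟨s, hs, fun r lam a b hlam ha hb hab => ?_⟩
  rw [hmld r lam a, hmld r lam b]
  exact hs' r lam _ _ hlam (fun j => hbot _ (ha j)) (fun j => hbot _ (hb j)) fun j => by
    rw [← hcomap, ← hcomap, hab j]

end M5
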