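import Pool.Agent.M5.QDefs

/-!
PIECE M5-QB1: characters.

`chi_li`: PROOF. Let `∑ m ∈ S, c m • chi k m = 0` (`linearIndependent_iff'`).  Choose `κ : Fin 3 → ℕ` with `0 ≤ m j + κ j` for all
`m ∈ S`, `j`; multiply by `chi κ` (`chi_add`): `∑ c m • chi (m + κ) = 0`, and `chi (m + κ) = toFF (monomial e_m 1)`
(`toFF_monomial` with `a = 1`, `e_m j = (m j + κ j).toNat`); `toFF` is injective (`IsFractionRing.injective`), and `m ↦ e_m` is injective on
`S`, so all `c m` vanish (take the coefficient at `e_m`).

`exists_mono`: PROOF. `z j := chi (B j)` (row `j` of `B`).  For `e : Fin 3 →₀ ℕ` : `aeval z (monomial e a) = a • chi (vecMul e B)`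
(as in the proof of `toFF_monomial`; `chi_add`, `chi_nsmul`).  `aeval z : MvPolynomial (Fin 3) k →ₐ FF` is INJECTIVE: the characters
`vecMul e B` are distinct for distinct `e` (`det B ≠ 0`: `Matrix.eq_zero_of_vecMul_eq_zero`), and `chi_li`.  Extend to the field of fractions
(`IsFractionRing.liftAlgHom` or `IsLocalization.liftAlgHom`/`IsFractionRing.lift`): `Φ`; `Φ (xx j) = chi (B j)`, and
`Φ (chi m) = ∏ (chi (B j)) ^ (m j) = chi (vecMul m B)` (`map_prod`, `map_zpow₀`; prove `chi k (vecMul m B) = ∏ j, chi k (B j) ^ m j`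
from `chi_add`, `chi_neg`, `chi_nsmul` or directly from the definition by exchanging products, `Finset.prod_comm`, `zpow_mul`, `zpow_sum`).
-/

open MvPolynomial

namespace M5

open MLD

universe u

variable {k : Type u} [Field k]

/-- the characters are linearly independent -/
theorem chi_li : LinearIndependent k (chi k) := by
  classical
  rw [linearIndependent_iff']
  intro s g hg i hi
  let κ : Fin 3 → ℤ := fun j => ∑ m ∈ s, |m j|
  have hκ : ∀ m ∈ s, ∀ j, 0 ≤ m j + κ j := by
    intro m hm j
    have h1 : |m j| ≤ κ j :=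
      Finset.single_le_sum (f := fun m : Fin 3 → ℤ => |m j|) (fun m _ => abs_nonneg _) hm
    have h2 := neg_abs_le (m j)
    omega
  let e : (Fin 3 → ℤ) → (Fin 3 →₀ ℕ) := fun m =>
    Finsupp.equivFunOnFinite.symm fun j => (m j + κ j).toNat
  have he : ∀ m j, e m j = (m j + κ j).toNat := fun m j => rfl
  let p : MvPolynomial (Fin 3) k := ∑ m ∈ s, monomial (e m) (g m)
  have hp : toFF k (Fin 3) p = 0 := by
    have h1 : toFF k (Fin 3) p = (∑ m ∈ s, g m • chi k m) * chi k κ := by
      rw [map_sum, Finset.sum_mul]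
      refine Finset.sum_congr rfl fun m hm => ?_
      rw [toFF_monomial]
      have h2 : (fun j => ((e m j : ℕ) : ℤ)) = m + κ := by
        funext j
        rw [he, Int.toNat_of_nonneg (hκ m hm j)]
        rfl
      rw [h2, chi_add, Algebra.smul_def, mul_assoc]
    rw [h1, hg, zero_mul]
  have hp0 : p = 0 := by
    apply IsFractionRing.injective (MvPolynomial (Fin 3) k) (FF k (Fin 3))
    rw [map_zero]
    exact hp
  have h3 : coeff (e i) p = g i := by
    rw [coeff_sum, Finset.sum_eq_single i]
    · rw [coeff_monomial, if_pos rfl]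
    · intro m hm hne
      rw [coeff_monomial, if_neg]
      intro h4
      apply hne
      funext j
      have h5 : e m j = e i j := by rw [h4]
      rw [he, he] at h5
      have h6 := hκ m hm j
      have h7 := hκ i hi j
      omega
    · intro h
      exact absurd hi h
  rw [← h3, hp0, coeff_zero]

/-- the product of the characters of the rows of `B` -/
theorem chi_vecMul (m : Fin 3 → ℤ) (B : Matrix (Fin 3) (Fin 3) ℤ) :
    chi k (Matrix.vecMul m B) = ∏ j, chi k (B j) ^ m j := by
  unfold chi
  have h1 : ∀ j, (∏ i, (xx k i : FF k (Fin 3)) ^ B j i) ^ m j = ∏ i, xx k i ^ (m j * B j i) := by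
    intro j
    rw [← Finset.prod_zpow]
    refine Finset.prod_congr rfl fun i _ => ?_
    rw [← zpow_mul, mul_comm]
  simp only [h1]
  rw [Finset.prod_comm]
  refine Finset.prod_congr rfl fun i _ => ?_
  have h2 : Matrix.vecMul m B i = ∑ j, m j * B j i := rfl
  rw [h2, Fin.sum_univ_three, Fin.prod_univ_three, zpow_add₀ (xx_ne i), zpow_add₀ (xx_ne i)]

/-- the monomial endomorphism of the function field with matrix `B` -/
theorem exists_mono (B : Matrix (Fin 3) (Fin 3) ℤ) (hB : B.det ≠ 0) :
    ∃ Φ : FF k (Fin 3) →ₐ[k] FF k (Fin 3), (∀ m, Φ (chi k m) = chi k (Matrix.vecMul m B)) ∧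
      ∀ j, Φ (xx k j) = chi k (B j) := by
  classical
  let f : MvPolynomial (Fin 3) k →ₐ[k] FF k (Fin 3) := aeval fun j => chi k (B j)
  have hmon : ∀ (e : Fin 3 →₀ ℕ) (a : k), f (monomial e a) =
      a • chi k (Matrix.vecMul (fun j => (e j : ℤ)) B) := by
    intro e a
    rw [chi_vecMul, Algebra.smul_def]
    change aeval _ (monomial e a) = _
    rw [aeval_monomial, Finsupp.prod_fintype _ _ fun j => pow_zero _]
    simp only [zpow_natCast]
  have hli : LinearIndependent k fun e : Fin 3 →₀ ℕ =>
      chi k (Matrix.vecMul (fun j => (e j : ℤ)) B) := by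
    refine (chi_li (k := k)).comp (fun e : Fin 3 →₀ ℕ => Matrix.vecMul (fun j => (e j : ℤ)) B) ?_
    intro a b hab
    have h1 : Matrix.vecMul ((fun j => (a j : ℤ)) - fun j => (b j : ℤ)) B = 0 := by
      rw [Matrix.sub_vecMul]
      exact sub_eq_zero.2 hab
    have h2 := Matrix.eq_zero_of_vecMul_eq_zero hB h1
    ext j
    have h3 := congrFun h2 j
    have h4 : (a j : ℤ) - b j = 0 := h3
    omega
  have hf : Function.Injective f := by
    rw [injective_iff_map_eq_zero]
    intro p hp
    rw [p.as_sum, map_sum] at hp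
    simp only [hmon] at hp
    have h1 := linearIndependent_iff'.1 hli p.support (fun e => coeff e p) hp
    by_contra hne
    obtain ⟨e, he⟩ := MvPolynomial.support_nonempty.2 hne
    exact (mem_support_iff.1 he) (h1 e he)
  let Φ : FF k (Fin 3) →ₐ[k] FF k (Fin 3) := IsFractionRing.liftAlgHom hf
  have hx : ∀ j, Φ (xx k j) = chi k (B j) := by
    intro j
    have h1 : Φ (algebraMap (MvPolynomial (Fin 3) k) (FF k (Fin 3)) (X j)) = f (X j) :=
      IsFractionRing.lift_algebraMap (g := f.toRingHom) hf _
    have h2 : f (X j) = chi k (B j) := aeval_X _ _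
    rw [h2] at h1
    exact h1
  refine ⟨Φ, fun m => ?_, hx⟩
  rw [chi_vecMul]
  unfold chi
  rw [map_prod]
  refine Finset.prod_congr rfl fun j _ => ?_
  rw [map_zpow₀, hx]
  rfl

end M5
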