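import Pool.Agent.M5.QDefs

/-!
PIECE M5-QB2: Jacobian determinants of characters.

`jac_chi`: PROOF. `D_i (chi m) = chi m * ∑ l, m l * D_i (x_l) / x_l` (`Derivation.leibniz_prod`? `Derivation.leibniz_zpow` or prove
`D (z ^ n) = n * z ^ (n-1) * D z` for integers `n` from `Derivation.leibniz_pow` and `Derivation.leibniz_inv`; or induct: the logarithmic derivative
`D f / f` is additive).  So the matrix `(D_i (chi (B j)))` is `(D_i x_l)_(i,l) * diag (1 / x_l) * Bᵀ * diag (chi (B j))`; determinants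
(`Matrix.det_mul`, `Matrix.det_transpose`, `Matrix.det_diagonal`, `Matrix.det_fin_three` not needed).  `(B.det : FF)` is the determinant of
`B.map (Int.cast)` (`Int.cast_det` / `RingHom.map_det`).

`form_mono`: PROOF. raise `jac_chi` to the power `N`; `chi ((θ - N) ᵥ* B) * (∏ j, chi (B j)) ^ N = chi (θ ᵥ* B)` because
`∏ j, chi (B j) = chi (1 ᵥ* B)` and `chi_add`, `chi_nsmul` (vecMul is linear in the first argument), and
`chi (v - N) * (∏ l, xx l) ^ N = chi v`, `∏ l, xx l = chi 1`.  (Multiply the claim by `(∏ l, xx l) ^ N ≠ 0`.)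
-/

open MvPolynomial

namespace M5

open MLD

universe u

variable {k : Type u} [Field k]

private lemma QB2_zpow {K : Type u} [Field K] [Algebra k K] (D : Derivation k K K) {z : K}
    (hz : z ≠ 0) (n : ℤ) : D (z ^ n) = z ^ n * ((n : K) * (D z / z)) := by
  rw [Derivation.leibniz_zpow, zpow_sub_one₀ hz, zsmul_eq_mul, smul_eq_mul]
  field_simp

private lemma QB2_prod {K : Type u} [Field K] [Algebra k K] (D : Derivation k K K) {ι : Type}
    (t : Finset ι) (f : ι → K) (hf : ∀ i, f i ≠ 0) :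
    D (∏ i ∈ t, f i) = (∏ i ∈ t, f i) * ∑ i ∈ t, D (f i) / f i := by
  classical
  induction t using Finset.induction_on with
  | empty => simp
  | insert a t ha ih =>
    rw [Finset.prod_insert ha, Finset.sum_insert ha, Derivation.leibniz, ih, smul_eq_mul,
      smul_eq_mul]
    have := hf a
    field_simp
    ring

private lemma QB2_chi (D : Derivation k (FF k (Fin 3)) (FF k (Fin 3))) (m : Fin 3 → ℤ) :
    D (chi k m) = chi k m * ∑ l, (m l : FF k (Fin 3)) * (D (xx k l) / xx k l) := by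
  unfold chi
  rw [QB2_prod D _ _ fun l => zpow_ne_zero _ (xx_ne l)]
  congr 1
  refine Finset.sum_congr rfl fun l _ => ?_
  rw [QB2_zpow D (xx_ne l)]
  have h := zpow_ne_zero (m l) (xx_ne (k := k) l)
  rw [mul_div_assoc, mul_comm, div_mul_cancel₀ _ h]

private lemma QB2_prod_chi (B : Fin 3 → Fin 3 → ℤ) :
    ∏ j, chi k (B j) = chi k (B 0 + B 1 + B 2) := by
  rw [Fin.prod_univ_three, chi_add, chi_add]

theorem jac_chi (D : Fin 3 → Derivation k (FF k (Fin 3)) (FF k (Fin 3)))
    (B : Matrix (Fin 3) (Fin 3) ℤ) :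
    jac D (fun j => chi k (B j)) * ∏ l, (xx k l : FF k (Fin 3)) =
      (∏ j, chi k (B j)) * (B.det : FF k (Fin 3)) * jac D (fun j => xx k j) := by
  have h1 : (Matrix.of fun i j : Fin 3 => D i (chi k (B j))) =
      (Matrix.of fun i j : Fin 3 => D i (xx k j)) *
        Matrix.diagonal (fun l : Fin 3 => (xx k l : FF k (Fin 3))⁻¹) *
        ((Int.castRingHom (FF k (Fin 3))).mapMatrix B).transpose *
        Matrix.diagonal (fun j : Fin 3 => chi k (B j)) := by
    ext i j
    rw [Matrix.mul_diagonal, Matrix.mul_apply, Matrix.of_apply, QB2_chi, mul_comm]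
    congr 1
    refine Finset.sum_congr rfl fun l _ => ?_
    rw [Matrix.mul_diagonal, Matrix.of_apply, Matrix.transpose_apply, RingHom.mapMatrix_apply,
      Matrix.map_apply, Int.coe_castRingHom, div_eq_mul_inv, mul_comm]
  have h2 : (∏ l : Fin 3, (xx k l : FF k (Fin 3))⁻¹) * ∏ l : Fin 3, (xx k l : FF k (Fin 3)) = 1 := by
    rw [← Finset.prod_mul_distrib]
    exact Finset.prod_eq_one fun l _ => inv_mul_cancel₀ (xx_ne l)
  have h3 : ((Int.castRingHom (FF k (Fin 3))).mapMatrix B).det = (B.det : FF k (Fin 3)) := by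
    rw [← RingHom.map_det]; rfl
  unfold jac
  rw [h1, Matrix.det_mul, Matrix.det_mul, Matrix.det_mul, Matrix.det_diagonal,
    Matrix.det_diagonal, Matrix.det_transpose, h3]
  linear_combination ((Matrix.of fun i j : Fin 3 => D i (xx k j)).det * (B.det : FF k (Fin 3)) *
    ∏ j, chi k (B j)) * h2

theorem form_mono (D : Fin 3 → Derivation k (FF k (Fin 3)) (FF k (Fin 3)))
    (B : Matrix (Fin 3) (Fin 3) ℤ) (θ : Fin 3 → ℤ) (N : ℕ) :
    chi k (Matrix.vecMul (fun j => θ j - N) B) * jac D (fun j => chi k (B j)) ^ N =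
      (B.det : FF k (Fin 3)) ^ N *
        (chi k (fun j => Matrix.vecMul θ B j - N) * jac D (fun j => xx k j) ^ N) := by
  have hP : (∏ l, (xx k l : FF k (Fin 3))) ≠ 0 := Finset.prod_ne_zero_iff.2 fun l _ => xx_ne l
  have hP1 : (∏ l, (xx k l : FF k (Fin 3))) = chi k (fun _ => 1) := by
    unfold chi
    exact Finset.prod_congr rfl fun l _ => by rw [zpow_one]
  have h1 := congrArg (· ^ N) (jac_chi D B)
  simp only [mul_pow] at h1
  have hC : chi k (Matrix.vecMul (fun j => θ j - N) B) * (∏ j, chi k (B j)) ^ N =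
      chi k (Matrix.vecMul θ B) := by
    rw [QB2_prod_chi (fun j => B j), ← chi_nsmul, ← chi_add]
    congr 1
    ext j
    rw [Pi.add_apply, Pi.smul_apply, Pi.add_apply, Pi.add_apply, nsmul_eq_mul]
    simp only [Matrix.vecMul, dotProduct, Fin.sum_univ_three]
    ring
  have hQ : chi k (fun j => Matrix.vecMul θ B j - N) * (∏ l, (xx k l : FF k (Fin 3))) ^ N =
      chi k (Matrix.vecMul θ B) := by
    rw [hP1, ← chi_nsmul, ← chi_add]
    congr 1
    ext j
    rw [Pi.add_apply, Pi.smul_apply, nsmul_eq_mul]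
    ring
  refine mul_right_cancel₀ (pow_ne_zero N hP) ?_
  calc chi k (Matrix.vecMul (fun j => θ j - N) B) * jac D (fun j => chi k (B j)) ^ N *
        (∏ l, (xx k l : FF k (Fin 3))) ^ N
      = chi k (Matrix.vecMul (fun j => θ j - N) B) * (jac D (fun j => chi k (B j)) ^ N *
        (∏ l, (xx k l : FF k (Fin 3))) ^ N) := by ring
    _ = chi k (Matrix.vecMul (fun j => θ j - N) B) * ((∏ j, chi k (B j)) ^ N *
        (B.det : FF k (Fin 3)) ^ N * jac D (fun j => xx k j) ^ N) := by rw [h1]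
    _ = (chi k (Matrix.vecMul (fun j => θ j - N) B) * (∏ j, chi k (B j)) ^ N) *
        ((B.det : FF k (Fin 3)) ^ N * jac D (fun j => xx k j) ^ N) := by ring
    _ = (chi k (fun j => Matrix.vecMul θ B j - N) * (∏ l, (xx k l : FF k (Fin 3))) ^ N) *
        ((B.det : FF k (Fin 3)) ^ N * jac D (fun j => xx k j) ^ N) := by rw [hC, hQ]
    _ = _ := by ring

end M5
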