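import Pool.Agent.M5.Defs

/-!
PIECE M5-QC1: a basis of `ℤ³` in the dual cone (only integers).

PROOF.  `q > 0` and `u ≠ 0` (if `q = 0` then `hf` says that `1 = 0` in `Fin 3 → ℤ`).  (1) Every `u ≠ 0` in `ℤ³` is `d • u'` with `u'` the first row of a
matrix `A` in `GL_3(ℤ)`: with `gcd(u 0, u 1) = e` and Bezout there is a `2 × 2` matrix of determinant `1` with
`(e, 0) * A₁ = (u 0, u 1)` (if `u 0 = u 1 = 0` take the identity), and then a `2 × 2` matrix for the pair `(e, u 2)`: the matrix is the product of two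
explicit matrices of determinant `1`.  (Alternatively: `u' = u / gcd`, `u'` is primitive; write down the matrix with rows `u'`,
`(-s, r, 0)`-type rows.)  `d > 0`.  So `pr u' (ρ i) > 0`.  (2) Replace the rows `A 1`, `A 2` by `A 1 + c • u'`, `A 2 + c • u'` with a large natural number
`c` (`c ≥ |pr (A 1) (ρ i)|`, `|pr (A 2) (ρ i)|` for all `i`; `pr u' (ρ i) ≥ 1`): the determinant does not change
(`Matrix.det_fin_three`, `ring`), and all `pr (A j) (ρ i) ≥ 0`.
`A.det = 1` or `-1`: the statement asks for `A * A' = 1` and `A' * A = 1` for an integral matrix `A'`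
(`A' = A.det • A.adjugate`, `Matrix.mul_adjugate`).
-/

namespace M5

private theorem qc1_two (a b : ℤ) : ∃ e p q r s : ℤ, 0 ≤ e ∧ a = e * p ∧ b = e * q ∧
    p * s - q * r = 1 := by
  by_cases h : (Int.gcd a b : ℤ) = 0
  · have h1 : Int.gcd a b = 0 := by exact_mod_cast h
    rw [Int.gcd_eq_zero_iff] at h1
    exact ⟨0, 1, 0, 0, 1, le_rfl, by rw [h1.1, zero_mul], by rw [h1.2, zero_mul], by norm_num⟩
  · obtain ⟨p, hp⟩ := Int.gcd_dvd_left a b
    obtain ⟨q, hq⟩ := Int.gcd_dvd_right a b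
    have h2 := Int.gcd_eq_gcd_ab a b
    refine ⟨Int.gcd a b, p, q, -Int.gcdB a b, Int.gcdA a b, by positivity, hp, hq, ?_⟩
    apply mul_left_cancel₀ h
    have h3 : (Int.gcd a b : ℤ) * (p * Int.gcdA a b - q * -Int.gcdB a b) =
        ((Int.gcd a b : ℤ) * p) * Int.gcdA a b + ((Int.gcd a b : ℤ) * q) * Int.gcdB a b := by ring
    rw [h3, ← hp, ← hq, mul_one]
    exact h2.symm

private theorem qc1_three (u : Fin 3 → ℤ) (hu : u ≠ 0) : ∃ (d : ℤ) (A : Matrix (Fin 3) (Fin 3) ℤ),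
    0 < d ∧ (∀ j, u j = d * A 0 j) ∧ A.det = 1 := by
  obtain ⟨e, p, q, r, s, he, h1, h2, h3⟩ := qc1_two (u 0) (u 1)
  obtain ⟨d, p', c', r', s', hd, h4, h5, h6⟩ := qc1_two e (u 2)
  refine ⟨d, !![p' * p, p' * q, c'; r, s, 0; r' * p, r' * q, s'], ?_, ?_, ?_⟩
  · rcases hd.lt_or_eq with h | h
    · exact h
    · exfalso
      apply hu
      subst h
      rw [zero_mul] at h4 h5
      subst h4
      rw [zero_mul] at h1 h2
      funext j
      fin_cases j
      · exact h1
      · exact h2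
      · exact h5
  · intro j
    fin_cases j
    · change u 0 = d * (p' * p)
      rw [h1, h4]; ring
    · change u 1 = d * (p' * q)
      rw [h2, h4]; ring
    · change u 2 = d * c'
      exact h5
  · rw [Matrix.det_fin_three]
    simp only [Matrix.of_apply, Matrix.cons_val', Matrix.cons_val_zero, Matrix.cons_val_one,
      Matrix.cons_val]
    linear_combination (p' * s' - c' * r') * h3 + h6

/-- a basis of `ℤ³` in the dual cone -/
theorem exists_unimod {q : ℕ} (ρ : Fin q → Fin 3 → ℤ) (u : Fin 3 → ℤ) (hu : ∀ i, 0 < pr u (ρ i))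
    (hf : ∀ m : Fin 3 → ℤ, (∀ i, pr m (ρ i) = 0) → m = 0) :
    ∃ A A' : Matrix (Fin 3) (Fin 3) ℤ, A * A' = 1 ∧ A' * A = 1 ∧ ∀ j i, 0 ≤ pr (A j) (ρ i) := by
  rcases Nat.eq_zero_or_pos q with hq | hq
  · subst hq
    exact ⟨1, 1, one_mul 1, one_mul 1, fun _ i => i.elim0⟩
  have hu0 : u ≠ 0 := by
    rintro rfl
    have h1 := hu ⟨0, hq⟩
    simp [pr] at h1
  obtain ⟨d, A, hd, hA, hdet⟩ := qc1_three u hu0
  have hpos : ∀ i, 1 ≤ pr (A 0) (ρ i) := by
    intro i
    have h1 : pr u (ρ i) = d * pr (A 0) (ρ i) := by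
      unfold pr
      rw [Finset.mul_sum]
      exact Finset.sum_congr rfl fun j _ => by rw [hA j]; ring
    have h2 := hu i
    rw [h1] at h2
    have h3 : 0 < pr (A 0) (ρ i) := by
      by_contra hn
      exact absurd h2 (not_lt.mpr (mul_nonpos_of_nonneg_of_nonpos hd.le (not_lt.mp hn)))
    omega
  obtain ⟨c, hc⟩ : ∃ c : ℤ, c = ∑ i, (|pr (A 1) (ρ i)| + |pr (A 2) (ρ i)|) := ⟨_, rfl⟩
  have hci : ∀ i, |pr (A 1) (ρ i)| + |pr (A 2) (ρ i)| ≤ c := by
    intro i
    rw [hc]
    exact Finset.single_le_sum (f := fun i => |pr (A 1) (ρ i)| + |pr (A 2) (ρ i)|)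
      (fun i _ => by positivity) (Finset.mem_univ i)
  have hadd : ∀ (m : Fin 3 → ℤ) i, |pr m (ρ i)| ≤ c → 0 ≤ pr (fun j => m j + c * A 0 j) (ρ i) := by
    intro m i hm
    have h1 : pr (fun j => m j + c * A 0 j) (ρ i) = pr m (ρ i) + c * pr (A 0) (ρ i) := by
      unfold pr
      rw [Finset.mul_sum, ← Finset.sum_add_distrib]
      exact Finset.sum_congr rfl fun j _ => by ring
    rw [h1]
    have h2 := hpos i
    have h3 := neg_abs_le (pr m (ρ i))
    have h4 : 0 ≤ c := (abs_nonneg _).trans hm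
    nlinarith
  obtain ⟨B, hB⟩ : ∃ B : Matrix (Fin 3) (Fin 3) ℤ, B = Matrix.of ![A 0,
      (fun j => A 1 j + c * A 0 j), (fun j => A 2 j + c * A 0 j)] := ⟨_, rfl⟩
  have hBdet : B.det = 1 := by
    rw [← hdet, hB, Matrix.det_fin_three, Matrix.det_fin_three]
    simp only [Matrix.of_apply, Matrix.cons_val_zero, Matrix.cons_val_one,
      Matrix.cons_val]
    ring
  refine ⟨B, B.adjugate, ?_, ?_, ?_⟩
  · rw [Matrix.mul_adjugate, hBdet, one_smul]
  · rw [Matrix.adjugate_mul, hBdet, one_smul]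
  · intro j i
    have h1 := hci i
    have h2 := abs_nonneg (pr (A 1) (ρ i))
    have h3 := abs_nonneg (pr (A 2) (ρ i))
    fin_cases j
    · have : (B 0) = A 0 := by rw [hB]; rfl
      change 0 ≤ pr (B 0) (ρ i)
      rw [this]
      have := hpos i
      omega
    · have : (B 1) = (fun j => A 1 j + c * A 0 j) := by rw [hB]; rfl
      change 0 ≤ pr (B 1) (ρ i)
      rw [this]
      exact hadd _ i (by omega)
    · have : (B 2) = (fun j => A 2 j + c * A 0 j) := by rw [hB]; rfl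
      change 0 ≤ pr (B 2) (ρ i)
      rw [this]
      exact hadd _ i (by omega)

end M5
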