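import Pool.Agent.M5.QDefs
import Pool.Agent.MLD.Der
import Mathlib.RingTheory.Kaehler.TensorProduct
import Mathlib.RingTheory.Etale.Kaehler
import Mathlib.RingTheory.Etale.Field

/-!
M5-QX: extension of derivations.
-/

open MvPolynomial

namespace M5

open MLD

universe u

/-- derivations extend to algebraic extensions of fields of characteristic zero -/
theorem ext_der_alg {k K L : Type u} [Field k] [CharZero k] [Field K] [Algebra k K] [Field L]
    [Algebra k L] [Algebra K L] [IsScalarTower k K L] [Algebra.IsAlgebraic K L]
    (D : Derivation k K K) : ∃ D' : Derivation k L L, ∀ f : K,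
      D' (algebraMap K L f) = algebraMap K L (D f) := by
  have : CharZero K := charZero_of_injective_algebraMap (algebraMap k K).injective
  have : Algebra.FormallyEtale K L := Algebra.FormallyEtale.of_isSeparable K L
  let d0 : Derivation k K L := (Algebra.linearMap K L).compDer D
  let D' : Derivation k L L :=
    ((d0.liftKaehlerDifferential.liftBaseChange L).comp
      (KaehlerDifferential.tensorKaehlerEquivOfFormallyEtale k K
        L).symm.toLinearMap).compDer (KaehlerDifferential.D k L)
  refine ⟨D', fun f => ?_⟩
  change (d0.liftKaehlerDifferential.liftBaseChange L)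
      ((KaehlerDifferential.tensorKaehlerEquivOfFormallyEtale k K
        L).symm (KaehlerDifferential.D k L (algebraMap K L f))) = _
  rw [KaehlerDifferential.tensorKaehlerEquivOfFormallyEtale_symm_D_algebraMap,
      LinearMap.liftBaseChange_tmul, one_smul, Derivation.liftKaehlerDifferential_comp_D]
  rfl

/-- derivations with Jacobian determinant one -/
theorem exists_jac_one (k : Type u) [Field k] :
    ∃ D : Fin 3 → Derivation k (FF k (Fin 3)) (FF k (Fin 3)), jac D (fun j => xx k j) = 1 := by
  obtain ⟨d, hd⟩ := exists_pderivFF k (Fin 3)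
  refine ⟨d, ?_⟩
  unfold jac
  have h1 : (Matrix.of fun i j : Fin 3 => d i (xx k j)) = 1 := by
    ext i j
    rw [Matrix.of_apply, Matrix.one_apply]
    unfold xx
    rw [hd, pderiv_X, Pi.single_apply]
    by_cases h : i = j
    · rw [if_pos h, if_pos h.symm, map_one]
    · rw [if_neg h, if_neg (fun h' => h h'.symm), map_zero]
  rw [h1, Matrix.det_one]

/-- the coefficient of the section is not zero -/
theorem FormOK.ne {k : Type u} [Field k] {H : Subgroup (FF k (Fin 3) ≃ₐ[k] FF k (Fin 3))} {N : ℕ}
    {y : Fin 3 → IntermediateField.fixedField H} {g : IntermediateField.fixedField H}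
    (h : FormOK H N y g) : g ≠ 0 := by
  obtain ⟨c, hc, h⟩ := h
  obtain ⟨D, hD⟩ := exists_jac_one k
  rintro rfl
  have h1 := h D
  rw [hD, one_pow, mul_one] at h1
  have h2 : algebraMap k (FF k (Fin 3)) c = 0 := by
    rw [← h1]
    show (0 : FF k (Fin 3)) * _ = 0
    rw [zero_mul]
  exact hc ((map_eq_zero _).1 h2)

end M5
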