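import Pool.Agent.M5.QA
import Pool.Agent.M5.QB1
import Pool.Agent.M5.QB2
import Pool.Agent.M5.QC1
import Pool.Agent.M5.QX

/-!
PIECE M5-QC2: toric germs from toric germs with natural entries.

PROOF.  `A`, `A'` from `exists_unimod`.  `r i j := (pr (A j) (ρ i)).toNat`, so `vz (r i) j = pr (A j) (ρ i)`, and
`pr n (vz (r i)) = pr (vecMul n A) (ρ i)` (`vecMul n A = ∑ j, n j • A j`).  `θ' := vecMul θ A'`, so `vecMul θ' A = θ`.
Hypotheses of `hoct`: `u' := vecMul u A'`, `vecMul u' A = u`; spanning: `pr n (vz (r i)) = 0` for all `i` gives `vecMul n A = 0`, `n = vecMul (vecMul n A) A' = 0`;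
`pr θ' (vz (r i)) = pr θ (ρ i) = N`.
`Φ` from `exists_mono` for `A`, `Φ'` for `A'` (determinants are units: `det A * det A' = 1`): `Φ (Φ' (chi m)) = chi (vecMul (vecMul m A') A) = chi m`, so
`Φ ∘ Φ' = id` (two algebra homomorphisms on the fraction field which agree on the `xx j = chi (Pi.single j 1)`; `IsFractionRing`/`IsLocalization` ext +
`MvPolynomial.algHom_ext`), and `Φ' ∘ Φ = id`: `ψ := AlgEquiv.ofAlgHom Φ Φ' ..`, `ψ (chi m) = chi (vecMul m A)`.
`iso_Q1` with `X = torGerm k ρ N θ`, `X' = torGerm k (fun i => vz (r i)) N θ'`, `ψ`, `c = (A.det : k) ^ N`: `hω` is `form_mono` with `B = A`, `θ := θ'`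
(`vecMul θ' A = θ`; `X'.y j = xx j`, `ψ (xx j) = chi (A j)`).
`hR`: `ψ` maps `chi '' SG ρ'` onto `chi '' SG ρ` (`vecMul · A` is a bijection of `SG ρ'` and `SG ρ`), so `(torR ρ').map ψ = torR ρ`
(`AlgHom.map_adjoin`).  `hm`: the generators `chi m`, `m ∈ SG ρ'`, `m ≠ 0` are mapped onto the generators; the two ideals
correspond (`Ideal.span`; `Submodule.span_induction` in both directions, or `Ideal.map_span` for the ring isomorphism).
-/

open MvPolynomial

namespace M5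

open MLD

universe u

variable {k : Type u} [Field k] [CharZero k]

omit [CharZero k] in
private theorem QC2_ext {f g : FF k (Fin 3) →ₐ[k] FF k (Fin 3)}
    (h : ∀ j : Fin 3, f (xx k j) = g (xx k j)) : f = g := by
  have h1 : f.comp (toFF k (Fin 3)) = g.comp (toFF k (Fin 3)) :=
    MvPolynomial.algHom_ext fun j => h j
  have h2 : ∀ p : MvPolynomial (Fin 3) k,
      f (algebraMap (MvPolynomial (Fin 3) k) (FF k (Fin 3)) p) =
        g (algebraMap (MvPolynomial (Fin 3) k) (FF k (Fin 3)) p) := fun p =>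
    DFunLike.congr_fun h1 p
  apply AlgHom.ext
  intro x
  obtain ⟨a, b, -, rfl⟩ := IsFractionRing.div_surjective (A := MvPolynomial (Fin 3) k) x
  rw [map_div₀, map_div₀, h2, h2]

omit [CharZero k] in
private theorem QC2_one (j : Fin 3) : chi k ((1 : Matrix (Fin 3) (Fin 3) ℤ) j) = xx k j := by
  unfold chi
  rw [Finset.prod_eq_single j]
  · rw [Matrix.one_apply_eq, zpow_one]
  · intro l _ hl
    rw [Matrix.one_apply_ne (Ne.symm hl), zpow_zero]
  · intro h
    exact absurd (Finset.mem_univ j) h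

omit [CharZero k] in
private theorem QC2_equiv (A A' : Matrix (Fin 3) (Fin 3) ℤ) (h1 : A * A' = 1) (h2 : A' * A = 1) :
    ∃ ψ : FF k (Fin 3) ≃ₐ[k] FF k (Fin 3), (∀ m, ψ (chi k m) = chi k (Matrix.vecMul m A)) ∧
      ∀ j, ψ (xx k j) = chi k (A j) := by
  have hdet : A.det * A'.det = 1 := by rw [← Matrix.det_mul, h1, Matrix.det_one]
  have hd : A.det ≠ 0 := left_ne_zero_of_mul (hdet.trans_ne one_ne_zero)
  have hd' : A'.det ≠ 0 := right_ne_zero_of_mul (hdet.trans_ne one_ne_zero)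
  obtain ⟨Φ, hΦ, hΦx⟩ := exists_mono (k := k) A hd
  obtain ⟨Φ', hΦ', hΦx'⟩ := exists_mono (k := k) A' hd'
  have e1 : Φ.comp Φ' = AlgHom.id k _ := QC2_ext fun j => by
    rw [AlgHom.comp_apply, hΦx', hΦ, AlgHom.id_apply]
    have : Matrix.vecMul (A' j) A = (1 : Matrix (Fin 3) (Fin 3) ℤ) j := by
      rw [← h2]
      rfl
    rw [this, QC2_one]
  have e2 : Φ'.comp Φ = AlgHom.id k _ := QC2_ext fun j => by
    rw [AlgHom.comp_apply, hΦx, hΦ', AlgHom.id_apply]
    have : Matrix.vecMul (A j) A' = (1 : Matrix (Fin 3) (Fin 3) ℤ) j := by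
      rw [← h1]
      rfl
    rw [this, QC2_one]
  exact ⟨AlgEquiv.ofAlgHom Φ Φ' e1 e2, hΦ, hΦx⟩

private theorem QC2_span {R S : Type*} [CommRing R] [CommRing S] (e : R ≃+* S) (s : Set R)
    (t : Set S) (h : ∀ x, x ∈ s ↔ e x ∈ t) (x : R) : x ∈ Ideal.span s ↔ e x ∈ Ideal.span t := by
  have h1 : (e : R →+* S) '' s = t := by
    ext y
    constructor
    · rintro ⟨x, hx, rfl⟩
      exact (h x).1 hx
    · intro hy
      refine ⟨e.symm y, (h _).2 ?_, e.apply_symm_apply y⟩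
      rw [e.apply_symm_apply]
      exact hy
  have h2 : Ideal.span t = (Ideal.span s).map (e : R →+* S) := by
    rw [Ideal.map_span, h1]
  rw [h2]
  constructor
  · intro hx
    exact Ideal.mem_map_of_mem (e : R →+* S) hx
  · intro hx
    obtain ⟨y, hy, hyx⟩ := (Ideal.mem_map_iff_of_surjective (e : R →+* S) e.surjective).1 hx
    have : y = x := e.injective hyx
    rw [← this]
    exact hy

private theorem QC2_pr (A : Matrix (Fin 3) (Fin 3) ℤ) (n v : Fin 3 → ℤ) :
    ∑ j, n j * pr (A j) v = pr (Matrix.vecMul n A) v := by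
  unfold pr
  simp only [Matrix.vecMul, dotProduct, Finset.mul_sum, Finset.sum_mul]
  rw [Finset.sum_comm]
  exact Finset.sum_congr rfl fun l _ => Finset.sum_congr rfl fun j _ => by ring

theorem toric_of_octant {q : ℕ} (ρ : Fin q → Fin 3 → ℤ) (hp : ∃ u, ∀ i, 0 < pr u (ρ i))
    (hf : ∀ m : Fin 3 → ℤ, (∀ i, pr m (ρ i) = 0) → m = 0) {N : ℕ} (hN : 0 < N)
    (θ : Fin 3 → ℤ) (hθ : ∀ i, pr θ (ρ i) = N)
    (hoct : ∀ (r : Fin q → Fin 3 → ℕ) (θ' : Fin 3 → ℤ), (∃ u, ∀ i, 0 < pr u (vz (r i))) →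
      (∀ m : Fin 3 → ℤ, (∀ i, pr m (vz (r i)) = 0) → m = 0) → (∀ i, pr θ' (vz (r i)) = N) →
      (torGerm k (fun i => vz (r i)) N θ').Q1) : (torGerm k ρ N θ).Q1 := by
  obtain ⟨u, hu⟩ := hp
  obtain ⟨A, A', h1, h2, hA⟩ := exists_unimod ρ u hu hf
  have hvv : ∀ m : Fin 3 → ℤ, Matrix.vecMul (Matrix.vecMul m A') A = m := fun m => by
    rw [Matrix.vecMul_vecMul, h2, Matrix.vecMul_one]
  have hvv' : ∀ m : Fin 3 → ℤ, Matrix.vecMul (Matrix.vecMul m A) A' = m := fun m => by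
    rw [Matrix.vecMul_vecMul, h1, Matrix.vecMul_one]
  obtain ⟨ψ, hψ, hψx⟩ := QC2_equiv (k := k) A A' h1 h2
  set r : Fin q → Fin 3 → ℕ := fun i j => (pr (A j) (ρ i)).toNat with hr
  have hrz : ∀ i j, vz (r i) j = pr (A j) (ρ i) := fun i j => Int.toNat_of_nonneg (hA j i)
  have hpr : ∀ (n : Fin 3 → ℤ) i, pr n (vz (r i)) = pr (Matrix.vecMul n A) (ρ i) := by
    intro n i
    rw [← QC2_pr]
    unfold pr
    exact Finset.sum_congr rfl fun j _ => by rw [hrz]; rfl
  set θ' : Fin 3 → ℤ := Matrix.vecMul θ A' with hθ'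
  have hθA : Matrix.vecMul θ' A = θ := hvv θ
  have hSG : ∀ n : Fin 3 → ℤ, n ∈ SG (fun i => vz (r i)) ↔ Matrix.vecMul n A ∈ SG ρ := by
    intro n
    constructor
    · intro h i
      rw [← hpr]
      exact h i
    · intro h i
      change 0 ≤ pr n (vz (r i))
      rw [hpr]
      exact h i
  have hdet : A.det * A'.det = 1 := by rw [← Matrix.det_mul, h1, Matrix.det_one]
  have hd : A.det ≠ 0 := left_ne_zero_of_mul (hdet.trans_ne one_ne_zero)
  have himg : (ψ : FF k (Fin 3) →ₐ[k] FF k (Fin 3)) '' (chi k '' SG fun i => vz (r i)) =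
      chi k '' SG ρ := by
    ext f
    constructor
    · rintro ⟨_, ⟨m, hm, rfl⟩, rfl⟩
      exact ⟨Matrix.vecMul m A, (hSG m).1 hm, (hψ m).symm⟩
    · rintro ⟨m, hm, rfl⟩
      refine ⟨chi k (Matrix.vecMul m A'), ⟨Matrix.vecMul m A', (hSG _).2 ?_, rfl⟩, ?_⟩
      · rw [hvv]
        exact hm
      · change ψ (chi k (Matrix.vecMul m A')) = chi k m
        rw [hψ, hvv]
  have hmap : (torR k fun i => vz (r i)).map (ψ : FF k (Fin 3) →ₐ[k] FF k (Fin 3)) =
      torR k ρ := by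
    unfold torR
    rw [AlgHom.map_adjoin, himg]
  have hR : ∀ f : FF k (Fin 3), f ∈ torR k (fun i => vz (r i)) ↔ ψ f ∈ torR k ρ := by
    intro f
    rw [← hmap, Subalgebra.mem_map]
    constructor
    · intro h
      exact ⟨f, h, rfl⟩
    · rintro ⟨g, hg, hgf⟩
      have : g = f := ψ.injective hgf
      rw [← this]
      exact hg
  let e : torR k (fun i => vz (r i)) ≃+* torR k ρ :=
    { toFun := fun f => ⟨ψ f, (hR f).1 f.2⟩
      invFun := fun f => ⟨ψ.symm f, (hR _).2 (by rw [ψ.apply_symm_apply]; exact f.2)⟩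
      left_inv := fun f => Subtype.ext (ψ.symm_apply_apply _)
      right_inv := fun f => Subtype.ext (ψ.apply_symm_apply _)
      map_mul' := fun f g => Subtype.ext (map_mul ψ _ _)
      map_add' := fun f g => Subtype.ext (map_add ψ _ _) }
  have hcz : ((A.det : ℤ) : k) ^ N ≠ 0 := pow_ne_zero _ (Int.cast_ne_zero.2 hd)
  refine iso_Q1 (torGerm k ρ N θ) (torGerm k (fun i => vz (r i)) N θ') ψ hR ?_ rfl hN
    (chi_ne _) (chi_ne _) hcz ?_ (hoct r θ' ⟨Matrix.vecMul u A', fun i => ?_⟩ ?_ fun i => ?_)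
  · intro f h
    refine QC2_span e _ _ ?_ f
    intro g
    constructor
    · rintro ⟨m, hm, hm0, hgm⟩
      refine ⟨Matrix.vecMul m A, (hSG m).1 hm, ?_, ?_⟩
      · intro h0
        apply hm0
        rw [← hvv' m, h0, Matrix.zero_vecMul]
      · change ψ (g : FF k (Fin 3)) = _
        rw [hgm, hψ]
    · rintro ⟨m, hm, hm0, hgm⟩
      refine ⟨Matrix.vecMul m A', (hSG _).2 (by rw [hvv]; exact hm), ?_, ?_⟩
      · intro h0
        apply hm0
        rw [← hvv m, h0, Matrix.zero_vecMul]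
      · apply ψ.injective
        rw [hψ, hvv]
        exact hgm
  · intro D
    have h3 := form_mono D A θ' N
    have h4 : (fun j => ψ (xx k j)) = fun j => chi k (A j) := funext hψx
    change ψ (chi k fun j => θ' j - N) * jac D (fun j => ψ (xx k j)) ^ N =
      algebraMap k (FF k (Fin 3)) (((A.det : ℤ) : k) ^ N) *
        (chi k (fun j => θ j - N) * jac D (fun j => xx k j) ^ N)
    rw [hψ, h4, h3, hθA, map_pow, map_intCast]
  · rw [hpr, hvv]
    exact hu i
  · intro m hm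
    have h3 : Matrix.vecMul m A = 0 := hf _ fun i => by
      rw [← hpr]
      exact hm i
    rw [← hvv' m, h3, Matrix.zero_vecMul]
  · rw [hpr, hθA]
    exact hθ i

end M5
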