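import Pool.Agent.M5.D1e
import Pool.Agent.MLD.ArcJac

/-!
PROJECT M5, PIECE D2: expansion of derivations, computation of log discrepancies.

PROOF. `der_expand`: `z` is algebraically independent (`arc_jac_det` in MLD/ArcJac.lean: the determinant of
`D i (z j)` is `1`); so `ι : FF k (Fin n) → K`, `xx i ↦ z i`, `AlgOver ι` (`algOver_of_trLe`); the derivations
`δ` and `∑ i, δ (z i) • D i` agree on the `z j`, hence on `k(z)` (a derivation zero on the `xx i` is zero
on `toFF p` and on quotients), `der_unique`. `jac_expand`: `Matrix.det_mul`.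
`logDisc_real`: `D` is a member of the family; every member `δ` (integral, `jac δ y ≠ 0`) has
`jac δ y = jac δ z * jac D y` with `jac δ z ≠ 0` of order `≥ 0` (`δ_i (z_j)` has order `≥ 0` because the
`z_j` have order `≥ 0`; `E.ge_sum`, `E.ge_prod` as in `IdOrd_jac`, MLD/IdOrd.lean). So the infimum is
attained at `D`. `logDisc_top`: the family is empty, `iInf_of_empty`.
-/

set_option autoImplicit false

open MLD MvPolynomial

namespace M5

universe u

/-- a derivation which is zero on the `z j` is zero on the polynomials in them -/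
private theorem D2_poly {k K : Type u} [Field k] [Field K] [Algebra k K] {n : ℕ}
    (z : Fin n → K) (δ : Derivation k K K) (h : ∀ j, δ (z j) = 0)
    (p : MvPolynomial (Fin n) k) : δ (aeval z p) = 0 := by
  induction p using MvPolynomial.induction_on with
  | C a => rw [aeval_C, Derivation.map_algebraMap]
  | add p q hp hq => rw [map_add, map_add, hp, hq, add_zero]
  | mul_X p i hp => rw [map_mul, aeval_X, Derivation.leibniz, hp, h i, smul_zero, smul_zero, add_zero]

/-- the homomorphism `xx i ↦ z i` -/
private theorem D2_hom {k K : Type u} [Field k] [Field K] [Algebra k K] {n : ℕ}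
    (z : Fin n → K) (h : AlgebraicIndependent k z) :
    ∃ ι : FF k (Fin n) →ₐ[k] K, ∀ p, ι (toFF k (Fin n) p) = aeval z p := by
  have hinj : Function.Injective (aeval z : MvPolynomial (Fin n) k →ₐ[k] K) := h
  refine ⟨IsFractionRing.liftAlgHom (K := FF k (Fin n)) (g := (aeval z : MvPolynomial (Fin n) k →ₐ[k] K)) hinj, fun p => ?_⟩
  have h1 := IsFractionRing.lift_algebraMap (K := FF k (Fin n))
    (g := (aeval z : MvPolynomial (Fin n) k →ₐ[k] K).toRingHom) hinj p
  exact h1

theorem der_expand {k K : Type u} [Field k] [CharZero k] [Field K] [Algebra k K] {n : ℕ}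
    (hK : TrLe k K n) (z : Fin n → K) (D : Fin n → Derivation k K K)
    (hD : ∀ i j, D i (z j) = if i = j then 1 else 0) (δ : Derivation k K K) (f : K) :
    δ f = ∑ i, δ (z i) * D i f := by
  have hdet : (Matrix.of fun i j => D i (z j)).det ≠ 0 := by
    have : (Matrix.of fun i j => D i (z j)) = (1 : Matrix (Fin n) (Fin n) K) := by
      ext i j
      rw [Matrix.of_apply, hD, Matrix.one_apply]
    rw [this, Matrix.det_one]
    exact one_ne_zero
  have hai := arc_jac_det (k := k) z D hdet
  obtain ⟨ι, hι⟩ := D2_hom z hai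
  set ε : Derivation k K K := ∑ i, δ (z i) • D i with hε
  have hεa : ∀ x, ε x = ∑ i, δ (z i) * D i x := by
    intro x
    have h0 : ∀ s : Finset (Fin n), (∑ i ∈ s, δ (z i) • D i) x = ∑ i ∈ s, δ (z i) * D i x := by
      intro s
      classical
      induction s using Finset.induction_on with
      | empty => simp
      | insert a s ha ih =>
        rw [Finset.sum_insert ha, Finset.sum_insert ha, Derivation.add_apply, ih]
        rfl
    exact h0 Finset.univ
  have hz : ∀ j, (δ - ε) (z j) = 0 := by
    intro j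
    rw [Derivation.sub_apply, hεa, Finset.sum_eq_single j]
    · rw [hD, if_pos rfl, mul_one, sub_self]
    · intro i _ hij
      rw [hD, if_neg hij, mul_zero]
    · intro hj
      exact absurd (Finset.mem_univ j) hj
  have hpoly := D2_poly z (δ - ε) hz
  have hagree : ∀ a, δ (ι a) = ε (ι a) := by
    intro a
    obtain ⟨p, q, hq, rfl⟩ := IsFractionRing.div_surjective (A := MvPolynomial (Fin n) k) a
    have hq0 : q ≠ 0 := nonZeroDivisors.ne_zero hq
    have hx : ι (algebraMap _ _ p / algebraMap _ _ q) = aeval z p / aeval z q := by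
      rw [map_div₀]
      congr 1
      · exact hι p
      · exact hι q
    have hq1 : aeval z q ≠ 0 := by
      intro h0
      exact hq0 (hai (by rw [h0, map_zero]))
    have h1 : (δ - ε) (ι (algebraMap _ _ p / algebraMap _ _ q) * aeval z q) = 0 := by
      rw [hx, div_mul_cancel₀ _ hq1]
      exact hpoly p
    rw [Derivation.leibniz, hpoly q, smul_zero, zero_add, smul_eq_mul, mul_eq_zero] at h1
    rcases h1 with h1 | h1
    · exact absurd h1 hq1
    · rw [Derivation.sub_apply, sub_eq_zero] at h1
      exact h1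
  have h2 := der_unique ι (algOver_of_trLe hK ι) δ ε hagree
  rw [← hεa f, ← h2]

theorem jac_expand {k K : Type u} [Field k] [CharZero k] [Field K] [Algebra k K] {n : ℕ}
    (hK : TrLe k K n) (z : Fin n → K) (D : Fin n → Derivation k K K)
    (hD : ∀ i j, D i (z j) = if i = j then 1 else 0) (δ : Fin n → Derivation k K K)
    (y : Fin n → K) : jac δ y = jac δ z * jac D y := by
  unfold jac
  rw [← Matrix.det_mul]
  congr 1
  ext i j
  rw [Matrix.mul_apply, Matrix.of_apply, der_expand hK z D hD (δ i) (y j)]
  rfl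

/-- the Jacobian determinant of integral derivations and functions has order at least zero -/
private theorem D2_ge {k K : Type u} [Field k] [Field K] [Algebra k K] {n : ℕ}
    (E : Dv k K n) (z : Fin n → K) (hz0 : ∀ i, z i ≠ 0) (hz : ∀ i, 0 ≤ E.ord (z i))
    (δ : Fin n → Derivation k K K) (hδ : ∀ i, E.IntegralDer (δ i)) : E.ge 0 (jac δ z) := by
  rw [jac, Matrix.det_apply]
  refine E.ge_sum _ _ fun τ _ => ?_
  have h1 : E.ge 0 (∏ i, (Matrix.of fun i j : Fin n => δ i (z j)) (τ i) i) := by
    have h2 := E.ge_prod Finset.univ (fun i => (Matrix.of fun i j : Fin n => δ i (z j)) (τ i) i)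
      (fun _ => 0) fun i _ => ?_
    · rwa [Finset.sum_const_zero] at h2
    · rw [Matrix.of_apply]
      exact hδ (τ i) (z i) (hz0 i) (hz i)
  rcases Int.units_eq_one_or (Equiv.Perm.sign τ) with h | h
  · rw [h, one_smul]
    exact h1
  · rw [h, Units.neg_smul, one_smul]
    exact E.ge_neg h1

theorem logDisc_real {k K : Type u} [Field k] [CharZero k] [Field K] [Algebra k K] {n : ℕ}
    (hK : TrLe k K n) (X : Germ k K n) (E : Dv k K n) (z : Fin n → K)
    (hz0 : ∀ i, z i ≠ 0) (hz : ∀ i, 0 ≤ E.ord (z i)) (D : Fin n → Derivation k K K)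
    (hD : ∀ i j, D i (z j) = if i = j then 1 else 0) (hint : ∀ i, E.IntegralDer (D i))
    (hy : jac D X.y ≠ 0) :
    X.logDisc E = ((1 + E.ord (jac D X.y) + E.ord X.g / X.N : ℝ) : EReal) := by
  unfold Germ.logDisc
  apply le_antisymm
  · exact iInf_le (fun D : {D : Fin n → Derivation k K K // (∀ i, E.IntegralDer (D i)) ∧
      jac D X.y ≠ 0} => (((1 + E.ord (jac D.1 X.y) + E.ord X.g / X.N : ℝ)) : EReal)) ⟨D, hint, hy⟩
  · refine le_iInf fun δ => ?_
    rw [EReal.coe_le_coe_iff]
    have h1 := jac_expand hK z D hD δ.1 X.y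
    have h2 : jac δ.1 z ≠ 0 := by
      intro h0
      exact δ.2.2 (by rw [h1, h0, zero_mul])
    have h3 : 0 ≤ E.ord (jac δ.1 z) := by
      rcases D2_ge E z hz0 hz δ.1 δ.2.1 with h | h
      · exact absurd h h2
      · exact h
    have h4 : E.ord (jac δ.1 X.y) = E.ord (jac δ.1 z) + E.ord (jac D X.y) := by
      rw [h1]
      exact E.ord_mul h2 hy
    have h5 : E.ord (jac D X.y) ≤ E.ord (jac δ.1 X.y) := by omega
    have h6 : (E.ord (jac D X.y) : ℝ) ≤ (E.ord (jac δ.1 X.y) : ℝ) := by exact_mod_cast h5
    linarith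

theorem logDisc_top {k K : Type u} [Field k] [CharZero k] [Field K] [Algebra k K] {n : ℕ}
    (hK : TrLe k K n) (X : Germ k K n) (E : Dv k K n) (z : Fin n → K)
    (D : Fin n → Derivation k K K) (hD : ∀ i j, D i (z j) = if i = j then 1 else 0)
    (hy : jac D X.y = 0) : X.logDisc E = ⊤ := by
  unfold Germ.logDisc
  have : IsEmpty {D : Fin n → Derivation k K K // (∀ i, E.IntegralDer (D i)) ∧
      jac D X.y ≠ 0} := by
    constructor
    intro δ
    refine δ.2.2 ?_
    rw [jac_expand hK z D hD δ.1 X.y, hy, mul_zero]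
  exact iInf_of_empty _

end M5
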