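import Pool.Agent.M5.D1
import Pool.Agent.M5.D2

/-!
PROJECT M5, PIECE D3: log discrepancies and finite (algebraic) extensions.

PROOF. `exists_z` for `E₀`: `z₀ = (s₀, u)`; `t : K` with `E.ord t = 1`; `z = (t, j u)`: `RAI` for `E` since
`E.ord (aeval (j u) P) = ρ * E₀.ord (aeval u P) = 0`. `exists_dual` for both: `D₀ i` on `K₀`
(`TrLe.sub`), `D i` on `K`. Extend `D₀ m` to `K` (`exists_ext_der`): `D' m`, dual to `j z₀`. `jac_expand` for
`D'`, `j z₀`: `jac D (j y₀) = jac D (j z₀) * jac D' (j y₀)`, `jac D' (j y₀) = j (jac D₀ y₀)`. The matrix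
`D i (j z₀ m)`: column `0` is `D i (j s₀)`, the other columns are unit vectors, so the determinant is
`D 0 (j s₀)`. `j s₀ = t ^ ρ * w`, `E.ord w = 0`: `D 0 (j s₀) = ρ t ^ (ρ - 1) w + t ^ ρ D 0 w` has order exactly
`ρ - 1` (char 0, `D 0 w` has order `≥ 0`). So both Jacobians vanish or not; `logDisc_top`, `logDisc_real`:
`1 + (ρ - 1) + ρ * ord₀ (jac D₀ y₀) + ρ * ord₀ g₀ / N`.
-/

set_option autoImplicit false

open MLD MvPolynomial

namespace M5

universe u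

/-- the functions with independent residues have order zero -/
private theorem D3_rai {k K : Type u} [Field k] [Field K] [Algebra k K] {d : ℕ} (v : OrdFn k K)
    (z : Fin (d + 1) → K) (hz0 : z 0 ≠ 0) (hz : v.ord (z 0) = 1)
    (hu : RAI v (fun i : Fin d => z i.succ)) (i : Fin (d + 1)) : z i ≠ 0 ∧ 0 ≤ v.ord (z i) := by
  refine Fin.cases ⟨hz0, by rw [hz]; exact zero_le_one⟩ (fun m => ?_) i
  have h := hu (X m) (X_ne_zero m)
  rw [aeval_X] at h
  exact ⟨h.1, h.2.ge⟩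

/-- the order of the derivative of a ramified parameter -/
private theorem D3_ord {k K : Type u} [Field k] [CharZero k] [Field K] [Algebra k K]
    (v : OrdFn k K) (D : Derivation k K K) (hD : ∀ f : K, f ≠ 0 → 0 ≤ v.ord f → D f = 0 ∨
      0 ≤ v.ord (D f)) (t s : K) (ht0 : t ≠ 0) (ht : v.ord t = 1) (hDt : D t = 1) (hs0 : s ≠ 0)
    (ρ : ℕ) (hρ : 0 < ρ) (hs : v.ord s = ρ) : D s ≠ 0 ∧ v.ord (D s) = ρ - 1 := by
  obtain ⟨n, rfl⟩ : ∃ n, ρ = n + 1 := ⟨ρ - 1, by omega⟩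
  obtain ⟨w, hw⟩ : ∃ w, w = s / t ^ (n + 1) := ⟨_, rfl⟩
  have htp : ∀ m, t ^ m ≠ 0 := fun m => pow_ne_zero m ht0
  have hw0 : w ≠ 0 := by
    rw [hw]
    exact div_ne_zero hs0 (htp _)
  have hsw : s = t ^ (n + 1) * w := by
    rw [hw, mul_div_cancel₀ _ (htp _)]
  have hwo : v.ord w = 0 := by
    rw [hw, v.ord_div hs0 (htp _), v.ord_pow ht0, hs, ht]
    push_cast
    ring
  have hc0 : ((n + 1 : ℕ) : k) ≠ 0 := by exact_mod_cast Nat.succ_ne_zero n
  have hc : algebraMap k K ((n + 1 : ℕ) : k) = ((n + 1 : ℕ) : K) := by simp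
  have hcK : ((n + 1 : ℕ) : K) ≠ 0 := by
    rw [← hc]
    exact (map_ne_zero (algebraMap k K)).2 hc0
  have hco : v.ord ((n + 1 : ℕ) : K) = 0 := by
    rw [← hc]
    exact v.ord_algebraMap hc0
  have h1 : D s = t ^ (n + 1) * D w + ((n + 1 : ℕ) : K) * (t ^ n * w) := by
    rw [hsw, Derivation.leibniz, Derivation.leibniz_pow, hDt]
    simp only [smul_eq_mul, nsmul_eq_mul, Nat.add_sub_cancel, mul_one]
    ring
  have hA : v.ge (n + 1 : ℤ) (t ^ (n + 1) * D w) := by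
    have h2 : v.ge 0 (D w) := hD w hw0 hwo.ge
    have h3 : v.ge (n + 1 : ℤ) (t ^ (n + 1)) := by
      right
      rw [v.ord_pow ht0, ht]
      push_cast
      omega
    have h4 := v.ge_mul h3 h2
    rwa [add_zero] at h4
  have hB0 : ((n + 1 : ℕ) : K) * (t ^ n * w) ≠ 0 := mul_ne_zero hcK (mul_ne_zero (htp _) hw0)
  have hB : v.ord (((n + 1 : ℕ) : K) * (t ^ n * w)) = n := by
    rw [v.ord_mul hcK (mul_ne_zero (htp _) hw0), v.ord_mul (htp _) hw0, v.ord_pow ht0, hco, hwo, ht]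
    ring
  have hA' : v.ge (v.ord (((n + 1 : ℕ) : K) * (t ^ n * w)) + 1) (t ^ (n + 1) * D w) := by
    rw [hB]
    exact hA
  obtain ⟨h2, h3⟩ := v.ord_add_eq hB0 hA'
  rw [add_comm] at h2 h3
  rw [h1]
  refine ⟨h2, ?_⟩
  rw [h3, hB]
  push_cast
  ring

theorem ram {k K₀ K : Type u} [Field k] [CharZero k] [Field K₀] [Algebra k K₀] [Field K]
    [Algebra k K] {d : ℕ} (hK : TrLe k K (d + 1)) (j : K₀ →ₐ[k] K) (hj : AlgOver j)
    (E₀ : Dv k K₀ (d + 1)) (E : Dv k K (d + 1)) (ρ : ℕ) (hρ : 0 < ρ)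
    (hE : ∀ a, a ≠ 0 → E.ord (j a) = ρ * E₀.ord a) (X₀ : Germ k K₀ (d + 1))
    (X : Germ k K (d + 1)) (hN : X.N = X₀.N) (hN0 : 0 < X₀.N) (hy : ∀ i, X.y i = j (X₀.y i))
    (hg : X.g = j X₀.g) (hg0 : X₀.g ≠ 0) :
    (X₀.logDisc E₀ = ⊤ ∧ X.logDisc E = ⊤) ∨
      ∃ A : ℝ, X₀.logDisc E₀ = (A : EReal) ∧ X.logDisc E = ((ρ * A : ℝ) : EReal) := by
  have hinj : Function.Injective j := j.toRingHom.injective
  have hj0 : ∀ a, a ≠ 0 → j a ≠ 0 := fun a ha h => ha (hinj (by rw [h, map_zero]))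
  obtain ⟨z₀, h00, h01, hu₀⟩ := exists_z E₀
  have hK₀ : TrLe k K₀ (d + 1) := TrLe.sub j hK
  obtain ⟨D₀, hD₀, hint₀⟩ := exists_dual hK₀ E₀ z₀ h00 h01 hu₀
  obtain ⟨t, ht0, ht1⟩ := E.ord_surj'
  obtain ⟨z, hz⟩ : ∃ z : Fin (d + 1) → K, z = Fin.cons t (fun i => j (z₀ i.succ)) := ⟨_, rfl⟩
  have hz_0 : z 0 = t := by rw [hz]; rfl
  have hz_s : ∀ i : Fin d, z i.succ = j (z₀ i.succ) := by intro i; rw [hz]; rfl
  have hu : RAI E.v (fun i : Fin d => z i.succ) := by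
    intro P hP
    have h1 : aeval (fun i : Fin d => z i.succ) P = j (aeval (fun i : Fin d => z₀ i.succ) P) := by
      have h2 : (fun i : Fin d => z i.succ) = fun i : Fin d => j (z₀ i.succ) := funext hz_s
      rw [h2]
      exact (MvPolynomial.comp_aeval_apply (fun i : Fin d => z₀ i.succ) j P).symm
    obtain ⟨h2, h3⟩ := hu₀ P hP
    rw [h1]
    refine ⟨hj0 _ h2, ?_⟩
    have h4 := hE _ h2
    have h5 : E₀.ord (aeval (fun i : Fin d => z₀ i.succ) P) = 0 := h3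
    rw [h5, mul_zero] at h4
    exact h4
  obtain ⟨D, hD, hint⟩ := exists_dual hK E z (by rw [hz_0]; exact ht0) (by rw [hz_0]; exact ht1) hu
  choose D' hD' using fun m => exists_ext_der j hj (D₀ m)
  have hdual : ∀ i m, D' i (j (z₀ m)) = if i = m then 1 else 0 := by
    intro i m
    rw [hD', hD₀]
    split_ifs
    · exact map_one j
    · exact map_zero j
  have hexp := jac_expand hK (fun m => j (z₀ m)) D' hdual D X.y
  have hj1 : jac D' X.y = j (jac D₀ X₀.y) := by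
    unfold jac
    rw [AlgHom.map_det]
    congr 1
    ext i m
    rw [Matrix.of_apply, AlgHom.mapMatrix_apply, Matrix.map_apply, Matrix.of_apply, hy, hD']
  have hj2 : jac D (fun m => j (z₀ m)) = D 0 (j (z₀ 0)) := by
    unfold jac
    rw [Matrix.det_succ_row_zero, Finset.sum_eq_single 0]
    · have h1 : (Matrix.submatrix (Matrix.of fun i m : Fin (d + 1) => D i (j (z₀ m))) Fin.succ
          (Fin.succAbove 0)) = 1 := by
        ext i m
        rw [Matrix.submatrix_apply, Matrix.of_apply, Fin.succAbove_zero, ← hz_s m, hD,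
          Matrix.one_apply]
        simp [Fin.succ_inj]
      rw [h1, Matrix.det_one]
      simp
    · intro m _ hm
      obtain ⟨m', rfl⟩ := Fin.exists_succ_eq.2 hm
      have h1 : D 0 (j (z₀ m'.succ)) = 0 := by
        rw [← hz_s m', hD, if_neg (Fin.succ_ne_zero m').symm]
      rw [Matrix.of_apply]
      show (-1) ^ ((m'.succ : Fin (d + 1)) : ℕ) * D 0 (j (z₀ m'.succ)) * _ = 0
      rw [h1, mul_zero, zero_mul]
    · intro h
      exact absurd (Finset.mem_univ _) h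
  rw [hj1, hj2] at hexp
  obtain ⟨hs0, hs1⟩ := D3_ord E.v (D 0) (hint 0) t (j (z₀ 0)) ht0 ht1 (by
    rw [← hz_0, hD, if_pos rfl]) (hj0 _ h00) ρ hρ (by
      have h1 := hE _ h00
      rw [h01, mul_one] at h1
      exact h1)
  have hz0r := D3_rai E₀.v z₀ h00 h01 hu₀
  have hzr := D3_rai E.v z (by rw [hz_0]; exact ht0) (by rw [hz_0]; exact ht1) hu
  by_cases hJ : jac D₀ X₀.y = 0
  · left
    refine ⟨logDisc_top hK₀ X₀ E₀ z₀ D₀ hD₀ hJ, logDisc_top hK X E z D hD ?_⟩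
    rw [hexp, hJ, map_zero, mul_zero]
  · right
    have hJ' : jac D X.y ≠ 0 := by
      rw [hexp]
      exact mul_ne_zero hs0 (hj0 _ hJ)
    refine ⟨_, logDisc_real hK₀ X₀ E₀ z₀ (fun i => (hz0r i).1) (fun i => (hz0r i).2) D₀ hD₀ hint₀
      hJ, ?_⟩
    rw [logDisc_real hK X E z (fun i => (hzr i).1) (fun i => (hzr i).2) D hD hint hJ']
    congr 1
    have h1 : E.ord (jac D X.y) = (ρ - 1 : ℤ) + ρ * E₀.ord (jac D₀ X₀.y) := by
      rw [hexp, E.ord_mul hs0 (hj0 _ hJ), hE _ hJ]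
      congr 1
    have h2 : E.ord X.g = ρ * E₀.ord X₀.g := by
      rw [hg, hE _ hg0]
    have hNr : (X₀.N : ℝ) ≠ 0 := by exact_mod_cast hN0.ne'
    rw [h1, h2, hN]
    push_cast
    field_simp
    ring

end M5
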