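import Pool.Agent.M5.D0
import Pool.Agent.MLD.ArcVR

/-!
PROJECT M5, PIECE D4: restriction of a divisorial valuation to a subfield over which `K` is algebraic.

PROOF. (1) `E` is not zero on `K₀`: take `x : K` with `E.ord x = 1`, `P ≠ 0` with `P(x) = 0`; if all nonzero
`j a` had order `0`, the terms of `P(x)` would have different orders, contradiction. So the orders
`E.ord (j a)` form a nonzero subgroup `ρ ℤ` of `ℤ`, `ρ > 0`; `E₀.ord a := E.ord (j a) / ρ`. (2) Residues: the
residue field `κ` of `E` (`exists_vr`) is algebraic over the image `κ₀` of the residue field of `E₀`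
(normalize an equation: divide by a coefficient of least order); `κ` contains `d` algebraically
independent elements, so `κ₀` does (transcendence bases: a transcendence basis of `κ₀` over `k` is one
of `κ`; cardinalities). Lift them to `K₀`: nonzero polynomials in them have nonzero residue, so order
`0` (and are not `0`).
-/

set_option autoImplicit false

open MLD MvPolynomial

namespace M5

universe u

section d4

variable {k K₀ K : Type u} [Field k] [Field K₀] [Algebra k K₀] [Field K] [Algebra k K]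

private theorem d4_ne (j : K₀ →ₐ[k] K) (hj : AlgOver j) (v : OrdFn k K)
    (hv : ∃ f : K, f ≠ 0 ∧ v.ord f = 1) : ∃ a : K₀, a ≠ 0 ∧ v.ord (j a) ≠ 0 := by
  classical
  obtain ⟨f, hf0, hf1⟩ := hv
  obtain ⟨P, hP0, hP⟩ := hj f
  by_contra hcon
  have hall : ∀ a : K₀, a ≠ 0 → v.ord (j a) = 0 := by
    intro a ha
    by_contra h
    exact hcon ⟨a, ha, h⟩
  have hsum : ∑ i ∈ P.support, j (P.coeff i) * f ^ i = 0 := by
    rw [Polynomial.eval₂_eq_sum, Polynomial.sum_def] at hP
    exact hP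
  obtain ⟨i0, hi0d⟩ : ∃ i0, i0 = P.natTrailingDegree := ⟨_, rfl⟩
  have hi0 : i0 ∈ P.support := by
    rw [hi0d]
    exact Polynomial.natTrailingDegree_mem_support_of_nonzero hP0
  rw [← Finset.add_sum_erase _ _ hi0] at hsum
  have hc0 : P.coeff i0 ≠ 0 := Polynomial.mem_support_iff.1 hi0
  have h1 : j (P.coeff i0) * f ^ i0 ≠ 0 :=
    mul_ne_zero ((map_ne_zero j).2 hc0) (pow_ne_zero _ hf0)
  have hord : ∀ i : ℕ, P.coeff i ≠ 0 → v.ord (j (P.coeff i) * f ^ i) = i := by
    intro i hi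
    rw [v.ord_mul ((map_ne_zero j).2 hi) (pow_ne_zero _ hf0), hall _ hi, v.ord_pow hf0, hf1]
    ring
  have h3 : v.ge (v.ord (j (P.coeff i0) * f ^ i0) + 1)
      (∑ i ∈ P.support.erase i0, j (P.coeff i) * f ^ i) := by
    rw [hord i0 hc0]
    apply v.ge_sum
    intro i hi
    obtain ⟨hi1, hi2⟩ := Finset.mem_erase.1 hi
    right
    rw [hord i (Polynomial.mem_support_iff.1 hi2)]
    have h4 : i0 ≤ i := by
      rw [hi0d]
      exact Polynomial.natTrailingDegree_le_of_mem_supp i hi2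
    omega
  exact (v.ord_add_eq h1 h3).1 hsum

private theorem d4_index (j : K₀ →ₐ[k] K) (v : OrdFn k K)
    (h : ∃ a : K₀, a ≠ 0 ∧ v.ord (j a) ≠ 0) : ∃ ρ : ℕ, 0 < ρ ∧
      (∀ a : K₀, a ≠ 0 → (ρ : ℤ) ∣ v.ord (j a)) ∧ ∃ b : K₀, b ≠ 0 ∧ v.ord (j b) = ρ := by
  let H : AddSubgroup ℤ :=
    { carrier := {z | ∃ a : K₀, a ≠ 0 ∧ v.ord (j a) = z}
      zero_mem' := ⟨1, one_ne_zero, by rw [map_one, v.ord_one]⟩
      add_mem' := by
        rintro x y ⟨a, ha, rfl⟩ ⟨b, hb, rfl⟩
        exact ⟨a * b, mul_ne_zero ha hb, by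
          rw [map_mul, v.ord_mul ((map_ne_zero j).2 ha) ((map_ne_zero j).2 hb)]⟩
      neg_mem' := by
        rintro x ⟨a, ha, rfl⟩
        exact ⟨a⁻¹, inv_ne_zero ha, by
          rw [map_inv₀, v.ord_inv _ ((map_ne_zero j).2 ha)]⟩ }
  have hH : ∀ z : ℤ, z ∈ H ↔ ∃ a : K₀, a ≠ 0 ∧ v.ord (j a) = z := fun z => Iff.rfl
  obtain ⟨g, hg⟩ := Int.subgroup_cyclic H
  have hmem : ∀ z : ℤ, z ∈ H ↔ ∃ m : ℤ, m • g = z := by
    intro z
    rw [hg, AddSubgroup.mem_closure_singleton]
  obtain ⟨a, ha, ha'⟩ := h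
  have hg0 : g ≠ 0 := by
    rintro rfl
    obtain ⟨m, hm⟩ := (hmem _).1 ((hH _).2 ⟨a, ha, rfl⟩)
    rw [smul_zero] at hm
    exact ha' hm.symm
  refine ⟨g.natAbs, Int.natAbs_pos.2 hg0, ?_, ?_⟩
  · intro b hb
    obtain ⟨m, hm⟩ := (hmem _).1 ((hH _).2 ⟨b, hb, rfl⟩)
    rw [Int.natAbs_dvd]
    exact ⟨m, by rw [← hm, smul_eq_mul, mul_comm]⟩
  · rw [← hH]
    have h1 : g ∈ H := (hmem g).2 ⟨1, one_smul _ _⟩
    rcases Int.natAbs_eq g with h2 | h2
    · rw [← h2]
      exact h1
    · have h3 : (g.natAbs : ℤ) = -g := by omega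
      rw [h3]
      exact H.neg_mem h1

/-- the residues of `K₀` contain as many independent elements as those of `K` -/
private theorem d4_res (j : K₀ →ₐ[k] K) (hj : AlgOver j) (v : OrdFn k K) {m : ℕ}
    (g : Fin m → K) (hg : ∀ P : MvPolynomial (Fin m) k, P ≠ 0 →
      aeval g P ≠ 0 ∧ v.ord (aeval g P) = 0) : ∃ g₀ : Fin m → K₀,
      ∀ P : MvPolynomial (Fin m) k, P ≠ 0 → aeval g₀ P ≠ 0 ∧ v.ord (j (aeval g₀ P)) = 0 := by
  classical
  obtain ⟨O, hO, κ, _, _, res, hsurj, hres⟩ := exists_vr v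
  -- the residues of the elements of K₀
  obtain ⟨s, hs⟩ : ∃ s : Set κ, s = {x | ∃ (a : K₀) (ha : j a ∈ O), res ⟨j a, ha⟩ = x} :=
    ⟨_, rfl⟩
  have hmems : ∀ (a : K₀) (ha : j a ∈ O), res ⟨j a, ha⟩ ∈ Algebra.adjoin k s := by
    intro a ha
    apply Algebra.subset_adjoin
    rw [hs]
    exact ⟨a, ha, rfl⟩
  have halg : Algebra.IsAlgebraic (Algebra.adjoin k s) κ := by
    constructor
    intro x
    obtain ⟨f, rfl⟩ := hsurj x
    obtain ⟨P, hP0, hP⟩ := hj (f : K)
    have hsum : ∑ i ∈ P.support, j (P.coeff i) * (f : K) ^ i = 0 := by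
      rw [Polynomial.eval₂_eq_sum, Polynomial.sum_def] at hP
      exact hP
    obtain ⟨i1, hi1, hmin⟩ := Finset.exists_min_image P.support
      (fun i => v.ord (j (P.coeff i))) (Polynomial.support_nonempty.2 hP0)
    have hc1 : P.coeff i1 ≠ 0 := Polynomial.mem_support_iff.1 hi1
    have hint : ∀ i, j (P.coeff i / P.coeff i1) ∈ O := by
      intro i
      rw [hO]
      by_cases hi : P.coeff i = 0
      · left
        rw [hi, zero_div, map_zero]
      · right
        rw [map_div₀, v.ord_div ((map_ne_zero j).2 hi) ((map_ne_zero j).2 hc1)]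
        have := hmin i (Polynomial.mem_support_iff.2 hi)
        omega
    obtain ⟨q, hq⟩ : ∃ q : ℕ → Algebra.adjoin k s,
        ∀ i, (q i : κ) = res ⟨j (P.coeff i / P.coeff i1), hint i⟩ :=
      ⟨fun i => ⟨_, hmems _ (hint i)⟩, fun i => rfl⟩
    refine ⟨∑ i ∈ P.support, Polynomial.monomial i (q i), ?_, ?_⟩
    · intro h0
      have h1 : (∑ i ∈ P.support, Polynomial.monomial i (q i)).coeff i1 = q i1 := by
        rw [Polynomial.finsetSum_coeff]
        rw [Finset.sum_eq_single i1]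
        · rw [Polynomial.coeff_monomial, if_pos rfl]
        · intro i _ hi
          rw [Polynomial.coeff_monomial, if_neg hi]
        · intro h
          exact absurd hi1 h
      rw [h0, Polynomial.coeff_zero] at h1
      have h2 : (q i1 : κ) = 1 := by
        rw [hq]
        have h3 : (⟨j (P.coeff i1 / P.coeff i1), hint i1⟩ : O) = 1 := by
          apply Subtype.ext
          change j (P.coeff i1 / P.coeff i1) = 1
          rw [div_self hc1, map_one]
        rw [h3, map_one]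
      rw [← h1] at h2
      exact zero_ne_one h2
    · rw [map_sum]
      have h1 : ∀ i ∈ P.support, Polynomial.aeval (res f) (Polynomial.monomial i (q i)) =
          res (⟨j (P.coeff i / P.coeff i1), hint i⟩ * f ^ i) := by
        intro i _
        rw [Polynomial.aeval_monomial, map_mul, map_pow, ← hq i]
        rfl
      rw [Finset.sum_congr rfl h1, ← map_sum]
      have h2 : (∑ i ∈ P.support, (⟨j (P.coeff i / P.coeff i1), hint i⟩ : O) * f ^ i) = 0 := by
        apply Subtype.ext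
        rw [AddSubmonoidClass.coe_finsetSum]
        change ∑ i ∈ P.support, j (P.coeff i / P.coeff i1) * (f : K) ^ i = 0
        have h3 : ∑ i ∈ P.support, j (P.coeff i / P.coeff i1) * (f : K) ^ i =
            (j (P.coeff i1))⁻¹ * ∑ i ∈ P.support, j (P.coeff i) * (f : K) ^ i := by
          rw [Finset.mul_sum]
          refine Finset.sum_congr rfl fun i _ => ?_
          rw [map_div₀, div_eq_mul_inv]
          ring
        rw [h3, hsum, mul_zero]
      rw [h2, map_zero]
  obtain ⟨t, hts, ht⟩ := exists_isTranscendenceBasis_subset (R := k) (A := κ) s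
  -- the residues of g
  have hgO : ∀ i, g i ∈ O := by
    intro i
    have h1 := hg (X i) (MvPolynomial.X_ne_zero i)
    rw [aeval_X] at h1
    rw [hO]
    right
    rw [h1.2]
  have hind : AlgebraicIndependent k (fun i => res ⟨g i, hgO i⟩) := by
    rw [algebraicIndependent_iff]
    intro P hP
    by_contra hP0
    have h1 : aeval (fun i => res ⟨g i, hgO i⟩) P = res (aeval (fun i => (⟨g i, hgO i⟩ : O)) P) := by
      rw [← MvPolynomial.comp_aeval_apply]
    rw [h1, hres] at hP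
    have h2 : ((aeval (fun i => (⟨g i, hgO i⟩ : O)) P : O) : K) = aeval g P := by
      have h3 := MvPolynomial.comp_aeval_apply (fun i => (⟨g i, hgO i⟩ : O)) O.val P
      exact h3
    rw [h2] at hP
    obtain ⟨h3, h4⟩ := hg P hP0
    rcases hP with hP | hP
    · exact h3 hP
    · omega
  have hcard := hind.lift_cardinalMk_le_trdeg
  rw [← ht.cardinalMk_eq_trdeg, Cardinal.lift_mk_le'] at hcard
  obtain ⟨e⟩ := hcard
  have hex : ∀ i : Fin m, ∃ (a : K₀) (ha : j a ∈ O), res ⟨j a, ha⟩ = (e i : κ) := by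
    intro i
    have h1 := hts (e i).2
    rw [hs] at h1
    exact h1
  choose g₀ hg₀ hg₀' using hex
  have hind₀ : AlgebraicIndependent k (fun i => res ⟨j (g₀ i), hg₀ i⟩) := by
    have h1 := ht.1.comp e e.injective
    have h2 : (fun i => res ⟨j (g₀ i), hg₀ i⟩) = ((↑) : t → κ) ∘ e := by
      funext i
      exact hg₀' i
    rw [h2]
    exact h1
  refine ⟨g₀, fun P hP => ?_⟩
  have h1 : ((aeval (fun i => (⟨j (g₀ i), hg₀ i⟩ : O)) P : O) : K) = j (aeval g₀ P) := by
    have h3 := MvPolynomial.comp_aeval_apply (fun i => (⟨j (g₀ i), hg₀ i⟩ : O)) O.val P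
    have h4 := MvPolynomial.comp_aeval_apply g₀ j P
    exact h3.trans h4.symm
  have h2 : res (aeval (fun i => (⟨j (g₀ i), hg₀ i⟩ : O)) P) ≠ 0 := by
    rw [MvPolynomial.comp_aeval_apply]
    intro h
    exact hP ((algebraicIndependent_iff.1 hind₀) P h)
  have h3 : ¬ v.ge 1 (j (aeval g₀ P)) := by
    intro h
    apply h2
    rw [hres, h1]
    exact h
  have h4 : v.ge 0 (j (aeval g₀ P)) := by
    rw [← h1, ← hO]
    exact (aeval (fun i => (⟨j (g₀ i), hg₀ i⟩ : O)) P : O).2
  have h5 : j (aeval g₀ P) ≠ 0 := fun h => h3 (Or.inl h)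
  refine ⟨fun h => h5 (by rw [h, map_zero]), ?_⟩
  rcases h4 with h4 | h4
  · exact absurd h4 h5
  · have h6 : ¬ 1 ≤ v.ord (j (aeval g₀ P)) := fun h => h3 (Or.inr h)
    omega

end d4

theorem exists_restrict {k K₀ K : Type u} [Field k] [Field K₀] [Algebra k K₀] [Field K]
    [Algebra k K] {n : ℕ} (j : K₀ →ₐ[k] K) (hj : AlgOver j) (E : Dv k K n) :
    ∃ (E₀ : Dv k K₀ n) (ρ : ℕ), 0 < ρ ∧ ∀ a, a ≠ 0 → E.ord (j a) = ρ * E₀.ord a := by
  obtain ⟨ρ, hρ, hdvd, b, hb0, hb⟩ := d4_index j E.v (d4_ne j hj E.v E.ord_surj')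
  have hρ' : (0 : ℤ) < ρ := by exact_mod_cast hρ
  have hm : ∀ a : K₀, a ≠ 0 → E.ord (j a) = ρ * (E.ord (j a) / ρ) := fun a ha =>
    (Int.mul_ediv_cancel' (hdvd a ha)).symm
  obtain ⟨g, hg⟩ := E.residue'
  obtain ⟨g₀, hg₀⟩ := d4_res j hj E.v g hg
  refine ⟨{ ord := fun a => E.ord (j a) / ρ
            ord_mul' := ?_
            ord_add' := ?_
            ord_const' := ?_
            ord_surj' := ?_
            residue' := ?_ }, ρ, hρ, hm⟩
  · intro f h hf hh
    have h1 := E.ord_mul' (j f) (j h) ((map_ne_zero j).2 hf) ((map_ne_zero j).2 hh)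
    rw [← map_mul, hm _ (mul_ne_zero hf hh), hm _ hf, hm _ hh, ← mul_add] at h1
    exact Int.eq_of_mul_eq_mul_left hρ'.ne' h1
  · intro f h hf hh hfh
    have h1 := E.ord_add' (j f) (j h) ((map_ne_zero j).2 hf) ((map_ne_zero j).2 hh)
      (by rw [← map_add]; exact (map_ne_zero j).2 hfh)
    rw [← map_add, hm _ hfh, hm _ hf, hm _ hh] at h1
    rcases min_le_iff.1 h1 with h2 | h2
    · exact (min_le_left _ _).trans (le_of_mul_le_mul_left h2 hρ')
    · exact (min_le_right _ _).trans (le_of_mul_le_mul_left h2 hρ')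
  · intro c hc
    change E.ord (j (algebraMap k K₀ c)) / ρ = 0
    rw [AlgHom.commutes, E.ord_const' c hc, Int.zero_ediv]
  · refine ⟨b, hb0, ?_⟩
    change E.ord (j b) / ρ = 1
    have h1 : E.ord (j b) = ρ := hb
    rw [h1, Int.ediv_self hρ'.ne']
  · refine ⟨g₀, fun P hP => ?_⟩
    obtain ⟨h1, h2⟩ := hg₀ P hP
    refine ⟨h1, ?_⟩
    change E.ord (j (aeval g₀ P)) / ρ = 0
    have h3 : E.ord (j (aeval g₀ P)) = 0 := h2
    rw [h3, Int.zero_ediv]

end M5
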