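import Pool.Agent.M5.D6a
import Pool.Agent.MLD.ArcVR

/-!
PROJECT M5, PIECE D6b: the inertia group is a cyclic group, and the orders of the invariant functions are
divisible by its order.

PROOF. Let `H = iner G v`. (1) `H` is a subgroup: for `g ∈ H`, `v.ge 0 x` implies `v.ge 0 (g x)`
(`g x = x + (g x - x)`); products `g h x - x = g (h x - x) + (g x - x)`: need `v.ge 1 (g y)` for `v.ge 1 y`:
`y = t y'` with `v.ord t = 1`, `v.ge 0 y'`, `v.ge 1 (g t)` since `g t - t` and `t` have order `≥ 1`. `g` has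
finite order, so `g⁻¹` is a power of `g`. (2) `v.ord (g x) = v.ord x`: for `x` of order `0`:
`g x = x + (order ≥ 1)`; `v.ord (g t) ≥ 1`, and `g ^ r = 1` gives `v.ord (g t) = 1` (`x = t ^ m * w`).
(3) `χ(g)` = residue of `g t / t` in the residue field `κ` (`exists_vr`): `g h t / t = g (h t / t) * (g t / t)` and
`g` is trivial on residues: `χ` is multiplicative, `H → κˣ`. (4) If `χ(g) = 1` then `g = 1`: let
`y = g x - x ≠ 0`, `y = t ^ m * w`: `g y / y = (g t / t) ^ m * (g w / w)` has residue `1`, so `g ^ i y / y` has residue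
`1`, `0 = g ^ r x - x = ∑ i < r, g ^ i y = y * (r + order ≥ 1)`, contradiction (char 0).
(5) `H` is isomorphic to a finite subgroup of `κˣ`, so cyclic. (6) `f` with `g f = f` for all `g ∈ H`,
`f = t ^ m * w`: `χ(g) ^ m = 1` for a generator `g`, whose order is `Nat.card H`.
-/

set_option autoImplicit false

open MLD MvPolynomial

namespace M5

universe u

section
variable {k K : Type u} [Field k] [Field K] [Algebra k K] {G : Subgroup (K ≃ₐ[k] K)}
  {v : OrdFn k K} {t : K}

private theorem d6b_ge0 {g : K ≃ₐ[k] K} (hg : g ∈ iner G v) {x : K} (hx : v.ge 0 x) :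
    v.ge 0 (g x) := by
  have h := v.ge_add (v.ge_mono (by norm_num : (0 : ℤ) ≤ 1) (hg.2 x hx)) hx
  rwa [sub_add_cancel] at h

private theorem d6b_t (ht1 : v.ord t = 1) {g : K ≃ₐ[k] K} (hg : g ∈ iner G v) :
    v.ge 1 (g t) := by
  have h1 : v.ge 1 t := Or.inr ht1.ge
  have h := v.ge_add (hg.2 t (v.ge_mono (by norm_num) h1)) h1
  rwa [sub_add_cancel] at h

private theorem d6b_div (ht : t ≠ 0) (ht1 : v.ord t = 1) {N : ℤ} {y : K} (hy : v.ge (N + 1) y) :
    v.ge N (y / t) := by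
  rcases hy with rfl | hy
  · rw [zero_div]
    exact v.ge_zero N
  · by_cases h0 : y = 0
    · rw [h0, zero_div]
      exact v.ge_zero N
    · right
      rw [v.ord_div h0 ht, ht1]
      omega

private theorem d6b_ge1 (ht : t ≠ 0) (ht1 : v.ord t = 1) {g : K ≃ₐ[k] K} (hg : g ∈ iner G v)
    {y : K} (hy : v.ge 1 y) : v.ge 1 (g y) := by
  have h1 : v.ge 0 (y / t) := d6b_div ht ht1 (by rwa [zero_add])
  have h2 := v.ge_mul (d6b_t ht1 hg) (d6b_ge0 hg h1)
  rwa [← map_mul, mul_div_cancel₀ _ ht, add_zero] at h2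

private theorem d6b_mul (ht : t ≠ 0) (ht1 : v.ord t = 1) {g h : K ≃ₐ[k] K}
    (hg : g ∈ iner G v) (hh : h ∈ iner G v) : g * h ∈ iner G v := by
  refine ⟨mul_mem hg.1 hh.1, fun x hx => ?_⟩
  have h1 := v.ge_add (d6b_ge1 ht ht1 hg (hh.2 x hx)) (hg.2 x hx)
  rw [map_sub, sub_add_sub_cancel] at h1
  exact h1

private theorem d6b_sub [Finite G] (ht : t ≠ 0) (ht1 : v.ord t = 1) :
    ∃ H : Subgroup (K ≃ₐ[k] K), (H : Set (K ≃ₐ[k] K)) = iner G v := by
  have hone : (1 : K ≃ₐ[k] K) ∈ iner G v := by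
    refine ⟨one_mem _, fun x _ => ?_⟩
    rw [AlgEquiv.one_apply, sub_self]
    exact v.ge_zero 1
  refine ⟨{ carrier := iner G v, mul_mem' := fun hg hh => d6b_mul ht ht1 hg hh,
            one_mem' := hone, inv_mem' := ?_ }, rfl⟩
  intro g hg
  have hg' : g ∈ iner G v := hg
  have hpow : ∀ n : ℕ, g ^ n ∈ iner G v := by
    intro n
    induction n with
    | zero =>
      rw [pow_zero]
      exact hone
    | succ n ih =>
      rw [pow_succ]
      exact d6b_mul ht ht1 ih hg'
  obtain ⟨n, hn, h1⟩ := (isOfFinOrder_of_finite (⟨g, hg'.1⟩ : G)).exists_pow_eq_one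
  have h2 : g ^ n = 1 := by
    have h3 := congrArg Subtype.val h1
    simpa using h3
  have h3 : g⁻¹ = g ^ (n - 1) := by
    apply inv_eq_of_mul_eq_one_right
    rw [← pow_succ', Nat.sub_add_cancel hn, h2]
  show g⁻¹ ∈ iner G v
  rw [h3]
  exact hpow _

private theorem d6b_zpow (v : OrdFn k K) {a : K} (ha : a ≠ 0) (m : ℤ) :
    v.ord (a ^ m) = m * v.ord a := by
  rcases Int.eq_nat_or_neg m with ⟨n, rfl | rfl⟩
  · rw [zpow_natCast, v.ord_pow ha]
  · rw [zpow_neg, zpow_natCast, v.ord_inv _ (pow_ne_zero _ ha), v.ord_pow ha]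
    ring

private theorem d6b_ord (ht : t ≠ 0) (ht1 : v.ord t = 1) {H : Subgroup (K ≃ₐ[k] K)}
    (hH : (H : Set (K ≃ₐ[k] K)) = iner G v) {g : K ≃ₐ[k] K} (hg : g ∈ H) {x : K}
    (hx : x ≠ 0) : v.ord (g x) = v.ord x := by
  have hi : ∀ g ∈ H, g ∈ iner G v := by
    intro g hg
    rw [← hH]
    exact hg
  have hgt0 : g t ≠ 0 := (map_ne_zero g).2 ht
  have h1 : v.ord (g t) = 1 := by
    apply le_antisymm
    · by_contra hcon
      rw [not_le] at hcon
      have h2 : v.ge 1 (g t / t) := d6b_div ht ht1 (Or.inr (by omega))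
      have h3 := v.ge_mul (d6b_t ht1 (hi _ (inv_mem hg))) (d6b_ge1 ht ht1 (hi _ (inv_mem hg)) h2)
      rw [← map_mul, mul_div_cancel₀ _ ht] at h3
      have h4 : (g⁻¹ : K ≃ₐ[k] K) (g t) = t := g.symm_apply_apply t
      rw [h4] at h3
      rcases h3 with h3 | h3
      · exact ht h3
      · omega
    · rcases d6b_t ht1 (hi _ hg) with h | h
      · exact absurd h hgt0
      · exact h
  obtain ⟨w, hw⟩ : ∃ w, w = x / t ^ (v.ord x) := ⟨_, rfl⟩
  have htm : t ^ (v.ord x) ≠ 0 := zpow_ne_zero _ ht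
  have hw0 : w ≠ 0 := by
    rw [hw]
    exact div_ne_zero hx htm
  have hw1 : v.ord w = 0 := by
    rw [hw, v.ord_div hx htm, d6b_zpow v ht, ht1]
    ring
  have hgw : v.ord (g w) = 0 := by
    have h2 := v.ord_add_eq (f := w) (g := g w - w) hw0
      (by rw [hw1, zero_add]; exact (hi _ hg).2 w (Or.inr hw1.ge))
    rw [add_sub_cancel, hw1] at h2
    exact h2.2
  have hx1 : g x = g t ^ (v.ord x) * g w := by
    rw [← map_zpow₀, ← map_mul, hw, mul_div_cancel₀ _ htm]
  rw [hx1, v.ord_mul (zpow_ne_zero _ hgt0) ((map_ne_zero g).2 hw0), d6b_zpow v hgt0, h1, hgw]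
  ring

private theorem d6b_ord_ge (ht : t ≠ 0) (ht1 : v.ord t = 1) {H : Subgroup (K ≃ₐ[k] K)}
    (hH : (H : Set (K ≃ₐ[k] K)) = iner G v) {g : K ≃ₐ[k] K} (hg : g ∈ H) {x : K} {N : ℤ}
    (hx : v.ge N x) : v.ge N (g x) := by
  by_cases h0 : x = 0
  · rw [h0, map_zero]
    exact v.ge_zero N
  · rcases hx with h | h
    · exact absurd h h0
    · right
      rw [d6b_ord ht ht1 hH hg h0]
      exact h

/-- an automorphism with trivial action on the graded ring is trivial -/
private theorem d6b_triv [CharZero k] (ht : t ≠ 0) (ht1 : v.ord t = 1)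
    {H : Subgroup (K ≃ₐ[k] K)} (hH : (H : Set (K ≃ₐ[k] K)) = iner G v) {g : K ≃ₐ[k] K}
    (hg : g ∈ H) {r : ℕ} (hr : 0 < r) (hgr : g ^ r = 1)
    (h : ∀ z : K, z ≠ 0 → v.ge (v.ord z + 1) (g z - z)) : g = 1 := by
  by_contra hne
  obtain ⟨x, hx⟩ : ∃ x, g x ≠ x := by
    by_contra hcon
    push Not at hcon
    exact hne (AlgEquiv.ext hcon)
  obtain ⟨y, hy⟩ : ∃ y, y = g x - x := ⟨_, rfl⟩
  have hy0 : y ≠ 0 := by
    rw [hy]
    exact sub_ne_zero.2 hx
  have h1 : ∀ i : ℕ, v.ge (v.ord y + 1) ((g ^ i) y - y) := by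
    intro i
    induction i with
    | zero =>
      rw [pow_zero, AlgEquiv.one_apply, sub_self]
      exact v.ge_zero _
    | succ i ih =>
      have h2 := v.ge_add (d6b_ord_ge ht ht1 hH hg ih) (h y hy0)
      rw [map_sub, sub_add_sub_cancel] at h2
      rw [pow_succ']
      exact h2
  have h2 : ∑ i ∈ Finset.range r, (g ^ i) y = 0 := by
    have h3 : ∀ i ∈ Finset.range r, (g ^ i) y = (g ^ (i + 1)) x - (g ^ i) x := by
      intro i _
      rw [hy, map_sub, pow_succ]
      rfl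
    rw [Finset.sum_congr rfl h3, Finset.sum_range_sub (fun i => (g ^ i) x), hgr, pow_zero,
      sub_self]
  have h3 := v.ge_sum (Finset.range r) (fun i => (g ^ i) y - y) (fun i _ => h1 i)
  rw [Finset.sum_sub_distrib, h2, zero_sub, Finset.sum_const, Finset.card_range,
    nsmul_eq_mul] at h3
  have h4 : ((r : ℕ) : K) = algebraMap k K (r : k) := by
    rw [map_natCast]
  have h5 : ((r : ℕ) : k) ≠ 0 := Nat.cast_ne_zero.2 hr.ne'
  have h6 : ((r : ℕ) : K) ≠ 0 := by
    rw [h4]
    exact (map_ne_zero _).2 h5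
  rcases h3 with h3 | h3
  · exact mul_ne_zero h6 hy0 (neg_eq_zero.1 h3)
  · rw [v.ord_neg _ (mul_ne_zero h6 hy0), v.ord_mul h6 hy0, h4, v.ord_algebraMap h5] at h3
    omega

end

theorem iner_cyclic {k K : Type u} [Field k] [CharZero k] [Field K] [Algebra k K]
    (G : Subgroup (K ≃ₐ[k] K)) [Finite G] (v : OrdFn k K) (hv : ∃ t : K, t ≠ 0 ∧ v.ord t = 1) :
    ∃ H : Subgroup (K ≃ₐ[k] K), H ≤ G ∧ (H : Set (K ≃ₐ[k] K)) = iner G v ∧ IsCyclic H ∧
      ∀ f : K, f ≠ 0 → (∀ g ∈ H, g f = f) → ((Nat.card H : ℕ) : ℤ) ∣ v.ord f := by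
  classical
  obtain ⟨t, ht, ht1⟩ := hv
  obtain ⟨H, hH⟩ := d6b_sub (G := G) (v := v) ht ht1
  have hi : ∀ g ∈ H, g ∈ iner G v := by
    intro g hg
    rw [← hH]
    exact hg
  have hHG : H ≤ G := fun g hg => (hi g hg).1
  have hfin : Finite H := Finite.of_injective _ (Subgroup.inclusion_injective hHG)
  obtain ⟨O, hO, κ, _, _, res, hsurj, hres⟩ := exists_vr v
  have hmem : ∀ (g : H) (z : Kˣ), g.1 (z : K) / (z : K) ∈ O := by
    intro g z
    rw [hO]
    right
    rw [v.ord_div ((map_ne_zero g.1).2 z.ne_zero) z.ne_zero, d6b_ord ht ht1 hH g.2 z.ne_zero,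
      sub_self]
  have hcong : ∀ a b : O, v.ge 1 ((a : K) - b) → res a = res b := by
    intro a b hab
    rw [← sub_eq_zero, ← map_sub, hres]
    exact hab
  let φ : H → (Kˣ →* κ) := fun g =>
    { toFun := fun z => res ⟨g.1 (z : K) / (z : K), hmem g z⟩
      map_one' := by
        rw [← map_one res]
        congr 1
        apply Subtype.ext
        simp
      map_mul' := fun z z' => by
        rw [← map_mul res]
        congr 1
        apply Subtype.ext
        show g.1 (((z * z' : Kˣ) : K)) / ((z * z' : Kˣ) : K) =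
          g.1 (z : K) / (z : K) * (g.1 (z' : K) / (z' : K))
        rw [Units.val_mul, map_mul]
        field_simp }
  have hφ1 : ∀ (g : H) (w : Kˣ), v.ord (w : K) = 0 → φ g w = 1 := by
    intro g w hw
    show res ⟨g.1 (w : K) / (w : K), hmem g w⟩ = 1
    rw [← map_one res]
    apply hcong
    have h1 := v.ge_mul ((hi g.1 g.2).2 (w : K) (Or.inr hw.ge))
      (Or.inr (by rw [v.ord_inv _ w.ne_zero, hw, neg_zero]) : v.ge 0 ((w : K)⁻¹))
    rw [add_zero] at h1
    have h2 : (g.1 (w : K) - (w : K)) * (w : K)⁻¹ = g.1 (w : K) / (w : K) - 1 := by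
      have := w.ne_zero
      field_simp
    rw [h2] at h1
    exact h1
  let T : Kˣ := Units.mk0 t ht
  let χ : H →* κ :=
    { toFun := fun g => φ g T
      map_one' := by
        show res ⟨(1 : H).1 (T : K) / (T : K), hmem 1 T⟩ = 1
        rw [← map_one res]
        congr 1
        apply Subtype.ext
        show t / t = 1
        exact div_self ht
      map_mul' := fun g h => by
        show res ⟨(g * h).1 (T : K) / (T : K), hmem (g * h) T⟩ =
          res ⟨g.1 (T : K) / (T : K), hmem g T⟩ * res ⟨h.1 (T : K) / (T : K), hmem h T⟩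
        rw [← map_mul res]
        apply hcong
        show v.ge 1 (g.1 (h.1 t) / t - g.1 t / t * (h.1 t / t))
        have h1 : v.ge 0 (h.1 t / t) := (hO _).1 (hmem h T)
        have h2 := v.ge_mul ((hO _).1 (hmem g T)) ((hi g.1 g.2).2 _ h1)
        rw [zero_add] at h2
        have h3 : g.1 t / t * (g.1 (h.1 t / t) - h.1 t / t) =
            g.1 (h.1 t) / t - g.1 t / t * (h.1 t / t) := by
          have h4 : g.1 t ≠ 0 := (map_ne_zero g.1).2 ht
          rw [map_div₀]
          field_simp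
        rw [← h3]
        exact h2 }
  have key : ∀ (g : H) (z : Kˣ), (φ g).toHomUnits z = χ.toHomUnits g ^ (v.ord (z : K)) := by
    intro g z
    have h1 : z = T ^ (v.ord (z : K)) * (z * (T ^ (v.ord (z : K)))⁻¹) := by
      rw [mul_comm z, mul_inv_cancel_left]
    have h2 : (φ g).toHomUnits (z * (T ^ (v.ord (z : K)))⁻¹) = 1 := by
      apply Units.ext
      show φ g (z * (T ^ (v.ord (z : K)))⁻¹) = 1
      apply hφ1
      rw [Units.val_mul, Units.val_inv_eq_inv_val, Units.val_zpow_eq_zpow_val]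
      show v.ord ((z : K) * (t ^ (v.ord (z : K)))⁻¹) = 0
      rw [v.ord_mul z.ne_zero (inv_ne_zero (zpow_ne_zero _ ht)),
        v.ord_inv _ (zpow_ne_zero _ ht), d6b_zpow v ht, ht1]
      ring
    have h3 : (φ g).toHomUnits T = χ.toHomUnits g := Units.ext rfl
    calc (φ g).toHomUnits z = (φ g).toHomUnits
          (T ^ (v.ord (z : K)) * (z * (T ^ (v.ord (z : K)))⁻¹)) := by rw [← h1]
      _ = χ.toHomUnits g ^ (v.ord (z : K)) := by
        rw [map_mul, h2, mul_one, map_zpow, h3]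
  have hinj : Function.Injective χ := by
    rw [injective_iff_map_eq_one]
    intro g hg
    have h1 : χ.toHomUnits g = 1 := Units.ext hg
    apply Subtype.ext
    obtain ⟨r, hr, hgr⟩ := (isOfFinOrder_of_finite g).exists_pow_eq_one
    refine d6b_triv ht ht1 hH g.2 hr (by simpa using congrArg Subtype.val hgr) fun z hz => ?_
    have h2 := key g (Units.mk0 z hz)
    rw [h1, one_zpow] at h2
    have h3 : φ g (Units.mk0 z hz) = 1 := congrArg Units.val h2
    have h4 : res (⟨g.1 z / z, hmem g (Units.mk0 z hz)⟩ - 1) = 0 := by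
      rw [map_sub, map_one, sub_eq_zero]
      exact h3
    rw [hres] at h4
    have h5 : v.ge 1 (g.1 z / z - 1) := h4
    have h6 := v.ge_mul h5 (v.ge_self z)
    rw [sub_mul, div_mul_cancel₀ _ hz, one_mul, add_comm] at h6
    exact h6
  have hcyc : IsCyclic H := isCyclic_of_injective_ringHom χ hinj
  refine ⟨H, hHG, hH, hcyc, fun f hf hfix => ?_⟩
  obtain ⟨g, hg⟩ := hcyc.exists_generator
  have h1 := key g (Units.mk0 f hf)
  have h2 : (φ g).toHomUnits (Units.mk0 f hf) = 1 := by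
    apply Units.ext
    show res ⟨g.1 f / f, hmem g (Units.mk0 f hf)⟩ = 1
    rw [← map_one res]
    congr 1
    apply Subtype.ext
    show g.1 f / f = 1
    rw [hfix g.1 g.2, div_self hf]
  rw [h2, ← map_zpow] at h1
  have h3 : χ (g ^ (v.ord f)) = 1 := congrArg Units.val h1.symm
  have h4 : g ^ (v.ord f) = 1 := (injective_iff_map_eq_one χ).1 hinj _ h3
  rw [← orderOf_dvd_iff_zpow_eq_one, orderOf_eq_card_of_forall_mem_zpowers hg] at h4
  exact h4

end M5
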