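import Pool.Agent.M5.D6a
import Pool.Agent.M5.D6b

/-!
PROJECT M5, PIECE D6: every divisor over a quotient is unramified over a quotient by a cyclic group.

PROOF. `F, e` from `exists_over`, `H` from `iner_cyclic`, `Nat.card H = e`. `E₁.ord f := F.ord f / e` on
`fixedField H` (divisible, so an order function; `fixedField G ≤ fixedField H`). `ord_surj'`, `residue'`
from `E` (the elements of `fixedField G`: `E₁.ord f = E.ord f`).
-/

set_option autoImplicit false

open MLD MvPolynomial

namespace M5

universe u

theorem exists_inert {k K : Type u} [Field k] [CharZero k] [Field K] [Algebra k K] {n : ℕ}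
    (G : Subgroup (K ≃ₐ[k] K)) [Finite G] (E : Dv k (IntermediateField.fixedField G) n) :
    ∃ (H : Subgroup (K ≃ₐ[k] K)) (E₁ : Dv k (IntermediateField.fixedField H) n), H ≤ G ∧
      IsCyclic H ∧ ∀ (f : K) (hG : f ∈ IntermediateField.fixedField G)
        (hH : f ∈ IntermediateField.fixedField H), f ≠ 0 → E₁.ord ⟨f, hH⟩ = E.ord ⟨f, hG⟩ := by
  obtain ⟨F, e, he, hF, hcard⟩ := exists_over G E
  obtain ⟨H, hHG, hHset, hcyc, hdvd⟩ := iner_cyclic G F.v F.ord_surj'
  have hcardH : Nat.card H = e := by
    rw [← hcard, ← hHset]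
    rfl
  rw [hcardH] at hdvd
  have he' : (e : ℤ) ≠ 0 := by exact_mod_cast he.ne'
  have he0 : (0 : ℤ) < e := by exact_mod_cast he
  have hle : IntermediateField.fixedField G ≤ IntermediateField.fixedField H := by
    intro f hf
    rw [IntermediateField.mem_fixedField_iff] at hf ⊢
    exact fun g hg => hf g (hHG hg)
  have hd : ∀ f : IntermediateField.fixedField H, f ≠ 0 → (e : ℤ) ∣ F.ord (f : K) := by
    intro f hf
    refine hdvd f (fun h => hf (Subtype.ext h)) ?_
    exact (IntermediateField.mem_fixedField_iff H (f : K)).1 f.2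
  have hv : ∀ f : IntermediateField.fixedField G, f ≠ 0 →
      F.ord (f : K) / (e : ℤ) = E.ord f := by
    intro f hf
    rw [hF f hf, Int.mul_ediv_cancel_left _ he']
  let ι : IntermediateField.fixedField G →ₐ[k] IntermediateField.fixedField H :=
    IntermediateField.inclusion hle
  have hι : ∀ f : IntermediateField.fixedField G, ((ι f : IntermediateField.fixedField H) : K) =
      (f : K) := fun f => rfl
  refine ⟨H, { ord := fun f => F.ord (f : K) / (e : ℤ), ord_mul' := ?_, ord_add' := ?_,
               ord_const' := ?_, ord_surj' := ?_, residue' := ?_ }, hHG, hcyc, ?_⟩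
  · intro f g hf hg
    have hf' : (f : K) ≠ 0 := fun h => hf (Subtype.ext h)
    have hg' : (g : K) ≠ 0 := fun h => hg (Subtype.ext h)
    have h1 : F.ord ((f * g : IntermediateField.fixedField H) : K) =
        F.ord (f : K) + F.ord (g : K) := F.ord_mul' _ _ hf' hg'
    simp only [h1]
    exact Int.add_ediv_of_dvd_left (hd f hf)
  · intro f g hf hg hfg
    have hf' : (f : K) ≠ 0 := fun h => hf (Subtype.ext h)
    have hg' : (g : K) ≠ 0 := fun h => hg (Subtype.ext h)
    have hfg' : (f : K) + (g : K) ≠ 0 := fun h => hfg (Subtype.ext h)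
    have h1 := F.ord_add' _ _ hf' hg' hfg'
    rcases min_le_iff.1 h1 with h2 | h2
    · exact (min_le_left _ _).trans (Int.ediv_le_ediv he0 h2)
    · exact (min_le_right _ _).trans (Int.ediv_le_ediv he0 h2)
  · intro c hc
    have h1 : F.ord ((algebraMap k (IntermediateField.fixedField H) c :
        IntermediateField.fixedField H) : K) = 0 := F.ord_const' c hc
    simp only [h1, Int.zero_ediv]
  · obtain ⟨f, hf, hf1⟩ := E.ord_surj'
    refine ⟨ι f, ?_, ?_⟩
    · intro h
      exact hf (ι.toRingHom.injective (by rw [map_zero]; exact h))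
    · simp only [hι, hv f hf, hf1]
  · obtain ⟨g, hg⟩ := E.residue'
    refine ⟨fun i => ι (g i), fun P hP => ?_⟩
    have h1 : aeval (fun i => ι (g i)) P = ι (aeval g P) := by
      rw [← MvPolynomial.comp_aeval (f := g) ι]
      rfl
    obtain ⟨h2, h3⟩ := hg P hP
    rw [h1]
    refine ⟨?_, ?_⟩
    · intro h
      exact h2 (ι.toRingHom.injective (by rw [map_zero]; exact h))
    · simp only [hι, hv _ h2, h3]
  · intro f hG hH hf
    exact hv ⟨f, hG⟩ (fun h => hf (congrArg Subtype.val h))

end M5
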