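import Pool.Agent.M5.QDefs
import Pool.Agent.M5.QB1

/-!
PIECE M5-QD2: groups of diagonal automorphisms and their invariants.

`IsDg.chi`: PROOF. `φ (chi m) = ∏ (α j * x_j) ^ (m j)`, so `a = ∏ α j ^ m j` (`map_zpow₀`, `mul_zpow`; `α j ≠ 0` because `φ` is injective).
`card_smul_mem_lat`: PROOF. `h (chi m) = a • chi m`, so `h ^ i (chi m) = a ^ i • chi m` (`h` is `k`-linear), and `h ^ (Nat.card H) = 1`
(`Subgroup.pow_card_mem`-type / `pow_card_eq_one'` in the group `H`), so `a ^ (card H) = 1` and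
`h (chi (card H • m)) = (h (chi m)) ^ card H = chi (card H • m)` (`chi_nsmul`).
`inv_supp`: PROOF. by `toFF_eq_sum` and `IsDg.chi`, `h (toFF p) = ∑ coeff e p * a_e * chi e`; it is equal to `toFF p`; by `chi_li`
(`linearIndependent_iff'`, the exponents `fun j => (e j : ℤ)` are distinct) `coeff e p * a_e = coeff e p`, so `a_e = 1` for `e` in the support.
`inv_frac`: PROOF. `f = p₀ / q₀` (`IsFractionRing.div_surjective`).  Let `q := ∏ h : H, h (q₀)` (finite product over `H`;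
`Finite` → `Fintype`), a polynomial by `hH`, invariant (reindex the product by `h' * h`: `Fintype.prod_equiv (Equiv.mulLeft h')`), and not `0`.
`f = p / q` with `p := f * q = p₀ * ∏ over h ≠ 1 of h q₀` (`Finset.mul_prod_erase` or `Fintype.prod_eq_mul_prod_compl`), a polynomial, and
`f * q` is invariant as `f` and `q` are.
-/

open MvPolynomial

namespace M5

open MLD

universe u

variable {k : Type u} [Field k]

theorem IsDg.chi {φ : FF k (Fin 3) ≃ₐ[k] FF k (Fin 3)} (h : IsDg φ) (m : Fin 3 → ℤ) :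
    ∃ a : k, a ≠ 0 ∧ φ (chi k m) = algebraMap k _ a * chi k m := by
  obtain ⟨α, hα⟩ := h
  have h0 : ∀ j, α j ≠ 0 := by
    intro j hj
    have h1 := hα j
    rw [hj, map_zero, zero_mul] at h1
    exact xx_ne j ((map_eq_zero φ).1 h1)
  refine ⟨∏ j, α j ^ m j, Finset.prod_ne_zero_iff.2 fun j _ => zpow_ne_zero _ (h0 j), ?_⟩
  unfold M5.chi
  rw [map_prod, map_prod, ← Finset.prod_mul_distrib]
  refine Finset.prod_congr rfl fun j _ => ?_
  rw [map_zpow₀, hα, mul_zpow, map_zpow₀]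

theorem card_smul_mem_lat (H : Subgroup (FF k (Fin 3) ≃ₐ[k] FF k (Fin 3))) [Finite H]
    (hH : ∀ h ∈ H, IsDg h) (m : Fin 3 → ℤ) : Nat.card H • m ∈ lat H := by
  intro h hh
  obtain ⟨a, ha0, ha⟩ := (hH h hh).chi m
  have h1 : ∀ i : ℕ, (h ^ i) (chi k m) = algebraMap k (FF k (Fin 3)) (a ^ i) * chi k m := by
    intro i
    induction i with
    | zero => rw [pow_zero, pow_zero, map_one, one_mul]; rfl
    | succ i ih =>
      rw [pow_succ', AlgEquiv.mul_apply, ih, map_mul, ha, AlgEquiv.commutes, ← mul_assoc,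
        ← map_mul, ← pow_succ]
  have h2 : h ^ Nat.card H = 1 := by
    have h3 : (⟨h, hh⟩ : H) ^ Nat.card H = 1 := pow_card_eq_one'
    exact congrArg Subtype.val h3
  have h3 := h1 (Nat.card H)
  rw [h2] at h3
  have h4 : (1 : FF k (Fin 3)) * chi k m = algebraMap k (FF k (Fin 3)) (a ^ Nat.card H) * chi k m := by
    rw [one_mul]
    exact h3
  have h5 : (1 : FF k (Fin 3)) = algebraMap k (FF k (Fin 3)) (a ^ Nat.card H) :=
    mul_right_cancel₀ (chi_ne m) h4
  rw [chi_nsmul, map_pow, ha, mul_pow, ← map_pow, ← h5, one_mul]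

theorem inv_supp (H : Subgroup (FF k (Fin 3) ≃ₐ[k] FF k (Fin 3))) (hH : ∀ h ∈ H, IsDg h)
    (p : MvPolynomial (Fin 3) k)
    (hp : toFF k (Fin 3) p ∈ IntermediateField.fixedField H) (e : Fin 3 →₀ ℕ)
    (he : coeff e p ≠ 0) : (fun j => (e j : ℤ)) ∈ lat H := by
  classical
  intro h hh
  have h1 : h (toFF k (Fin 3) p) = toFF k (Fin 3) p :=
    (IntermediateField.mem_fixedField_iff _ _).1 hp h hh
  choose a ha0 ha using fun e : Fin 3 →₀ ℕ => (hH h hh).chi fun j => (e j : ℤ)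
  have hli : LinearIndependent k fun e : Fin 3 →₀ ℕ => chi k fun j => (e j : ℤ) := by
    refine (chi_li (k := k)).comp (fun (e : Fin 3 →₀ ℕ) (j : Fin 3) => (e j : ℤ)) ?_
    intro a b hab
    ext j
    exact Int.natCast_inj.1 (congrFun hab j)
  have h2 : ∑ e ∈ p.support, (coeff e p * a e - coeff e p) • chi k (fun j => (e j : ℤ)) = 0 := by
    rw [toFF_eq_sum, map_sum, ← sub_eq_zero, ← Finset.sum_sub_distrib] at h1
    rw [← h1]
    refine Finset.sum_congr rfl fun e _ => ?_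
    rw [map_mul, ha, AlgEquiv.commutes, Algebra.smul_def, map_sub, map_mul]
    ring
  have h3 := linearIndependent_iff'.1 hli p.support (fun e => coeff e p * a e - coeff e p) h2 e
    (mem_support_iff.2 he)
  have h4 : a e = 1 := by
    have h5 : coeff e p * a e = coeff e p * 1 := by
      rw [mul_one]
      exact sub_eq_zero.1 h3
    exact mul_left_cancel₀ he h5
  rw [ha, h4, map_one, one_mul]

theorem inv_frac (H : Subgroup (FF k (Fin 3) ≃ₐ[k] FF k (Fin 3))) [Finite H]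
    (hH : ∀ h ∈ H, ∀ p : MvPolynomial (Fin 3) k, ∃ p', h (toFF k (Fin 3) p) = toFF k (Fin 3) p')
    (f : FF k (Fin 3)) (hf : f ∈ IntermediateField.fixedField H) :
    ∃ p q : MvPolynomial (Fin 3) k, toFF k (Fin 3) p ∈ IntermediateField.fixedField H ∧
      toFF k (Fin 3) q ∈ IntermediateField.fixedField H ∧ toFF k (Fin 3) q ≠ 0 ∧
      f = toFF k (Fin 3) p / toFF k (Fin 3) q := by
  classical
  have := Fintype.ofFinite H
  obtain ⟨p₀, q₀, hq₀, rfl⟩ := IsFractionRing.div_surjective (A := MvPolynomial (Fin 3) k) f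
  change algebraMap (MvPolynomial (Fin 3) k) (FF k (Fin 3)) p₀ /
    algebraMap (MvPolynomial (Fin 3) k) (FF k (Fin 3)) q₀ ∈ _ at hf
  have hq0 : toFF k (Fin 3) q₀ ≠ 0 := by
    intro h
    have h1 : algebraMap (MvPolynomial (Fin 3) k) (FF k (Fin 3)) q₀ = 0 := h
    exact nonZeroDivisors.ne_zero hq₀ ((IsFractionRing.to_map_eq_zero_iff).1 h1)
  choose c hc using fun h : H => hH h.1 h.2 q₀
  have hq : toFF k (Fin 3) (∏ h, c h) = ∏ h : H, h.1 (toFF k (Fin 3) q₀) := by
    rw [map_prod]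
    exact Finset.prod_congr rfl fun h _ => (hc h).symm
  have hqne : toFF k (Fin 3) (∏ h, c h) ≠ 0 := by
    rw [hq]
    exact Finset.prod_ne_zero_iff.2 fun h _ => (map_ne_zero h.1).2 hq0
  have hqi : toFF k (Fin 3) (∏ h, c h) ∈ IntermediateField.fixedField H := by
    rw [IntermediateField.mem_fixedField_iff]
    intro g hg
    rw [hq, map_prod]
    exact Fintype.prod_equiv (Equiv.mulLeft (⟨g, hg⟩ : H)) _ _ fun h => rfl
  have hpe : toFF k (Fin 3) (p₀ * ∏ h ∈ Finset.univ.erase (1 : H), c h) =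
      toFF k (Fin 3) p₀ / toFF k (Fin 3) q₀ * toFF k (Fin 3) (∏ h, c h) := by
    have h1 : toFF k (Fin 3) (c 1) = toFF k (Fin 3) q₀ := (hc 1).symm
    rw [← Finset.mul_prod_erase Finset.univ c (Finset.mem_univ (1 : H)), map_mul, map_mul, h1]
    field_simp
  refine ⟨p₀ * ∏ h ∈ Finset.univ.erase (1 : H), c h, ∏ h, c h, ?_, hqi, hqne, ?_⟩
  · rw [hpe]
    exact mul_mem hf hqi
  · rw [hpe]
    exact (mul_div_cancel_right₀ _ hqne).symm

/-- diagonal automorphisms map polynomials to polynomials -/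
theorem IsDg.poly {φ : FF k (Fin 3) ≃ₐ[k] FF k (Fin 3)} (h : IsDg φ)
    (p : MvPolynomial (Fin 3) k) : ∃ p', φ (toFF k (Fin 3) p) = toFF k (Fin 3) p' := by
  obtain ⟨α, hα⟩ := h
  refine ⟨aeval (fun j => C (α j) * X j) p, ?_⟩
  have h1 : ((φ : FF k (Fin 3) →ₐ[k] FF k (Fin 3)).comp (toFF k (Fin 3))) =
      (toFF k (Fin 3)).comp (aeval fun j => C (α j) * X j) := by
    apply MvPolynomial.algHom_ext
    intro j
    have h2 : toFF k (Fin 3) (C (α j)) = algebraMap k (FF k (Fin 3)) (α j) :=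
      (toFF k (Fin 3)).commutes (α j)
    change φ (xx k j) = toFF k (Fin 3) (aeval (fun j => C (α j) * X j) (X j))
    rw [aeval_X, map_mul, h2]
    exact hα j
  exact DFunLike.congr_fun h1 p

end M5
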