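import Pool.Agent.M5.QD1
import Pool.Agent.M5.QD2
import Pool.Agent.M5.QB1

/-!
PIECE M5-QD3: the quotient by a group of diagonal automorphisms is toric.

`B` = a basis of the lattice `lat H`.  `ρ i j = B j i` (the columns of `B`): `pr n (ρ i) = (vecMul n B) i`.
`quo_iso`: PROOF. `Φ` from `exists_mono`.  `Φ (xx j) = chi (B j)` is invariant (`B j = vecMul (Pi.single j 1) B ∈ lat H` by `hM`), so the
range of `Φ` lies in `fixedField H` (the preimage `{f | Φ f ∈ fixedField H}` is a subfield containing `k` and all `xx j`: for a polynomial by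
`MvPolynomial.induction_on`, for a fraction by division; or: `f = toFF p / toFF q` and `toFF_eq_sum`).  Surjective: `f ∈ fixedField H` is
`toFF p / toFF q` with invariant `p`, `q` (`inv_frac`, `IsDg.poly`), and an invariant `toFF p = ∑ coeff * chi e`, `e ∈ lat H` (`inv_supp`), `e = vecMul n B`,
`chi e = Φ (chi n)`.  `ψ := AlgEquiv.ofBijective (Φ.codRestrict ..)` (injective: a homomorphism of fields).
`quo_R`: PROOF. (→) `Algebra.adjoin_induction` (or `adjoin_le` for the comap): `ψ (chi n)` for `n ∈ SG ρ` is `chi e`,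
`e = vecMul n B ≥ 0`, which is `toFF (monomial _ 1)` (`toFF_monomial`).  (←) `ψ f = toFF p` is invariant, `= ∑ coeff * chi e` with `e ∈ lat H`
(`inv_supp`), `chi e = ψ (chi n)` with `vecMul n B = e ≥ 0`, so `n ∈ SG ρ`; `ψ` is injective.
`quo_m`: PROOF. the same with `n ≠ 0` iff `e ≠ 0` (`det B ≠ 0`): the image of the generator `chi n`, `n ≠ 0`, is `toFF (monomial e 1)`,
`constantCoeff = 0`; conversely for a generator `toFF p`, `constantCoeff p = 0`, only `e ≠ 0` occur.  An ideal generated by a set: `Submodule.span_induction`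
(for the scalars use `quo_R`), or show that the ideals correspond by `Ideal.map` / `Ideal.span_le` with the comap under the ring isomorphism
`torR ≃+* quoR` given by `quo_R`.
-/

open MvPolynomial

namespace M5

open MLD

universe u

variable {k : Type u} [Field k]

private theorem QD3_chi_mem {H : Subgroup (FF k (Fin 3) ≃ₐ[k] FF k (Fin 3))} {m : Fin 3 → ℤ}
    (hm : m ∈ lat H) : chi k m ∈ IntermediateField.fixedField H :=
  (IntermediateField.mem_fixedField_iff _ _).2 hm

/-- the invariant functions are the rational functions in the characters of the rows of `B` -/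
theorem quo_iso (H : Subgroup (FF k (Fin 3) ≃ₐ[k] FF k (Fin 3))) [Finite H]
    (hH : ∀ h ∈ H, IsDg h) (B : Matrix (Fin 3) (Fin 3) ℤ) (hB : B.det ≠ 0)
    (hM : ∀ m, m ∈ lat H ↔ ∃ n : Fin 3 → ℤ, Matrix.vecMul n B = m) :
    ∃ ψ : FF k (Fin 3) ≃ₐ[k] IntermediateField.fixedField H,
      (∀ n, ((ψ (chi k n) : IntermediateField.fixedField H) : FF k (Fin 3)) =
        chi k (Matrix.vecMul n B)) ∧
      ∀ j, ((ψ (xx k j) : IntermediateField.fixedField H) : FF k (Fin 3)) = chi k (B j) := by
  classical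
  obtain ⟨Φ, hΦ, hΦx⟩ := exists_mono (k := k) B hB
  have hpol : ∀ p : MvPolynomial (Fin 3) k, Φ (toFF k (Fin 3) p) ∈
      IntermediateField.fixedField H := by
    intro p
    rw [toFF_eq_sum, map_sum]
    refine sum_mem fun e _ => ?_
    rw [map_mul, hΦ, AlgHom.commutes]
    exact mul_mem (IntermediateField.algebraMap_mem _ _) (QD3_chi_mem ((hM _).2 ⟨_, rfl⟩))
  have hran : ∀ f, Φ f ∈ IntermediateField.fixedField H := by
    intro f
    obtain ⟨p, q, hq, rfl⟩ := IsFractionRing.div_surjective (A := MvPolynomial (Fin 3) k) f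
    rw [map_div₀]
    exact div_mem (hpol p) (hpol q)
  have hsur1 : ∀ p : MvPolynomial (Fin 3) k,
      toFF k (Fin 3) p ∈ IntermediateField.fixedField H → ∃ g, Φ g = toFF k (Fin 3) p := by
    intro p hp
    have h1 : ∀ e : Fin 3 →₀ ℕ, ∃ n : Fin 3 → ℤ, e ∈ p.support →
        Matrix.vecMul n B = fun j => (e j : ℤ) := by
      intro e
      by_cases he : e ∈ p.support
      · obtain ⟨n, hn⟩ := (hM _).1 (inv_supp H hH p hp e (mem_support_iff.1 he))
        exact ⟨n, fun _ => hn⟩
      · exact ⟨0, fun h => absurd h he⟩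
    choose n hn using h1
    refine ⟨∑ e ∈ p.support, algebraMap k (FF k (Fin 3)) (coeff e p) * chi k (n e), ?_⟩
    rw [toFF_eq_sum, map_sum]
    refine Finset.sum_congr rfl fun e he => ?_
    rw [map_mul, hΦ, AlgHom.commutes, hn e he]
  have hsur : ∀ f ∈ IntermediateField.fixedField H, ∃ g, Φ g = f := by
    intro f hf
    obtain ⟨p, q, hp, hq, hq0, rfl⟩ := inv_frac H (fun h hh => (hH h hh).poly) f hf
    obtain ⟨a, ha⟩ := hsur1 p hp
    obtain ⟨b, hb⟩ := hsur1 q hq
    exact ⟨a / b, by rw [map_div₀, ha, hb]⟩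
  let Ψ : FF k (Fin 3) →ₐ[k] IntermediateField.fixedField H :=
    { toFun := fun f => ⟨Φ f, hran f⟩
      map_one' := Subtype.ext (map_one Φ)
      map_mul' := fun a b => Subtype.ext (map_mul Φ a b)
      map_zero' := Subtype.ext (map_zero Φ)
      map_add' := fun a b => Subtype.ext (map_add Φ a b)
      commutes' := fun c => Subtype.ext (Φ.commutes c) }
  have hbij : Function.Bijective Ψ := by
    refine ⟨(Ψ : FF k (Fin 3) →+* IntermediateField.fixedField H).injective, fun f => ?_⟩
    obtain ⟨g, hg⟩ := hsur f.1 f.2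
    exact ⟨g, Subtype.ext hg⟩
  exact ⟨AlgEquiv.ofBijective Ψ hbij, fun n => hΦ n, fun j => hΦx j⟩

private theorem QD3_pre (H : Subgroup (FF k (Fin 3) ≃ₐ[k] FF k (Fin 3)))
    (hH : ∀ h ∈ H, IsDg h) (B : Matrix (Fin 3) (Fin 3) ℤ)
    (hM : ∀ m, m ∈ lat H ↔ ∃ n : Fin 3 → ℤ, Matrix.vecMul n B = m)
    (ψ : FF k (Fin 3) ≃ₐ[k] IntermediateField.fixedField H)
    (hψ : ∀ n, ((ψ (chi k n) : IntermediateField.fixedField H) : FF k (Fin 3)) =
        chi k (Matrix.vecMul n B)) (f : FF k (Fin 3)) (p : MvPolynomial (Fin 3) k)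
    (hf : toFF k (Fin 3) p = ((ψ f : IntermediateField.fixedField H) : FF k (Fin 3))) :
    ∃ n : (Fin 3 →₀ ℕ) → Fin 3 → ℤ,
      (∀ e ∈ p.support, Matrix.vecMul (n e) B = fun j => (e j : ℤ)) ∧
      f = ∑ e ∈ p.support, algebraMap k (FF k (Fin 3)) (coeff e p) * chi k (n e) := by
  classical
  have hp : toFF k (Fin 3) p ∈ IntermediateField.fixedField H := by
    rw [hf]
    exact (ψ f).2
  have h1 : ∀ e : Fin 3 →₀ ℕ, ∃ n : Fin 3 → ℤ, e ∈ p.support →
      Matrix.vecMul n B = fun j => (e j : ℤ) := by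
    intro e
    by_cases he : e ∈ p.support
    · obtain ⟨n, hn⟩ := (hM _).1 (inv_supp H hH p hp e (mem_support_iff.1 he))
      exact ⟨n, fun _ => hn⟩
    · exact ⟨0, fun h => absurd h he⟩
  choose n hn using h1
  refine ⟨n, hn, ψ.injective (Subtype.ext ?_)⟩
  rw [← hf, map_sum, AddSubmonoidClass.coe_finsetSum, toFF_eq_sum]
  refine Finset.sum_congr rfl fun e he => ?_
  rw [map_mul, AlgEquiv.commutes]
  change _ = algebraMap k (FF k (Fin 3)) (coeff e p) *
    ((ψ (chi k (n e)) : IntermediateField.fixedField H) : FF k (Fin 3))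
  rw [hψ, hn e he]

/-- the character of a vector with nonnegative entries is a monomial -/
private theorem QD3_mono (m : Fin 3 → ℤ) (hm : ∀ j, 0 ≤ m j) :
    toFF k (Fin 3) (monomial (Finsupp.equivFunOnFinite.symm fun j => (m j).toNat) 1) =
      chi k m := by
  rw [toFF_monomial, map_one, one_mul]
  congr 1
  funext j
  exact Int.toNat_of_nonneg (hm j)

theorem quo_R (H : Subgroup (FF k (Fin 3) ≃ₐ[k] FF k (Fin 3)))
    (hH : ∀ h ∈ H, IsDg h) (B : Matrix (Fin 3) (Fin 3) ℤ)
    (hM : ∀ m, m ∈ lat H ↔ ∃ n : Fin 3 → ℤ, Matrix.vecMul n B = m)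
    (ψ : FF k (Fin 3) ≃ₐ[k] IntermediateField.fixedField H)
    (hψ : ∀ n, ((ψ (chi k n) : IntermediateField.fixedField H) : FF k (Fin 3)) =
        chi k (Matrix.vecMul n B)) (f : FF k (Fin 3)) :
    f ∈ torR k (fun i j => B j i) ↔ ψ f ∈ quoR H := by
  constructor
  · intro hf
    have h1 : torR k (fun i j => B j i) ≤ (quoR H).comap (ψ : FF k (Fin 3) →ₐ[k] _) := by
      refine Algebra.adjoin_le ?_
      rintro _ ⟨n, hn, rfl⟩
      refine ⟨monomial (Finsupp.equivFunOnFinite.symm fun j => (Matrix.vecMul n B j).toNat) 1, ?_⟩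
      rw [QD3_mono (Matrix.vecMul n B) fun j => hn j]
      exact (hψ n).symm
    exact h1 hf
  · rintro ⟨p, hp⟩
    obtain ⟨n, hn, rfl⟩ := QD3_pre H hH B hM ψ hψ f p hp
    refine sum_mem fun e he => mul_mem (Subalgebra.algebraMap_mem _ _) ?_
    refine Algebra.subset_adjoin ⟨n e, fun i => ?_, rfl⟩
    have h2 : pr (n e) (fun j => B j i) = (e i : ℤ) := congrFun (hn e he) i
    rw [h2]
    exact Int.natCast_nonneg _

theorem quo_m (H : Subgroup (FF k (Fin 3) ≃ₐ[k] FF k (Fin 3)))
    (hH : ∀ h ∈ H, IsDg h) (B : Matrix (Fin 3) (Fin 3) ℤ) (hB : B.det ≠ 0)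
    (hM : ∀ m, m ∈ lat H ↔ ∃ n : Fin 3 → ℤ, Matrix.vecMul n B = m)
    (ψ : FF k (Fin 3) ≃ₐ[k] IntermediateField.fixedField H)
    (hψ : ∀ n, ((ψ (chi k n) : IntermediateField.fixedField H) : FF k (Fin 3)) =
        chi k (Matrix.vecMul n B)) (N : ℕ) (θ : Fin 3 → ℤ)
    (y : Fin 3 → IntermediateField.fixedField H) (g : IntermediateField.fixedField H)
    (f : torR k (fun i j => B j i)) (h : ψ f ∈ quoR H) :
    f ∈ (torGerm k (fun i j => B j i) N θ).m ↔ (⟨ψ f, h⟩ : quoR H) ∈ (quoGerm H N y g).m := by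
  classical
  have hR := quo_R H hH B hM ψ hψ
  constructor
  · intro hf
    let τ : torR k (fun i j => B j i) →+* quoR H :=
      { toFun := fun f => ⟨ψ f, (hR f).1 f.2⟩
        map_one' := Subtype.ext (map_one ψ)
        map_mul' := fun a b => Subtype.ext (map_mul ψ (a : FF k (Fin 3)) b)
        map_zero' := Subtype.ext (map_zero ψ)
        map_add' := fun a b => Subtype.ext (map_add ψ (a : FF k (Fin 3)) b) }
    have h1 : (torGerm k (fun i j => B j i) N θ).m ≤ Ideal.comap τ (quoGerm H N y g).m := by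
      refine Ideal.span_le.2 ?_
      rintro a ⟨n, hn, hn0, ha⟩
      refine Ideal.subset_span ⟨monomial
        (Finsupp.equivFunOnFinite.symm fun j => (Matrix.vecMul n B j).toNat) 1, ?_, ?_⟩
      · rw [constantCoeff_monomial, if_neg]
        intro h0
        apply hn0
        refine Matrix.eq_zero_of_vecMul_eq_zero hB ?_
        funext j
        have h2 := DFunLike.congr_fun h0 j
        have h3 : (Matrix.vecMul n B j).toNat = 0 := h2
        have h4 : 0 ≤ Matrix.vecMul n B j := hn j
        change Matrix.vecMul n B j = 0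
        omega
      · rw [QD3_mono (Matrix.vecMul n B) fun j => hn j]
        have h2 : ((τ a : quoR H) : IntermediateField.fixedField H) = ψ (chi k n) := by
          change ψ (a : FF k (Fin 3)) = _
          rw [ha]
        exact (hψ n).symm.trans (congrArg Subtype.val h2).symm
    exact h1 hf
  · intro hf
    let τ : quoR H →+* torR k (fun i j => B j i) :=
      { toFun := fun f => ⟨ψ.symm f, (hR _).2 (by rw [ψ.apply_symm_apply]; exact f.2)⟩
        map_one' := Subtype.ext (map_one ψ.symm)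
        map_mul' := fun a b => Subtype.ext (map_mul ψ.symm (a : IntermediateField.fixedField H) b)
        map_zero' := Subtype.ext (map_zero ψ.symm)
        map_add' := fun a b =>
          Subtype.ext (map_add ψ.symm (a : IntermediateField.fixedField H) b) }
    have h1 : (quoGerm H N y g).m ≤ Ideal.comap τ (torGerm k (fun i j => B j i) N θ).m := by
      refine Ideal.span_le.2 ?_
      rintro a ⟨p, hp0, hp⟩
      have hp' : toFF k (Fin 3) p = ((ψ (ψ.symm (a : IntermediateField.fixedField H)) :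
          IntermediateField.fixedField H) : FF k (Fin 3)) := by
        rw [ψ.apply_symm_apply]
        exact hp
      obtain ⟨n, hn, hs⟩ := QD3_pre H hH B hM ψ hψ _ p hp'
      have hSG : ∀ e ∈ p.support, n e ∈ SG (fun i j => B j i) := by
        intro e he i
        have h2 : pr (n e) (fun j => B j i) = (e i : ℤ) := congrFun (hn e he) i
        rw [h2]
        exact Int.natCast_nonneg _
      have h3 : τ a = ∑ e ∈ p.support.attach, algebraMap k (torR k (fun i j => B j i))
          (coeff e.1 p) * ⟨chi k (n e.1), Algebra.subset_adjoin ⟨n e.1, hSG _ e.2, rfl⟩⟩ := by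
        apply Subtype.ext
        rw [AddSubmonoidClass.coe_finsetSum]
        change ψ.symm (a : IntermediateField.fixedField H) = _
        rw [hs, ← Finset.sum_attach]
        rfl
      change τ a ∈ (torGerm k (fun i j => B j i) N θ).m
      rw [h3]
      refine sum_mem fun e _ => Ideal.mul_mem_left _ _ (Ideal.subset_span ?_)
      refine ⟨n e.1, hSG _ e.2, fun h0 => ?_, rfl⟩
      have h4 := hn e.1 e.2
      rw [h0, Matrix.zero_vecMul] at h4
      have h5 : e.1 = 0 := by
        ext j
        have h6 := congrFun h4 j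
        have h7 : (0 : ℤ) = (e.1 j : ℤ) := h6
        change e.1 j = 0
        omega
      have h6 := mem_support_iff.1 e.2
      rw [h5] at h6
      exact h6 hp0
    have h2 := h1 hf
    have h3 : τ ⟨ψ f, h⟩ = f := Subtype.ext (ψ.symm_apply_apply (f : FF k (Fin 3)))
    have h4 : τ ⟨ψ f, h⟩ ∈ (torGerm k (fun i j => B j i) N θ).m := h2
    rwa [h3] at h4

end M5
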