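import Pool.Agent.M5.QA
import Pool.Agent.M5.QB2
import Pool.Agent.M5.QD3
import Pool.Agent.M5.QX

/-!
PIECE M5-QD4: Q1 for the quotients by groups of diagonal automorphisms, from toric Q1.

PROOF.  (0) `N • 1 ∈ lat H`: let `h ∈ H`, `h x_j = α j * x_j`.  Take `D` with `jac D xx = 1` (`exists_jac_one` in QX), `D' i = derT h (D i)`:
`jac D' y = h (jac D y)` since `h (y j) = y j` (`jac_derT`), and `jac D' xx`: `h (jac D (h⁻¹ ∘ xx)) = jac D' xx`, `h⁻¹ x_j = (α j)⁻¹ x_j`, so
`jac D' xx = ∏ (α j)⁻¹` (a constant; `D` is linear; `Matrix.det_mul_row`-type or `Matrix.det_fin_three`).  `FormOK` for `D` and `D'`: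
`g * h (jac D y) ^ N = c * (∏ α j)⁻¹ ^ N` and, applying `h` to `g * jac D y ^ N = c`, `g * h (jac D y) ^ N = c`.  So `(∏ α j) ^ N = 1`, and
`h (chi (fun _ => N)) = (∏ α j) ^ N * chi (fun _ => N) = chi (fun _ => N)`.
(1) `B` from `exists_lat_basis` with `card_smul_mem_lat` (`Nat.card H > 0`).  `θ` with `vecMul θ B = fun _ => N` (`hM` and (0)).  `ρ i j = B j i`.
`pr n (ρ i) = (vecMul n B) i`.  Hypotheses of `htor`: `u := vecMul`-preimage of `Nat.card H • 1` (all `pr u (ρ i) = card H > 0`); spanning: `vecMul n B = 0` gives `n = 0`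
(`B.det ≠ 0`, `Matrix.eq_zero_of_vecMul_eq_zero`); `pr θ (ρ i) = N`.
(2) `ψ` from `quo_iso`; `iso_Q1` with `X = quoGerm H N y g`, `X' = torGerm k ρ N θ`, `hR` = `quo_R`, `hm` = `quo_m`, `g ≠ 0` by `FormOK.ne`.
`hω`: for `D` on `fixedField H` let `D'` extend `D` to `FF k (Fin 3)` (`ext_der_alg`; `FF k (Fin 3)` is algebraic over `fixedField H`: `H` is finite,
`IntermediateField.finiteDimensional_of_..`/`FixedPoints`-API: `IsGalois`, e.g. every `f` is a root of `∏ h, (X - C (h f))`).  In `FF k (Fin 3)` (`jac_map` for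
the inclusion): left side `= chi (vecMul (θ - N) B) * jac D' (chi (B j)) ^ N = det B ^ N * (chi 0 * jac D' xx ^ N)` (`form_mono`, `vecMul θ B = N`) and
`g * jac D' y ^ N = c * jac D' xx ^ N`: so `hω` holds with the constant `(det B) ^ N / c`.
-/

open MvPolynomial

namespace M5

open MLD

universe u

variable {k : Type u} [Field k] [CharZero k]

theorem alg_fixed {K : Type u} [Field K] [Algebra k K] (H : Subgroup (K ≃ₐ[k] K)) [Finite H] :
    Algebra.IsAlgebraic (IntermediateField.fixedField H) K := by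
  refine ⟨fun x => ?_⟩
  have h1 : IsIntegral (FixedPoints.subfield H K) x := FixedPoints.isIntegral H K x
  let φ : FixedPoints.subfield H K →+* IntermediateField.fixedField H :=
    { toFun := fun x => ⟨x.1, x.2⟩
      map_one' := rfl
      map_mul' := fun _ _ => rfl
      map_zero' := rfl
      map_add' := fun _ _ => rfl }
  have h2 : IsIntegral (IntermediateField.fixedField H) ((RingHom.id K) x) :=
    h1.map_of_comp_eq φ (RingHom.id K) (by ext y; rfl)
  exact h2.isAlgebraic

theorem lat_N (H : Subgroup (FF k (Fin 3) ≃ₐ[k] FF k (Fin 3))) (hH : ∀ h ∈ H, IsDg h) {N : ℕ}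
    (y : Fin 3 → IntermediateField.fixedField H) (g : IntermediateField.fixedField H)
    (hF : FormOK H N y g) : (fun _ => (N : ℤ)) ∈ lat H := by
  intro h hh
  obtain ⟨α, hα⟩ := hH h hh
  obtain ⟨c, hc, hform⟩ := hF
  obtain ⟨D, hD⟩ := exists_jac_one k
  have hfix : ∀ f : IntermediateField.fixedField H, h (f : FF k (Fin 3)) = f := fun f =>
    f.2 ⟨h, hh⟩
  have e1 : jac (fun i => derT h (D i)) (fun j => (y j : FF k (Fin 3))) =
      h (jac D (fun j => (y j : FF k (Fin 3)))) := by
    have h1 := jac_derT h D (fun j => (y j : FF k (Fin 3)))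
    simp only [hfix] at h1
    exact h1
  set D' : Fin 3 → Derivation k (FF k (Fin 3)) (FF k (Fin 3)) := fun i => derT h (D i) with hD'
  have e2 : (∏ j, algebraMap k (FF k (Fin 3)) (α j)) * jac D' (fun j => xx k j) = 1 := by
    have h1 := jac_derT h D (fun j => (xx k j : FF k (Fin 3)))
    rw [hD, map_one] at h1
    rw [← h1]
    unfold jac
    rw [← Matrix.det_mul_row]
    congr 1
    ext i j
    rw [Matrix.of_apply, Matrix.of_apply, Matrix.of_apply]
    change _ = D' i (h (xx k j))
    rw [hα j, Derivation.leibniz, Derivation.map_algebraMap, smul_zero, add_zero, smul_eq_mul]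
  have e3 : (g : FF k (Fin 3)) * h (jac D (fun j => (y j : FF k (Fin 3)))) ^ N =
      algebraMap k _ c := by
    have h1 := congrArg h (hform D)
    rw [hD, one_pow, mul_one, map_mul, map_pow, hfix, AlgEquiv.commutes] at h1
    exact h1
  have e4 := hform D'
  rw [e1, e3] at e4
  have hc' : algebraMap k (FF k (Fin 3)) c ≠ 0 := (map_ne_zero _).2 hc
  have e5 : jac D' (fun j => xx k j) ^ N = 1 := by
    have h1 : algebraMap k (FF k (Fin 3)) c * jac D' (fun j => xx k j) ^ N =
        algebraMap k (FF k (Fin 3)) c * 1 := by rw [mul_one]; exact e4.symm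
    exact mul_left_cancel₀ hc' h1
  have e6 : (∏ j, algebraMap k (FF k (Fin 3)) (α j)) ^ N = 1 := by
    have h1 := congrArg (· ^ N) e2
    simp only [mul_pow, one_pow] at h1
    rwa [e5, mul_one] at h1
  change h (chi k fun _ => (N : ℤ)) = chi k fun _ => (N : ℤ)
  unfold chi
  rw [map_prod]
  have e7 : ∀ j : Fin 3, h ((xx k j : FF k (Fin 3)) ^ (N : ℤ)) =
      algebraMap k (FF k (Fin 3)) (α j) ^ N * (xx k j : FF k (Fin 3)) ^ (N : ℤ) := by
    intro j
    rw [map_zpow₀, hα j, mul_zpow, zpow_natCast, zpow_natCast]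
  simp only [e7]
  rw [Finset.prod_mul_distrib, Finset.prod_pow, e6, one_mul]

theorem diag_Q1 (htor : ∀ (ρ : Fin 3 → Fin 3 → ℤ) (N : ℕ) (θ : Fin 3 → ℤ), 0 < N →
      (∃ u, ∀ i, 0 < pr u (ρ i)) → (∀ m : Fin 3 → ℤ, (∀ i, pr m (ρ i) = 0) → m = 0) →
      (∀ i, pr θ (ρ i) = N) → (torGerm k ρ N θ).Q1)
    (H : Subgroup (FF k (Fin 3) ≃ₐ[k] FF k (Fin 3))) [Finite H] (hH : ∀ h ∈ H, IsDg h)
    {N : ℕ} (hN : 0 < N) (y : Fin 3 → IntermediateField.fixedField H)
    (g : IntermediateField.fixedField H) (hF : FormOK H N y g) : (quoGerm H N y g).Q1 := by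
  obtain ⟨B, hB, hM⟩ := exists_lat_basis (lat H) (Nat.card H) Nat.card_pos
    (card_smul_mem_lat H hH)
  obtain ⟨θ, hθ⟩ := (hM _).1 (lat_N H hH y g hF)
  have hpr : ∀ (m : Fin 3 → ℤ) (i : Fin 3), pr m (fun j => B j i) = Matrix.vecMul m B i :=
    fun m i => rfl
  have hQ : (torGerm k (fun i j => B j i) N θ).Q1 := by
    refine htor (fun i j => B j i) N θ hN ?_ ?_ ?_
    · obtain ⟨u, hu⟩ := (hM _).1 (card_smul_mem_lat H hH (fun _ => 1))
      refine ⟨u, fun i => ?_⟩
      rw [hpr, hu]
      change 0 < Nat.card H • (1 : ℤ)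
      rw [nsmul_eq_mul, mul_one]
      exact_mod_cast Nat.card_pos
    · intro m hm
      refine Matrix.eq_zero_of_vecMul_eq_zero hB ?_
      funext i
      rw [← hpr, hm i]
      rfl
    · intro i
      rw [hpr, hθ]
  obtain ⟨ψ, hψ, hψx⟩ := quo_iso H hH B hB hM
  have hgne := hF.ne
  obtain ⟨c, hc, hform⟩ := hF
  have hBk : (B.det : k) ≠ 0 := Int.cast_ne_zero.2 hB
  have halg : Algebra.IsAlgebraic (IntermediateField.fixedField H) (FF k (Fin 3)) :=
    alg_fixed H
  refine iso_Q1 (quoGerm H N y g) (torGerm k (fun i j => B j i) N θ) ψ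
    (quo_R H hH B hM ψ hψ) (quo_m H hH B hB hM ψ hψ N θ y g) rfl hN hgne ?_
    (c := (B.det : k) ^ N / c) (div_ne_zero (pow_ne_zero N hBk) hc) ?_ hQ
  · change chi k (fun j => θ j - N) ≠ 0
    unfold chi
    exact Finset.prod_ne_zero_iff.2 fun l _ => zpow_ne_zero _ (xx_ne l)
  · intro D
    have hex := fun i => ext_der_alg (L := FF k (Fin 3)) (D i)
    choose D' hD' using hex
    apply (algebraMap (IntermediateField.fixedField H) (FF k (Fin 3))).injective
    have j1 : jac D' (fun j => chi k (B j)) =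
        algebraMap (IntermediateField.fixedField H) (FF k (Fin 3))
          (jac D (fun j => ψ (xx k j))) := by
      refine jac_map (algebraMap (IntermediateField.fixedField H) (FF k (Fin 3))) D D' _ _
        fun i j => ?_
      rw [← hψx j]
      exact hD' i (ψ (xx k j))
    have j2 : jac D' (fun j => (y j : FF k (Fin 3))) =
        algebraMap (IntermediateField.fixedField H) (FF k (Fin 3)) (jac D y) :=
      jac_map (algebraMap (IntermediateField.fixedField H) (FF k (Fin 3))) D D' _ _
        fun i j => hD' i (y j)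
    have hL : algebraMap (IntermediateField.fixedField H) (FF k (Fin 3))
        (ψ (chi k (fun j => θ j - N)) * jac D (fun j => ψ (xx k j)) ^ N) =
        (B.det : FF k (Fin 3)) ^ N * jac D' (fun j => xx k j) ^ N := by
      rw [map_mul, map_pow, ← j1]
      have h1 : algebraMap (IntermediateField.fixedField H) (FF k (Fin 3))
          (ψ (chi k (fun j => θ j - N))) = chi k (Matrix.vecMul (fun j => θ j - N) B) :=
        hψ (fun j => θ j - N)
      rw [h1, form_mono D' B θ N, hθ]
      have h2 : (fun _ : Fin 3 => (N : ℤ) - N) = 0 := by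
        funext j
        exact sub_self _
      rw [h2, chi_zero, one_mul]
    have hRr : algebraMap (IntermediateField.fixedField H) (FF k (Fin 3))
        (algebraMap k (IntermediateField.fixedField H) ((B.det : k) ^ N / c) *
          (g * jac D y ^ N)) =
        (B.det : FF k (Fin 3)) ^ N * jac D' (fun j => xx k j) ^ N := by
      rw [map_mul, map_mul, map_pow, ← j2]
      have h1 : algebraMap (IntermediateField.fixedField H) (FF k (Fin 3))
          (algebraMap k (IntermediateField.fixedField H) ((B.det : k) ^ N / c)) =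
          algebraMap k (FF k (Fin 3)) ((B.det : k) ^ N / c) :=
        (IsScalarTower.algebraMap_apply k (IntermediateField.fixedField H) (FF k (Fin 3)) _).symm
      have h2 : algebraMap (IntermediateField.fixedField H) (FF k (Fin 3)) g =
          (g : FF k (Fin 3)) := rfl
      rw [h1, h2, hform D', map_div₀, map_pow, map_intCast]
      have hc' : algebraMap k (FF k (Fin 3)) c ≠ 0 := (map_ne_zero _).2 hc
      field_simp
    exact hL.trans hRr.symm

end M5
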