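import Pool.Agent.M5.QE2
import Pool.Agent.M5.QA
import Pool.Agent.M5.QX

/-!
PIECE M5-QE3: conjugate groups.

PROOF.  `ψ` restricts to an isomorphism `e : fixedField H' ≃ₐ[k] fixedField H`: for `f` fixed by `H'` and `h ∈ H`, `h (ψ f) = ψ ((ψ⁻¹ * h * ψ) f) = ψ f`
since `ψ⁻¹ * h * ψ ∈ H'`; and `ψ.symm` maps back (define `e` as an `AlgEquiv` with these two maps, `QE3_e`; `(e f : FF) = ψ f`).
Let `y' j = e.symm (y j)`, `g' = e.symm g`.  (1) `FormOK H' N y' g'`: for `D` on `FF` let `D' i = derT ψ (D i)` (`derT ψ D f = ψ (D (ψ.symm f))`); by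
`jac_derT` `ψ (jac D y') = jac D' y`; so `ψ (g' * jac D y' ^ N) = g * jac D' y ^ N = c * jac D' xx ^ N` (hypothesis), and
`jac D' xx = ψ (jac D (ψ.symm ∘ xx)) = ψ (det (P⁻¹) * jac D xx)` (`HasMat.inv`, `HasMat.jac`), so `g' * jac D y' ^ N = c * det (P⁻¹) ^ N * jac D xx ^ N`
(apply `ψ.symm`), `c' = c * det (P⁻¹) ^ N ≠ 0` (`HasMat.det_ne`).
(2) `iso_Q1` with `X = quoGerm H N y g`, `X' = quoGerm H' N y' g'`, the isomorphism `e`, `c = 1` (both sides are equal: `e (y' j) = y j`).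
`hR`: `f = toFF p` iff `ψ f = toFF p'` by `HasMat.poly` for `ψ` and `ψ.symm`.  `hm`: both ideals are spans; the isomorphism maps the generating set
onto the generating set (`HasMat.poly` keeps `constantCoeff = 0`); `Submodule.span_induction` or `Ideal.map_span`.  `g ≠ 0`, `g' ≠ 0`: `FormOK.ne` (QX).
-/

open MvPolynomial

namespace M5

open MLD

universe u

variable {k : Type u} [Field k]

private theorem QE3_mem {H H' : Subgroup (FF k (Fin 3) ≃ₐ[k] FF k (Fin 3))}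
    {ψ : FF k (Fin 3) ≃ₐ[k] FF k (Fin 3)} (hH : ∀ h ∈ H, ψ⁻¹ * h * ψ ∈ H')
    {f : FF k (Fin 3)} (hf : f ∈ IntermediateField.fixedField H') :
    ψ f ∈ IntermediateField.fixedField H := by
  rw [IntermediateField.mem_fixedField_iff] at hf ⊢
  intro h hh
  have h1 : ψ.symm (h (ψ f)) = f := hf _ (hH h hh)
  rw [AlgEquiv.symm_apply_eq] at h1
  exact h1

/-- the isomorphism of the fixed fields -/
private noncomputable def QE3_e {H H' : Subgroup (FF k (Fin 3) ≃ₐ[k] FF k (Fin 3))}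
    {ψ : FF k (Fin 3) ≃ₐ[k] FF k (Fin 3)} (h1 : ∀ h ∈ H, ψ⁻¹ * h * ψ ∈ H')
    (h2 : ∀ h ∈ H', ψ * h * ψ⁻¹ ∈ H) :
    IntermediateField.fixedField H' ≃ₐ[k] IntermediateField.fixedField H where
  toFun f := ⟨ψ f, QE3_mem h1 f.2⟩
  invFun f := ⟨ψ.symm f, QE3_mem (ψ := ψ.symm) h2 f.2⟩
  left_inv f := Subtype.ext (ψ.symm_apply_apply _)
  right_inv f := Subtype.ext (ψ.apply_symm_apply _)
  map_mul' f g := Subtype.ext (map_mul ψ _ _)
  map_add' f g := Subtype.ext (map_add ψ _ _)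
  commutes' c := Subtype.ext (ψ.commutes c)

private theorem QE3_R {H₁ H₂ : Subgroup (FF k (Fin 3) ≃ₐ[k] FF k (Fin 3))}
    (e : IntermediateField.fixedField H₁ ≃ₐ[k] IntermediateField.fixedField H₂)
    {φ : FF k (Fin 3) ≃ₐ[k] FF k (Fin 3)} {A : Matrix (Fin 3) (Fin 3) k} (hA : HasMat φ A)
    (he : ∀ f, (e f : FF k (Fin 3)) = φ f) (f : IntermediateField.fixedField H₁)
    (hf : f ∈ quoR H₁) : e f ∈ quoR H₂ := by
  obtain ⟨p, hp⟩ := hf
  obtain ⟨p', h1, -⟩ := hA.poly p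
  refine ⟨p', ?_⟩
  rw [← h1, hp, he]

private theorem QE3_m {H₁ H₂ : Subgroup (FF k (Fin 3) ≃ₐ[k] FF k (Fin 3))}
    (e : IntermediateField.fixedField H₁ ≃ₐ[k] IntermediateField.fixedField H₂)
    {φ : FF k (Fin 3) ≃ₐ[k] FF k (Fin 3)} {A : Matrix (Fin 3) (Fin 3) k} (hA : HasMat φ A)
    (he : ∀ f, (e f : FF k (Fin 3)) = φ f) (f : quoR H₁)
    (hf : f ∈ Ideal.span {f : quoR H₁ | ∃ p : MvPolynomial (Fin 3) k, constantCoeff p = 0 ∧
      toFF k (Fin 3) p = ((f : IntermediateField.fixedField H₁) : FF k (Fin 3))}) :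
    (⟨e f, QE3_R e hA he f f.2⟩ : quoR H₂) ∈
      Ideal.span {f : quoR H₂ | ∃ p : MvPolynomial (Fin 3) k, constantCoeff p = 0 ∧
      toFF k (Fin 3) p = ((f : IntermediateField.fixedField H₂) : FF k (Fin 3))} := by
  let E : quoR H₁ →+* quoR H₂ :=
    { toFun := fun f => ⟨e f, QE3_R e hA he f f.2⟩
      map_one' := Subtype.ext (map_one e)
      map_zero' := Subtype.ext (map_zero e)
      map_mul' := fun f g => Subtype.ext (map_mul e _ _)
      map_add' := fun f g => Subtype.ext (map_add e _ _) }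
  have h1 := Ideal.mem_map_of_mem E hf
  rw [Ideal.map_span] at h1
  refine Ideal.span_mono ?_ h1
  rintro _ ⟨f, ⟨p, hp0, hp⟩, rfl⟩
  obtain ⟨p', h2, h3⟩ := hA.poly p
  refine ⟨p', by rw [h3, hp0], ?_⟩
  rw [← h2, hp]
  exact (he f).symm

theorem conj_Q1 (H H' : Subgroup (FF k (Fin 3) ≃ₐ[k] FF k (Fin 3)))
    (ψ : FF k (Fin 3) ≃ₐ[k] FF k (Fin 3)) {P : Matrix (Fin 3) (Fin 3) k} (hψ : HasMat ψ P)
    (hH : ∀ h, h ∈ H' ↔ ψ * h * ψ⁻¹ ∈ H) {N : ℕ} (hN : 0 < N)
    (hQ : ∀ (y : Fin 3 → IntermediateField.fixedField H') (g : IntermediateField.fixedField H'),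
      FormOK H' N y g → (quoGerm H' N y g).Q1)
    (y : Fin 3 → IntermediateField.fixedField H) (g : IntermediateField.fixedField H)
    (hF : FormOK H N y g) : (quoGerm H N y g).Q1 := by
  have h1 : ∀ h ∈ H, ψ⁻¹ * h * ψ ∈ H' := by
    intro h hh
    rw [hH]
    have h2 : ψ * (ψ⁻¹ * h * ψ) * ψ⁻¹ = h := by group
    rw [h2]
    exact hh
  have h2 : ∀ h ∈ H', ψ * h * ψ⁻¹ ∈ H := fun h hh => (hH h).1 hh
  set e := QE3_e h1 h2 with he0
  have he : ∀ f, (e f : FF k (Fin 3)) = ψ f := fun f => rfl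
  have he' : ∀ f, (e.symm f : FF k (Fin 3)) = ψ.symm f := fun f => rfl
  have hF' : FormOK H' N (fun j => e.symm (y j)) (e.symm g) := by
    obtain ⟨c, hc, hF⟩ := hF
    have hdet := hψ.inv.det_ne
    refine ⟨c * P⁻¹.det ^ N, mul_ne_zero hc (pow_ne_zero _ hdet), fun D => ?_⟩
    have h3 := hF fun i => derT ψ (D i)
    have h4 := jac_derT ψ D fun j => ((e.symm (y j) : IntermediateField.fixedField H') :
      FF k (Fin 3))
    have h5 : (fun j => ψ ((e.symm (y j) : IntermediateField.fixedField H') : FF k (Fin 3))) =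
        fun j => (y j : FF k (Fin 3)) := funext fun j => by
      rw [he', ψ.apply_symm_apply]
    rw [h5] at h4
    have h6 := jac_derT ψ D fun j => ψ.symm (xx k j)
    have h7 : (fun j => ψ (ψ.symm (xx k j))) = fun j => (xx k j : FF k (Fin 3)) :=
      funext fun j => ψ.apply_symm_apply _
    rw [h7, hψ.inv.jac D] at h6
    rw [h4, h6] at h3
    apply ψ.injective
    have h8 : ψ ((e.symm g : IntermediateField.fixedField H') : FF k (Fin 3)) =
        (g : FF k (Fin 3)) := by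
      rw [he', ψ.apply_symm_apply]
    have h9 : ψ (algebraMap k (FF k (Fin 3)) c) = algebraMap k (FF k (Fin 3)) c := ψ.commutes c
    have h10 : (algebraMap k (FF k (Fin 3)) (c * P⁻¹.det ^ N)) *
        jac D (fun j => xx k j) ^ N = algebraMap k (FF k (Fin 3)) c *
        (algebraMap k (FF k (Fin 3)) P⁻¹.det * jac D (fun j => xx k j)) ^ N := by
      rw [map_mul, map_pow]
      ring
    rw [h10, map_mul, map_pow, h8, h3, map_mul ψ (algebraMap k _ c), h9, map_pow]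
  have hQ' := hQ _ _ hF'
  refine iso_Q1 (quoGerm H N y g) (quoGerm H' N (fun j => e.symm (y j)) (e.symm g)) e ?_ ?_ rfl
    hN hF.ne hF'.ne (c := 1) one_ne_zero ?_ hQ'
  · intro f
    refine ⟨QE3_R e hψ he f, fun h3 => ?_⟩
    have h4 := QE3_R e.symm hψ.inv he' _ h3
    rwa [e.symm_apply_apply] at h4
  · intro f hf
    refine ⟨fun h3 => QE3_m e hψ he f h3, fun h3 => ?_⟩
    have h4 := QE3_m e.symm hψ.inv he' _ h3
    have h5 : (⟨e.symm (e f), QE3_R e.symm hψ.inv he' _ hf⟩ : quoR H') = f :=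
      Subtype.ext (e.symm_apply_apply _)
    rw [← h5]
    exact h4
  · intro D
    change e (e.symm g) * jac D (fun j => e (e.symm (y j))) ^ N =
      algebraMap k _ 1 * (g * jac D y ^ N)
    have h3 : (fun j => e (e.symm (y j))) = y := funext fun j => e.apply_symm_apply _
    rw [h3, e.apply_symm_apply, map_one, one_mul]

end M5
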