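import Pool.Agent.M5.QE1
import Pool.Agent.M5.QE3
import Pool.Agent.M5.QD4

/-!
PIECE M5-QE4: Q1 for the quotients by cyclic linear groups, from toric Q1.

PROOF.  `H` is generated by `h` (`IsCyclic`: `Subgroup.isCyclic_iff_exists_zpowers_eq_top`, or `isCyclic_iff_exists_..` for `H`), with matrix `A` (`IsLin`
is `∃ A, HasMat h A`).  With `e = Nat.card H > 0`: `h ^ e = 1`, so `A ^ e = 1` (`HasMat.pow`, `HasMat.one`, `HasMat.uniq`).  `P`, `d` from `exists_diag`.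
`ψ` with `HasMat ψ P` (`exists_lin`).  `H' := H.map (MulAut.conj ψ⁻¹)` (or the comap of `MulAut.conj ψ`), `h ∈ H' ↔ ψ * h * ψ⁻¹ ∈ H`.  `H'` is finite.  Every
element of `H'` is diagonal: `H'` consists of the powers of `h' = ψ⁻¹ * h * ψ`; `h * ψ` has the matrix `P * A = diagonal d * P` and `ψ * h'' ` with `h''` of matrix
`diagonal d` would have the matrix `diagonal d * P` (`HasMat.mul` : `HasMat (φ * ψ) (B * A)`); so `h (ψ x_j) = d j * ψ x_j`, `h' x_j = d j * x_j`.  Powers (also negative)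
of a diagonal automorphism are diagonal (`IsDg.mul`, `IsDg.pow`: prove privately; negative powers are positive powers since `h'` has finite order, or
`IsDg.inv`).  `conj_Q1` with `diag_Q1` for `H'`.
-/

open MvPolynomial

namespace M5

open MLD

universe u

variable {k : Type u} [Field k] [IsAlgClosed k] [CharZero k]

theorem cyc_Q1 (htor : ∀ (ρ : Fin 3 → Fin 3 → ℤ) (N : ℕ) (θ : Fin 3 → ℤ), 0 < N →
      (∃ u, ∀ i, 0 < pr u (ρ i)) → (∀ m : Fin 3 → ℤ, (∀ i, pr m (ρ i) = 0) → m = 0) →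
      (∀ i, pr θ (ρ i) = N) → (torGerm k ρ N θ).Q1)
    (H : Subgroup (FF k (Fin 3) ≃ₐ[k] FF k (Fin 3))) [Finite H] [IsCyclic H]
    (hH : ∀ h ∈ H, IsLin h)
    {N : ℕ} (hN : 0 < N) (y : Fin 3 → IntermediateField.fixedField H)
    (g : IntermediateField.fixedField H) (hF : FormOK H N y g) : (quoGerm H N y g).Q1 := by
  obtain ⟨h0, hgen⟩ := IsCyclic.exists_generator (α := H)
  obtain ⟨h, hh⟩ : ∃ h : FF k (Fin 3) ≃ₐ[k] FF k (Fin 3), h = (h0 : FF k (Fin 3) ≃ₐ[k] FF k (Fin 3)) :=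
    ⟨_, rfl⟩
  have hhH : h ∈ H := by rw [hh]; exact h0.2
  obtain ⟨A, hA⟩ : ∃ A, HasMat h A := hH h hhH
  have he : 0 < Nat.card H := Nat.card_pos
  have hhe : h ^ Nat.card H = 1 := by
    have h1 : h0 ^ Nat.card H = 1 := pow_card_eq_one'
    have h2 := congrArg (fun z : H => (z : FF k (Fin 3) ≃ₐ[k] FF k (Fin 3))) h1
    rw [hh]
    exact h2
  have hAe : A ^ Nat.card H = 1 := by
    have h1 := hA.pow (Nat.card H)
    rw [hhe] at h1
    exact h1.uniq HasMat.one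
  obtain ⟨P, d, hP, hPA⟩ := exists_diag A (Nat.card H) he hAe
  obtain ⟨ψ, hψ⟩ := exists_lin P hP
  have hPAn : ∀ n : ℕ, P * A ^ n * P⁻¹ = Matrix.diagonal (d ^ n) := by
    intro n
    have h1 : P * A ^ n = Matrix.diagonal (d ^ n) * P := by
      induction n with
      | zero =>
        rw [pow_zero, pow_zero, mul_one]
        have h0 : Matrix.diagonal (1 : Fin 3 → k) = 1 := Matrix.diagonal_one
        rw [h0, one_mul]
      | succ n ih =>
        rw [pow_succ, ← mul_assoc, ih, mul_assoc, hPA, ← mul_assoc, Matrix.diagonal_mul_diagonal,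
          pow_succ]
        rfl
    rw [h1, mul_assoc, Matrix.mul_nonsing_inv P hP, mul_one]
  obtain ⟨H', hH'⟩ : ∃ H' : Subgroup (FF k (Fin 3) ≃ₐ[k] FF k (Fin 3)),
      ∀ t, t ∈ H' ↔ ψ * t * ψ⁻¹ ∈ H :=
    ⟨H.comap (MulAut.conj ψ).toMonoidHom, fun t => Iff.rfl⟩
  have hfin : Finite H' := by
    refine Finite.of_injective (fun t : H' => (⟨ψ * t * ψ⁻¹, (hH' t).1 t.2⟩ : H)) ?_
    intro s t hst
    have h1 : ψ * (s : FF k (Fin 3) ≃ₐ[k] FF k (Fin 3)) * ψ⁻¹ = ψ * t * ψ⁻¹ :=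
      congrArg (fun z : H => (z : FF k (Fin 3) ≃ₐ[k] FF k (Fin 3))) hst
    exact Subtype.ext (mul_left_cancel (mul_right_cancel h1))
  have hdg : ∀ t ∈ H', IsDg t := by
    intro t ht
    have h1 : (⟨ψ * t * ψ⁻¹, (hH' t).1 ht⟩ : H) ∈ Subgroup.zpowers h0 := hgen _
    rw [← mem_powers_iff_mem_zpowers] at h1
    obtain ⟨n, hn⟩ := h1
    have h2 : h ^ n = ψ * t * ψ⁻¹ := by
      rw [hh]
      exact congrArg (fun z : H => (z : FF k (Fin 3) ≃ₐ[k] FF k (Fin 3))) hn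
    have h3 : t = ψ⁻¹ * (h ^ n * ψ) := by
      rw [h2]
      group
    have h4 : HasMat ψ⁻¹ P⁻¹ := hψ.inv
    have h5 : HasMat t (Matrix.diagonal (d ^ n)) := by
      rw [h3, ← hPAn n]
      exact h4.mul ((hA.pow n).mul hψ)
    refine ⟨d ^ n, fun j => ?_⟩
    rw [h5 j, Finset.sum_eq_single j]
    · rw [Matrix.diagonal_apply_eq]
    · intro i _ hi
      rw [Matrix.diagonal_apply_ne _ (Ne.symm hi), map_zero, zero_mul]
    · intro hj
      exact absurd (Finset.mem_univ j) hj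
  exact conj_Q1 H H' ψ hψ hH' hN (fun y' g' hF' => diag_Q1 htor H' hdg hN y' g' hF') y g hF

end M5
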