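import Pool.Agent.M5.QF2
import Pool.Agent.M5.QE4
import Pool.Agent.M5.D3
import Pool.Agent.M5.D4
import Pool.Agent.M5.D6

/-!
M5, PART Q: Q1 for quotients of the affine space by finite linear groups, from toric Q1.
-/

open MvPolynomial

namespace M5

open MLD

universe u

variable {k : Type u} [Field k] [IsAlgClosed k] [CharZero k]

/-- the toric statement -/
def TorQ1 (k : Type u) [Field k] : Prop :=
  ∀ (ρ : Fin 3 → Fin 3 → ℤ) (N : ℕ) (θ : Fin 3 → ℤ), 0 < N →
      (∃ u, ∀ i, 0 < pr u (ρ i)) → (∀ m : Fin 3 → ℤ, (∀ i, pr m (ρ i) = 0) → m = 0) →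
      (∀ i, pr θ (ρ i) = N) → (torGerm k ρ N θ).Q1

private theorem QMain_algOver {K : Type u} [Field K] [Algebra k K] {H G : Subgroup (K ≃ₐ[k] K)}
    [Finite G] (h : H ≤ G) : AlgOver (inc h) := by
  intro x
  have h1 := alg_fixed (k := k) G
  obtain ⟨P, hP, hx⟩ := h1.isAlgebraic (x : K)
  refine ⟨P, hP, ?_⟩
  apply Subtype.ext
  rw [Polynomial.aeval_def, Polynomial.eval₂_eq_sum, Polynomial.sum_def] at hx
  rw [Polynomial.eval₂_eq_sum, Polynomial.sum_def]
  have h2 : ((∑ n ∈ P.support, (inc h : IntermediateField.fixedField G →+*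
      IntermediateField.fixedField H) (P.coeff n) * x ^ n : IntermediateField.fixedField H) : K) =
      ∑ n ∈ P.support, ((P.coeff n : IntermediateField.fixedField G) : K) * (x : K) ^ n := by
    rw [← IntermediateField.coe_val, map_sum]
    rfl
  rw [h2]
  exact hx

theorem quot_of_toric (htor : TorQ1 k) (G : Subgroup (FF k (Fin 3) ≃ₐ[k] FF k (Fin 3))) [Finite G]
    (hG : ∀ γ ∈ G, IsLin γ) {N : ℕ} (hN : 0 < N) (y : Fin 3 → IntermediateField.fixedField G)
    (g : IntermediateField.fixedField G) (hF : FormOK G N y g) : (quoGerm G N y g).Q1 := by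
  classical
  let ι := {H : Subgroup (FF k (Fin 3) ≃ₐ[k] FF k (Fin 3)) // H ≤ G ∧ IsCyclic H}
  have hfin : Finite ι := by
    refine Finite.of_injective (fun H : ι => H.1.subgroupOf G) ?_
    intro H H' h
    apply Subtype.ext
    have h1 := Subgroup.subgroupOf_inj.1 h
    rwa [inf_eq_left.2 H.2.1, inf_eq_left.2 H'.2.1] at h1
  have hFF : ∀ H : ι, TrLe k (IntermediateField.fixedField H.1) 3 := fun H =>
    (trLe_FF k 3).sub (IntermediateField.fixedField H.1).val
  refine descent (quoGerm G N y g) (ι := ι) (fun H => IntermediateField.fixedField H.1)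
    (fun H => quoGerm H.1 N (fun j => inc H.2.1 (y j)) (inc H.2.1 g)) (fun H => inc H.2.1)
    (fun H => inc_R H.2.1) (fun H => inc_m H.2.1 N y g) ?_ ?_ ?_ ?_ ?_
  · intro H E₀ E ρ hρ hE
    exact inc_centre H.2.1 N y g hG E₀ E ρ hρ hE
  · intro H E₀ E ρ hρ hE
    exact ram (d := 2) (hFF H) (inc H.2.1) (QMain_algOver H.2.1) E₀ E ρ hρ hE (quoGerm G N y g)
      (quoGerm H.1 N (fun j => inc H.2.1 (y j)) (inc H.2.1 g)) rfl hN (fun _ => rfl) rfl hF.ne
  · intro H E
    exact exists_restrict (inc H.2.1) (QMain_algOver H.2.1) E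
  · intro E
    obtain ⟨H, E₁, hH, hc, h1⟩ := exists_inert G E
    refine ⟨⟨H, hH, hc⟩, E₁, fun f hf => ?_⟩
    exact h1 f f.2 (inc hH f).2 (fun h => hf (Subtype.ext h))
  · intro H
    have h1 : Finite H.1 := Finite.of_injective (Subgroup.inclusion H.2.1)
      (Subgroup.inclusion_injective H.2.1)
    have h2 : IsCyclic H.1 := H.2.2
    refine cyc_Q1 (fun ρ N θ => htor ρ N θ) H.1 (fun γ hγ => hG γ (H.2.1 hγ)) hN _ _ ?_
    obtain ⟨c, hc, h⟩ := hF
    exact ⟨c, hc, h⟩

end M5
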