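import Pool.Agent.M5.TD
import Pool.Agent.M5.QC2
import Pool.Agent.M5.QMain

/-!
M5: Q1 for toric and for quotient threefold germs.
-/

open MvPolynomial

namespace M5

open MLD

universe u

variable {k : Type u} [Field k] [IsAlgClosed k] [CharZero k]

/-- Q1 for the affine toric threefolds at the torus fixed point -/
theorem toric_Q1 {q : ℕ} (ρ : Fin q → Fin 3 → ℤ) (hp : ∃ u, ∀ i, 0 < pr u (ρ i))
    (hf : ∀ m : Fin 3 → ℤ, (∀ i, pr m (ρ i) = 0) → m = 0) {N : ℕ} (hN : 0 < N)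
    (θ : Fin 3 → ℤ) (hθ : ∀ i, pr θ (ρ i) = N) : (torGerm k ρ N θ).Q1 :=
  toric_of_octant ρ hp hf hN θ hθ fun r θ' hp' hf' hθ' =>
    Q1_of_semi _ fun _ lam hlam => oct_semi r hp' hf' hN θ' hθ' lam hlam

/-- Q1 for the quotients of the affine space by finite linear groups -/
theorem quot_Q1 (G : Subgroup (FF k (Fin 3) ≃ₐ[k] FF k (Fin 3))) [Finite G]
    (hG : ∀ γ ∈ G, IsLin γ) {N : ℕ} (hN : 0 < N) (y : Fin 3 → IntermediateField.fixedField G)
    (g : IntermediateField.fixedField G) (hF : FormOK G N y g) : (quoGerm G N y g).Q1 :=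
  quot_of_toric (fun ρ _ θ hN hp hf hθ => toric_Q1 ρ hp hf hN θ hθ) G hG hN y g hF

end M5
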