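import Pool.Agent.M5.D0

/-!
PROJECT M5, PIECE D1e: extension of derivations, and algebraic extensions.

PROOF. `exists_ext_der`: as `arc_der` in MLD/ArcDer.lean (formally etale extensions): make `K` an algebra
over `K₀` by `j`, `Algebra.IsAlgebraic` from `hj`, `FormallyEtale.of_isSeparable`, and
`KaehlerDifferential.tensorKaehlerEquivOfFormallyEtale k K₀ K`, with the derivation `j ∘ D₀ : K₀ → K`.
`der_unique`: `δ = D - D'` is zero on the image of `j`; for `x` with minimal polynomial `P` over `K₀`
(`P` of least degree with `P ≠ 0`, `P(x) = 0`): `0 = δ (P(x)) = P'(x) δ x` and `P'(x) ≠ 0`.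
`algOver_of_trLe`: if some `x` were not algebraic over `k(z)`, then `z, x` would be algebraically
independent (`AlgebraicIndependent.option_iff` / `Fin.snoc`, `Fin.cons`), contradicting `TrLe`.
`TrLe.of_algOver`: transcendence bases.
`TrLe.sub`: compose with `j` (injective). `trLe_FF`: the transcendence degree of `k(x_1, …, x_n)` is `n`
(`MvPolynomial.isTranscendenceBasis_X..`, or `arc_abh`-like arguments in MLD).
-/

set_option autoImplicit false

open MLD MvPolynomial

namespace M5

universe u

private theorem d1e_iff {k K : Type u} [Field k] [Field K] [Algebra k K] (n : ℕ) :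
    TrLe k K n ↔ Algebra.trdeg k K ≤ (n : Cardinal) := by
  constructor
  · intro h
    obtain ⟨s, hs⟩ := exists_isTranscendenceBasis k K
    rw [← hs.cardinalMk_eq_trdeg]
    by_contra hlt
    rw [not_le] at hlt
    have h1 : Cardinal.lift.{u} (Cardinal.mk (Fin (n + 1))) ≤ Cardinal.lift.{0} (Cardinal.mk s) := by
      rw [Cardinal.mk_fin, Cardinal.lift_natCast, Cardinal.lift_id']
      have h2 : ((n + 1 : ℕ) : Cardinal.{u}) = Order.succ ((n : ℕ) : Cardinal.{u}) := by
        rw [Cardinal.succ_natCast]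
        push_cast
        rfl
      rw [h2]
      exact Order.succ_le_of_lt hlt
    obtain ⟨f⟩ := Cardinal.lift_mk_le'.1 h1
    exact h _ (hs.1.comp f f.injective)
  · intro h y hy
    have h1 := hy.lift_cardinalMk_le_trdeg
    rw [Cardinal.mk_fin, Cardinal.lift_natCast, Cardinal.lift_id'] at h1
    have h2 := h1.trans h
    rw [Nat.cast_le] at h2
    omega

private theorem d1e_alg (k : Type u) [Field k] (n : ℕ) :
    Algebra.IsAlgebraic (MvPolynomial (Fin n) k) (FF k (Fin n)) :=
  IsLocalization.isAlgebraic _ (nonZeroDivisors _)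

theorem exists_ext_der {k K₀ K : Type u} [Field k] [CharZero k] [Field K₀] [Algebra k K₀]
    [Field K] [Algebra k K] (j : K₀ →ₐ[k] K) (hj : AlgOver j) (D₀ : Derivation k K₀ K₀) :
    ∃ D : Derivation k K K, ∀ a, D (j a) = j (D₀ a) := by
  let _ : Algebra K₀ K := j.toRingHom.toAlgebra
  have hR : ∀ r : K₀, algebraMap K₀ K r = j r := fun _ => rfl
  have : IsScalarTower k K₀ K := IsScalarTower.of_algebraMap_eq fun a => by
    rw [hR, AlgHom.commutes]
  have alg : Algebra.IsAlgebraic K₀ K := ⟨fun x => by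
    obtain ⟨P, hP, h0⟩ := hj x
    exact ⟨P, hP, h0⟩⟩
  have : CharZero K₀ := charZero_of_injective_algebraMap (algebraMap k K₀).injective
  have : Algebra.FormallyEtale K₀ K := Algebra.FormallyEtale.of_isSeparable _ _
  let d0 : Derivation k K₀ K := (Algebra.linearMap K₀ K).compDer D₀
  let D : Derivation k K K :=
    ((d0.liftKaehlerDifferential.liftBaseChange K).comp
      (KaehlerDifferential.tensorKaehlerEquivOfFormallyEtale k K₀
        K).symm.toLinearMap).compDer (KaehlerDifferential.D k K)
  refine ⟨D, fun a => ?_⟩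
  change (d0.liftKaehlerDifferential.liftBaseChange K)
      ((KaehlerDifferential.tensorKaehlerEquivOfFormallyEtale k K₀
        K).symm (KaehlerDifferential.D k K (algebraMap K₀ K a))) = _
  rw [KaehlerDifferential.tensorKaehlerEquivOfFormallyEtale_symm_D_algebraMap,
      LinearMap.liftBaseChange_tmul, one_smul, Derivation.liftKaehlerDifferential_comp_D]
  rfl

theorem der_unique {k K₀ K : Type u} [Field k] [CharZero k] [Field K₀] [Algebra k K₀]
    [Field K] [Algebra k K] (j : K₀ →ₐ[k] K) (hj : AlgOver j) (D D' : Derivation k K K)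
    (h : ∀ a, D (j a) = D' (j a)) : D = D' := by
  let _ : Algebra K₀ K := j.toRingHom.toAlgebra
  have hR : ∀ r : K₀, algebraMap K₀ K r = j r := fun _ => rfl
  have : IsScalarTower k K₀ K := IsScalarTower.of_algebraMap_eq fun a => by
    rw [hR, AlgHom.commutes]
  have alg : Algebra.IsAlgebraic K₀ K := ⟨fun x => by
    obtain ⟨P, hP, h0⟩ := hj x
    exact ⟨P, hP, h0⟩⟩
  have : CharZero K₀ := charZero_of_injective_algebraMap (algebraMap k K₀).injective
  have : Algebra.FormallyEtale K₀ K := Algebra.FormallyEtale.of_isSeparable _ _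
  have hsub : Subsingleton (Ω[K⁄K₀]) :=
    (Algebra.formallyUnramified_iff K₀ K).1 inferInstance
  let δ : Derivation K₀ K K := Derivation.mk'
    { toFun := fun x => D x - D' x
      map_add' := fun x y => by
        rw [map_add, map_add]
        ring
      map_smul' := fun a x => by
        rw [Algebra.smul_def, hR, Derivation.leibniz, Derivation.leibniz, h a]
        simp only [smul_eq_mul, RingHom.id_apply, Algebra.smul_def, hR]
        ring }
    (fun x y => by
      simp only [LinearMap.coe_mk, AddHom.coe_mk, Derivation.leibniz, smul_eq_mul]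
      ring)
  have hδ : ∀ x : K, D x - D' x = δ x := fun _ => rfl
  ext x
  have h1 : δ x = δ.liftKaehlerDifferential (KaehlerDifferential.D K₀ K x) :=
    (Derivation.liftKaehlerDifferential_comp_D δ x).symm
  have h2 : KaehlerDifferential.D K₀ K x = 0 := Subsingleton.elim _ _
  rw [h2, map_zero, ← hδ] at h1
  exact sub_eq_zero.1 h1

theorem algOver_of_trLe {k K : Type u} [Field k] [Field K] [Algebra k K] {n : ℕ}
    (hK : TrLe k K n) (ι : FF k (Fin n) →ₐ[k] K) : AlgOver ι := by
  let _ : Algebra (FF k (Fin n)) K := ι.toRingHom.toAlgebra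
  have hR : ∀ r : FF k (Fin n), algebraMap (FF k (Fin n)) K r = ι r := fun _ => rfl
  have : IsScalarTower k (FF k (Fin n)) K := IsScalarTower.of_algebraMap_eq fun a => by
    rw [hR, AlgHom.commutes]
  rw [d1e_iff] at hK
  have := d1e_alg k n
  have h1 : Algebra.trdeg k (FF k (Fin n)) = n := by
    rw [← trdeg_add_eq k (MvPolynomial (Fin n) k) (A := FF k (Fin n)),
      trdeg_eq_zero (R := MvPolynomial (Fin n) k) (A := FF k (Fin n)), add_zero]
    simp
  rw [← trdeg_add_eq k (FF k (Fin n)) (A := K), h1] at hK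
  have h2 : Algebra.trdeg (FF k (Fin n)) K = 0 := by
    by_contra hne
    have h3 : (1 : Cardinal.{u}) ≤ Algebra.trdeg (FF k (Fin n)) K :=
      Cardinal.one_le_iff_ne_zero.2 hne
    have h4 : ((n + 1 : ℕ) : Cardinal.{u}) ≤ (n : Cardinal.{u}) := by
      push_cast
      exact (add_le_add le_rfl h3).trans hK
    rw [Nat.cast_le] at h4
    omega
  have h3 : Algebra.IsAlgebraic (FF k (Fin n)) K := trdeg_eq_zero_iff.1 h2
  intro x
  obtain ⟨P, hP, h0⟩ := h3.isAlgebraic x
  exact ⟨P, hP, h0⟩

theorem TrLe.of_algOver {k K₀ K : Type u} [Field k] [Field K₀] [Algebra k K₀] [Field K]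
    [Algebra k K] {n : ℕ} (j : K₀ →ₐ[k] K) (hj : AlgOver j) (h : TrLe k K₀ n) : TrLe k K n := by
  rw [d1e_iff] at h ⊢
  let _ : Algebra K₀ K := j.toRingHom.toAlgebra
  have hR : ∀ r : K₀, algebraMap K₀ K r = j r := fun _ => rfl
  have : IsScalarTower k K₀ K := IsScalarTower.of_algebraMap_eq fun a => by
    rw [hR, AlgHom.commutes]
  have alg : Algebra.IsAlgebraic K₀ K := ⟨fun x => by
    obtain ⟨P, hP, h0⟩ := hj x
    exact ⟨P, hP, h0⟩⟩
  rw [← trdeg_add_eq k K₀ (A := K), trdeg_eq_zero (R := K₀) (A := K), add_zero]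
  exact h

theorem TrLe.sub {k K₀ K : Type u} [Field k] [Field K₀] [Algebra k K₀] [Field K]
    [Algebra k K] {n : ℕ} (j : K₀ →ₐ[k] K) (h : TrLe k K n) : TrLe k K₀ n := by
  intro y hy
  exact h _ (hy.map' j.toRingHom.injective)

theorem trLe_FF (k : Type u) [Field k] (n : ℕ) : TrLe k (FF k (Fin n)) n := by
  rw [d1e_iff]
  have := d1e_alg k n
  rw [← trdeg_add_eq k (MvPolynomial (Fin n) k) (A := FF k (Fin n)),
    trdeg_eq_zero (R := MvPolynomial (Fin n) k) (A := FF k (Fin n)), add_zero]
  simp

end M5
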