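import Pool.Agent.M5.G1
import Pool.Agent.M4.XMain

/-!
PROJECT M5, PIECE S6: the germ of the affine space, and `Q1` for it.

PROOF. `affE : MvPolynomial (Fin 3) k ≃+* (affGerm k).R` (`toFF` is injective); it maps `mm k (Fin 3)` to
`(affGerm k).m`. A `Dv` `E` with `0 ≤ ord` on `R` is the same as a `DivisorOver` (`ord_poly'`), the fields of
the structures are the same (`Fintype.card (Fin 3) - 1 = 2`), `X.Centre E` iff `CenterZero`; the families in
the two definitions of `logDisc` are the same (`jac` = `DivisorOver.jac`, `ord g / N = ord 1 / 1 = 0`), also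
`ordI` (`a` and `a.comap affE`). So `aff_mld`; then `M4.q1_main`.
-/

set_option autoImplicit false

open MLD MvPolynomial

namespace M5

universe u

variable (k : Type u) [Field k]

/-- the germ of the affine space at the origin -/
noncomputable def affGerm : Germ k (FF k (Fin 3)) 3 where
  R := (toFF k (Fin 3)).range
  m := Ideal.span {f | ∃ i, (f : FF k (Fin 3)) = xx k i}
  N := 1
  y := fun i => xx k i
  g := 1

/-- a polynomial as an element of the coordinate ring -/
noncomputable def affE : MvPolynomial (Fin 3) k →+* (affGerm k).R :=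
  (toFF k (Fin 3)).rangeRestrict.toRingHom

theorem affE_coe (p : MvPolynomial (Fin 3) k) :
    ((affE k p : (affGerm k).R) : FF k (Fin 3)) = toFF k (Fin 3) p := rfl

theorem affE_bij : Function.Bijective (affE k) := by
  constructor
  · intro p q h
    have h1 : toFF k (Fin 3) p = toFF k (Fin 3) q := congrArg Subtype.val h
    exact IsFractionRing.injective (MvPolynomial (Fin 3) k) (FF k (Fin 3)) h1
  · exact (toFF k (Fin 3)).rangeRestrict_surjective

private theorem S6_m : (affGerm k).m = (mm k (Fin 3)).map (affE k) := by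
  unfold mm
  rw [Ideal.map_span]
  show Ideal.span {f : (affGerm k).R | ∃ i, (f : FF k (Fin 3)) = xx k i} = _
  congr 1
  ext f
  constructor
  · rintro ⟨i, hi⟩
    exact ⟨X i, ⟨i, rfl⟩, Subtype.ext hi.symm⟩
  · rintro ⟨_, ⟨i, rfl⟩, rfl⟩
    exact ⟨i, rfl⟩

theorem affE_comap_pow (s : ℕ) :
    ((affGerm k).m ^ s).comap (affE k) = mm k (Fin 3) ^ s := by
  rw [S6_m, ← Ideal.map_pow]
  exact Ideal.comap_map_of_bijective (affE k) (affE_bij k)

variable {k} in
/-- a divisor over the affine space as a divisor of the function field -/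
private noncomputable def S6_to (E : DivisorOver k (Fin 3)) : Dv k (FF k (Fin 3)) 3 where
  toOrdFn := E.toOrdFn
  ord_surj' := E.ord_surj'
  residue' := by
    have h := E.residue'
    rwa [Fintype.card_fin] at h

variable {k} in
/-- a divisor of the function field which is nonnegative on the polynomials -/
private noncomputable def S6_of (E : Dv k (FF k (Fin 3)) 3)
    (h : ∀ p : MvPolynomial (Fin 3) k, p ≠ 0 → 0 ≤ E.ord (toFF k (Fin 3) p)) :
    DivisorOver k (Fin 3) where
  toOrdFn := E.toOrdFn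
  ord_surj' := E.ord_surj'
  ord_poly' := h
  residue' := by
    have h := E.residue'
    rwa [Fintype.card_fin]

private theorem S6_ordI (E : DivisorOver k (Fin 3)) (I : Ideal (affGerm k).R) :
    (affGerm k).ordI (S6_to E) I = E.ordI (I.comap (affE k)) := by
  unfold Germ.ordI DivisorOver.ordI
  congr 1
  ext m
  constructor
  · rintro ⟨f, hf, h0, h1⟩
    obtain ⟨p, rfl⟩ := (affE_bij k).2 f
    refine ⟨p, hf, ?_, h1⟩
    rintro rfl
    exact h0 (map_zero _)
  · rintro ⟨p, hp, h0, h1⟩
    refine ⟨affE k p, hp, ?_, h1⟩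
    intro h
    exact h0 ((affE_bij k).1 (h.trans (map_zero _).symm))

private theorem S6_logDisc (E : DivisorOver k (Fin 3)) :
    (affGerm k).logDisc (S6_to E) = E.logDisc := by
  unfold Germ.logDisc DivisorOver.logDisc
  have h1 : (S6_to E).ord ((affGerm k).g) = 0 := E.toOrdFn.ord_one
  refine iInf_congr fun D => ?_
  rw [h1]
  have h2 : (S6_to E).ord (jac D.1 (affGerm k).y) = E.ord (DivisorOver.jac D.1) := rfl
  rw [h2]
  congr 1
  push_cast
  rw [zero_div, add_zero]

private theorem S6_aDisc (E : DivisorOver k (Fin 3)) {r : ℕ} (lam : Fin r → ℝ)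
    (a : Fin r → Ideal (affGerm k).R) :
    (affGerm k).aDisc (S6_to E) lam a = E.aDisc lam fun i => (a i).comap (affE k) := by
  unfold Germ.aDisc DivisorOver.aDisc
  rw [S6_logDisc]
  simp only [S6_ordI]

private theorem S6_centre (E : DivisorOver k (Fin 3)) (hE : E.CenterZero) :
    (affGerm k).Centre (S6_to E) := by
  have h0 : ∀ f : (affGerm k).R, f ≠ 0 → 0 ≤ (S6_to E).ord (f : FF k (Fin 3)) := by
    intro f hf
    obtain ⟨p, rfl⟩ := (affE_bij k).2 f
    refine E.ord_poly' p ?_
    rintro rfl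
    exact hf (map_zero _)
  refine ⟨h0, fun f hf hf0 => ?_⟩
  have h1 : (S6_to E).ge (1 : ℕ) (f : FF k (Fin 3)) := by
    refine ge_span (X := affGerm k) (E := S6_to E) h0 1 ?_ f hf
    rintro g ⟨i, hi⟩
    right
    rw [hi]
    have := hE i
    push_cast
    exact this
  rcases h1 with h1 | h1
  · exact absurd h1 (G1_ne hf0)
  · push_cast at h1
    omega

theorem aff_mld {r : ℕ} (lam : Fin r → ℝ) (a : Fin r → Ideal (affGerm k).R) :
    (affGerm k).mld lam a = MLD.mld lam fun i => (a i).comap (affE k) := by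
  unfold Germ.mld MLD.mld
  apply le_antisymm
  · refine le_iInf fun E => ?_
    rw [← S6_aDisc]
    exact iInf_le (fun F : {F : Dv k (FF k (Fin 3)) 3 // (affGerm k).Centre F} =>
      (affGerm k).aDisc F.1 lam a) ⟨S6_to E.1, S6_centre k E.1 E.2⟩
  · refine le_iInf fun E => ?_
    have h1 : ∀ p : MvPolynomial (Fin 3) k, p ≠ 0 → 0 ≤ E.1.ord (toFF k (Fin 3) p) := by
      intro p hp
      refine E.2.1 (affE k p) fun h => ?_
      exact hp ((affE_bij k).1 (h.trans (map_zero _).symm))
    have h2 : (S6_of E.1 h1).CenterZero := by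
      intro i
      have h3 : affE k (X i) ∈ (affGerm k).m := Ideal.subset_span ⟨i, rfl⟩
      refine E.2.2 (affE k (X i)) h3 fun h => ?_
      exact X_ne_zero i ((affE_bij k).1 (h.trans (map_zero _).symm))
    have h3 : (affGerm k).aDisc E.1 lam a =
        (S6_of E.1 h1).aDisc lam fun i => (a i).comap (affE k) := S6_aDisc k (S6_of E.1 h1) lam a
    rw [h3]
    exact iInf_le (fun F : {F : DivisorOver k (Fin 3) // F.CenterZero} =>
      F.1.aDisc lam fun i => (a i).comap (affE k)) ⟨S6_of E.1 h1, h2⟩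

private theorem S6_comap_sup (I J : Ideal (affGerm k).R) :
    (I ⊔ J).comap (affE k) = I.comap (affE k) ⊔ J.comap (affE k) := by
  let e : MvPolynomial (Fin 3) k ≃+* (affGerm k).R := RingEquiv.ofBijective (affE k) (affE_bij k)
  have h : ∀ I : Ideal (affGerm k).R, I.comap (affE k) = I.map e.symm := fun I =>
    (Ideal.map_symm (I := I) e).symm
  rw [h, h, h, Ideal.map_sup]

private theorem S6_comap_ne {I : Ideal (affGerm k).R} (hI : I ≠ ⊥) : I.comap (affE k) ≠ ⊥ := by
  obtain ⟨f, hf, h0⟩ := Submodule.exists_mem_ne_zero_of_ne_bot hI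
  obtain ⟨p, rfl⟩ := (affE_bij k).2 f
  intro h
  have h1 : p ∈ I.comap (affE k) := hf
  rw [h] at h1
  have h2 : p = 0 := h1
  rw [h2] at h0
  exact h0 (map_zero _)

theorem aff_Q1 [IsAlgClosed k] [CharZero k] : (affGerm k).Q1 := by
  intro S hS hS0
  obtain ⟨s, hs, h⟩ := M4.q1_main (k := k) S hS hS0
  refine ⟨s, hs, fun r lam a b hl ha hb hab => ?_⟩
  have h1 := h r lam (fun i => (a i).comap (affE k)) (fun i => (b i).comap (affE k)) hl
    (fun j => S6_comap_ne k (ha j)) (fun j => S6_comap_ne k (hb j)) fun j => by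
      rw [← affE_comap_pow, ← S6_comap_sup, ← S6_comap_sup, hab j]
  rw [aff_mld, aff_mld]
  exact ⟨h1.1, fun h2 _ => h1.2 h2⟩

end M5
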