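import Pool.Agent.M5.S5
import Pool.Agent.M5.S6
import Pool.Agent.M5.D1e

/-!
PROJECT M5, PIECE S7: `Q1` for smooth threefolds.

`R` is a subalgebra with fraction field `K`, `R = k + m`, `m = (y_1, y_2, y_3) + m ^ 2`, and a form of
degree `s` in `y_1, y_2, y_3` which lies in `m ^ (s + 1)` has coefficients `0`: so the associated graded
ring of `m` is the polynomial ring in the classes of the `y_i` (if `R` is noetherian: `R_m` is a regular
local ring of dimension three with residue field `k` and regular parameters `y_i`).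

PROOF. `reg_inj`: let `P ≠ 0` with `P(y) ∈ m ^ s` and let `t` be the lowest degree of a term of `P`; if `t < s`
then `P_t(y) ∈ m ^ (t + 1)` (the other terms are in `m ^ (t + 1)`), so `P_t = 0`, contradiction; so all terms
have degree `≥ s`, `P ∈ mm ^ s`. `y_indep`: if `P(y) = 0` then `P ∈ mm ^ s` for all `s`, `P = 0`. `reg_app`:
induction on `s`: `m ^ s` is generated modulo `m ^ (s + 1)` by the monomials of degree `s` in `y` with
coefficients in `R = k + m`. `smooth_Q1`: `ι : FF k (Fin 3) → K`, `xx i ↦ y i`; `EtOver ι (affGerm k) X`; `et_Q1`,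
`aff_Q1`.
-/

set_option autoImplicit false

open MLD MvPolynomial

namespace M5

universe u

variable {k K : Type u} [Field k] [Field K] [Algebra k K]

private theorem reg_pow {R : Subalgebra k K} {m : Ideal R} {y : Fin 3 → R} (hy : ∀ i, y i ∈ m)
    (n : ℕ) {Q : MvPolynomial (Fin 3) k} (hQ : Q ∈ mm k (Fin 3) ^ n) : aeval y Q ∈ m ^ n := by
  have h1 : mm k (Fin 3) ≤ Ideal.comap (aeval y : MvPolynomial (Fin 3) k →ₐ[k] R) m := by
    unfold mm
    rw [Ideal.span_le]
    rintro _ ⟨i, rfl⟩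
    show aeval y (X i : MvPolynomial (Fin 3) k) ∈ m
    rw [aeval_X]
    exact hy i
  exact (Ideal.pow_right_mono h1 n).trans (Ideal.le_comap_pow _ n) hQ

theorem reg_inj {R : Subalgebra k K} {m : Ideal R} {y : Fin 3 → R} (hy : ∀ i, y i ∈ m)
    (hreg : ∀ (s : ℕ) (P : MvPolynomial (Fin 3) k), P.IsHomogeneous s →
      aeval y P ∈ m ^ (s + 1) → P = 0) (s : ℕ) (P : MvPolynomial (Fin 3) k)
    (hP : aeval y P ∈ m ^ s) : P ∈ mm k (Fin 3) ^ s := by
  induction s with
  | zero =>
    rw [pow_zero, Ideal.one_eq_top]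
    exact Submodule.mem_top
  | succ s ih =>
    have h1 := ih (Ideal.pow_le_pow_right (Nat.le_succ s) hP)
    have h2 := (mem_pow_idealOfVars_iff' s P).1 h1
    have h3 : P - homogeneousComponent s P ∈ mm k (Fin 3) ^ (s + 1) := by
      refine (mem_pow_idealOfVars_iff' (s + 1) _).2 fun x hx => ?_
      rw [coeff_sub, coeff_homogeneousComponent]
      split_ifs with h4
      · exact sub_self _
      · rw [sub_zero]
        exact h2 x (by omega)
    have h4 := (m ^ (s + 1)).sub_mem hP (reg_pow hy (s + 1) h3)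
    rw [map_sub, sub_sub_cancel] at h4
    rw [hreg s _ (homogeneousComponent_isHomogeneous s P) h4, sub_zero] at h3
    exact h3

theorem y_indep {R : Subalgebra k K} {m : Ideal R} {y : Fin 3 → R} (hy : ∀ i, y i ∈ m)
    (hreg : ∀ (s : ℕ) (P : MvPolynomial (Fin 3) k), P.IsHomogeneous s →
      aeval y P ∈ m ^ (s + 1) → P = 0) : AlgebraicIndependent k fun i => (y i : K) := by
  rw [algebraicIndependent_iff]
  intro P hP
  have h1 : aeval (fun i => (y i : K)) P = R.val (aeval y P) := by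
    rw [comp_aeval_apply]
    rfl
  have h2 : aeval y P = 0 := by
    apply Subtype.ext
    rw [h1] at hP
    exact hP
  ext x
  rw [coeff_zero]
  have h3 := reg_inj hy hreg (x.degree + 1) P (by rw [h2]; exact Ideal.zero_mem _)
  exact (mem_pow_idealOfVars_iff' _ P).1 h3 x (Nat.lt_succ_self _)

private theorem reg_lin {R : Subalgebra k K} {m : Ideal R} {y : Fin 3 → R}
    (hk : ∀ f : R, ∃ c : k, f - algebraMap k R c ∈ m) (hy : ∀ i, y i ∈ m)
    (hgen : m ≤ Ideal.span (Set.range y) ⊔ m ^ 2) {b : R} (hb : b ∈ m) :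
    ∃ Q : MvPolynomial (Fin 3) k, b - aeval y Q ∈ m ^ 2 := by
  have hle : Ideal.span (Set.range y) ≤ m := by
    rw [Ideal.span_le]
    rintro _ ⟨i, rfl⟩
    exact hy i
  obtain ⟨u, hu, w, hw, rfl⟩ := Submodule.mem_sup.1 (hgen hb)
  have key : ∃ Q : MvPolynomial (Fin 3) k, u - aeval y Q ∈ m ^ 2 := by
    refine Submodule.span_induction
      (p := fun u _ => ∃ Q : MvPolynomial (Fin 3) k, u - aeval y Q ∈ m ^ 2) ?_ ?_ ?_ ?_ hu
    · rintro _ ⟨i, rfl⟩
      refine ⟨X i, ?_⟩
      rw [aeval_X, sub_self]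
      exact Ideal.zero_mem _
    · refine ⟨0, ?_⟩
      rw [map_zero, sub_zero]
      exact Ideal.zero_mem _
    · rintro a c _ _ ⟨P, hP⟩ ⟨Q, hQ⟩
      refine ⟨P + Q, ?_⟩
      rw [map_add, add_sub_add_comm]
      exact Ideal.add_mem _ hP hQ
    · rintro a x hx ⟨Q, hQ⟩
      obtain ⟨c, hc⟩ := hk a
      refine ⟨C c * Q, ?_⟩
      have h1 : a • x - aeval y (C c * Q) =
          (a - algebraMap k R c) * x + algebraMap k R c * (x - aeval y Q) := by
        rw [map_mul, algHom_C, smul_eq_mul]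
        ring
      rw [h1]
      refine Ideal.add_mem _ ?_ (Ideal.mul_mem_left _ _ hQ)
      rw [pow_two]
      exact Ideal.mul_mem_mul hc (hle hx)
  obtain ⟨Q, hQ⟩ := key
  refine ⟨Q, ?_⟩
  rw [add_sub_right_comm]
  exact Ideal.add_mem _ hQ hw

private theorem reg_step {R : Subalgebra k K} {m : Ideal R} {y : Fin 3 → R}
    (hk : ∀ f : R, ∃ c : k, f - algebraMap k R c ∈ m) (hy : ∀ i, y i ∈ m)
    (hgen : m ≤ Ideal.span (Set.range y) ⊔ m ^ 2) (s : ℕ) :
    ∀ g ∈ m ^ s, ∃ Q : MvPolynomial (Fin 3) k, g - aeval y Q ∈ m ^ (s + 1) := by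
  induction s with
  | zero =>
    intro g _
    obtain ⟨c, hc⟩ := hk g
    refine ⟨C c, ?_⟩
    rw [algHom_C, zero_add, pow_one]
    exact hc
  | succ s ih =>
    intro g hg
    rw [pow_succ] at hg
    refine Submodule.mul_induction_on hg ?_ ?_
    · intro a ha b hb
      obtain ⟨P, hP⟩ := ih a ha
      obtain ⟨Q, hQ⟩ := reg_lin hk hy hgen hb
      refine ⟨P * Q, ?_⟩
      have h1 : a * b - aeval y (P * Q) =
          (a - aeval y P) * b + aeval y P * (b - aeval y Q) := by
        rw [map_mul]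
        ring
      have h2 : aeval y P ∈ m ^ s := by
        have h3 := (m ^ s).sub_mem ha (Ideal.pow_le_pow_right (Nat.le_succ s) hP)
        rwa [sub_sub_cancel] at h3
      rw [h1]
      refine Ideal.add_mem _ ?_ ?_
      · rw [pow_succ _ (s + 1)]
        exact Ideal.mul_mem_mul hP hb
      · have h3 : m ^ (s + 1 + 1) = m ^ s * m ^ 2 := by
          rw [← pow_add]
        rw [h3]
        exact Ideal.mul_mem_mul h2 hQ
    · rintro a b ⟨P, hP⟩ ⟨Q, hQ⟩
      refine ⟨P + Q, ?_⟩
      rw [map_add, add_sub_add_comm]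
      exact Ideal.add_mem _ hP hQ

theorem reg_app {R : Subalgebra k K} {m : Ideal R} {y : Fin 3 → R}
    (hk : ∀ f : R, ∃ c : k, f - algebraMap k R c ∈ m) (hy : ∀ i, y i ∈ m)
    (hgen : m ≤ Ideal.span (Set.range y) ⊔ m ^ 2) (s : ℕ) (f : R) :
    ∃ P : MvPolynomial (Fin 3) k, f - aeval y P ∈ m ^ s := by
  induction s with
  | zero =>
    refine ⟨0, ?_⟩
    rw [pow_zero, Ideal.one_eq_top]
    exact Submodule.mem_top
  | succ s ih =>
    obtain ⟨P, hP⟩ := ih
    obtain ⟨Q, hQ⟩ := reg_step hk hy hgen s _ hP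
    refine ⟨P + Q, ?_⟩
    rw [map_add, ← sub_sub]
    exact hQ

theorem smooth_Q1 [IsAlgClosed k] [CharZero k] (hK : TrLe k K 3) (R : Subalgebra k K)
    (hfrac : ∀ x : K, ∃ a b : R, b ≠ 0 ∧ x = (a : K) / (b : K)) (m : Ideal R) (y : Fin 3 → R)
    (hk : ∀ f : R, ∃ c : k, f - algebraMap k R c ∈ m) (hy : ∀ i, y i ∈ m)
    (hgen : m ≤ Ideal.span (Set.range y) ⊔ m ^ 2)
    (hreg : ∀ (s : ℕ) (P : MvPolynomial (Fin 3) k), P.IsHomogeneous s →
      aeval y P ∈ m ^ (s + 1) → P = 0) :
    (⟨R, m, 1, fun i => (y i : K), 1⟩ : Germ k K 3).Q1 := by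
  have hind := y_indep hy hreg
  have hinj : Function.Injective (aeval (R := k) fun i => (y i : K)) := hind
  obtain ⟨ι, hι⟩ : ∃ ι : FF k (Fin 3) →ₐ[k] K,
      ∀ P : MvPolynomial (Fin 3) k, ι (toFF k (Fin 3) P) = aeval (fun i => (y i : K)) P :=
    ⟨IsFractionRing.liftAlgHom (K := FF k (Fin 3)) hinj, fun P =>
      IsFractionRing.lift_algebraMap hinj P⟩
  have hval : ∀ P : MvPolynomial (Fin 3) k,
      aeval (fun i => (y i : K)) P = ((aeval y P : R) : K) := by
    intro P
    have h1 : (aeval (R := k) fun i => (y i : K)) = R.val.comp (aeval y) := by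
      refine MvPolynomial.algHom_ext fun i => ?_
      rw [aeval_X, AlgHom.comp_apply, aeval_X]
      rfl
    rw [h1]
    rfl
  have hxx : ∀ i, ι (xx k i) = (y i : K) := by
    intro i
    have h1 := hι (X i)
    rw [aeval_X] at h1
    exact h1
  have haff : ∀ P : MvPolynomial (Fin 3) k, ι ((affE k P : (affGerm k).R) : FF k (Fin 3)) =
      ((aeval y P : R) : K) := by
    intro P
    rw [affE_coe, hι, hval]
  have hsurj : ∀ a : (affGerm k).R, ∃ P, affE k P = a := (affE_bij k).2
  have hmap : ∀ a : (affGerm k).R, ι (a : FF k (Fin 3)) ∈ R := by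
    intro a
    obtain ⟨P, rfl⟩ := hsurj a
    rw [haff]
    exact (aeval y P : R).2
  have hmap' : ∀ P : MvPolynomial (Fin 3) k,
      (⟨ι ((affE k P : (affGerm k).R) : FF k (Fin 3)), hmap _⟩ : R) = aeval y P :=
    fun P => Subtype.ext (haff P)
  have hh : EtOver ι (affGerm k) (⟨R, m, 1, fun i => (y i : K), 1⟩ : Germ k K 3) := by
    refine ⟨algOver_of_trLe hK ι, hmap, ?_, ?_, ?_, hfrac, ?_, rfl, one_pos, ?_, ?_, ?_, ?_⟩
    · intro a ha
      obtain ⟨P, rfl⟩ := hsurj a
      have h1 : P ∈ mm k (Fin 3) ^ 1 := by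
        rw [← affE_comap_pow, Ideal.mem_comap, pow_one]
        exact ha
      change (⟨ι ((affE k P : (affGerm k).R) : FF k (Fin 3)), hmap _⟩ : R) ∈ m
      rw [hmap']
      rw [pow_one] at h1
      have h2 : mm k (Fin 3) ≤ Ideal.comap (aeval y : MvPolynomial (Fin 3) k →ₐ[k] R) m := by
        unfold mm
        refine Ideal.span_le.2 ?_
        rintro _ ⟨i, rfl⟩
        rw [SetLike.mem_coe, Ideal.mem_comap, aeval_X]
        exact hy i
      exact h2 h1
    · intro s f
      obtain ⟨P, hP⟩ := reg_app hk hy hgen s f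
      refine ⟨affE k P, ?_⟩
      change f - (⟨ι ((affE k P : (affGerm k).R) : FF k (Fin 3)), hmap _⟩ : R) ∈ m ^ s
      rw [hmap']
      exact hP
    · intro s a ha
      obtain ⟨P, rfl⟩ := hsurj a
      change (⟨ι ((affE k P : (affGerm k).R) : FF k (Fin 3)), hmap _⟩ : R) ∈ m ^ s at ha
      rw [hmap'] at ha
      have h1 := reg_inj hy hreg s P ha
      rw [← affE_comap_pow, Ideal.mem_comap] at h1
      exact h1
    · intro x
      obtain ⟨P, Q, hQ, hx⟩ := IsFractionRing.div_surjective (A := MvPolynomial (Fin 3) k) x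
      refine ⟨affE k P, affE k Q, ?_, ?_⟩
      · intro h0
        have h1 : Q = 0 := (affE_bij k).1 (by rw [h0, map_zero])
        exact nonZeroDivisors.ne_zero hQ h1
      · rw [affE_coe, affE_coe, ← hx]
        rfl
    · intro i
      exact (hxx i).symm
    · exact (map_one ι).symm
    · exact one_ne_zero
    · intro h0
      have h1 : affE k (X 0) ∈ (affGerm k).m := Ideal.subset_span ⟨0, rfl⟩
      rw [h0, Ideal.mem_bot] at h1
      have h2 : (X 0 : MvPolynomial (Fin 3) k) = 0 := (affE_bij k).1 (by rw [h1, map_zero])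
      exact X_ne_zero 0 h2
  exact et_Q1 hh hK (aff_Q1 k)

end M5
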