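import Pool.Agent.M5.S5

/-!
PROJECT M5, PIECE S8: `Q1` for `X` implies `Q1` for `X₀`, if `X → X₀` is etale at the point.

PROOF. `ordI_map`: `ord_E(a R) = ord_E₀(a)`. `mld_map`: `mld (a R) = mld a` (`exists_up`, `exists_down`,
`logDisc_et`). `et_Q1_down`: `a ⊔ m₀ ^ s = b ⊔ m₀ ^ s` gives `a R ⊔ m ^ s = b R ⊔ m ^ s`.
-/

set_option autoImplicit false

open MLD MvPolynomial

namespace M5

universe u

variable {k K₀ K : Type u} [Field k] [Field K₀] [Algebra k K₀] [Field K] [Algebra k K] {n : ℕ}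
variable {j : K₀ →ₐ[k] K} {X₀ : Germ k K₀ n} {X : Germ k K n}

theorem EtOver.φ_ne (h : EtOver j X₀ X) {a : X₀.R} (ha : a ≠ 0) : h.φ a ≠ 0 := by
  intro h0
  have h1 : j (a : K₀) = 0 := by
    rw [← h.φ_coe, h0]
    rfl
  exact (map_ne_zero j).2 (G1_ne ha) h1

theorem EtOver.map_ne (h : EtOver j X₀ X) {a : Ideal X₀.R} (ha : a ≠ ⊥) : a.map h.φ ≠ ⊥ := by
  obtain ⟨f, hf, hf0⟩ := Submodule.exists_mem_ne_zero_of_ne_bot ha
  exact (Submodule.ne_bot_iff _).2 ⟨h.φ f, Ideal.mem_map_of_mem h.φ hf, h.φ_ne hf0⟩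

theorem EtOver.ordI_map (h : EtOver j X₀ X) {E : Dv k K n} {E₀ : Dv k K₀ n}
    (hE : X.Centre E) (hE₀ : X₀.Centre E₀) (hEE : ∀ a, a ≠ 0 → E.ord (j a) = E₀.ord a)
    {a : Ideal X₀.R} (ha : a ≠ ⊥) : X.ordI E (a.map h.φ) = X₀.ordI E₀ a := by
  refine le_antisymm ?_ ?_
  · obtain ⟨f, hf, hf0, hf1⟩ := ordI_mem hE₀.reg ha
    have h1 := ordI_le hE.reg (Ideal.mem_map_of_mem h.φ hf) (h.φ_ne hf0)
    rw [h.φ_coe, hEE _ (G1_ne hf0), hf1] at h1
    exact_mod_cast h1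
  · refine le_ordI_span hE.reg (h.map_ne ha) _ ?_
    rintro _ ⟨f, hf, rfl⟩
    by_cases hf0 : f = 0
    · left
      rw [hf0, map_zero]
      rfl
    · right
      rw [h.φ_coe, hEE _ (G1_ne hf0)]
      exact ordI_le hE₀.reg hf hf0

theorem EtOver.mld_map [CharZero k] {d : ℕ} {X₀ : Germ k K₀ (d + 1)} {X : Germ k K (d + 1)}
    (h : EtOver j X₀ X) (hK : TrLe k K (d + 1)) {r : ℕ} (lam : Fin r → ℝ)
    (a : Fin r → Ideal X₀.R) (ha : ∀ i, a i ≠ ⊥) :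
    X.mld lam (fun i => (a i).map h.φ) = X₀.mld lam a := by
  have key : ∀ (E : Dv k K (d + 1)) (E₀ : Dv k K₀ (d + 1)), X.Centre E → X₀.Centre E₀ →
      (∀ a, a ≠ 0 → E.ord (j a) = E₀.ord a) →
      X.aDisc E lam (fun i => (a i).map h.φ) = X₀.aDisc E₀ lam a := by
    intro E E₀ hE hE₀ hEE
    unfold Germ.aDisc
    rw [h.logDisc_et hK hEE]
    congr 2
    refine Finset.sum_congr rfl fun i _ => ?_
    rw [h.ordI_map hE hE₀ hEE (ha i)]
  refine le_antisymm ?_ ?_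
  · refine le_mld _ _ _ fun E₀ hE₀ => ?_
    obtain ⟨E, hE, hEE⟩ := h.exists_up hE₀
    rw [← key E E₀ hE hE₀ hEE]
    exact mld_le hE lam _
  · refine le_mld _ _ _ fun E hE => ?_
    obtain ⟨E₀, hE₀, hEE⟩ := h.exists_down hE
    rw [key E E₀ hE hE₀ hEE]
    exact mld_le hE₀ lam _

theorem EtOver.map_sup_le (h : EtOver j X₀ X) {s : ℕ} {a b : Ideal X₀.R}
    (hab : a ⊔ X₀.m ^ s = b ⊔ X₀.m ^ s) : a.map h.φ ⊔ X.m ^ s ≤ b.map h.φ ⊔ X.m ^ s := by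
  refine sup_le ?_ le_sup_right
  have h1 : a.map h.φ ≤ (b ⊔ X₀.m ^ s).map h.φ := Ideal.map_mono (hab ▸ le_sup_left)
  refine h1.trans ?_
  rw [Ideal.map_sup]
  refine sup_le_sup le_rfl (Ideal.map_le_iff_le_comap.2 fun x hx => ?_)
  exact h.map_pow s hx

/-- If `X → X₀` is etale at the point (with trivial extension of the residue field) and `Q1` holds
for `X`, then it holds for `X₀`. -/
theorem et_Q1_down [CharZero k] {d : ℕ} {X₀ : Germ k K₀ (d + 1)} {X : Germ k K (d + 1)}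
    (h : EtOver j X₀ X) (hK : TrLe k K (d + 1)) (hQ : X.Q1) : X₀.Q1 := by
  intro I hI hI0
  obtain ⟨s, hs1, hs⟩ := hQ I hI hI0
  refine ⟨s, hs1, fun r lam a b hlam ha hb hab => ?_⟩
  have h1 := hs r lam (fun i => (a i).map h.φ) (fun i => (b i).map h.φ) hlam
    (fun i => h.map_ne (ha i)) (fun i => h.map_ne (hb i))
    (fun i => le_antisymm (h.map_sup_le (hab i)) (h.map_sup_le (hab i).symm))
  rwa [h.mld_map hK lam a ha, h.mld_map hK lam b hb] at h1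

end M5
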