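import Pool.Agent.M5.GoodDefs
import Pool.Agent.M5.QFin
import Pool.Agent.M5.QA
import Pool.Agent.M5.QX
import Pool.Agent.M5.S7
import Pool.Agent.M5.S8

/-!
M5: Q1 for the germs of the class `Good`.
-/

open MvPolynomial MLD

namespace M5

universe u

theorem isQuot_Q1 {k : Type u} [Field k] [IsAlgClosed k] [CharZero k] {K : Type u} [Field K]
    [Algebra k K] (X : Germ k K 3) (j : K →ₐ[k] FF k (Fin 3))
    (G : Subgroup (FF k (Fin 3) ≃ₐ[k] FF k (Fin 3))) (h₁ : QuotField j G) (h₂ : QuotRing X j)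
    (h₃ : QuotForm X j) : X.Q1 := by
  haveI := h₁.1
  have hmem : ∀ f : FF k (Fin 3), f ∈ IntermediateField.fixedField G ↔ f ∈ j.range := fun f => by
    rw [IntermediateField.mem_fixedField_iff, h₁.2.2]
  have hjr : ∀ a : K, j a ∈ IntermediateField.fixedField G := fun a => (hmem _).2 ⟨a, rfl⟩
  let φ : K →ₐ[k] IntermediateField.fixedField G :=
    j.codRestrict (IntermediateField.fixedField G).toSubalgebra hjr
  have hφ : ∀ a, ((φ a : IntermediateField.fixedField G) : FF k (Fin 3)) = j a := fun a => rfl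
  have hbij : Function.Bijective φ := by
    refine ⟨φ.toRingHom.injective, fun f => ?_⟩
    obtain ⟨a, ha⟩ := (hmem f).1 f.2
    exact ⟨a, Subtype.ext ha⟩
  let ψ : IntermediateField.fixedField G ≃ₐ[k] K := (AlgEquiv.ofBijective φ hbij).symm
  have hψ : ∀ f : IntermediateField.fixedField G, j (ψ f) = (f : FF k (Fin 3)) := fun f => by
    have h : φ (ψ f) = f := (AlgEquiv.ofBijective φ hbij).apply_symm_apply f
    rw [← hφ, h]
  have hψφ : ∀ a : K, ψ (φ a) = a := fun a => (AlgEquiv.ofBijective φ hbij).symm_apply_apply a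
  obtain ⟨hN, c, hc, hform⟩ := h₃
  have hF : FormOK G X.N (fun i => φ (X.y i)) (φ X.g) := ⟨c, hc, hform⟩
  have hQ := quot_Q1 G h₁.2.1 hN _ _ hF
  have hg' := hF.ne
  have hg : X.g ≠ 0 := by
    intro h
    rw [h, map_zero] at hg'
    exact hg' rfl
  have hsp : ∀ f : quoR G, f ∈ (quoGerm G X.N (fun i => φ (X.y i)) (φ X.g)).m →
      ∃ p : MvPolynomial (Fin 3) k, constantCoeff p = 0 ∧
        toFF k (Fin 3) p = ((f : IntermediateField.fixedField G) : FF k (Fin 3)) := by
    intro f hf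
    have hf' : f ∈ Submodule.span (quoR G) {f : quoR G | ∃ p : MvPolynomial (Fin 3) k,
      constantCoeff p = 0 ∧
        toFF k (Fin 3) p = ((f : IntermediateField.fixedField G) : FF k (Fin 3))} := hf
    refine Submodule.span_induction (p := fun (f : quoR G) _ => ∃ p : MvPolynomial (Fin 3) k,
      constantCoeff p = 0 ∧
        toFF k (Fin 3) p = ((f : IntermediateField.fixedField G) : FF k (Fin 3))) ?_ ?_ ?_ ?_ hf'
    · intro x hx
      exact hx
    · exact ⟨0, map_zero _, by rw [map_zero]; rfl⟩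
    · rintro x y _ _ ⟨p, hp, hp'⟩ ⟨q, hq, hq'⟩
      exact ⟨p + q, by rw [map_add, hp, hq, add_zero], by rw [map_add, hp', hq']; rfl⟩
    · rintro a x _ ⟨p, hp, hp'⟩
      obtain ⟨q, hq⟩ := a.2
      exact ⟨q * p, by rw [map_mul, hp, mul_zero], by rw [map_mul, hp', hq]; rfl⟩
  refine iso_Q1 X (quoGerm G X.N (fun i => φ (X.y i)) (φ X.g)) ψ ?_ ?_ rfl hN hg hg' one_ne_zero ?_
    hQ
  · intro f
    rw [h₂.1, hψ]
    rfl
  · intro f h
    rw [h₂.2]
    constructor
    · intro hf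
      obtain ⟨p, hp, hp'⟩ := hsp f hf
      exact ⟨p, hp, by rw [hp']; exact (hψ _).symm⟩
    · rintro ⟨p, hp, hp'⟩
      exact Ideal.subset_span ⟨p, hp, by rw [hp']; exact hψ _⟩
  · intro D
    have h1 : (fun i => ψ ((quoGerm G X.N (fun i => φ (X.y i)) (φ X.g)).y i)) = X.y :=
      funext fun i => hψφ _
    rw [h1, map_one, one_mul]
    congr 1
    exact hψφ _

theorem good_Q1 {k : Type u} [Field k] [IsAlgClosed k] [CharZero k] {K : Type u} [Field K]
    [Algebra k K] {X : Germ k K 3} (h : Good k K X) : X.Q1 := by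
  induction h with
  | toric q ρ N θ h => exact toric_Q1 ρ h.2.1 h.2.2.1 h.1 θ h.2.2.2
  | quot K X j G h₁ h₂ h₃ => exact isQuot_Q1 X j G h₁ h₂ h₃
  | reg K hK R m y h => exact smooth_Q1 hK R h.1 m y h.2.1 h.2.2.1 h.2.2.2.1 h.2.2.2.2
  | up K₀ K hK j X₀ X _ h ih => exact et_Q1 h hK ih
  | down K₀ K hK j X₀ X _ h ih => exact et_Q1_down h hK ih

end M5
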