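import Pool.Agent.M5.G1
import Pool.Agent.MLD.ArcDefs

/-!
PROJECT M5, PART D: definitions.
-/

set_option autoImplicit false

open MLD MvPolynomial

namespace M5

universe u

/-- the transcendence degree is at most `n` -/
def TrLe (k K : Type u) [Field k] [Field K] [Algebra k K] (n : ℕ) : Prop :=
  ∀ y : Fin (n + 1) → K, ¬ AlgebraicIndependent k y

/-- `K` is algebraic over the image of `j` -/
def AlgOver {k K₀ K : Type u} [Field k] [Field K₀] [Algebra k K₀] [Field K] [Algebra k K]
    (j : K₀ →ₐ[k] K) : Prop :=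
  ∀ x : K, ∃ P : Polynomial K₀, P ≠ 0 ∧ P.eval₂ (j : K₀ →+* K) x = 0

/-- the divisor as an order function -/
abbrev Dv.v {k K : Type u} [Field k] [Field K] [Algebra k K] {n : ℕ} (E : Dv k K n) :
    OrdFn k K := E.toOrdFn

end M5
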