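import Pool.Agent.M5.D0

/-!
PROJECT M5, PIECE D1c: a derivation has bounded denominators on a finite extension.

PROOF. `O₀ = {a : K₀ | v.ge 0 (j a)}` is a discrete valuation ring with uniformizer `s` (every nonzero
`a` is `s ^ m * unit`, `m = v.ord (j a)`; see `exists_vr` in MLD/ArcVR.lean for the subring), `K₀` its
fraction field. `L` = the subfield `K₀(f)` of `K`, finite over `K₀` (`hj`), separable (char 0). The integral
closure `B` of `O₀` in `L` is a finite `O₀`-module (`IsIntegralClosure.finite`), generated by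
`b_1, …, b_r`; `v ≥ 0` on `B` (integral elements over `O₀`). `D (∑ a_i b_i) = ∑ D(a_i) b_i + a_i D(b_i)`
with `D (j a) = j (D₀ a)` of order `≥ 0` for `a ∈ O₀`: so `v.ge (-c) (D b)` for `b ∈ B`, where
`-c = min (0, v.ord (D b_i))` (`D b_i ≠ 0`). Let `𝔓 = {b ∈ B : v.ge 1 b}`, a maximal (nonzero prime) ideal of
the Dedekind domain `B` (`s ∈ 𝔓`). CLAIM: every `x ∈ L` with `v.ge 0 x` is `a / b` with `a, b ∈ B`,
`v.ord b = 0`: the localization of `B` at `𝔓` is a valuation ring (discrete), if `x` is not in it, then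
`x⁻¹` is in its maximal ideal, so `v.ord x⁻¹ > 0`, contradiction. Then
`D x = (D a * b - a * D b) / b ^ 2` has order `≥ -c`.
-/

set_option autoImplicit false

open MLD MvPolynomial

namespace M5

universe u

private def D1c_O {k K₀ : Type u} [Field k] [Field K₀] [Algebra k K₀] (w : OrdFn k K₀) :
    ValuationSubring K₀ where
  carrier := {a | w.ge 0 a}
  mul_mem' := fun {a b} ha hb => by
    have h := w.ge_mul (M := 0) (N := 0) ha hb
    rwa [add_zero] at h
  one_mem' := Or.inr (w.ord_one).ge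
  add_mem' := fun ha hb => w.ge_add ha hb
  zero_mem' := w.ge_zero 0
  neg_mem' := fun ha => w.ge_neg ha
  mem_or_inv_mem' := fun a => by
    by_cases h0 : a = 0
    · left
      rw [h0]
      exact w.ge_zero 0
    · rcases le_total 0 (w.ord a) with h | h
      · left
        exact Or.inr h
      · right
        refine Or.inr ?_
        rw [w.ord_inv a h0]
        omega

/-- The upper sums of a polynomial relation are integral. -/
private theorem D1c_horner {R A : Type*} [CommRing R] [Field A] [Algebra R A] (a : ℕ → R) (n : ℕ)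
    (hn : 1 ≤ n) (x : A) (hx : ∑ l ∈ Finset.range (n + 1), algebraMap R A (a l) * x ^ l = 0)
    (k : ℕ) : IsIntegral R (∑ l ∈ Finset.range (n + 1),
      if k ≤ l then algebraMap R A (a l) * x ^ (l - k) else 0) := by
  set b := ∑ l ∈ Finset.range (n + 1), (if k ≤ l then algebraMap R A (a l) * x ^ (l - k) else 0)
    with hb
  let M : Submodule R A := Submodule.span R (Set.range fun i : Fin n => x ^ (i : ℕ))
  have hM : ∀ i, i < n → ∀ r : R, algebraMap R A r * x ^ i ∈ M := by
    intro i hi r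
    rw [← Algebra.smul_def]
    exact M.smul_mem _ (Submodule.subset_span ⟨⟨i, hi⟩, rfl⟩)
  refine isIntegral_of_smul_mem_submodule M ?_ ?_ b ?_
  · intro h
    have h1 := hM 0 hn 1
    rw [h, Submodule.mem_bot, map_one, one_mul, pow_zero] at h1
    exact one_ne_zero h1
  · exact Submodule.fg_span (Set.finite_range _)
  · intro m hm
    induction hm using Submodule.span_induction with
    | mem m hm =>
      obtain ⟨⟨i, hi⟩, rfl⟩ := hm
      show b * x ^ i ∈ M
      by_cases hik : i < k
      · rw [hb, Finset.sum_mul]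
        refine M.sum_mem fun l hl => ?_
        have hl' := Finset.mem_range.1 hl
        split_ifs with h
        · rw [mul_assoc, ← pow_add]
          exact hM _ (by omega) _
        · rw [zero_mul]
          exact M.zero_mem
      · have h1 : b * x ^ k = - ∑ l ∈ Finset.range (n + 1),
            (if k ≤ l then 0 else algebraMap R A (a l) * x ^ l) := by
          rw [eq_neg_iff_add_eq_zero, hb, Finset.sum_mul, ← Finset.sum_add_distrib]
          refine (Finset.sum_congr rfl fun l hl => ?_).trans hx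
          split_ifs with h
          · rw [add_zero, mul_assoc, ← pow_add]
            congr 2
            omega
          · rw [zero_mul, zero_add]
        have h2 : b * x ^ i = - ∑ l ∈ Finset.range (n + 1),
            (if k ≤ l then 0 else algebraMap R A (a l) * x ^ (l + (i - k))) := by
          have h3 : x ^ i = x ^ k * x ^ (i - k) := by
            rw [← pow_add]
            congr 1
            omega
          rw [h3, ← mul_assoc, h1, neg_mul, Finset.sum_mul]
          congr 1
          refine Finset.sum_congr rfl fun l hl => ?_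
          split_ifs
          · rw [zero_mul]
          · rw [mul_assoc, ← pow_add]
        rw [h2]
        refine M.neg_mem (M.sum_mem fun l hl => ?_)
        split_ifs
        · exact M.zero_mem
        · exact hM _ (by omega) _
    | zero =>
      rw [smul_zero]
      exact M.zero_mem
    | add x y _ _ hx hy =>
      rw [smul_add]
      exact M.add_mem hx hy
    | smul r x _ hx =>
      rw [smul_comm]
      exact M.smul_mem _ hx

section
variable {k K₀ K : Type u} [Field k] [CharZero k] [Field K₀] [Algebra k K₀] [Field K]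
  [Algebra k K] [Algebra K₀ K] {v : OrdFn k K} {w : OrdFn k K₀}

private theorem D1c_mem {a : K₀} : a ∈ D1c_O w ↔ w.ge 0 a := Iff.rfl

/-- integral elements have nonnegative order -/
private theorem D1c_int (hw : ∀ N a, w.ge N a ↔ v.ge N (algebraMap K₀ K a)) {z : K}
    (hz : IsIntegral (D1c_O w) z) : v.ge 0 z := by
  by_cases hz0 : z = 0
  · exact Or.inl hz0
  by_contra hcon
  have hneg : v.ord z < 0 := by
    by_contra h
    exact hcon (Or.inr (by omega))
  obtain ⟨p, hp, hpz⟩ := hz
  set n := p.natDegree with hn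
  have h1 : z ^ n + ∑ i ∈ Finset.range n, algebraMap (D1c_O w) K (p.coeff i) * z ^ i = 0 := by
    rw [Polynomial.eval₂_eq_sum_range, Finset.sum_range_succ, ← hn] at hpz
    have h2 : p.coeff n = 1 := hp
    rw [h2, map_one, one_mul] at hpz
    rw [add_comm]
    exact hpz
  rcases Nat.eq_zero_or_pos n with h0 | hpos
  · rw [h0, Finset.range_zero, Finset.sum_empty, pow_zero, add_zero] at h1
    exact one_ne_zero h1
  have h2 : v.ge (((n : ℤ) - 1) * v.ord z)
      (∑ i ∈ Finset.range n, algebraMap (D1c_O w) K (p.coeff i) * z ^ i) := by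
    refine v.ge_sum _ _ fun i hi => ?_
    have hi' : ((i : ℕ) : ℤ) ≤ (n : ℤ) - 1 := by
      have := Finset.mem_range.1 hi
      omega
    have h3 : v.ge 0 (algebraMap (D1c_O w) K (p.coeff i)) := (hw 0 _).1 (p.coeff i).2
    have h4 := v.ge_mul h3 (v.ge_pow (v.ge_self z) i)
    rw [zero_add] at h4
    refine v.ge_mono ?_ h4
    exact mul_le_mul_of_nonpos_right hi' hneg.le
  have h3 : z ^ n = - ∑ i ∈ Finset.range n, algebraMap (D1c_O w) K (p.coeff i) * z ^ i :=
    eq_neg_of_add_eq_zero_left h1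
  have h4 : v.ge (((n : ℤ) - 1) * v.ord z) (z ^ n) := by
    rw [h3]
    exact v.ge_neg h2
  rcases h4 with h4 | h4
  · exact pow_ne_zero n hz0 h4
  · rw [v.ord_pow hz0] at h4
    nlinarith

/-- the claim: a quotient of integral elements, the denominator of order zero -/
private theorem D1c_quot (hw : ∀ N a, w.ge N a ↔ v.ge N (algebraMap K₀ K a)) {x : K}
    (hxalg : ∃ P : Polynomial K₀, P ≠ 0 ∧ P.eval₂ (algebraMap K₀ K) x = 0) (hx : v.ge 0 x)
    (L : Subfield K) (hL : ∀ a : K₀, algebraMap K₀ K a ∈ L) (hxL : x ∈ L) :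
    ∃ b ∈ L, b ≠ 0 ∧ v.ord b = 0 ∧ IsIntegral (D1c_O w) b ∧ IsIntegral (D1c_O w) (b * x) := by
  classical
  obtain ⟨A, hA0, hA⟩ := hxalg
  obtain ⟨n0, hn0, hmin⟩ := Finset.exists_min_image A.support (fun n => w.ord (A.coeff n))
    (Polynomial.nonempty_support_iff.2 hA0)
  set S := A.support.filter fun n => w.ord (A.coeff n) = w.ord (A.coeff n0) with hS
  have hSne : S.Nonempty := ⟨n0, Finset.mem_filter.2 ⟨hn0, rfl⟩⟩
  set n1 := S.max' hSne with hn1
  have hn1S : n1 ∈ S := S.max'_mem hSne
  have hn1A : A.coeff n1 ≠ 0 := Polynomial.mem_support_iff.1 (Finset.mem_filter.1 hn1S).1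
  have hn1o : w.ord (A.coeff n1) = w.ord (A.coeff n0) := (Finset.mem_filter.1 hn1S).2
  set c := A.coeff n1 with hc
  have hge : ∀ n, w.ge 0 (c⁻¹ * A.coeff n) := by
    intro n
    by_cases h : A.coeff n = 0
    · rw [h, mul_zero]
      exact w.ge_zero _
    · right
      rw [w.ord_mul (inv_ne_zero hn1A) h, w.ord_inv _ hn1A]
      have := hmin n (Polynomial.mem_support_iff.2 h)
      omega
  have hgt : ∀ n, n1 < n → w.ge 1 (c⁻¹ * A.coeff n) := by
    intro n hn
    by_cases h : A.coeff n = 0
    · rw [h, mul_zero]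
      exact w.ge_zero _
    · right
      rw [w.ord_mul (inv_ne_zero hn1A) h, w.ord_inv _ hn1A]
      have h1 := hmin n (Polynomial.mem_support_iff.2 h)
      have h2 : w.ord (A.coeff n) ≠ w.ord (A.coeff n0) := by
        intro h3
        have h4 := S.le_max' n (Finset.mem_filter.2 ⟨Polynomial.mem_support_iff.2 h, h3⟩)
        omega
      omega
  let a : ℕ → D1c_O w := fun n => ⟨c⁻¹ * A.coeff n, hge n⟩
  have haK : ∀ n, algebraMap (D1c_O w) K (a n) = algebraMap K₀ K (c⁻¹ * A.coeff n) :=
    fun n => rfl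
  set N := A.natDegree with hN
  have hrel : ∑ l ∈ Finset.range (N + 1), algebraMap (D1c_O w) K (a l) * x ^ l = 0 := by
    rw [Polynomial.eval₂_eq_sum_range] at hA
    have h1 : ∑ l ∈ Finset.range (N + 1), algebraMap (D1c_O w) K (a l) * x ^ l =
        algebraMap K₀ K c⁻¹ * ∑ l ∈ Finset.range (N + 1), algebraMap K₀ K (A.coeff l) * x ^ l := by
      rw [Finset.mul_sum]
      refine Finset.sum_congr rfl fun l _ => ?_
      rw [haK, map_mul, mul_assoc]
    rw [h1, hA, mul_zero]
  have hn1N : n1 ≤ N := Polynomial.le_natDegree_of_ne_zero hn1A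
  have hN1 : 1 ≤ N := by
    by_contra h0
    have h1 : N = 0 := by omega
    have h2 : n1 = 0 := by omega
    rw [h1, zero_add, Finset.sum_range_one, pow_zero, mul_one, haK, map_eq_zero] at hrel
    rw [← h2, ← hc, inv_mul_cancel₀ hn1A] at hrel
    exact one_ne_zero hrel
  -- the denominator
  set b : ℕ → K := fun m => ∑ l ∈ Finset.range (N + 1),
    (if m ≤ l then algebraMap (D1c_O w) K (a l) * x ^ (l - m) else 0) with hb
  have hbint : ∀ m, IsIntegral (D1c_O w) (b m) := fun m => D1c_horner a N hN1 x hrel m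
  have hbL : ∀ m, b m ∈ L := by
    intro m
    refine L.sum_mem fun l _ => ?_
    split_ifs
    · exact L.mul_mem (hL _) (L.pow_mem hxL _)
    · exact L.zero_mem
  have hb1 : b n1 ≠ 0 ∧ v.ord (b n1) = 0 := by
    have h1 : b n1 = 1 + ∑ l ∈ Finset.range (N + 1),
        (if n1 < l then algebraMap (D1c_O w) K (a l) * x ^ (l - n1) else 0) := by
      have h2 : b n1 = ∑ l ∈ Finset.range (N + 1), ((if l = n1 then (1 : K) else 0) +
          (if n1 < l then algebraMap (D1c_O w) K (a l) * x ^ (l - n1) else 0)) := by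
        refine Finset.sum_congr rfl fun l _ => ?_
        rcases lt_trichotomy n1 l with h | h | h
        · rw [if_pos h.le, if_neg h.ne', if_pos h, zero_add]
        · subst h
          rw [if_pos le_rfl, if_pos rfl, if_neg (lt_irrefl _), haK, ← hc, inv_mul_cancel₀ hn1A,
            map_one, Nat.sub_self, pow_zero, mul_one, add_zero]
        · rw [if_neg (not_le.2 h), if_neg h.ne, if_neg (lt_asymm h), zero_add]
      rw [h2, Finset.sum_add_distrib, Finset.sum_ite_eq', if_pos (Finset.mem_range.2 (by omega))]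
    have h3 : v.ge (v.ord (1 : K) + 1) (∑ l ∈ Finset.range (N + 1),
        (if n1 < l then algebraMap (D1c_O w) K (a l) * x ^ (l - n1) else 0)) := by
      rw [v.ord_one, zero_add]
      refine v.ge_sum _ _ fun l _ => ?_
      split_ifs with h
      · have h4 := (hw 1 _).1 (hgt l h)
        have h5 := v.ge_pow hx (l - n1)
        rw [mul_zero] at h5
        have h6 := v.ge_mul h4 h5
        rwa [add_zero] at h6
      · exact v.ge_zero _
    rw [h1]
    obtain ⟨h4, h5⟩ := v.ord_add_eq one_ne_zero h3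
    exact ⟨h4, h5.trans v.ord_one⟩
  refine ⟨b n1, hbL n1, hb1.1, hb1.2, hbint n1, ?_⟩
  rcases Nat.eq_zero_or_pos n1 with h0 | hpos
  · exfalso
    apply hb1.1
    rw [h0]
    refine (Finset.sum_congr rfl fun l _ => ?_).trans hrel
    rw [if_pos (Nat.zero_le l), Nat.sub_zero]
  · have h1 : b n1 * x = b (n1 - 1) - algebraMap (D1c_O w) K (a (n1 - 1)) := by
      have h2 : b (n1 - 1) = ∑ l ∈ Finset.range (N + 1),
          ((if l = n1 - 1 then algebraMap (D1c_O w) K (a (n1 - 1)) else 0) +
          (if n1 ≤ l then algebraMap (D1c_O w) K (a l) * x ^ (l - n1) else 0) * x) := by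
        refine Finset.sum_congr rfl fun l _ => ?_
        rcases lt_trichotomy l (n1 - 1) with h | h | h
        · rw [if_neg (by omega), if_neg (by omega), if_neg (by omega), zero_mul, zero_add]
        · rw [if_pos (by omega), if_pos h, if_neg (by omega), zero_mul, add_zero, h, Nat.sub_self,
            pow_zero, mul_one]
        · rw [if_pos (by omega), if_neg (by omega), if_pos (by omega), zero_add, mul_assoc,
            ← pow_succ]
          congr 2
          omega
      rw [h2, Finset.sum_add_distrib, Finset.sum_ite_eq', if_pos (Finset.mem_range.2 (by omega)),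
        ← Finset.sum_mul, add_sub_cancel_left]
    rw [h1]
    exact (hbint _).sub isIntegral_algebraMap

/-- the theorem for an algebra -/
private theorem D1c_main (hw : ∀ N a, w.ge N a ↔ v.ge N (algebraMap K₀ K a))
    (halg : ∀ x : K, ∃ P : Polynomial K₀, P ≠ 0 ∧ P.eval₂ (algebraMap K₀ K) x = 0) (s : K₀)
    (hs0 : s ≠ 0) (hs : w.ord s = 1) (D₀ : Derivation k K₀ K₀)
    (hD₀ : ∀ a, w.ge 0 a → w.ge 0 (D₀ a)) (D : Derivation k K K)
    (hD : ∀ a, D (algebraMap K₀ K a) = algebraMap K₀ K (D₀ a)) (f : K) :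
    ∃ (L : Subfield K) (c : ℕ), (∀ a : K₀, algebraMap K₀ K a ∈ L) ∧ f ∈ L ∧
      ∀ g ∈ L, v.ge 0 g → v.ge (-(c : ℤ)) (D g) := by
  classical
  have hchar : CharZero K₀ := charZero_of_injective_algebraMap (algebraMap k K₀).injective
  have hA : Algebra.IsAlgebraic K₀ K := ⟨fun x => by
    obtain ⟨P, hP0, hP⟩ := halg x
    exact ⟨P, hP0, hP⟩⟩
  have hfO : IsAlgebraic (D1c_O w) f :=
    (IsFractionRing.isAlgebraic_iff (D1c_O w) K₀ K).2 (hA.isAlgebraic f)
  obtain ⟨y, hy0, hθ⟩ := hfO.exists_integral_multiple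
  set θ : K := y • f with hθdef
  have hθf : θ = algebraMap K₀ K (y : K₀) * f := by
    rw [hθdef, Algebra.smul_def]
    rfl
  have hθK : IsIntegral K₀ θ := (hA.isAlgebraic θ).isIntegral
  let L0 : IntermediateField K₀ K := IntermediateField.adjoin K₀ {θ}
  let pb : PowerBasis K₀ L0 := IntermediateField.adjoin.powerBasis hθK
  have hgen : ((pb.gen : L0) : K) = θ := by
    show (((IntermediateField.adjoin.powerBasis hθK).gen : L0) : K) = θ
    rw [IntermediateField.adjoin.powerBasis_gen]
    exact IntermediateField.AdjoinSimple.coe_gen K₀ θ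
  have hfin : FiniteDimensional K₀ L0 := pb.finite
  have hsep : Algebra.IsSeparable K₀ L0 := inferInstance
  have hint : IsIntegral (D1c_O w) pb.gen := by
    rw [← isIntegral_algebraMap_iff (B := K) (algebraMap L0 K).injective]
    show IsIntegral (D1c_O w) ((pb.gen : L0) : K)
    rw [hgen]
    exact hθ
  set d := Algebra.discr K₀ pb.basis with hd
  have hd0 : d ≠ 0 := Algebra.discr_not_zero_of_basis K₀ pb.basis
  have key1 : ∀ z : L0, IsIntegral (D1c_O w) z →
      d • z ∈ Algebra.adjoin (D1c_O w) ({pb.gen} : Set L0) := fun z hz =>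
    Algebra.discr_mul_isIntegral_mem_adjoin K₀ hint hz
  have hsO : ∀ m : ℕ, w.ge 0 (s ^ m) := by
    intro m
    right
    rw [w.ord_pow hs0, hs, mul_one]
    omega
  set m := (-w.ord d).toNat with hm
  set e := s ^ m * d with he
  have he0 : e ≠ 0 := mul_ne_zero (pow_ne_zero _ hs0) hd0
  have heO : w.ge 0 e := by
    right
    rw [he, w.ord_mul (pow_ne_zero _ hs0) hd0, w.ord_pow hs0, hs, mul_one]
    omega
  have key2 : ∀ z : L0, IsIntegral (D1c_O w) z →
      e • z ∈ Algebra.adjoin (D1c_O w) ({pb.gen} : Set L0) := by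
    intro z hz
    have h1 : e • z = (⟨s ^ m, hsO m⟩ : D1c_O w) • (d • z) := by
      rw [he, mul_smul]
      rfl
    rw [h1]
    exact Subalgebra.smul_mem _ (key1 z hz) _
  obtain ⟨c₀, hc₀⟩ : ∃ c₀ : ℕ, v.ge (-(c₀ : ℤ)) (D θ) := by
    refine ⟨(-v.ord (D θ)).toNat, v.ge_mono ?_ (v.ge_self _)⟩
    omega
  have key3 : ∀ u ∈ Algebra.adjoin (D1c_O w) ({pb.gen} : Set L0),
      v.ge 0 ((u : L0) : K) ∧ v.ge (-(c₀ : ℤ)) (D ((u : L0) : K)) := by
    intro u hu
    induction hu using Algebra.adjoin_induction with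
    | mem x hx =>
      rw [Set.mem_singleton_iff] at hx
      rw [hx, hgen]
      exact ⟨D1c_int hw hθ, hc₀⟩
    | algebraMap r =>
      have h1 : ((algebraMap (D1c_O w) L0 r : L0) : K) = algebraMap K₀ K (r : K₀) := rfl
      rw [h1, hD]
      have h2 : w.ge 0 (r : K₀) := r.2
      refine ⟨(hw 0 _).1 h2, v.ge_mono ?_ ((hw 0 _).1 (hD₀ _ h2))⟩
      omega
    | add x y _ _ hx hy =>
      have h1 : ((x + y : L0) : K) = (x : K) + (y : K) := rfl
      rw [h1, map_add]
      exact ⟨v.ge_add hx.1 hy.1, v.ge_add hx.2 hy.2⟩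
    | mul x y _ _ hx hy =>
      have h1 : ((x * y : L0) : K) = (x : K) * (y : K) := rfl
      rw [h1, D.leibniz, smul_eq_mul, smul_eq_mul]
      have h2 := v.ge_mul hx.1 hy.1
      have h3 := v.ge_mul hx.1 hy.2
      have h4 := v.ge_mul hy.1 hx.2
      rw [add_zero] at h2
      rw [zero_add] at h3 h4
      exact ⟨h2, v.ge_add h3 h4⟩
  set ε := algebraMap K₀ K e with hε
  have hε0 : ε ≠ 0 := (map_ne_zero _).2 he0
  have hεge : v.ge 0 ε := (hw 0 _).1 heO
  have hDε : v.ge 0 (D ε) := by
    rw [hε, hD]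
    exact (hw 0 _).1 (hD₀ _ heO)
  set c : ℕ := c₀ + (v.ord ε).toNat with hc
  have key4 : ∀ z : K, z ∈ L0 → IsIntegral (D1c_O w) z → v.ge (-(c : ℤ)) (D z) := by
    intro z hzL hz
    have hz' : IsIntegral (D1c_O w) (⟨z, hzL⟩ : L0) := by
      rw [← isIntegral_algebraMap_iff (B := K) (algebraMap L0 K).injective]
      exact hz
    have h1 := (key3 _ (key2 _ hz')).2
    have h2 : ((e • (⟨z, hzL⟩ : L0) : L0) : K) = ε * z := by
      rw [Algebra.smul_def]
      rfl
    rw [h2, D.leibniz, smul_eq_mul, smul_eq_mul] at h1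
    have h3 : v.ge (-(c₀ : ℤ)) (z * D ε) := by
      have h4 := v.ge_mul (D1c_int hw hz) hDε
      refine v.ge_mono ?_ h4
      omega
    have h4 := v.ge_sub h1 h3
    rw [add_sub_cancel_right] at h4
    have h5 : v.ge (-v.ord ε) ε⁻¹ := Or.inr (v.ord_inv _ hε0).ge
    have h6 := v.ge_mul h5 h4
    rw [inv_mul_cancel_left₀ hε0] at h6
    refine v.ge_mono ?_ h6
    have h7 : 0 ≤ v.ord ε := by
      rcases hεge with h | h
      · exact absurd h hε0
      · exact h
    rw [hc]
    push_cast
    omega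
  have hLK : ∀ a : K₀, algebraMap K₀ K a ∈ L0.toSubfield := fun a => L0.algebraMap_mem a
  have hθL : θ ∈ L0 := IntermediateField.mem_adjoin_simple_self K₀ θ
  have hfL : f ∈ L0 := by
    have hy0' : algebraMap K₀ K (y : K₀) ≠ 0 := by
      rw [Ne, map_eq_zero]
      exact fun h => hy0 (Subtype.ext h)
    have h1 : f = (algebraMap K₀ K (y : K₀))⁻¹ * θ := by
      rw [hθf, inv_mul_cancel_left₀ hy0']
    rw [h1]
    exact L0.mul_mem (L0.inv_mem (L0.algebraMap_mem _)) hθL
  refine ⟨L0.toSubfield, c, hLK, hfL, ?_⟩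
  intro g hg hvg
  obtain ⟨b, hbL, hb0, hbo, hbi, hbgi⟩ := D1c_quot (w := w) hw (halg g) hvg L0.toSubfield hLK hg
  have h1 := key4 (b * g) (L0.mul_mem hbL hg) hbgi
  have h2 := key4 b hbL hbi
  rw [D.leibniz, smul_eq_mul, smul_eq_mul] at h1
  have h3 := v.ge_mul hvg h2
  rw [zero_add] at h3
  have h4 := v.ge_sub h1 h3
  rw [add_sub_cancel_right] at h4
  have h5 : v.ge 0 b⁻¹ := by
    right
    rw [v.ord_inv _ hb0, hbo, neg_zero]
  have h6 := v.ge_mul h5 h4
  rw [inv_mul_cancel_left₀ hb0, zero_add] at h6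
  exact h6

end

theorem der_bounded {k K₀ K : Type u} [Field k] [CharZero k] [Field K₀] [Algebra k K₀] [Field K]
    [Algebra k K] (j : K₀ →ₐ[k] K) (hj : AlgOver j) (v : OrdFn k K) (s : K₀) (hs0 : s ≠ 0)
    (hs : v.ord (j s) = 1) (D₀ : Derivation k K₀ K₀)
    (hD₀ : ∀ a, v.ge 0 (j a) → v.ge 0 (j (D₀ a))) (D : Derivation k K K)
    (hD : ∀ a, D (j a) = j (D₀ a)) (f : K) :
    ∃ (L : Subfield K) (c : ℕ), (∀ a : K₀, j a ∈ L) ∧ f ∈ L ∧
      ∀ g ∈ L, v.ge 0 g → v.ge (-(c : ℤ)) (D g) := by
  let _ : Algebra K₀ K := (j : K₀ →+* K).toAlgebra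
  exact D1c_main (w := v.comap j) (fun N a => v.comap_ge j N a) hj s hs0 hs D₀
    (fun a ha => (v.comap_ge j 0 _).2 (hD₀ a ((v.comap_ge j 0 a).1 ha))) D hD f

end M5
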