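import Pool.Agent.M5.D1b
import Pool.Agent.M5.D1c

/-!
PROJECT M5, PIECE D1d: derivations of an unramified extension are integral.

PROOF. `f` with `v.ge 0 f`, `L`, `c` from `der_bounded`. Let `c` be the least natural number with
`v.ge (-c) (D g)` for all `g ∈ L` with `v.ge 0 g`; assume `c > 0` and let `g ∈ L` have `D g ≠ 0`,
`v.ord (D g) = -c`. `exists_sep` for `g`: `P(g) = j s * h`, `h ∈ L`, `v.ge 0 h`. Apply `D`:
`P'(g) * D g + ∑ j (D₀ (P.coeff i)) * g ^ i = j (D₀ s) * h + j s * D h`. All terms except `P'(g) * D g` have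
order `≥ min (0, 1 - c) ≥ 1 - c`, and `P'(g) * D g` has order exactly `-c`: contradiction. So `c = 0`.
-/

set_option autoImplicit false

open MLD MvPolynomial

namespace M5

universe u

private theorem leib {k K₀ K : Type u} [Field k] [Field K₀] [Algebra k K₀]
    [Field K] [Algebra k K] (j : K₀ →ₐ[k] K) (D₀ : Derivation k K₀ K₀) (D : Derivation k K K)
    (hD : ∀ a, D (j a) = j (D₀ a)) (g : K) (P : Polynomial K₀) :
    D (P.eval₂ (j : K₀ →+* K) g) = P.derivative.eval₂ (j : K₀ →+* K) g * D g +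
      P.sum (fun i a => j (D₀ a) * g ^ i) := by
  induction P using Polynomial.induction_on' with
  | add p q hp hq =>
    rw [Polynomial.eval₂_add, map_add, hp, hq, Polynomial.derivative_add, Polynomial.eval₂_add,
      Polynomial.sum_add_index]
    · ring
    · intro i
      simp
    · intro i a b
      rw [map_add, map_add, add_mul]
  | monomial n a =>
    rw [Polynomial.eval₂_monomial, Polynomial.derivative_monomial, Polynomial.eval₂_monomial,
      Polynomial.sum_monomial_index _ _ (by simp), Derivation.leibniz, Derivation.leibniz_pow]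
    have h1 : D ((j : K₀ →+* K) a) = j (D₀ a) := hD a
    rw [h1, map_mul, map_natCast]
    simp only [smul_eq_mul, nsmul_eq_mul]
    ring

private theorem eval_mem {k K₀ K : Type u} [Field k] [Field K₀] [Algebra k K₀]
    [Field K] [Algebra k K] (j : K₀ →ₐ[k] K) (L : Subfield K) (hL : ∀ a : K₀, j a ∈ L) {g : K}
    (hg : g ∈ L) (P : Polynomial K₀) : P.eval₂ (j : K₀ →+* K) g ∈ L := by
  rw [Polynomial.eval₂_eq_sum]
  exact Subfield.sum_mem _ fun i _ => L.mul_mem (hL _) (L.pow_mem hg _)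

theorem unram_integral {k K₀ K : Type u} [Field k] [CharZero k] [Field K₀] [Algebra k K₀]
    [Field K] [Algebra k K] (j : K₀ →ₐ[k] K) (hj : AlgOver j) (v : OrdFn k K) (s : K₀)
    (hs0 : s ≠ 0) (hs : v.ord (j s) = 1) (D₀ : Derivation k K₀ K₀)
    (hD₀ : ∀ a, v.ge 0 (j a) → v.ge 0 (j (D₀ a))) (D : Derivation k K K)
    (hD : ∀ a, D (j a) = j (D₀ a)) (f : K) (hf : v.ge 0 f) : v.ge 0 (D f) := by
  classical
  obtain ⟨L, c₀, hL, hfL, hc₀⟩ := der_bounded j hj v s hs0 hs D₀ hD₀ D hD f
  have hex : ∃ c : ℕ, ∀ g ∈ L, v.ge 0 g → v.ge (-(c : ℤ)) (D g) := ⟨c₀, hc₀⟩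
  have hmin := Nat.find_spec hex
  obtain ⟨c, hc⟩ : ∃ c, c = Nat.find hex := ⟨_, rfl⟩
  rw [← hc] at hmin
  rcases Nat.eq_zero_or_pos c with h0 | hpos
  · have := hmin f hfL hf
    rw [h0, Nat.cast_zero, neg_zero] at this
    exact this
  · exfalso
    obtain ⟨c', rfl⟩ : ∃ c', c = c' + 1 := ⟨c - 1, by omega⟩
    have hnot : ¬ ∀ g ∈ L, v.ge 0 g → v.ge (-(c' : ℤ)) (D g) :=
      Nat.find_min hex (by omega)
    push Not at hnot
    obtain ⟨g, hgL, hg0, hgn⟩ := hnot
    have hsj : j s ≠ 0 := (map_ne_zero j).mpr hs0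
    have hDg : D g ≠ 0 := fun h => hgn (Or.inl h)
    have hDo : v.ord (D g) < -(c' : ℤ) := by
      by_contra hlt
      exact hgn (Or.inr (not_lt.mp hlt))
    obtain ⟨P, hP0, hP1, hP2, hP3⟩ := exists_sep j hj v g hg0
    obtain ⟨h, hh⟩ : ∃ h, h = P.eval₂ (j : K₀ →+* K) g / j s := ⟨_, rfl⟩
    have hPh : P.eval₂ (j : K₀ →+* K) g = j s * h := by
      rw [hh, mul_div_cancel₀ _ hsj]
    have hhL : h ∈ L := by
      rw [hh]
      exact L.div_mem (eval_mem j L hL hgL P) (hL s)
    have hh0 : v.ge 0 h := by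
      rcases hP1 with h1 | h1
      · left
        rw [hh, h1, zero_div]
      · by_cases h2 : P.eval₂ (j : K₀ →+* K) g = 0
        · left
          rw [hh, h2, zero_div]
        · right
          rw [hh, v.ord_div h2 hsj, hs]
          omega
    have hDh := hmin h hhL hh0
    have hlb := leib j D₀ D hD g P
    rw [hPh, Derivation.leibniz, hD] at hlb
    simp only [smul_eq_mul] at hlb
    have hs1 : v.ge 0 (j s) := Or.inr (by rw [hs]; omega)
    have hs2 : v.ge 1 (j s) := Or.inr (by rw [hs])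
    have hR : v.ge 0 (P.sum fun i a => j (D₀ a) * g ^ i) := by
      unfold Polynomial.sum
      refine v.ge_sum _ _ fun i _ => ?_
      have e1 := v.ge_mul (hD₀ _ (hP0 i)) (v.ge_pow hg0 i)
      simpa using e1
    have key : P.derivative.eval₂ (j : K₀ →+* K) g * D g =
        j s * D h + h * j (D₀ s) - P.sum (fun i a => j (D₀ a) * g ^ i) := by
      rw [hlb]
      ring
    have hge : v.ge (-(c' : ℤ)) (P.derivative.eval₂ (j : K₀ →+* K) g * D g) := by
      rw [key]
      refine v.ge_sub (v.ge_add ?_ ?_) (v.ge_mono (by omega) hR)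
      · refine v.ge_mono ?_ (v.ge_mul hs2 hDh)
        push_cast
        omega
      · refine v.ge_mono ?_ (v.ge_mul hh0 (hD₀ s hs1))
        omega
    have hne : P.derivative.eval₂ (j : K₀ →+* K) g * D g ≠ 0 := mul_ne_zero hP2 hDg
    rcases hge with h1 | h1
    · exact hne h1
    · rw [v.ord_mul hP2 hDg, hP3] at h1
      omega

end M5
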