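import Pool.Agent.M5.D1a
import Pool.Agent.M5.D1d
import Pool.Agent.M5.D1e

/-!
PROJECT M5, PIECE D1 (main): integral dual derivations for a divisorial valuation.

PROOF. `exists_zder`: `ι : FF k (Fin (d + 1)) → K`, `D₀ i`; `AlgOver ι` (`algOver_of_trLe`); extend `D₀ i`
(`exists_ext_der`); integral by `unram_integral` with `s = xx k 0`.
`exists_z`: `z 0` of order `1` (`ord_surj'`), `u` from `residue'`.
-/

set_option autoImplicit false

open MLD MvPolynomial

namespace M5

universe u

/-- a uniformizer and `d` functions with algebraically independent residues -/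
theorem exists_z {k K : Type u} [Field k] [Field K] [Algebra k K] {d : ℕ} (E : Dv k K (d + 1)) :
    ∃ z : Fin (d + 1) → K, z 0 ≠ 0 ∧ E.ord (z 0) = 1 ∧ RAI E.v (fun i : Fin d => z i.succ) := by
  obtain ⟨f, hf0, hf1⟩ := E.ord_surj'
  obtain ⟨g, hg⟩ := E.residue'
  exact ⟨Fin.cons f g, hf0, hf1, hg⟩

theorem exists_dual {k K : Type u} [Field k] [CharZero k] [Field K] [Algebra k K] {d : ℕ}
    (hK : TrLe k K (d + 1)) (E : Dv k K (d + 1)) (z : Fin (d + 1) → K) (hz0 : z 0 ≠ 0)
    (hz : E.ord (z 0) = 1) (hu : RAI E.v (fun i : Fin d => z i.succ)) :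
    ∃ D : Fin (d + 1) → Derivation k K K, (∀ i j, D i (z j) = if i = j then 1 else 0) ∧
      ∀ i, E.IntegralDer (D i) := by
  obtain ⟨ι, hι, D₀, hD₀, hge⟩ := exists_zder E.v z hz0 hz hu
  have hj : AlgOver ι := algOver_of_trLe hK ι
  choose D hD using fun i => exists_ext_der ι hj (D₀ i)
  refine ⟨D, fun i j => ?_, fun i f hf0 hf => ?_⟩
  · rw [← hι j, hD, hD₀]
    split_ifs
    · exact map_one ι
    · exact map_zero ι
  · have hs : E.v.ord (ι (xx k 0)) = 1 := by
      rw [hι]
      exact hz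
    have hs0 : (xx k 0 : FF k (Fin (d + 1))) ≠ 0 := by
      intro h
      apply hz0
      rw [← hι 0, h, map_zero]
    exact unram_integral ι hj E.v (xx k 0) hs0 hs (D₀ i) (hge i) (D i) (hD i) f (Or.inr hf)

end M5
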