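import Pool.Agent.M5.D0
import Pool.Agent.MLD.Der

/-!
PROJECT M5, PIECE D1a (two theorems): the order function on `k(z)`, `z = (s, u)`, `ord s = 1`, residues
of the `u_i` algebraically independent.

PROOF. A polynomial `P` in `s, u` is `∑ m, s ^ m * P_m(u)` (`finSuccEquiv k d P`, a polynomial in one
variable with coefficients in `MvPolynomial (Fin d) k`; `aeval z P = ∑ m, aeval u (P_m) * s ^ m`);
if `P ≠ 0` and `m` is the least index with `P_m ≠ 0`, then `ord (aeval z P) = m` (RAI: the term `m` has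
order exactly `m`, the later ones more: `OrdFn.ord_add_eq`). In particular `aeval z P ≠ 0`: algebraic
independence. So `ι` exists (`FF k _` is a fraction field: `IsFractionRing.liftAlgHom` or
`IsLocalization.liftAlgHom`, injective). The derivations `D i` of `FF k _`: `exists_pderivFF`
(MLD/Old or LDisc, see the proof of `exists_zDer` in MLD/ArcExtD.lean), `D i (toFF p) = toFF (pderiv i p)`.
Integrality: let `f = P / Q`, `ord (ι f) ≥ 0`. Dividing `P` and `Q` by the same power of `X 0` we may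
assume that `Q` has order `0` (write `P = X 0 ^ a * P'`, `Q = X 0 ^ b * Q'` with `P', Q'` of order `0`,
`a ≥ b`). Then `D f = (D P * Q - P * D Q) / Q ^ 2`, polynomials have order `≥ 0`.
-/

set_option autoImplicit false

open MLD MvPolynomial

namespace M5

universe u

private theorem D1a_dec {k : Type u} [Field k] {d : ℕ} (P : MvPolynomial (Fin (d + 1)) k) :
    ∃ (P0 : MvPolynomial (Fin d) k) (Q : MvPolynomial (Fin (d + 1)) k),
      P = rename Fin.succ P0 + X 0 * Q := by
  induction P using MvPolynomial.induction_on with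
  | C a => exact ⟨C a, 0, by simp⟩
  | add p q hp hq =>
    obtain ⟨p0, q1, h1⟩ := hp
    obtain ⟨p0', q1', h2⟩ := hq
    refine ⟨p0 + p0', q1 + q1', ?_⟩
    rw [map_add]
    linear_combination h1 + h2
  | mul_X p i hp =>
    obtain ⟨p0, q1, h1⟩ := hp
    induction i using Fin.cases with
    | zero => exact ⟨0, p, by rw [map_zero]; ring⟩
    | succ j =>
      refine ⟨p0 * X j, q1 * X j.succ, ?_⟩
      rw [map_mul, rename_X]
      linear_combination (X j.succ) * h1

private theorem D1a_fac {k : Type u} [Field k] {d : ℕ} (n : ℕ) :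
    ∀ P : MvPolynomial (Fin (d + 1)) k, P ≠ 0 → P.totalDegree ≤ n →
    ∃ (a : ℕ) (P0 : MvPolynomial (Fin d) k) (Q : MvPolynomial (Fin (d + 1)) k),
      P0 ≠ 0 ∧ P = X 0 ^ a * (rename Fin.succ P0 + X 0 * Q) := by
  induction n with
  | zero =>
    intro P hP hn
    obtain ⟨P0, Q, h⟩ := D1a_dec P
    by_cases h0 : P0 = 0
    · exfalso
      rw [h0, map_zero, zero_add] at h
      have hQ : Q ≠ 0 := by
        rintro rfl
        exact hP (by rw [h, mul_zero])
      rw [h, totalDegree_mul_of_isDomain (X_ne_zero 0) hQ, totalDegree_X] at hn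
      omega
    · exact ⟨0, P0, Q, h0, by rw [pow_zero, one_mul]; exact h⟩
  | succ n ih =>
    intro P hP hn
    obtain ⟨P0, Q, h⟩ := D1a_dec P
    by_cases h0 : P0 = 0
    · rw [h0, map_zero, zero_add] at h
      have hQ : Q ≠ 0 := by
        rintro rfl
        exact hP (by rw [h, mul_zero])
      rw [h, totalDegree_mul_of_isDomain (X_ne_zero 0) hQ, totalDegree_X] at hn
      obtain ⟨a, P1, Q1, h1, h2⟩ := ih Q hQ (by omega)
      refine ⟨a + 1, P1, Q1, h1, ?_⟩
      rw [h, h2]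
      ring
    · exact ⟨0, P0, Q, h0, by rw [pow_zero, one_mul]; exact h⟩

private theorem D1a_ge {k K : Type u} [Field k] [Field K] [Algebra k K] (v : OrdFn k K) {d : ℕ}
    (z : Fin (d + 1) → K) (hz : 0 < v.ord (z 0))
    (hu : RAI v (fun i : Fin d => z i.succ)) (P : MvPolynomial (Fin (d + 1)) k) :
    v.ge 0 (aeval z P) := by
  refine v.ge_zero_aeval z (fun b => ?_) P
  induction b using Fin.cases with
  | zero => exact Or.inr hz.le
  | succ j =>
    have h := (hu (X j) (X_ne_zero j)).2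
    rw [aeval_X] at h
    exact Or.inr h.ge

private theorem D1a_ord {k K : Type u} [Field k] [Field K] [Algebra k K] (v : OrdFn k K) {d : ℕ}
    (z : Fin (d + 1) → K) (hz : 0 < v.ord (z 0))
    (hu : RAI v (fun i : Fin d => z i.succ)) (P0 : MvPolynomial (Fin d) k) (h0 : P0 ≠ 0)
    (Q : MvPolynomial (Fin (d + 1)) k) :
    aeval z (rename Fin.succ P0 + X 0 * Q) ≠ 0 ∧
      v.ord (aeval z (rename Fin.succ P0 + X 0 * Q)) = 0 := by
  obtain ⟨h1, h2⟩ := hu P0 h0
  have h3 : aeval z (rename Fin.succ P0 + X 0 * Q) =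
      aeval (fun i : Fin d => z i.succ) P0 + z 0 * aeval z Q := by
    rw [map_add, aeval_rename, map_mul, aeval_X]
    rfl
  rw [h3]
  have h4 : v.ge (v.ord (aeval (fun i : Fin d => z i.succ) P0) + 1) (z 0 * aeval z Q) := by
    rw [h2, zero_add]
    have h5 : v.ge 1 (z 0) := Or.inr (by omega)
    have h6 := v.ge_mul h5 (D1a_ge v z hz hu Q)
    rwa [add_zero] at h6
  obtain ⟨h5, h6⟩ := v.ord_add_eq h1 h4
  exact ⟨h5, h6.trans h2⟩

private theorem D1a_main {k K : Type u} [Field k] [Field K] [Algebra k K] (v : OrdFn k K) {d : ℕ}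
    (z : Fin (d + 1) → K) (hz : 0 < v.ord (z 0))
    (hu : RAI v (fun i : Fin d => z i.succ)) (P : MvPolynomial (Fin (d + 1)) k) (hP : P ≠ 0) :
    ∃ (a : ℕ) (P' : MvPolynomial (Fin (d + 1)) k), P' ≠ 0 ∧ P = X 0 ^ a * P' ∧ aeval z P' ≠ 0 ∧
      v.ord (aeval z P') = 0 := by
  obtain ⟨a, P0, Q, h1, h2⟩ := D1a_fac P.totalDegree P hP le_rfl
  obtain ⟨h3, h4⟩ := D1a_ord v z hz hu P0 h1 Q
  refine ⟨a, _, ?_, h2, h3, h4⟩
  intro h
  rw [h, map_zero] at h3
  exact h3 rfl

theorem algInd_z {k K : Type u} [Field k] [Field K] [Algebra k K] (v : OrdFn k K) {d : ℕ}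
    (z : Fin (d + 1) → K) (hz0 : z 0 ≠ 0) (hz : 0 < v.ord (z 0))
    (hu : RAI v (fun i : Fin d => z i.succ)) : AlgebraicIndependent k z := by
  rw [algebraicIndependent_iff]
  intro P h
  by_contra hP
  obtain ⟨a, P', _, h1, h2, _⟩ := D1a_main v z hz hu P hP
  rw [h1, map_mul, map_pow, aeval_X] at h
  exact mul_ne_zero (pow_ne_zero a hz0) h2 h

theorem exists_zder {k K : Type u} [Field k] [Field K] [Algebra k K] (v : OrdFn k K) {d : ℕ}
    (z : Fin (d + 1) → K) (hz0 : z 0 ≠ 0) (hz : v.ord (z 0) = 1)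
    (hu : RAI v (fun i : Fin d => z i.succ)) :
    ∃ ι : FF k (Fin (d + 1)) →ₐ[k] K, (∀ i, ι (xx k i) = z i) ∧
      ∃ D : Fin (d + 1) → Derivation k (FF k (Fin (d + 1))) (FF k (Fin (d + 1))),
        (∀ i j, D i (xx k j) = if i = j then 1 else 0) ∧
        ∀ i f, v.ge 0 (ι f) → v.ge 0 (ι (D i f)) := by
  have hz' : 0 < v.ord (z 0) := by omega
  have hinj : Function.Injective (aeval z : MvPolynomial (Fin (d + 1)) k →ₐ[k] K) :=
    algInd_z v z hz0 hz' hu
  let ι : FF k (Fin (d + 1)) →ₐ[k] K := IsFractionRing.liftAlgHom hinj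
  have hι : ∀ f : MvPolynomial (Fin (d + 1)) k, ι (toFF k (Fin (d + 1)) f) = aeval z f := by
    intro f
    exact IsFractionRing.lift_algebraMap (K := FF k (Fin (d + 1)))
      (g := (aeval z : MvPolynomial (Fin (d + 1)) k →ₐ[k] K).toRingHom) hinj f
  obtain ⟨D, hD⟩ := exists_pderivFF k (Fin (d + 1))
  refine ⟨ι, fun i => ?_, D, fun i j => ?_, fun i f hf => ?_⟩
  · show ι (toFF k (Fin (d + 1)) (X i)) = z i
    rw [hι, aeval_X]
  · show D i (toFF k (Fin (d + 1)) (X j)) = _
    rw [hD, pderiv_X]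
    by_cases h : i = j
    · subst h
      rw [if_pos rfl, Pi.single_eq_same, map_one]
    · rw [if_neg h, Pi.single_eq_of_ne (Ne.symm h), map_zero]
  · by_cases f0 : f = 0
    · subst f0
      left
      rw [map_zero, map_zero]
    obtain ⟨P, Q, hQ0, hPQ⟩ := IsFractionRing.div_surjective (A := MvPolynomial (Fin (d + 1)) k) f
    have hQ : Q ≠ 0 := nonZeroDivisors.ne_zero hQ0
    have hPQ' : toFF k (Fin (d + 1)) P / toFF k (Fin (d + 1)) Q = f := hPQ
    have hP : P ≠ 0 := by
      rintro rfl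
      rw [map_zero, zero_div] at hPQ'
      exact f0 hPQ'.symm
    obtain ⟨a, P', hP0', hP1, hP2, hP3⟩ := D1a_main v z hz' hu P hP
    obtain ⟨b, Q', hQ0', hQ1, hQ2, hQ3⟩ := D1a_main v z hz' hu Q hQ
    have hta : ∀ R : MvPolynomial (Fin (d + 1)) k, R ≠ 0 → toFF k (Fin (d + 1)) R ≠ 0 := by
      intro R hR h
      apply hR
      exact (IsFractionRing.injective (MvPolynomial (Fin (d + 1)) k) (FF k (Fin (d + 1))))
        (by rw [map_zero]; exact h)
    have hX : toFF k (Fin (d + 1)) (X 0) ≠ 0 := hta _ (X_ne_zero 0)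
    have hιf : ι f = z 0 ^ a * aeval z P' / (z 0 ^ b * aeval z Q') := by
      rw [← hPQ', map_div₀, hι, hι, hP1, hQ1, map_mul, map_mul, map_pow, map_pow, aeval_X]
    have hne : ι f ≠ 0 := by
      rw [ne_eq, map_eq_zero]
      exact f0
    have hord : v.ord (ι f) = a - b := by
      rw [hιf, v.ord_div (mul_ne_zero (pow_ne_zero a hz0) hP2)
        (mul_ne_zero (pow_ne_zero b hz0) hQ2), v.ord_mul (pow_ne_zero a hz0) hP2,
        v.ord_mul (pow_ne_zero b hz0) hQ2, v.ord_pow hz0, v.ord_pow hz0, hP3, hQ3, hz]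
      ring
    have hab : b ≤ a := by
      rcases hf with hf | hf
      · exact absurd hf hne
      · rw [hord] at hf
        omega
    obtain ⟨e, rfl⟩ := Nat.exists_eq_add_of_le hab
    have hf2 : f = toFF k (Fin (d + 1)) (X 0 ^ e * P') / toFF k (Fin (d + 1)) Q' := by
      rw [← hPQ', hP1, hQ1, map_mul, map_mul, map_mul, map_pow, map_pow, map_pow, pow_add]
      have h1 : toFF k (Fin (d + 1)) Q' ≠ 0 := hta _ hQ0'
      field_simp
    rw [hf2, Derivation.leibniz_div, hD, hD]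
    have h2 : ι ((toFF k (Fin (d + 1)) Q')⁻¹ ^ 2 •
        (toFF k (Fin (d + 1)) Q' • toFF k (Fin (d + 1)) (pderiv i (X 0 ^ e * P')) -
          toFF k (Fin (d + 1)) (X 0 ^ e * P') • toFF k (Fin (d + 1)) (pderiv i Q'))) =
        (aeval z Q')⁻¹ ^ 2 * (aeval z (Q' * pderiv i (X 0 ^ e * P') -
          X 0 ^ e * P' * pderiv i Q')) := by
      rw [smul_eq_mul, smul_eq_mul, smul_eq_mul, map_mul, map_pow, map_inv₀, hι, ← map_mul,
        ← map_mul, ← map_sub, hι]
    rw [h2]
    have h3 : v.ge 0 ((aeval z Q')⁻¹ ^ 2) := by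
      right
      rw [v.ord_pow (inv_ne_zero hQ2), v.ord_inv _ hQ2, hQ3]
      simp
    have h4 := v.ge_mul h3 (D1a_ge v z hz' hu (Q' * pderiv i (X 0 ^ e * P') -
          X 0 ^ e * P' * pderiv i Q'))
    rwa [add_zero] at h4

end M5
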