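import Pool.Agent.M5.D0

/-!
PROJECT M5, PIECE D1b: a residue of an element is a simple root over the residue field of a subfield.

PROOF. `v` on `K` restricted to `K₀` is discrete with `s` of order `1`. Consider the polynomials
`P` over `K₀` with all coefficients of `v`-order `≥ 0` and the leading coefficient of order `0`, with
`v.ge 1 (P(f))`. They exist: `f` is algebraic over `K₀` (`halg`): take `A ≠ 0` with `A(f) = 0`, divide by
a coefficient of the least order, and drop the terms above the last coefficient of order `0` (they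
have order `≥ 1` at `f`). Take `P` of least degree; the degree is `≥ 1` (a constant of order `0` does
not have order `≥ 1`). The derivative has degree one less and leading coefficient
`natDegree * leadingCoeff` of order `0` (`CharZero`), so `P'(f)` does not have order `≥ 1` (for
degree `0` directly), and it has order `≥ 0`.
-/

set_option autoImplicit false

open MLD MvPolynomial

namespace M5

universe u

private theorem ge_natCast {k K : Type u} [Field k] [Field K] [Algebra k K] (v : OrdFn k K)
    (n : ℕ) : v.ge 0 (n : K) := by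
  rw [← map_natCast (algebraMap k K) n]
  exact v.ge_const _

private theorem ge_inv_natCast {k K : Type u} [Field k] [Field K] [Algebra k K] (v : OrdFn k K)
    (n : ℕ) : v.ge 0 (n : K)⁻¹ := by
  rw [← map_natCast (algebraMap k K) n, ← map_inv₀]
  exact v.ge_const _

private theorem not_ge_one {k K : Type u} [Field k] [Field K] [Algebra k K] (v : OrdFn k K) :
    ¬ v.ge 1 (1 : K) := by
  rintro (h | h)
  · exact one_ne_zero h
  · rw [v.ord_one] at h
    omega

private theorem ge_eval {k K₀ K : Type u} [Field k] [Field K₀] [Algebra k K₀] [Field K]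
    [Algebra k K] (j : K₀ →ₐ[k] K) (v : OrdFn k K) (f : K) (hf : v.ge 0 f) (P : Polynomial K₀)
    (hP : ∀ i, v.ge 0 (j (P.coeff i))) : v.ge 0 (P.eval₂ (j : K₀ →+* K) f) := by
  rw [Polynomial.eval₂_eq_sum_range]
  refine v.ge_sum _ _ fun i _ => ?_
  have h1 := v.ge_pow hf i
  rw [mul_zero] at h1
  have h2 := v.ge_mul (hP i) h1
  rwa [add_zero] at h2

/-- a monic polynomial with coefficients of order `≥ 0` and value of order `≥ 1` -/
private theorem exists_good {k K₀ K : Type u} [Field k] [Field K₀] [Algebra k K₀] [Field K]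
    [Algebra k K] (j : K₀ →ₐ[k] K) (hj : AlgOver j) (v : OrdFn k K) (f : K) (hf : v.ge 0 f) :
    ∃ P : Polynomial K₀, P.Monic ∧ (∀ i, v.ge 0 (j (P.coeff i))) ∧
      v.ge 1 (P.eval₂ (j : K₀ →+* K) f) := by
  classical
  obtain ⟨A, hA0, hA⟩ := hj f
  obtain ⟨n0, hn0, hmin⟩ := Finset.exists_min_image A.support (fun n => v.ord (j (A.coeff n)))
    (Polynomial.nonempty_support_iff.2 hA0)
  set S := A.support.filter fun n => v.ord (j (A.coeff n)) = v.ord (j (A.coeff n0)) with hS
  have hSne : S.Nonempty := ⟨n0, Finset.mem_filter.2 ⟨hn0, rfl⟩⟩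
  set n1 := S.max' hSne with hn1
  have hn1S : n1 ∈ S := S.max'_mem hSne
  have hn1A : A.coeff n1 ≠ 0 := Polynomial.mem_support_iff.1 (Finset.mem_filter.1 hn1S).1
  have hn1o : v.ord (j (A.coeff n1)) = v.ord (j (A.coeff n0)) := (Finset.mem_filter.1 hn1S).2
  have hjne : ∀ {x : K₀}, x ≠ 0 → j x ≠ 0 := fun {x} hx =>
    (map_ne_zero (j : K₀ →+* K)).2 hx
  set c := A.coeff n1 with hc
  have hge : ∀ n, v.ge 0 (j (c⁻¹ * A.coeff n)) := by
    intro n
    by_cases h : A.coeff n = 0
    · rw [h, mul_zero, map_zero]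
      exact v.ge_zero _
    · right
      rw [map_mul, map_inv₀, v.ord_mul (inv_ne_zero (hjne hn1A)) (hjne h), v.ord_inv _ (hjne hn1A)]
      have := hmin n (Polynomial.mem_support_iff.2 h)
      omega
  have hgt : ∀ n, n1 < n → v.ge 1 (j (c⁻¹ * A.coeff n)) := by
    intro n hn
    by_cases h : A.coeff n = 0
    · rw [h, mul_zero, map_zero]
      exact v.ge_zero _
    · right
      rw [map_mul, map_inv₀, v.ord_mul (inv_ne_zero (hjne hn1A)) (hjne h), v.ord_inv _ (hjne hn1A)]
      have h1 := hmin n (Polynomial.mem_support_iff.2 h)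
      have h2 : v.ord (j (A.coeff n)) ≠ v.ord (j (A.coeff n0)) := by
        intro h3
        have h4 := S.le_max' n (Finset.mem_filter.2 ⟨Polynomial.mem_support_iff.2 h, h3⟩)
        omega
      omega
  set P : Polynomial K₀ := ∑ n ∈ Finset.range (n1 + 1), Polynomial.monomial n (c⁻¹ * A.coeff n)
    with hP
  have hcoeff : ∀ m, P.coeff m = if m < n1 + 1 then c⁻¹ * A.coeff m else 0 := by
    intro m
    rw [hP, Polynomial.finsetSum_coeff]
    simp only [Polynomial.coeff_monomial]
    rw [Finset.sum_ite_eq' (Finset.range (n1 + 1)) m]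
    simp only [Finset.mem_range]
  refine ⟨P, ?_, ?_, ?_⟩
  · refine Polynomial.monic_of_natDegree_le_of_coeff_eq_one n1 ?_ ?_
    · rw [Polynomial.natDegree_le_iff_coeff_eq_zero]
      intro m hm
      rw [hcoeff, if_neg (by omega)]
    · rw [hcoeff, if_pos (by omega), ← hc, inv_mul_cancel₀ hn1A]
  · intro i
    rw [hcoeff]
    split_ifs
    · exact hge i
    · rw [map_zero]
      exact v.ge_zero _
  · have h1 : (Polynomial.C c⁻¹ * A).eval₂ (j : K₀ →+* K) f = 0 := by
      rw [Polynomial.eval₂_mul, hA, mul_zero]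
    have h2 : P.eval₂ (j : K₀ →+* K) f =
        (P - Polynomial.C c⁻¹ * A).eval₂ (j : K₀ →+* K) f := by
      rw [Polynomial.eval₂_sub, h1, sub_zero]
    rw [h2, Polynomial.eval₂_eq_sum_range]
    refine v.ge_sum _ _ fun i _ => ?_
    have h3 := v.ge_pow hf i
    rw [mul_zero] at h3
    have h4 : v.ge 1 ((j : K₀ →+* K) ((P - Polynomial.C c⁻¹ * A).coeff i)) := by
      rw [Polynomial.coeff_sub, hcoeff, Polynomial.coeff_C_mul]
      split_ifs with h
      · rw [sub_self, map_zero]
        exact v.ge_zero _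
      · rw [zero_sub, map_neg]
        exact v.ge_neg (hgt i (by omega))
    have h5 := v.ge_mul h4 h3
    rwa [add_zero] at h5

theorem exists_sep {k K₀ K : Type u} [Field k] [CharZero k] [Field K₀] [Algebra k K₀] [Field K]
    [Algebra k K] (j : K₀ →ₐ[k] K) (hj : AlgOver j) (v : OrdFn k K) (f : K) (hf : v.ge 0 f) :
    ∃ P : Polynomial K₀, (∀ i, v.ge 0 (j (P.coeff i))) ∧
      v.ge 1 (P.eval₂ (j : K₀ →+* K) f) ∧
      P.derivative.eval₂ (j : K₀ →+* K) f ≠ 0 ∧
      v.ord (P.derivative.eval₂ (j : K₀ →+* K) f) = 0 := by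
  classical
  have hchar : CharZero K₀ := charZero_of_injective_algebraMap (algebraMap k K₀).injective
  have hex : ∃ d : ℕ, ∃ P : Polynomial K₀, P.natDegree = d ∧ P.Monic ∧
      (∀ i, v.ge 0 (j (P.coeff i))) ∧ v.ge 1 (P.eval₂ (j : K₀ →+* K) f) := by
    obtain ⟨P, h1, h2, h3⟩ := exists_good j hj v f hf
    exact ⟨_, P, rfl, h1, h2, h3⟩
  obtain ⟨P, hd, hm, h0, h1⟩ := Nat.find_spec hex
  have hleast := fun {d : ℕ} (h : d < Nat.find hex) => Nat.find_min hex h
  set n := Nat.find hex with hn
  have hnpos : n ≠ 0 := by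
    intro hn0
    rw [hn0] at hd
    rw [Polynomial.eq_one_of_monic_natDegree_zero hm hd, Polynomial.eval₂_one] at h1
    exact not_ge_one v h1
  have hn0 : (n : K₀) ≠ 0 := Nat.cast_ne_zero.2 hnpos
  have hder0 : ∀ i, v.ge 0 (j (P.derivative.coeff i)) := by
    intro i
    rw [Polynomial.coeff_derivative, map_mul]
    have h2 : v.ge 0 (j ((i : K₀) + 1)) := by
      have e : j ((i : K₀) + 1) = ((i + 1 : ℕ) : K) := by
        rw [map_add, map_natCast, map_one, Nat.cast_add, Nat.cast_one]
      rw [e]
      exact ge_natCast v _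
    have h3 := v.ge_mul (h0 (i + 1)) h2
    rwa [add_zero] at h3
  have hnot : ¬ v.ge 1 (P.derivative.eval₂ (j : K₀ →+* K) f) := by
    intro hge
    refine hleast (d := n - 1) (by omega) ⟨Polynomial.C (n : K₀)⁻¹ * P.derivative, ?_⟩
    have hle : (Polynomial.C (n : K₀)⁻¹ * P.derivative).natDegree ≤ n - 1 := by
      refine (Polynomial.natDegree_C_mul_le _ _).trans ?_
      rw [← hd]
      exact Polynomial.natDegree_derivative_le P
    have hco : (Polynomial.C (n : K₀)⁻¹ * P.derivative).coeff (n - 1) = 1 := by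
      rw [Polynomial.coeff_C_mul, Polynomial.coeff_derivative, Nat.sub_add_cancel (by omega)]
      have e : ((n - 1 : ℕ) : K₀) + 1 = n := by
        rw [← Nat.cast_succ, Nat.succ_eq_add_one, Nat.sub_add_cancel (by omega)]
      have e2 : P.coeff n = 1 := by
        rw [← hd]
        exact hm
      rw [e, e2, one_mul, inv_mul_cancel₀ hn0]
    have hmon := Polynomial.monic_of_natDegree_le_of_coeff_eq_one (n - 1) hle hco
    refine ⟨?_, hmon, ?_, ?_⟩
    · refine le_antisymm hle (Polynomial.le_natDegree_of_ne_zero ?_)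
      rw [hco]
      exact one_ne_zero
    · intro i
      rw [Polynomial.coeff_C_mul, map_mul, map_inv₀, map_natCast]
      have h3 := v.ge_mul (ge_inv_natCast v n) (hder0 i)
      rwa [add_zero] at h3
    · rw [Polynomial.eval₂_mul, Polynomial.eval₂_C]
      have e : (j : K₀ →+* K) ((n : K₀)⁻¹) = (n : K)⁻¹ := by
        rw [map_inv₀, map_natCast]
      rw [e]
      have h3 := v.ge_mul (ge_inv_natCast v n) hge
      rwa [zero_add] at h3
  refine ⟨P, h0, h1, fun h => hnot (Or.inl h), ?_⟩
  rcases ge_eval j v f hf P.derivative hder0 with h | h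
  · exact absurd (Or.inl h) hnot
  · by_contra hne
    exact hnot (Or.inr (by omega))

end M5
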