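import Pool.Agent.M5.D0

/-!
PROJECT M5, PIECE D6a: an extension of a divisorial valuation to a finite Galois extension, and the order
of the inertia group.

PROOF. `K₀ = fixedField G`, `K / K₀` finite Galois with group `G` (Artin: `IntermediateField.fixedField`,
`IsGalois`, `G ≃ (K ≃ₐ[K₀] K)`). `O₀ = {a : K₀ | E.ge 0 a}`: a DVR (`exists_vr`-like; `ord_surj'`), `B` = integral
closure of `O₀` in `K`: Dedekind, `G` acts on `B` with invariants `O₀`. Let `Q` be a maximal ideal of `B`
(above the maximal ideal of `O₀`), `F.ord x` = the order of `x` at `Q` (`HeightOneSpectrum.valuation`),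
`e` = ramification index: `F.ord a = e * E.ord a` on `K₀`. `F` is a `Dv`: `residue'` from `E` (the same
functions). Inertia: `Ideal.card_inertia_eq_ramificationIdxIn` (the residue fields have
characteristic 0, so they are perfect); `g` in the inertia group of `Q` iff `g ∈ iner G F`: every
`x` with `F.ge 0 x` is `a / b`, `a, b ∈ B`, `b ∉ Q`, and `g (a/b) - a/b = (g a * b - a * g b) / (b * g b)`.
-/

set_option autoImplicit false

open MLD MvPolynomial

namespace M5

universe u

/-- the inertia group of `F` in `G` -/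
def iner {k K : Type u} [Field k] [Field K] [Algebra k K] (G : Subgroup (K ≃ₐ[k] K))
    (v : OrdFn k K) : Set (K ≃ₐ[k] K) :=
  {g | g ∈ G ∧ ∀ x, v.ge 0 x → v.ge 1 (g x - x)}

section dvr

variable {k K₀ : Type u} [Field k] [Field K₀] [Algebra k K₀] (v : OrdFn k K₀)

/-- the valuation ring -/
private def D6a_A : Subalgebra k K₀ where
  carrier := {f | v.ge 0 f}
  mul_mem' := fun {a b} ha hb => by
    have h := v.ge_mul (M := 0) (N := 0) ha hb
    rwa [add_zero] at h
  add_mem' := fun {a b} ha hb => v.ge_add ha hb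
  algebraMap_mem' := fun c => v.ge_const c

private theorem D6a_mem {f : K₀} : f ∈ D6a_A v ↔ v.ge 0 f := Iff.rfl

private theorem D6a_mem' {f : K₀} (hf : 0 ≤ v.ord f) : f ∈ D6a_A v := Or.inr hf

private theorem D6a_nonneg (a : D6a_A v) (ha : a ≠ 0) : 0 ≤ v.ord (a : K₀) := by
  rcases a.2 with h | h
  · exact absurd (Subtype.ext h) ha
  · exact h

private theorem D6a_frac : IsFractionRing (D6a_A v) K₀ := by
  refine IsFractionRing.of_field _ _ fun z => ?_
  by_cases hz : z = 0
  · refine ⟨0, 1, ?_⟩
    rw [hz, map_zero, zero_div]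
  by_cases h : 0 ≤ v.ord z
  · refine ⟨⟨z, D6a_mem' v h⟩, 1, ?_⟩
    rw [map_one, div_one]
    rfl
  · have h1 : 0 ≤ v.ord z⁻¹ := by
      rw [v.ord_inv z hz]
      omega
    refine ⟨1, ⟨z⁻¹, D6a_mem' v h1⟩, ?_⟩
    rw [map_one]
    change z = 1 / z⁻¹
    rw [one_div, inv_inv]

private theorem D6a_unit (a : D6a_A v) (h0 : (a : K₀) ≠ 0) (h1 : v.ord (a : K₀) = 0) :
    IsUnit a := by
  have h2 : v.ord (a : K₀)⁻¹ = 0 := by
    rw [v.ord_inv _ h0, h1, neg_zero]
  refine IsUnit.of_mul_eq_one (⟨(a : K₀)⁻¹, D6a_mem' v h2.ge⟩ : D6a_A v) (Subtype.ext ?_)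
  exact mul_inv_cancel₀ h0

private theorem D6a_unit_ord (a : D6a_A v) (h : IsUnit a) : v.ord (a : K₀) = 0 := by
  obtain ⟨b, hb⟩ := h.exists_right_inv
  have hb' : (a : K₀) * (b : K₀) = 1 := congrArg Subtype.val hb
  have ha0 : (a : K₀) ≠ 0 := left_ne_zero_of_mul_eq_one hb'
  have hb0 : (b : K₀) ≠ 0 := right_ne_zero_of_mul_eq_one hb'
  have h1 : v.ord (a : K₀) + v.ord (b : K₀) = 0 := by
    rw [← v.ord_mul ha0 hb0, hb', v.ord_one]
  have h2 := D6a_nonneg v a fun h => ha0 (congrArg Subtype.val h)
  have h3 := D6a_nonneg v b fun h => hb0 (congrArg Subtype.val h)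
  omega

private theorem D6a_assoc {t : D6a_A v} (ht0 : (t : K₀) ≠ 0) (ht : v.ord (t : K₀) = 1)
    (x : D6a_A v) (hx : x ≠ 0) : ∃ n : ℕ, (n : ℤ) = v.ord (x : K₀) ∧ Associated (t ^ n) x := by
  have hx0 : (x : K₀) ≠ 0 := fun h => hx (Subtype.ext h)
  have h1 := D6a_nonneg v x hx
  refine ⟨(v.ord (x : K₀)).toNat, Int.toNat_of_nonneg h1, ?_⟩
  set n := (v.ord (x : K₀)).toNat with hn
  have h2 : (n : ℤ) = v.ord (x : K₀) := Int.toNat_of_nonneg h1
  have h3 : v.ord ((x : K₀) / (t : K₀) ^ n) = 0 := by
    rw [v.ord_div hx0 (pow_ne_zero _ ht0), v.ord_pow ht0, ht]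
    omega
  let q : D6a_A v := ⟨(x : K₀) / (t : K₀) ^ n, D6a_mem' v h3.ge⟩
  have hq : IsUnit q := D6a_unit v q (div_ne_zero hx0 (pow_ne_zero _ ht0)) h3
  obtain ⟨w, hw⟩ := hq
  refine ⟨w, Subtype.ext ?_⟩
  rw [hw]
  change (t : K₀) ^ n * ((x : K₀) / (t : K₀) ^ n) = x
  rw [mul_div_cancel₀ _ (pow_ne_zero _ ht0)]

private theorem D6a_irr {t : D6a_A v} (ht0 : (t : K₀) ≠ 0) (ht : v.ord (t : K₀) = 1) :
    Irreducible t := by
  refine ⟨fun h => ?_, fun a b hab => ?_⟩
  · have := D6a_unit_ord v t h
    omega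
  · have h1 : (t : K₀) = (a : K₀) * (b : K₀) := congrArg Subtype.val hab
    have ha0 : (a : K₀) ≠ 0 := fun h => ht0 (by rw [h1, h, zero_mul])
    have hb0 : (b : K₀) ≠ 0 := fun h => ht0 (by rw [h1, h, mul_zero])
    have h2 : v.ord (a : K₀) + v.ord (b : K₀) = 1 := by
      rw [← v.ord_mul ha0 hb0, ← h1, ht]
    have h3 := D6a_nonneg v a fun h => ha0 (congrArg Subtype.val h)
    have h4 := D6a_nonneg v b fun h => hb0 (congrArg Subtype.val h)
    by_cases h5 : v.ord (a : K₀) = 0
    · exact Or.inl (D6a_unit v a ha0 h5)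
    · exact Or.inr (D6a_unit v b hb0 (by omega))

private theorem D6a_dvr (hs : ∃ f : K₀, f ≠ 0 ∧ v.ord f = 1) :
    IsDiscreteValuationRing (D6a_A v) := by
  obtain ⟨f, hf0, hf⟩ := hs
  let t : D6a_A v := ⟨f, D6a_mem' v (by omega)⟩
  refine IsDiscreteValuationRing.ofHasUnitMulPowIrreducibleFactorization
    ⟨t, D6a_irr v hf0 hf, fun {x} hx => ?_⟩
  obtain ⟨n, -, hn⟩ := D6a_assoc v (t := t) hf0 hf x hx
  exact ⟨n, hn⟩

section height

open IsDedekindDomain WithZero

private theorem D6a_height (v : OrdFn k K₀) [IsDedekindDomain (D6a_A v)]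
    [IsFractionRing (D6a_A v) K₀] (hs : ∃ f : K₀, f ≠ 0 ∧ v.ord f = 1) :
    ∃ p : HeightOneSpectrum (D6a_A v),
      ∀ f : K₀, f ≠ 0 → p.valuation K₀ f = exp (-(v.ord f)) := by
  obtain ⟨f, hf0, hf⟩ := hs
  let t : D6a_A v := ⟨f, D6a_mem' v (by omega)⟩
  have ht0 : t ≠ 0 := fun h => hf0 (congrArg Subtype.val h)
  have hirr : Irreducible t := D6a_irr v hf0 hf
  have hdvr : IsDiscreteValuationRing (D6a_A v) := D6a_dvr v ⟨f, hf0, hf⟩
  have hprime : (Ideal.span {t}).IsPrime :=
    (Ideal.span_singleton_prime ht0).2 hirr.prime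
  let p : HeightOneSpectrum (D6a_A v) :=
    ⟨Ideal.span {t}, hprime, by rwa [Ne, Ideal.span_singleton_eq_bot]⟩
  have h1 : p.intValuation t = exp (-1 : ℤ) := p.intValuation_singleton ht0 rfl
  have h2 : ∀ x : D6a_A v, x ≠ 0 → p.intValuation x = exp (-(v.ord (x : K₀))) := by
    intro x hx
    obtain ⟨n, hn, u, hu⟩ := D6a_assoc v (t := t) hf0 hf x hx
    have hunit : p.intValuation (u : D6a_A v) = 1 := by
      refine HeightOneSpectrum.intValuation_eq_one_iff.2 fun h => ?_
      exact hprime.ne_top (Ideal.eq_top_of_isUnit_mem _ h u.isUnit)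
    rw [← hu, map_mul, map_pow, h1, hunit, mul_one, hu, ← hn, ← exp_nsmul]
    congr 1
    simp
  refine ⟨p, fun z hz => ?_⟩
  obtain ⟨x, y, hy, rfl⟩ := IsFractionRing.div_surjective (A := D6a_A v) z
  have hy0 : y ≠ 0 := nonZeroDivisors.ne_zero hy
  have hx0 : x ≠ 0 := by
    rintro rfl
    exact hz (by rw [map_zero, zero_div])
  rw [map_div₀, p.valuation_of_algebraMap, p.valuation_of_algebraMap, h2 x hx0, h2 y hy0,
    ← exp_sub]
  congr 1
  have h3 : v.ord (algebraMap (D6a_A v) K₀ x / algebraMap (D6a_A v) K₀ y) =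
      v.ord (x : K₀) - v.ord (y : K₀) :=
    v.ord_div (fun h => hx0 (Subtype.ext h)) (fun h => hy0 (Subtype.ext h))
  rw [h3]
  ring

end height

end dvr

section core

open IsDedekindDomain WithZero

/-- the abstract inertia computation -/
private theorem D6a_inertia {B K G : Type u} [Group G] [CommRing B] [IsDedekindDomain B]
    [Field K] [Algebra B K] [IsFractionRing B K] [MulSemiringAction G B]
    [MulSemiringAction G K] [SMulDistribClass G B K] (w : HeightOneSpectrum B) (g : G) :
    (∀ x : K, w.valuation K x ≤ 1 → w.valuation K (g • x - x) < 1) ↔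
      g ∈ w.asIdeal.inertia G := by
  constructor
  · intro h x
    have h1 := h (algebraMap B K x) (w.valuation_le_one x)
    have h2 : g • algebraMap B K x - algebraMap B K x = algebraMap B K (g • x - x) := by
      rw [map_sub, algebraMap.smul']
    rw [h2, w.valuation_lt_one_iff_mem] at h1
    exact h1
  · intro h x hx
    obtain ⟨c, s, hs⟩ := w.exists_primeCompl_mul_eq_of_integer x hx
    have hs1 : w.valuation K (algebraMap B K s) = 1 :=
      (w.valuation_eq_one_iff_notMem).2 s.2
    have hgs : g • (s : B) ∉ w.asIdeal := by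
      intro h3
      have h4 := h (s : B)
      have h5 : (s : B) ∈ w.asIdeal := by
        have := Ideal.sub_mem _ h3 h4
        rwa [sub_sub_cancel] at this
      exact s.2 h5
    have hgs1 : w.valuation K (algebraMap B K (g • (s : B))) = 1 :=
      (w.valuation_eq_one_iff_notMem).2 hgs
    have h6 : (g • x - x) * (algebraMap B K s * algebraMap B K (g • (s : B))) =
        algebraMap B K (s * (g • c - c) - c * (g • (s : B) - s)) := by
      have h7 : (g • x) * algebraMap B K (g • (s : B)) = algebraMap B K (g • c) := by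
        rw [algebraMap.smul', algebraMap.smul', ← hs, smul_mul']
      have h8 : (g • x - x) * (algebraMap B K s * algebraMap B K (g • (s : B))) =
          algebraMap B K s * ((g • x) * algebraMap B K (g • (s : B))) -
            (x * algebraMap B K s) * algebraMap B K (g • (s : B)) := by ring
      rw [h8, h7, hs, ← map_mul, ← map_mul, ← map_sub]
      congr 1
      ring
    have h9 : w.valuation K ((g • x - x) * (algebraMap B K s * algebraMap B K (g • (s : B)))) < 1 := by
      rw [h6, w.valuation_lt_one_iff_mem]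
      exact Ideal.sub_mem _ (Ideal.mul_mem_left _ _ (h c)) (Ideal.mul_mem_left _ _ (h s))
    rwa [map_mul, map_mul, hs1, hgs1, mul_one, mul_one] at h9

private theorem D6a_core {A K₀ K G : Type u} [Group G] [Finite G] [CommRing A]
    [IsDedekindDomain A] [Field K₀] [CharZero K₀] [Field K] [Algebra A K₀]
    [IsFractionRing A K₀] [Algebra K₀ K] [Algebra A K] [IsScalarTower A K₀ K]
    [MulSemiringAction G K] [IsGaloisGroup G K₀ K] (p : HeightOneSpectrum A)
    [PerfectField p.asIdeal.ResidueField] :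
    ∃ (w : Valuation K ℤᵐ⁰) (e : ℕ), 0 < e ∧ Function.Surjective w ∧
      (∀ f : K₀, w (algebraMap K₀ K f) = p.valuation K₀ f ^ e) ∧
      Nat.card {g : G | ∀ x, w x ≤ 1 → w (g • x - x) < 1} = e := by
  have : FiniteDimensional K₀ K := IsGaloisGroup.finiteDimensional G K₀ K
  have : Algebra.IsSeparable K₀ K := inferInstance
  have : SMulCommClass G A K := by
    refine ⟨fun g a x => ?_⟩
    rw [← algebraMap_smul K₀ a x, ← algebraMap_smul K₀ a (g • x)]
    exact smul_comm g _ _
  let B := integralClosure A K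
  have : IsDedekindDomain B := integralClosure.isDedekindDomain A K₀ K
  have : IsFractionRing B K := integralClosure.isFractionRing_of_finite_extension K₀ K
  have : Module.Finite A B := IsIntegralClosure.finite A K₀ K B
  have hinj : Function.Injective (algebraMap A K) := by
    rw [IsScalarTower.algebraMap_eq A K₀ K]
    exact (algebraMap K₀ K).injective.comp (IsFractionRing.injective A K₀)
  have : FaithfulSMul A K := (faithfulSMul_iff_algebraMap_injective A K).2 hinj
  have : Module.IsTorsionFree A B := inferInstance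
  have : IsGaloisGroup G A B := IsGaloisGroup.of_isFractionRing G A B K₀ K
  have hp : p.asIdeal.IsMaximal := p.isMaximal
  obtain ⟨P⟩ : Nonempty (p.asIdeal.primesOver B) := inferInstance
  obtain ⟨P, hP1, hP2⟩ := P
  have hP0 : P ≠ ⊥ := Ideal.ne_bot_of_liesOver_of_ne_bot p.ne_bot P
  let w : HeightOneSpectrum B := ⟨P, hP1, hP0⟩
  have hw : w.asIdeal.LiesOver p.asIdeal := hP2
  have he1 : p.asIdeal.ramificationIdx' P = P.ramificationIdx A :=
    Ideal.ramificationIdx'_eq_ramificationIdx p.asIdeal P p.ne_bot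
  have he2 : p.asIdeal.ramificationIdxIn B = P.ramificationIdx A :=
    Ideal.ramificationIdxIn_eq_ramificationIdx p.asIdeal P G
  have he3 : Nat.card (P.inertia G) = p.asIdeal.ramificationIdxIn B :=
    Ideal.card_inertia_eq_ramificationIdxIn p.asIdeal P
  refine ⟨w.valuation K, p.asIdeal.ramificationIdx' P, ?_, w.valuation_surjective K, fun f => ?_, ?_⟩
  · exact Nat.pos_of_ne_zero (Ideal.IsDedekindDomain.ramificationIdx'_ne_zero_of_liesOver P p.ne_bot)
  · exact (HeightOneSpectrum.valuation_liesOver K p w f).symm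
  · rw [he1, ← he2, ← he3]
    refine Nat.card_congr (Equiv.setCongr ?_)
    ext g
    exact D6a_inertia w g

end core

section final

open IsDedekindDomain WithZero

private theorem D6a_gal {k K : Type u} [Field k] [Field K] [Algebra k K]
    (G : Subgroup (K ≃ₐ[k] K)) : IsGaloisGroup G (IntermediateField.fixedField G) K where
  faithful := ⟨fun {g h} H => Subtype.ext (AlgEquiv.ext H)⟩
  commutes := ⟨fun g a x => by
    have h1 : (g : K ≃ₐ[k] K) (a : K) = a :=
      (IntermediateField.mem_fixedField_iff G (a : K)).1 a.2 g g.2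
    change (g : K ≃ₐ[k] K) ((a : K) * x) = (a : K) * (g : K ≃ₐ[k] K) x
    rw [map_mul, h1]⟩
  isInvariant := ⟨fun b hb => by
    have h1 : b ∈ IntermediateField.fixedField G :=
      (IntermediateField.mem_fixedField_iff G b).2 fun g hg => hb ⟨g, hg⟩
    exact ⟨⟨b, h1⟩, rfl⟩⟩

theorem exists_over {k K : Type u} [Field k] [CharZero k] [Field K] [Algebra k K] {n : ℕ}
    (G : Subgroup (K ≃ₐ[k] K)) [Finite G] (E : Dv k (IntermediateField.fixedField G) n) :
    ∃ (F : Dv k K n) (e : ℕ), 0 < e ∧
      (∀ f : IntermediateField.fixedField G, f ≠ 0 → F.ord (f : K) = e * E.ord f) ∧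
      Nat.card (iner G F.v) = e := by
  have hgal := D6a_gal G
  have hfr : IsFractionRing (D6a_A E.v) (IntermediateField.fixedField G) := D6a_frac E.v
  have hdvr : IsDiscreteValuationRing (D6a_A E.v) := D6a_dvr E.v E.ord_surj'
  obtain ⟨p, hp⟩ := D6a_height E.v E.ord_surj'
  have hchar : CharZero p.asIdeal.ResidueField :=
    charZero_of_injective_ringHom
      ((algebraMap (D6a_A E.v) p.asIdeal.ResidueField).comp (algebraMap k (D6a_A E.v))).injective
  have hchar0 : CharZero (IntermediateField.fixedField G) :=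
    charZero_of_injective_ringHom (algebraMap k (IntermediateField.fixedField G)).injective
  have htow : IsScalarTower (D6a_A E.v) (IntermediateField.fixedField G) K :=
    IsScalarTower.of_algebraMap_eq fun x => rfl
  obtain ⟨w, e, he, hsurj, hval, hcard⟩ := D6a_core (A := D6a_A E.v)
    (K₀ := IntermediateField.fixedField G) (K := K) (G := G) p
  have hne : ∀ {x : K}, x ≠ 0 → w x ≠ 0 := fun hx => w.ne_zero_iff.2 hx
  have hbase : ∀ f : IntermediateField.fixedField G, f ≠ 0 →
      -log (w (f : K)) = e * E.ord f := by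
    intro f hf
    have h1 : w (f : K) = exp (-(E.ord f)) ^ e := by
      rw [← hp f hf]
      exact hval f
    rw [h1, log_pow, log_exp]
    simp
  have hf0 : ∀ f : IntermediateField.fixedField G, f ≠ 0 → (f : K) ≠ 0 :=
    fun f hf h => hf (Subtype.ext h)
  let F : Dv k K n :=
    { ord := fun x => -log (w x)
      ord_mul' := fun f g hf hg => by
        rw [map_mul, log_mul (hne hf) (hne hg)]
        ring
      ord_add' := fun f g hf hg hfg => by
        have h1 := w.map_add f g
        rcases le_max_iff.1 h1 with h2 | h2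
        · have h3 := (log_le_log (hne hfg) (hne hf)).2 h2
          exact min_le_of_left_le (neg_le_neg h3)
        · have h3 := (log_le_log (hne hfg) (hne hg)).2 h2
          exact min_le_of_right_le (neg_le_neg h3)
      ord_const' := fun c hc => by
        have h1 := hbase (algebraMap k _ c) ((map_ne_zero _).2 hc)
        rw [E.v.ord_algebraMap hc, mul_zero] at h1
        exact h1
      ord_surj' := by
        obtain ⟨x, hx⟩ := hsurj (exp (-1 : ℤ))
        refine ⟨x, fun h => ?_, ?_⟩
        · rw [h, map_zero] at hx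
          exact exp_ne_zero hx.symm
        · rw [hx, log_exp]
          ring
      residue' := by
        obtain ⟨g, hg⟩ := E.residue'
        refine ⟨fun i => (g i : K), fun P hP => ?_⟩
        obtain ⟨h1, h2⟩ := hg P hP
        have h3 : aeval (fun i => (g i : K)) P = ((aeval g P : IntermediateField.fixedField G) : K) :=
          MvPolynomial.aeval_algebraMap_apply K g P
        rw [h3]
        refine ⟨hf0 _ h1, ?_⟩
        rw [hbase _ h1, h2, mul_zero] }
  have hge0 : ∀ x, F.v.ge 0 x ↔ w x ≤ 1 := by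
    intro x
    by_cases hx : x = 0
    · rw [hx, map_zero]
      exact iff_of_true (Or.inl rfl) zero_le_one
    · rw [← log_le_log (hne hx) one_ne_zero, log_one]
      constructor
      · rintro (h | h)
        · exact absurd h hx
        · exact neg_nonneg.1 h
      · intro h
        exact Or.inr (neg_nonneg.2 h)
  have hge1 : ∀ x, F.v.ge 1 x ↔ w x < 1 := by
    intro x
    by_cases hx : x = 0
    · rw [hx, map_zero]
      exact iff_of_true (Or.inl rfl) zero_lt_one
    · rw [← log_lt_log (hne hx) one_ne_zero, log_one]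
      constructor
      · rintro (h | h)
        · exact absurd h hx
        · have h4 : (1 : ℤ) ≤ -log (w x) := h
          omega
      · intro h
        refine Or.inr ?_
        change (1 : ℤ) ≤ -log (w x)
        omega
  refine ⟨F, e, he, hbase, ?_⟩
  rw [← hcard]
  refine Nat.card_congr
    { toFun := fun g => ⟨⟨g.1, g.2.1⟩, fun x hx => (hge1 _).1 (g.2.2 x ((hge0 x).2 hx))⟩
      invFun := fun g => ⟨g.1.1, g.1.2, fun x hx => (hge1 _).2 (g.2 x ((hge0 x).1 hx))⟩
      left_inv := fun g => rfl
      right_inv := fun g => rfl }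

end final

end M5
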