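import Pool.Agent.MLD.Defs

/-!
PROJECT M5 (MP_405ba3_ag, singular threefold germs): germs of `ℚ`-Gorenstein varieties, log
discrepancies and minimal log discrepancies.
-/

open MvPolynomial

namespace M5

open MLD

universe u

/-- A prime divisor over a variety of dimension `n` with function field `K`, given by its order
function: a surjective valuation of `K`, trivial on `k`, whose residue field has transcendence
degree `n - 1` over `k` (there are `n - 1` functions with algebraically independent residues). -/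
structure Dv (k K : Type u) [Field k] [Field K] [Algebra k K] (n : ℕ) extends OrdFn k K where
  ord_surj' : ∃ f : K, f ≠ 0 ∧ ord f = 1
  residue' : ∃ g : Fin (n - 1) → K, ∀ P : MvPolynomial (Fin (n - 1)) k, P ≠ 0 →
    aeval g P ≠ 0 ∧ ord (aeval g P) = 0

/-- An affine variety `X = Spec R` of dimension `n` with function field `K`, the ideal `m` of a
point `x`, and a rational section `ω = g • (dy_1 ∧ … ∧ dy_n)^{⊗ N}` of the `N`-th power of the
canonical sheaf, to be chosen as a generator of `𝒪_X(N K_X)` near `x`. -/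
structure Germ (k K : Type u) [Field k] [Field K] [Algebra k K] (n : ℕ) where
  /-- the coordinate ring -/
  R : Subalgebra k K
  /-- the ideal of the point -/
  m : Ideal R
  /-- the index -/
  N : ℕ
  /-- functions with `dy_1 ∧ … ∧ dy_n ≠ 0` -/
  y : Fin n → K
  /-- the coefficient -/
  g : K

section
variable {k K : Type u} [Field k] [Field K] [Algebra k K] {n : ℕ}

/-- The derivation `D` of the function field maps the valuation ring of `E` to itself. -/
def Dv.IntegralDer (E : Dv k K n) (D : Derivation k K K) : Prop :=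
  ∀ f : K, f ≠ 0 → 0 ≤ E.ord f → D f = 0 ∨ 0 ≤ E.ord (D f)

/-- The Jacobian determinant of the functions `y_j` with respect to derivations `D_i`. -/
noncomputable def jac (D : Fin n → Derivation k K K) (y : Fin n → K) : K :=
  Matrix.det (Matrix.of fun i j : Fin n => D i (y j))

namespace Germ

/-- `E` is a divisor over `X` with centre `x` (if `m` is a maximal ideal). -/
def Centre (X : Germ k K n) (E : Dv k K n) : Prop :=
  (∀ f : X.R, f ≠ 0 → 0 ≤ E.ord (f : K)) ∧ ∀ f ∈ X.m, f ≠ 0 → 0 < E.ord (f : K)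

/-- The log discrepancy `A_X(E) = 1 + (1/N) ord_E(ω)`: the order along `E` of the rational section
`ω` is the minimum over the derivations `D_i` of the valuation ring of `E` of the orders of
`ω(D_1, …, D_n) = g • det(D_i y_j)^N`. -/
noncomputable def logDisc (X : Germ k K n) (E : Dv k K n) : EReal :=
  ⨅ D : {D : Fin n → Derivation k K K // (∀ i, E.IntegralDer (D i)) ∧ jac D X.y ≠ 0},
    (((1 + E.ord (jac D.1 X.y) + E.ord X.g / X.N : ℝ)) : EReal)

/-- The order of an ideal of the coordinate ring along `E`. -/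
noncomputable def ordI (X : Germ k K n) (E : Dv k K n) (I : Ideal X.R) : ℕ :=
  sInf {m : ℕ | ∃ f ∈ I, f ≠ 0 ∧ E.ord (f : K) = m}

/-- The log discrepancy `a_E(X, 𝔞) = A_X(E) - ∑ λ_j ord_E(𝔞_j)`. -/
noncomputable def aDisc (X : Germ k K n) (E : Dv k K n) {r : ℕ} (lam : Fin r → ℝ)
    (a : Fin r → Ideal X.R) : EReal :=
  X.logDisc E - ((∑ j, lam j * (X.ordI E (a j) : ℝ) : ℝ) : EReal)

/-- The minimal log discrepancy of `(X, ∏ 𝔞_j^{λ_j})` at `x`. -/
noncomputable def mld (X : Germ k K n) {r : ℕ} (lam : Fin r → ℝ) (a : Fin r → Ideal X.R) : EReal :=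
  ⨅ E : {E : Dv k K n // X.Centre E}, X.aDisc E.1 lam a

/-- The statement Q1 (uniform ideal-adic semicontinuity) for the germ `(X, x)`. -/
def Q1 (X : Germ k K n) : Prop :=
  ∀ I : Set ℝ, I.Finite → (∀ t ∈ I, 0 ≤ t) →
    ∃ s : ℕ, 1 ≤ s ∧ ∀ (r : ℕ) (lam : Fin r → ℝ) (a b : Fin r → Ideal X.R), (∀ j, lam j ∈ I) →
      (∀ j, a j ≠ ⊥) → (∀ j, b j ≠ ⊥) → (∀ j, a j ⊔ X.m ^ s = b j ⊔ X.m ^ s) →
      (0 ≤ X.mld lam a ↔ 0 ≤ X.mld lam b) ∧
        (0 ≤ X.mld lam a → 0 ≤ X.mld lam b → X.mld lam a = X.mld lam b)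

end Germ

end

/-! ### toric germs -/

section
variable (k : Type u) [Field k]

/-- The character `χ^m` of the torus with coordinates `x_j`. -/
noncomputable def chi (m : Fin 3 → ℤ) : FF k (Fin 3) := ∏ j, (xx k j : FF k (Fin 3)) ^ m j

/-- The pairing of characters and one-parameter subgroups. -/
def pr (m v : Fin 3 → ℤ) : ℤ := ∑ j, m j * v j

/-- The semigroup of the characters which are regular on the affine toric variety of the cone
spanned by the `ρ_i`. -/
def SG {q : ℕ} (ρ : Fin q → Fin 3 → ℤ) : Set (Fin 3 → ℤ) := {m | ∀ i, 0 ≤ pr m (ρ i)}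

/-- The coordinate ring of the affine toric variety of the cone spanned by the `ρ_i`. -/
noncomputable def torR {q : ℕ} (ρ : Fin q → Fin 3 → ℤ) : Subalgebra k (FF k (Fin 3)) :=
  Algebra.adjoin k (chi k '' SG ρ)

/-- The affine toric variety of the cone spanned by the `ρ_i`, its torus fixed point, and the
section `χ^θ (dx_1/x_1 ∧ dx_2/x_2 ∧ dx_3/x_3)^{⊗ N}`, where `⟨θ, ρ_i⟩ = N` for all `i`. -/
noncomputable def torGerm {q : ℕ} (ρ : Fin q → Fin 3 → ℤ) (N : ℕ) (θ : Fin 3 → ℤ) :
    Germ k (FF k (Fin 3)) 3 where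
  R := torR k ρ
  m := Ideal.span {f | ∃ m ∈ SG ρ, m ≠ 0 ∧ (f : FF k (Fin 3)) = chi k m}
  N := N
  y := fun j => xx k j
  g := chi k fun j => θ j - N

end

/-! ### quotient germs -/

section
variable {k : Type u} [Field k]

/-- The automorphism acts linearly on the coordinates. -/
def IsLin (φ : FF k (Fin 3) ≃ₐ[k] FF k (Fin 3)) : Prop :=
  ∃ A : Matrix (Fin 3) (Fin 3) k, ∀ j, φ (xx k j) = ∑ i, algebraMap k _ (A j i) * xx k i

/-- The invariant polynomials. -/
noncomputable def quoR (G : Subgroup (FF k (Fin 3) ≃ₐ[k] FF k (Fin 3))) :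
    Subalgebra k (IntermediateField.fixedField G) where
  carrier := {f | ∃ p : MvPolynomial (Fin 3) k, toFF k (Fin 3) p = (f : FF k (Fin 3))}
  mul_mem' := by
    rintro f g ⟨p, hp⟩ ⟨q, hq⟩
    exact ⟨p * q, by rw [map_mul, hp, hq]; rfl⟩
  add_mem' := by
    rintro f g ⟨p, hp⟩ ⟨q, hq⟩
    exact ⟨p + q, by rw [map_add, hp, hq]; rfl⟩
  algebraMap_mem' := by
    intro c
    exact ⟨C c, by
      show toFF k (Fin 3) (C c) = algebraMap k (FF k (Fin 3)) c
      rw [← algebraMap_eq]
      exact (toFF k (Fin 3)).commutes c⟩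

/-- The quotient of the affine space by `G`, the image of the origin, and the section
`g (dy_1 ∧ dy_2 ∧ dy_3)^{⊗ N}`. -/
noncomputable def quoGerm (G : Subgroup (FF k (Fin 3) ≃ₐ[k] FF k (Fin 3))) (N : ℕ)
    (y : Fin 3 → IntermediateField.fixedField G) (g : IntermediateField.fixedField G) :
    Germ k (IntermediateField.fixedField G) 3 where
  R := quoR G
  m := Ideal.span {f | ∃ p : MvPolynomial (Fin 3) k, constantCoeff p = 0 ∧
    toFF k (Fin 3) p = ((f : IntermediateField.fixedField G) : FF k (Fin 3))}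
  N := N
  y := y
  g := g

end

end M5
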