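import Pool.Agent.M5.G1
import Pool.Agent.M5.D0

/-!
PROJECT M5, PART S: definitions (etale morphisms of germs with trivial extension of the residue field).
-/

set_option autoImplicit false

open MLD MvPolynomial

namespace M5

universe u

variable {k K₀ K : Type u} [Field k] [Field K₀] [Algebra k K₀] [Field K] [Algebra k K] {n : ℕ}

/-- `X` and `X₀` have the same completion at the point: the embedding `j` of the function fields maps
`R₀` to `R` and `m₀` to `m`, and induces bijections `R₀ / m₀ ^ s → R / m ^ s` for all `s` (surjectivity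
is `approx`, injectivity is `inj`); `K` is algebraic over `j(K₀)`, the function fields are the fraction
fields, and the forms correspond. (`X → X₀` is etale at the point with trivial extension of the
residue field.) -/
structure EtOver (j : K₀ →ₐ[k] K) (X₀ : Germ k K₀ n) (X : Germ k K n) : Prop where
  alg : AlgOver j
  map : ∀ a : X₀.R, j (a : K₀) ∈ X.R
  mapm : ∀ a : X₀.R, a ∈ X₀.m → (⟨j (a : K₀), map a⟩ : X.R) ∈ X.m
  approx : ∀ (s : ℕ) (f : X.R), ∃ a : X₀.R, f - ⟨j (a : K₀), map a⟩ ∈ X.m ^ s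
  inj : ∀ (s : ℕ) (a : X₀.R), (⟨j (a : K₀), map a⟩ : X.R) ∈ X.m ^ s → a ∈ X₀.m ^ s
  frac : ∀ x : K, ∃ a b : X.R, b ≠ 0 ∧ x = (a : K) / (b : K)
  frac₀ : ∀ x : K₀, ∃ a b : X₀.R, b ≠ 0 ∧ x = (a : K₀) / (b : K₀)
  hN : X.N = X₀.N
  hN0 : 0 < X₀.N
  hy : ∀ i, X.y i = j (X₀.y i)
  hg : X.g = j X₀.g
  hg0 : X₀.g ≠ 0
  hm0 : X₀.m ≠ ⊥

variable {j : K₀ →ₐ[k] K} {X₀ : Germ k K₀ n} {X : Germ k K n}

/-- the homomorphism of the coordinate rings -/
def EtOver.φ (h : EtOver j X₀ X) : X₀.R →+* X.R where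
  toFun a := ⟨j (a : K₀), h.map a⟩
  map_one' := Subtype.ext (by
    show j ((1 : X₀.R) : K₀) = 1
    rw [show ((1 : X₀.R) : K₀) = 1 from rfl, map_one])
  map_mul' a b := Subtype.ext (by
    show j ((a * b : X₀.R) : K₀) = j a * j b
    rw [show ((a * b : X₀.R) : K₀) = a * b from rfl, map_mul])
  map_zero' := Subtype.ext (by
    show j ((0 : X₀.R) : K₀) = 0
    rw [show ((0 : X₀.R) : K₀) = 0 from rfl, map_zero])
  map_add' a b := Subtype.ext (by
    show j ((a + b : X₀.R) : K₀) = j a + j b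
    rw [show ((a + b : X₀.R) : K₀) = a + b from rfl, map_add])

theorem EtOver.φ_coe (h : EtOver j X₀ X) (a : X₀.R) : ((h.φ a : X.R) : K) = j (a : K₀) := rfl

theorem EtOver.app (h : EtOver j X₀ X) (s : ℕ) (f : X.R) : ∃ a : X₀.R, f - h.φ a ∈ X.m ^ s :=
  h.approx s f

theorem EtOver.inj' (h : EtOver j X₀ X) (s : ℕ) (a : X₀.R) (ha : h.φ a ∈ X.m ^ s) :
    a ∈ X₀.m ^ s := h.inj s a ha

theorem EtOver.mapm' (h : EtOver j X₀ X) {a : X₀.R} (ha : a ∈ X₀.m) : h.φ a ∈ X.m := h.mapm a ha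

/-- the ideal of `R₀` that corresponds to `a` modulo `m ^ s` -/
def EtOver.cut (h : EtOver j X₀ X) (s : ℕ) (a : Ideal X.R) : Ideal X₀.R :=
  Ideal.comap h.φ (a ⊔ X.m ^ s)

end M5
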