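import Pool.Agent.M5.Defs
import Pool.Agent.M5.S0

/-!
M5: the class of the threefold germs for which Q1 is proved.
-/

open MvPolynomial MLD

namespace M5

universe u

/-- The cone spanned by `ρ_1, …, ρ_q ∈ ℤ^3` is strongly convex and full-dimensional, and
`⟨θ, ρ_i⟩ = N > 0` for all `i`: if the `ρ_i` are primitive and span the rays, the toric variety is
`ℚ`-Gorenstein and `θ` gives a generator of `N K` (in general the log discrepancies are those of a
toric pair with standard coefficients). -/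
def ToricOK {q : ℕ} (ρ : Fin q → Fin 3 → ℤ) (N : ℕ) (θ : Fin 3 → ℤ) : Prop :=
  0 < N ∧ (∃ u, ∀ i, 0 < pr u (ρ i)) ∧ (∀ m : Fin 3 → ℤ, (∀ i, pr m (ρ i) = 0) → m = 0) ∧
    ∀ i, pr θ (ρ i) = N

section
variable {k K : Type u} [Field k] [Field K] [Algebra k K]

/-- `Spec R` is a threefold with function field `K`, regular at the point of `m`, with residue field
`R / m = k` and local parameters `y_1, y_2, y_3` (the `y_i` generate `m` modulo `m ^ 2`, and the
graded ring of `m` is the polynomial ring in their classes). -/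
def RegOK (R : Subalgebra k K) (m : Ideal R) (y : Fin 3 → R) : Prop :=
  (∀ x : K, ∃ a b : R, b ≠ 0 ∧ x = (a : K) / (b : K)) ∧
    (∀ f : R, ∃ c : k, f - algebraMap k R c ∈ m) ∧ (∀ i, y i ∈ m) ∧
    m ≤ Ideal.span (Set.range y) ⊔ m ^ 2 ∧
    ∀ (s : ℕ) (P : MvPolynomial (Fin 3) k), P.IsHomogeneous s → aeval y P ∈ m ^ (s + 1) → P = 0

/-- `G` is a finite group of linear automorphisms of `𝔸^3`, and `j` identifies `K` with the field of
invariants of `G`. -/
def QuotField (j : K →ₐ[k] FF k (Fin 3)) (G : Subgroup (FF k (Fin 3) ≃ₐ[k] FF k (Fin 3))) : Prop :=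
  Finite G ∧ (∀ γ ∈ G, IsLin γ) ∧ ∀ f, f ∈ j.range ↔ ∀ γ ∈ G, γ f = f

/-- `j` identifies `R` with the ring of the polynomials in `j(K)`, and `m` with the ideal of those
without constant term. -/
def QuotRing (X : Germ k K 3) (j : K →ₐ[k] FF k (Fin 3)) : Prop :=
  (∀ a : K, a ∈ X.R ↔ ∃ p, toFF k (Fin 3) p = j a) ∧
    ∀ a : X.R, a ∈ X.m ↔ ∃ p, constantCoeff p = 0 ∧ toFF k (Fin 3) p = j (a : K)

/-- The section `g (dy_1 ∧ dy_2 ∧ dy_3)^N` is a nonzero constant times
`(dx_1 ∧ dx_2 ∧ dx_3)^N`. -/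
def QuotForm (X : Germ k K 3) (j : K →ₐ[k] FF k (Fin 3)) : Prop :=
  0 < X.N ∧ ∃ c : k, c ≠ 0 ∧ ∀ D : Fin 3 → Derivation k (FF k (Fin 3)) (FF k (Fin 3)),
    j X.g * jac D (fun i => j (X.y i)) ^ X.N =
      algebraMap k _ c * jac D (fun i => xx k i) ^ X.N

end

/-- The smallest class of threefold germs which contains
* the affine toric germs `torGerm k ρ N θ`;
* the quotient germs: the image of the origin in `𝔸^3 / G`, where `G` is a finite group of linear
  automorphisms;
* the regular germs with residue field `k`;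
* with a germ `X₀` also the germs `X` which are étale over `X₀` at the point with trivial extension
  of the residue field (`up`), and with such a germ `X` also the germ `X₀` (`down`). -/
inductive Good (k : Type u) [Field k] :
    ∀ (K : Type u) [Field K] [Algebra k K], Germ k K 3 → Prop
  | toric (q : ℕ) (ρ : Fin q → Fin 3 → ℤ) (N : ℕ) (θ : Fin 3 → ℤ) (h : ToricOK ρ N θ) :
      Good k (FF k (Fin 3)) (torGerm k ρ N θ)
  | quot (K : Type u) [Field K] [Algebra k K] (X : Germ k K 3) (j : K →ₐ[k] FF k (Fin 3))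
      (G : Subgroup (FF k (Fin 3) ≃ₐ[k] FF k (Fin 3))) (h₁ : QuotField j G) (h₂ : QuotRing X j)
      (h₃ : QuotForm X j) : Good k K X
  | reg (K : Type u) [Field K] [Algebra k K] (hK : TrLe k K 3) (R : Subalgebra k K) (m : Ideal R)
      (y : Fin 3 → R) (h : RegOK R m y) : Good k K ⟨R, m, 1, fun i => (y i : K), 1⟩
  | up (K₀ K : Type u) [Field K₀] [Algebra k K₀] [Field K] [Algebra k K] (hK : TrLe k K 3)
      (j : K₀ →ₐ[k] K) (X₀ : Germ k K₀ 3) (X : Germ k K 3) (h₀ : Good k K₀ X₀)
      (h : EtOver j X₀ X) : Good k K X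
  | down (K₀ K : Type u) [Field K₀] [Algebra k K₀] [Field K] [Algebra k K] (hK : TrLe k K 3)
      (j : K₀ →ₐ[k] K) (X₀ : Germ k K₀ 3) (X : Germ k K 3) (h₀ : Good k K X)
      (h : EtOver j X₀ X) : Good k K₀ X₀

end M5
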