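import Pool.Agent.M5.Defs

/-!
PIECE M5-QD1: a subgroup of finite index of `ℤ³` has a basis.

PROOF.  `M` as a submodule over `ℤ` (`AddSubgroup.toIntSubmodule M`) of `Fin 3 → ℤ` is free of finite rank
(`Submodule.basisOfPid`, `Module.Free`), and its rank is `3` because it contains `e • (Fin 3 → ℤ)` (the image of an injective
linear map: `LinearMap.finrank_le_finrank_of_injective` for `x ↦ e • x : (Fin 3 → ℤ) → M`, and `≤ 3` by `Submodule.finrank_le`).  Let
`b : Basis (Fin 3) ℤ M` and `B j = b j` (`Matrix.of`).  `m ∈ M` iff `m = ∑ j, n j • b j = vecMul n B`.  `det B ≠ 0`: the rows are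
linearly independent over `ℤ` (`Matrix.vecMul` injective: `Matrix.exists_vecMul_eq_zero_iff` : `(∃ v ≠ 0, v ᵥ* M = 0) ↔ M.det = 0`).
-/

namespace M5

theorem exists_lat_basis (M : AddSubgroup (Fin 3 → ℤ)) (e : ℕ) (he : 0 < e)
    (h : ∀ m : Fin 3 → ℤ, e • m ∈ M) :
    ∃ B : Matrix (Fin 3) (Fin 3) ℤ, B.det ≠ 0 ∧
      ∀ m, m ∈ M ↔ ∃ n : Fin 3 → ℤ, Matrix.vecMul n B = m := by
  classical
  let N : Submodule ℤ (Fin 3 → ℤ) := AddSubgroup.toIntSubmodule M
  have hN : ∀ m, m ∈ N ↔ m ∈ M := fun m => Iff.rfl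
  let f : (Fin 3 → ℤ) →ₗ[ℤ] N :=
    { toFun := fun m => ⟨e • m, h m⟩
      map_add' := fun a b => Subtype.ext (smul_add e a b)
      map_smul' := fun c a => Subtype.ext (smul_comm e c a) }
  have hf : Function.Injective f := by
    intro a b hab
    have h1 : e • a = e • b := congrArg Subtype.val hab
    funext j
    have h2 := congrFun h1 j
    rw [Pi.smul_apply, Pi.smul_apply, nsmul_eq_mul, nsmul_eq_mul] at h2
    exact mul_left_cancel₀ (Int.natCast_ne_zero.2 he.ne') h2
  obtain ⟨r, b⟩ := Submodule.basisOfPid (Pi.basisFun ℤ (Fin 3)) N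
  have hr1 : Module.finrank ℤ N = r := by
    rw [Module.finrank_eq_card_basis b, Fintype.card_fin]
  have : Module.Finite ℤ N := Module.Finite.of_basis b
  have hr2 : 3 ≤ Module.finrank ℤ N := by
    have h1 := LinearMap.finrank_le_finrank_of_injective hf
    rwa [Module.finrank_fin_fun] at h1
  have hr3 : Module.finrank ℤ N ≤ 3 := by
    have h1 := Submodule.finrank_le N
    rwa [Module.finrank_fin_fun] at h1
  have hr : r = 3 := by omega
  subst hr
  have hvm : ∀ n : Fin 3 → ℤ, Matrix.vecMul n (Matrix.of fun j => ((b j : N) : Fin 3 → ℤ)) =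
      ((∑ j, n j • b j : N) : Fin 3 → ℤ) := by
    intro n
    funext i
    rw [AddSubmonoidClass.coe_finsetSum, Finset.sum_apply]
    change ∑ j, n j * ((b j : N) : Fin 3 → ℤ) i = _
    refine Finset.sum_congr rfl fun j _ => ?_
    rfl
  refine ⟨Matrix.of fun j => ((b j : N) : Fin 3 → ℤ), ?_, ?_⟩
  · intro h0
    obtain ⟨v, hv, hv0⟩ := Matrix.exists_vecMul_eq_zero_iff.2 h0
    apply hv
    rw [hvm] at hv0
    have h1 : (∑ j, v j • b j : N) = 0 := Subtype.ext hv0
    funext j
    exact Fintype.linearIndependent_iff.1 b.linearIndependent v h1 j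
  · intro m
    constructor
    · intro hm
      refine ⟨fun j => b.repr ⟨m, hm⟩ j, ?_⟩
      rw [hvm, b.sum_repr]
    · rintro ⟨n, rfl⟩
      rw [hvm]
      exact (∑ j, n j • b j : N).2

end M5
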