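import Pool.Agent.M5.TB0

/-!
PROJECT M5, PART Q: quotient germs.  Common definitions.
-/

open MvPolynomial

namespace M5

open MLD

universe u

section
variable {k K K' : Type u} [Field k] [Field K] [Algebra k K] [Field K'] [Algebra k K'] {n : ℕ}

/-- transport of a derivation by an isomorphism -/
noncomputable def derT (φ : K ≃ₐ[k] K') (D : Derivation k K K) : Derivation k K' K' :=
  Derivation.mk' (φ.toLinearMap ∘ₗ (D : K →ₗ[k] K) ∘ₗ φ.symm.toLinearMap) fun a b => by
    change φ (D (φ.symm (a * b))) = a • φ (D (φ.symm b)) + b • φ (D (φ.symm a))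
    rw [map_mul, Derivation.leibniz, map_add, smul_eq_mul, smul_eq_mul, map_mul, map_mul,
      φ.apply_symm_apply, φ.apply_symm_apply, smul_eq_mul, smul_eq_mul]

theorem derT_apply (φ : K ≃ₐ[k] K') (D : Derivation k K K) (f : K') :
    derT φ D f = φ (D (φ.symm f)) := rfl

/-- the Jacobian determinants and ring homomorphisms -/
theorem jac_map (φ : K →+* K') (D : Fin n → Derivation k K K) (D' : Fin n → Derivation k K' K')
    (y : Fin n → K) (y' : Fin n → K') (h : ∀ i j, D' i (y' j) = φ (D i (y j))) :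
    jac D' y' = φ (jac D y) := by
  unfold jac
  rw [RingHom.map_det]
  congr 1
  ext i j
  rw [Matrix.of_apply, h]
  rfl

theorem jac_derT (φ : K ≃ₐ[k] K') (D : Fin n → Derivation k K K) (y : Fin n → K) :
    jac (fun i => derT φ (D i)) (fun j => φ (y j)) = φ (jac D y) :=
  jac_map (φ : K →+* K') D _ y _ fun i j => by
    rw [derT_apply, φ.symm_apply_apply]
    rfl

end

section
variable {k : Type u} [Field k]

theorem chi_zero : chi k 0 = 1 := by
  unfold chi
  exact Finset.prod_eq_one fun j _ => by rw [Pi.zero_apply, zpow_zero]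

theorem chi_neg (m : Fin 3 → ℤ) : chi k (-m) = (chi k m)⁻¹ := by
  refine eq_inv_of_mul_eq_one_left ?_
  rw [← chi_add, neg_add_cancel, chi_zero]

theorem chi_nsmul (m : Fin 3 → ℤ) (e : ℕ) : chi k (e • m) = chi k m ^ e := by
  induction e with
  | zero => rw [zero_smul, pow_zero, chi_zero]
  | succ e ih => rw [succ_nsmul, chi_add, ih, pow_succ]

/-- monomials are characters -/
theorem toFF_monomial (e : Fin 3 →₀ ℕ) (a : k) : toFF k (Fin 3) (monomial e a) =
    algebraMap k (FF k (Fin 3)) a * chi k (fun j => (e j : ℤ)) := by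
  have h1 : (monomial e a : MvPolynomial (Fin 3) k) = C a * ∏ j, X j ^ e j := by
    rw [monomial_eq, Finsupp.prod_fintype _ _ fun j => pow_zero _]
  have h2 : toFF k (Fin 3) (C a) = algebraMap k (FF k (Fin 3)) a := (toFF k (Fin 3)).commutes a
  rw [h1, map_mul, map_prod, h2]
  congr 1
  unfold chi
  refine Finset.prod_congr rfl fun j _ => ?_
  rw [map_pow, zpow_natCast]
  rfl

/-- polynomials are combinations of characters -/
theorem toFF_eq_sum (p : MvPolynomial (Fin 3) k) : toFF k (Fin 3) p =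
    ∑ e ∈ p.support, algebraMap k (FF k (Fin 3)) (coeff e p) * chi k (fun j => (e j : ℤ)) := by
  conv_lhs => rw [p.as_sum]
  rw [map_sum]
  exact Finset.sum_congr rfl fun e _ => toFF_monomial e _

/-- The automorphism acts diagonally on the coordinates. -/
def IsDg (φ : FF k (Fin 3) ≃ₐ[k] FF k (Fin 3)) : Prop :=
  ∃ α : Fin 3 → k, ∀ j, φ (xx k j) = algebraMap k _ (α j) * xx k j

/-- The automorphism acts linearly on the coordinates, by the matrix `A`. -/
def HasMat (φ : FF k (Fin 3) ≃ₐ[k] FF k (Fin 3)) (A : Matrix (Fin 3) (Fin 3) k) : Prop :=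
  ∀ j, φ (xx k j) = ∑ i, algebraMap k _ (A j i) * xx k i

/-- The characters which are invariant under the group `H`. -/
def lat (H : Subgroup (FF k (Fin 3) ≃ₐ[k] FF k (Fin 3))) : AddSubgroup (Fin 3 → ℤ) where
  carrier := {m | ∀ h ∈ H, h (chi k m) = chi k m}
  zero_mem' := fun h _ => by rw [chi_zero, map_one]
  add_mem' := fun {a b} ha hb h hh => by rw [chi_add, map_mul, ha h hh, hb h hh]
  neg_mem' := fun {a} ha h hh => by rw [chi_neg, map_inv₀, ha h hh]

/-- The condition that the section `g (dy_1 ∧ dy_2 ∧ dy_3)^N` of the quotient is a constant multiple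
of `(dx_1 ∧ dx_2 ∧ dx_3)^N`. -/
def FormOK (H : Subgroup (FF k (Fin 3) ≃ₐ[k] FF k (Fin 3))) (N : ℕ)
    (y : Fin 3 → IntermediateField.fixedField H) (g : IntermediateField.fixedField H) : Prop :=
  ∃ c : k, c ≠ 0 ∧ ∀ D : Fin 3 → Derivation k (FF k (Fin 3)) (FF k (Fin 3)),
    (g : FF k (Fin 3)) * jac D (fun j => (y j : FF k (Fin 3))) ^ N =
      algebraMap k _ c * jac D (fun j => xx k j) ^ N

end

end M5
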