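import Mathlib

/-!
PIECE M5-QE1: matrices of finite order are diagonalizable (linear algebra only).

PROOF.  Let `f := Matrix.toLin' Aᵀ` (or `A` acting on row vectors, `Matrix.vecMulLinear A`).  `X ^ e - 1` is separable, hence squarefree
(`Polynomial.separable_X_pow_sub_C` / `X_pow_sub_one_separable_iff`, characteristic zero), and it splits, and `f ^ e = 1`; so `f` is semisimple
(`Module.End.isSemisimple_of_squarefree_aeval_eq_zero`), and over an algebraically closed field the eigenspaces span:
`⨆ μ, Module.End.eigenspace f μ = ⊤` (`Module.End.IsFinitelySemisimple.maxGenEigenspace_eq_eigenspace` with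
`Module.End.iSup_maxGenEigenspace_eq_top`; or `Matrix`/`Module.End` API for `minpoly` split and squarefree).  Hence there is a basis of eigenvectors: the
union of the eigenspaces spans, so it contains a basis (`exists_linearIndependent'`-type / `Module.Basis.ofSpan`/`Basis.extendLe`, or
`DirectSum.IsInternal.collectedBasis` with `Module.End.eigenspaces_iSupIndep`), reindexed by `Fin 3` (`Module.finrank_fin_fun`).
`P` = the matrix with the eigenvectors (row vectors `v_j` with `v_j * A = d_j • v_j`) as rows; `IsUnit P.det` by linear independence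
(`Matrix.linearIndependent_rows_iff_isUnit`, `Matrix.isUnit_iff_isUnit_det`).
-/

namespace M5

universe u

theorem exists_diag {k : Type u} [Field k] [IsAlgClosed k] [CharZero k]
    (A : Matrix (Fin 3) (Fin 3) k) (e : ℕ) (he : 0 < e) (h : A ^ e = 1) :
    ∃ (P : Matrix (Fin 3) (Fin 3) k) (d : Fin 3 → k), IsUnit P.det ∧
      P * A = Matrix.diagonal d * P := by
  classical
  obtain ⟨f, hf⟩ : ∃ f : Module.End k (Fin 3 → k), f = Matrix.toLin' A.transpose := ⟨_, rfl⟩
  have hfe : f ^ e = 1 := by
    rw [hf]
    change (Matrix.toLin' A.transpose) ^ e = 1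
    rw [← Matrix.toLin'_pow, ← Matrix.transpose_pow, h, Matrix.transpose_one, Matrix.toLin'_one]
    rfl
  have hss : f.IsSemisimple := by
    refine Module.End.isSemisimple_of_squarefree_aeval_eq_zero
      (p := (Polynomial.X ^ e - 1 : Polynomial k)) ?_ ?_
    · exact (Polynomial.X_pow_sub_one_separable_iff.2
        (Nat.cast_ne_zero.2 he.ne')).squarefree
    · rw [map_sub, map_pow, Polynomial.aeval_X, map_one, hfe, sub_self]
  have htop : ⨆ μ : k, f.eigenspace μ = ⊤ := hss.iSup_eigenspace_eq_top
  have hs : ⊤ ≤ Submodule.span k (⋃ μ : k, (f.eigenspace μ : Set (Fin 3 → k))) := by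
    rw [← htop]
    refine iSup_le fun μ => ?_
    exact fun x hx => Submodule.subset_span (Set.mem_iUnion.2 ⟨μ, hx⟩)
  obtain ⟨κ, b, hb⟩ : ∃ (κ : Type u) (b : Module.Basis κ k (Fin 3 → k)),
      ∀ i, ∃ μ : k, b i ∈ f.eigenspace μ := by
    refine ⟨_, Module.Basis.ofSpan hs, fun i => ?_⟩
    exact Set.mem_iUnion.1 (Module.Basis.ofSpan_subset hs ⟨i, rfl⟩)
  haveI : Finite κ := Module.Finite.finite_basis b
  letI : Fintype κ := Fintype.ofFinite κ
  have hcard : Fintype.card κ = 3 := by
    rw [← Module.finrank_eq_card_basis b, Module.finrank_fin_fun]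
  obtain ⟨v, hv⟩ : ∃ v : Module.Basis (Fin 3) k (Fin 3 → k), ∀ i, ∃ μ : k,
      v i ∈ f.eigenspace μ := by
    refine ⟨b.reindex ((Fintype.equivFinOfCardEq hcard)), fun i => ?_⟩
    rw [Module.Basis.reindex_apply]
    exact hb _
  choose d hd using hv
  refine ⟨Matrix.of fun i => v i, d, ?_, ?_⟩
  · rw [← Matrix.isUnit_iff_isUnit_det, ← Matrix.linearIndependent_rows_iff_isUnit]
    exact v.linearIndependent
  · ext i j
    have h1 := Module.End.mem_eigenspace_iff.1 (hd i)
    have h2 := congrFun h1 j
    rw [hf] at h2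
    change Matrix.mulVec A.transpose (v i) j = (d i • v i) j at h2
    rw [Matrix.mulVec_transpose] at h2
    rw [Matrix.diagonal_mul]
    exact h2

end M5
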