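import Pool.Agent.M5.QDefs
import Pool.Agent.MLD.Der

/-!
PIECE M5-QE2: linear automorphisms of the function field.

`exists_lin`: PROOF. `exists_birEquiv` (MLD/Der.lean) with `p j = ∑ i, C (P j i) * X i` (`Bir p`: see its definition; the inverse substitution is given by
`P⁻¹`), or directly: `aeval p` is an algebra automorphism of the polynomial ring with inverse `aeval p'`, `p' j = ∑ i, C (P⁻¹ j i) * X i`
(`MvPolynomial.algHom_ext`), extended to the fraction field (`IsFractionRing.algEquivOfAlgEquiv`-type, `IsFractionRing.ringEquivOfRingEquiv`).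
`HasMat.mul`: PROOF. `(φ * ψ) x_j = φ (∑ B j i x_i) = ∑ B j i A i l x_l`.
`HasMat.uniq`: PROOF. the `x_i` are linearly independent over `k` (apply `toFF` injective to `∑ C (A j i) * X i`, take the coefficients at `single i 1`).
`HasMat.inv`: PROOF. from `exists_lin`-type argument or: `φ⁻¹ x_j = ∑ (A⁻¹) j i x_i` since `φ` of the right side is `∑ (A⁻¹ * A) j l x_l = x_j`.
`HasMat.det_ne`: PROOF. if `det A = 0` there is `v ≠ 0` with `v * A = 0`, then `φ (∑ v j x_j) = 0`, so `∑ v j x_j = 0`, `v = 0`.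
`HasMat.poly`: PROOF. `φ (toFF p) = toFF (aeval (fun j => ∑ i, C (A j i) * X i) p)` (both sides are `k`-algebra homomorphisms of `p`,
`MvPolynomial.algHom_ext` or induction), and the constant coefficient of the right side is that of `p`.
`HasMat.jac`: PROOF. `D_i (φ x_j) = ∑ l, A j l * D_i x_l` (`Derivation` is `k`-linear), the matrix is `(D_i x_l) * (A.map algebraMap)ᵀ`.
-/

open MvPolynomial

namespace M5

open MLD

universe u

variable {k : Type u} [Field k]

/-- the linear forms of the rows of a matrix -/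
private noncomputable def QE2_lp (A : Matrix (Fin 3) (Fin 3) k) (j : Fin 3) :
    MvPolynomial (Fin 3) k := ∑ i, C (A j i) * X i

private theorem QE2_C (a : k) : toFF k (Fin 3) (C a) = algebraMap k (FF k (Fin 3)) a :=
  (toFF k (Fin 3)).commutes a

private theorem QE2_toFF (A : Matrix (Fin 3) (Fin 3) k) (j : Fin 3) :
    toFF k (Fin 3) (QE2_lp A j) = ∑ i, algebraMap k _ (A j i) * xx k i := by
  unfold QE2_lp
  rw [map_sum]
  refine Finset.sum_congr rfl fun i _ => ?_
  rw [map_mul, QE2_C]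
  rfl

private theorem QE2_one (j : Fin 3) : QE2_lp (1 : Matrix (Fin 3) (Fin 3) k) j = X j := by
  unfold QE2_lp
  rw [Finset.sum_eq_single j]
  · rw [Matrix.one_apply_eq, C_1, one_mul]
  · intro i _ hi
    rw [Matrix.one_apply_ne (Ne.symm hi), C_0, zero_mul]
  · intro h
    exact absurd (Finset.mem_univ j) h

private theorem QE2_mul (A B : Matrix (Fin 3) (Fin 3) k) (j : Fin 3) :
    aeval (QE2_lp A) (QE2_lp B j) = QE2_lp (B * A) j := by
  unfold QE2_lp
  rw [map_sum]
  have h1 : ∀ i, (aeval fun j => ∑ i, C (A j i) * X i) (C (B j i) * X i : MvPolynomial (Fin 3) k) =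
      ∑ l, C (B j i * A i l) * (X l : MvPolynomial (Fin 3) k) := by
    intro i
    rw [map_mul, aeval_X, ← algebraMap_eq, AlgHom.commutes, Finset.mul_sum]
    refine Finset.sum_congr rfl fun l _ => ?_
    rw [map_mul, mul_assoc]
  rw [Finset.sum_congr rfl fun i _ => h1 i, Finset.sum_comm]
  refine Finset.sum_congr rfl fun l _ => ?_
  rw [← Finset.sum_mul, ← map_sum, Matrix.mul_apply]

private theorem QE2_comp (A B : Matrix (Fin 3) (Fin 3) k) (f : MvPolynomial (Fin 3) k) :
    aeval (QE2_lp A) (aeval (QE2_lp B) f) = aeval (QE2_lp (B * A)) f := by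
  have h : (aeval (QE2_lp A)).comp (aeval (QE2_lp B)) =
      (aeval (QE2_lp (B * A)) : MvPolynomial (Fin 3) k →ₐ[k] MvPolynomial (Fin 3) k) := by
    refine MvPolynomial.algHom_ext fun j => ?_
    rw [AlgHom.comp_apply, aeval_X, aeval_X, QE2_mul]
  exact DFunLike.congr_fun h f

private theorem QE2_id (f : MvPolynomial (Fin 3) k) :
    aeval (QE2_lp (1 : Matrix (Fin 3) (Fin 3) k)) f = f := by
  have h : QE2_lp (1 : Matrix (Fin 3) (Fin 3) k) = X := funext QE2_one
  rw [h, aeval_X_left_apply]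

private theorem QE2_lin (v : Fin 3 → k)
    (h : ∑ j, algebraMap k (FF k (Fin 3)) (v j) * xx k j = 0) : v = 0 := by
  have h1 : toFF k (Fin 3) (∑ j, C (v j) * X j) = 0 := by
    rw [map_sum, ← h]
    refine Finset.sum_congr rfl fun i _ => ?_
    rw [map_mul, QE2_C]
    rfl
  have h2 : (∑ j, C (v j) * X j : MvPolynomial (Fin 3) k) = 0 := by
    apply IsFractionRing.injective (MvPolynomial (Fin 3) k) (FF k (Fin 3))
    rw [map_zero]
    exact h1
  funext i
  have h3 := congrArg (coeff (Finsupp.single i 1)) h2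
  rw [coeff_sum, coeff_zero, Finset.sum_eq_single i] at h3
  · rw [coeff_C_mul, coeff_X, if_pos rfl, mul_one] at h3
    exact h3
  · intro l _ hl
    rw [coeff_C_mul, coeff_X, if_neg, mul_zero]
    intro he
    exact hl (Finsupp.single_left_injective one_ne_zero he)
  · intro hi
    exact absurd (Finset.mem_univ i) hi

theorem exists_lin (P : Matrix (Fin 3) (Fin 3) k) (hP : IsUnit P.det) :
    ∃ ψ : FF k (Fin 3) ≃ₐ[k] FF k (Fin 3), HasMat ψ P := by
  have h1 : P * P⁻¹ = 1 := Matrix.mul_nonsing_inv P hP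
  have h2 : P⁻¹ * P = 1 := Matrix.nonsing_inv_mul P hP
  have hb : Bir (QE2_lp P) := by
    refine ⟨fun G hG h0 => hG ?_, fun b => ⟨QE2_lp P⁻¹ b, 1, ?_, ?_⟩⟩
    · have h3 := QE2_comp P⁻¹ P G
      rw [h0, map_zero, h1, QE2_id] at h3
      exact h3.symm
    · rw [map_one]
      exact one_ne_zero
    · rw [map_one, mul_one, QE2_mul, h2, QE2_one]
  obtain ⟨Φ, hΦ⟩ := exists_birEquiv (QE2_lp P) hb
  refine ⟨Φ, fun j => ?_⟩
  rw [← QE2_toFF]
  have h3 := hΦ (X j)
  rw [aeval_X] at h3
  exact h3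

theorem HasMat.one : HasMat (1 : FF k (Fin 3) ≃ₐ[k] FF k (Fin 3)) 1 := by
  intro j
  rw [← QE2_toFF, QE2_one]
  rfl

theorem HasMat.mul {φ ψ : FF k (Fin 3) ≃ₐ[k] FF k (Fin 3)} {A B : Matrix (Fin 3) (Fin 3) k}
    (hA : HasMat φ A) (hB : HasMat ψ B) : HasMat (φ * ψ) (B * A) := by
  intro j
  rw [AlgEquiv.mul_apply, hB j, map_sum]
  have h1 : ∀ i, φ (algebraMap k _ (B j i) * xx k i) =
      ∑ l, algebraMap k (FF k (Fin 3)) (B j i * A i l) * xx k l := by
    intro i
    rw [map_mul, hA i, AlgEquiv.commutes, Finset.mul_sum]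
    refine Finset.sum_congr rfl fun l _ => ?_
    rw [map_mul, mul_assoc]
  rw [Finset.sum_congr rfl fun i _ => h1 i, Finset.sum_comm]
  refine Finset.sum_congr rfl fun l _ => ?_
  rw [← Finset.sum_mul, ← map_sum, Matrix.mul_apply]

theorem HasMat.pow {φ : FF k (Fin 3) ≃ₐ[k] FF k (Fin 3)} {A : Matrix (Fin 3) (Fin 3) k}
    (hA : HasMat φ A) (e : ℕ) : HasMat (φ ^ e) (A ^ e) := by
  induction e with
  | zero =>
    rw [pow_zero, pow_zero]
    exact HasMat.one
  | succ e ih =>
    rw [pow_succ, pow_succ' A]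
    exact ih.mul hA

theorem HasMat.uniq {φ : FF k (Fin 3) ≃ₐ[k] FF k (Fin 3)} {A B : Matrix (Fin 3) (Fin 3) k}
    (hA : HasMat φ A) (hB : HasMat φ B) : A = B := by
  ext j i
  have h1 : (fun i => A j i - B j i) = 0 := by
    apply QE2_lin
    simp only [map_sub, sub_mul, Finset.sum_sub_distrib]
    rw [← hA j, ← hB j, sub_self]
  have h2 := congrFun h1 i
  simp only [Pi.zero_apply] at h2
  exact sub_eq_zero.1 h2

theorem HasMat.det_ne {φ : FF k (Fin 3) ≃ₐ[k] FF k (Fin 3)} {A : Matrix (Fin 3) (Fin 3) k}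
    (hA : HasMat φ A) : A.det ≠ 0 := by
  intro h0
  obtain ⟨v, hv, hvA⟩ := Matrix.exists_vecMul_eq_zero_iff.2 h0
  apply hv
  apply QE2_lin
  apply φ.injective
  rw [map_zero, map_sum]
  have h1 : ∀ i, φ (algebraMap k _ (v i) * xx k i) =
      ∑ l, algebraMap k (FF k (Fin 3)) (v i * A i l) * xx k l := by
    intro i
    rw [map_mul, hA i, AlgEquiv.commutes, Finset.mul_sum]
    refine Finset.sum_congr rfl fun l _ => ?_
    rw [map_mul, mul_assoc]
  rw [Finset.sum_congr rfl fun i _ => h1 i, Finset.sum_comm]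
  refine Finset.sum_eq_zero fun l _ => ?_
  rw [← Finset.sum_mul, ← map_sum]
  have h2 : ∑ i, v i * A i l = 0 := congrFun hvA l
  rw [h2, map_zero, zero_mul]

theorem HasMat.inv {φ : FF k (Fin 3) ≃ₐ[k] FF k (Fin 3)} {A : Matrix (Fin 3) (Fin 3) k}
    (hA : HasMat φ A) : HasMat φ.symm A⁻¹ := by
  have h2 : A⁻¹ * A = 1 := Matrix.nonsing_inv_mul A (isUnit_iff_ne_zero.2 hA.det_ne)
  intro j
  rw [AlgEquiv.symm_apply_eq, map_sum]
  have h1 : ∀ i, φ (algebraMap k _ (A⁻¹ j i) * xx k i) =
      ∑ l, algebraMap k (FF k (Fin 3)) (A⁻¹ j i * A i l) * xx k l := by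
    intro i
    rw [map_mul, hA i, AlgEquiv.commutes, Finset.mul_sum]
    refine Finset.sum_congr rfl fun l _ => ?_
    rw [map_mul, mul_assoc]
  rw [Finset.sum_congr rfl fun i _ => h1 i, Finset.sum_comm]
  have h3 : ∀ l, ∑ i, algebraMap k (FF k (Fin 3)) (A⁻¹ j i * A i l) * xx k l =
      algebraMap k (FF k (Fin 3)) ((1 : Matrix (Fin 3) (Fin 3) k) j l) * xx k l := by
    intro l
    rw [← h2, Matrix.mul_apply, map_sum, Finset.sum_mul]
  rw [Finset.sum_congr rfl fun l _ => h3 l]
  exact HasMat.one j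

/-- linear automorphisms map polynomials to polynomials and keep the constant term -/
theorem HasMat.poly {φ : FF k (Fin 3) ≃ₐ[k] FF k (Fin 3)} {A : Matrix (Fin 3) (Fin 3) k}
    (hA : HasMat φ A) (p : MvPolynomial (Fin 3) k) :
    ∃ p', φ (toFF k (Fin 3) p) = toFF k (Fin 3) p' ∧ constantCoeff p' = constantCoeff p := by
  refine ⟨aeval (QE2_lp A) p, ?_, ?_⟩
  · have h : ((φ : FF k (Fin 3) →ₐ[k] FF k (Fin 3)).comp (toFF k (Fin 3))) =
        (toFF k (Fin 3)).comp (aeval (QE2_lp A)) := by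
      refine MvPolynomial.algHom_ext fun j => ?_
      rw [AlgHom.comp_apply, AlgHom.comp_apply, aeval_X, QE2_toFF]
      exact hA j
    exact DFunLike.congr_fun h p
  · have h : (constantCoeff (R := k) (σ := Fin 3)).comp (aeval (QE2_lp A)).toRingHom =
        constantCoeff := by
      refine MvPolynomial.ringHom_ext (fun a => ?_) (fun j => ?_)
      · simp
      · change constantCoeff (aeval (QE2_lp A) (X j)) = constantCoeff (X j)
        rw [aeval_X, constantCoeff_X]
        unfold QE2_lp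
        rw [map_sum]
        refine Finset.sum_eq_zero fun i _ => ?_
        rw [map_mul, constantCoeff_X, mul_zero]
    exact DFunLike.congr_fun h p

theorem HasMat.jac {φ : FF k (Fin 3) ≃ₐ[k] FF k (Fin 3)} {A : Matrix (Fin 3) (Fin 3) k}
    (hA : HasMat φ A) (D : Fin 3 → Derivation k (FF k (Fin 3)) (FF k (Fin 3))) :
    M5.jac D (fun j => φ (xx k j)) = algebraMap k _ A.det * M5.jac D (fun j => xx k j) := by
  unfold M5.jac
  have h : (Matrix.of fun i j : Fin 3 => D i (φ (xx k j))) =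
      (Matrix.of fun i j : Fin 3 => D i (xx k j)) *
        ((algebraMap k (FF k (Fin 3))).mapMatrix A).transpose := by
    ext i j
    rw [Matrix.of_apply, Matrix.mul_apply, hA j, map_sum]
    refine Finset.sum_congr rfl fun l _ => ?_
    rw [Matrix.transpose_apply, RingHom.mapMatrix_apply, Matrix.map_apply, Matrix.of_apply,
      ← Algebra.smul_def, Derivation.map_smul, Algebra.smul_def, mul_comm]
  rw [h, Matrix.det_mul, Matrix.det_transpose, ← RingHom.map_det, mul_comm]

end M5
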