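import Pool.Agent.M5.G1

/-!
PIECE M5-QF1: the abstract descent of Q1.

`ordI_gmap`: PROOF. (≤) `ordI_mem` (G1): `f ∈ a`, `f ≠ 0`, `E₀.ord f = X₀.ordI E₀ a`, and `gmap f ∈ a.map`, `ordI_le`.  (≥) `le_ordI_span`
(`Ideal.map` is the span of the image), every `f ∈ a`, `f ≠ 0` has `E.ord (j f) = ρ * E₀.ord f ≥ ρ * X₀.ordI E₀ a` (`ordI_le`); `a.map ≠ ⊥` since `j` is
injective.  `X₀.Reg E₀` follows from `X.Reg E`: `0 ≤ E.ord (j f) = ρ * E₀.ord f`.  (`Reg` is defined in G1: the order is `≥ 0` on the ring.)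

`descent`: PROOF. By `Q1_of_semi` (G1) for `X₀`: let `lam : Fin r → ℝ` be positive.  For each `i` take `s i` from `(hQ i) (Set.range lam)` (finite),
`s := ∑ i, s i` or the supremum (`Finite ι`).  Let `a ⊔ m^s = b ⊔ m^s`, `0 ≤ X₀.mld lam a`.  Show `X₀.mld lam a ≤ X₀.aDisc E lam b` for `E` with
centre `x` (`le_mld`).  By `hin` there are `i` and `E₁` with `E₁.ord (j i f) = E.ord f`.  Write `a' t = (a t).map (gmap ..)`, `b'` in the same way.
(If a log discrepancy is `⊤` then `aDisc = ⊤` (`EReal.top_sub_coe`) and the inequality to be shown is trivial, in (1) and in (3).)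
(1) `(X i).Centre E₁` (`hC`, `ρ = 1`), and `(X i).aDisc E₁ lam b' = X₀.aDisc E lam b`: both log discrepancies are the same real number `A` by `hA` with
`ρ = 1`, and `ordI_gmap` with `ρ = 1`.
(2) `a' t ⊔ (X i).m ^ (s i) = b' t ⊔ (X i).m ^ (s i)`: apply `Ideal.map` to the hypothesis (`Ideal.map_sup`, `Ideal.map_pow`), `(m^s).map ≤ (X i).m ^ s ≤ (X i).m ^ (s i)`
(`hm`, `Ideal.pow_right_mono`, `Ideal.pow_le_pow_right`) and take the supremum with `(X i).m ^ (s i)` on both sides.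
(3) `X₀.mld lam a ≤ (X i).mld lam a'`: for `F` over `X i` with centre there are `F₀`, `ρ` by `hres`; `X₀.Centre F₀` (`hC`); by `hA` and `ordI_gmap`
`(X i).aDisc F lam a' = ρ * A'` and `X₀.aDisc F₀ lam a = A'` with a REAL number `A'` (`aDisc_real` in G1), `A' ≥ 0` since `A' ≥ X₀.mld lam a ≥ 0`, so
`ρ * A' ≥ A' ≥ X₀.mld lam a`.
(4) `0 ≤ (X i).mld lam a'`, so by Q1 for `X i` (the first part gives `0 ≤ (X i).mld lam b'`) `(X i).mld lam a' = (X i).mld lam b' ≤ (X i).aDisc E₁ lam b'`.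
-/

namespace M5

open MLD

universe u

section
variable {k K₀ K : Type u} [Field k] [Field K₀] [Algebra k K₀] [Field K] [Algebra k K] {n : ℕ}

/-- the homomorphism of the coordinate rings -/
noncomputable def gmap (j : K₀ →ₐ[k] K) (X₀ : Germ k K₀ n) (X : Germ k K n)
    (hR : ∀ f : X₀.R, j f ∈ X.R) : X₀.R →ₐ[k] X.R :=
  (j.comp X₀.R.val).codRestrict X.R hR

theorem gmap_coe (j : K₀ →ₐ[k] K) (X₀ : Germ k K₀ n) (X : Germ k K n)
    (hR : ∀ f : X₀.R, j f ∈ X.R) (f : X₀.R) : ((gmap j X₀ X hR f : X.R) : K) = j f := rfl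

theorem gmap_ne (j : K₀ →ₐ[k] K) (X₀ : Germ k K₀ n) (X : Germ k K n)
    (hR : ∀ f : X₀.R, j f ∈ X.R) {f : X₀.R} (h0 : f ≠ 0) : gmap j X₀ X hR f ≠ 0 := by
  intro h
  apply G1_ne h0
  have h3 : j (f : K₀) = 0 := by
    rw [← gmap_coe j X₀ X hR f, h]
    rfl
  exact (map_eq_zero j).1 h3

theorem map_gmap_ne_bot (j : K₀ →ₐ[k] K) (X₀ : Germ k K₀ n) (X : Germ k K n)
    (hR : ∀ f : X₀.R, j f ∈ X.R) {a : Ideal X₀.R} (ha : a ≠ ⊥) :
    a.map (gmap j X₀ X hR) ≠ ⊥ := by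
  obtain ⟨f, hf, h0⟩ := Submodule.exists_mem_ne_zero_of_ne_bot ha
  intro h
  have h1 := Ideal.mem_map_of_mem (gmap j X₀ X hR) hf
  rw [h, Ideal.mem_bot] at h1
  exact gmap_ne j X₀ X hR h0 h1

theorem ordI_gmap (j : K₀ →ₐ[k] K) (X₀ : Germ k K₀ n) (X : Germ k K n)
    (hR : ∀ f : X₀.R, j f ∈ X.R) (E₀ : Dv k K₀ n) (E : Dv k K n) (ρ : ℕ) (hρ : 0 < ρ)
    (hE : ∀ f, f ≠ 0 → E.ord (j f) = ρ * E₀.ord f) (hreg : X.Reg E) (a : Ideal X₀.R) (ha : a ≠ ⊥) :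
    X.ordI E (a.map (gmap j X₀ X hR)) = ρ * X₀.ordI E₀ a := by
  have hreg0 : X₀.Reg E₀ := by
    intro f h0
    have h1 := hE (f : K₀) (G1_ne h0)
    have h4 := hreg _ (gmap_ne j X₀ X hR h0)
    rw [gmap_coe, h1] at h4
    by_contra hcon
    rw [not_le] at hcon
    have h5 : (ρ : ℤ) * E₀.ord (f : K₀) < 0 :=
      mul_neg_of_pos_of_neg (by exact_mod_cast hρ) hcon
    omega
  apply le_antisymm
  · obtain ⟨f, hf, h0, h1⟩ := ordI_mem hreg0 ha
    have h2 := ordI_le hreg (Ideal.mem_map_of_mem (gmap j X₀ X hR) hf) (gmap_ne j X₀ X hR h0)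
    rw [gmap_coe, hE _ (G1_ne h0), h1] at h2
    exact_mod_cast h2
  · refine le_ordI_span hreg (map_gmap_ne_bot j X₀ X hR ha) _ ?_
    rintro _ ⟨f, hf, rfl⟩
    by_cases h0 : f = 0
    · left
      rw [h0, map_zero]
      rfl
    · right
      have h1 := ordI_le hreg0 hf h0
      have h2 : ((gmap j X₀ X hR f : X.R) : K) = j f := rfl
      have h3 : E.ord ((gmap j X₀ X hR f : X.R) : K) = ρ * E₀.ord (f : K₀) := by
        rw [h2, hE _ (G1_ne h0)]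
      refine le_trans ?_ h3.ge
      push_cast
      exact mul_le_mul_of_nonneg_left h1 (by positivity)

end

theorem descent {k K₀ : Type u} [Field k] [Field K₀] [Algebra k K₀] {n : ℕ} (X₀ : Germ k K₀ n)
    {ι : Type*} [Finite ι] (K : ι → Type u) [∀ i, Field (K i)] [∀ i, Algebra k (K i)]
    (X : ∀ i, Germ k (K i) n) (j : ∀ i, K₀ →ₐ[k] K i)
    (hR : ∀ i, ∀ f : X₀.R, j i f ∈ (X i).R)
    (hm : ∀ i, X₀.m.map (gmap (j i) X₀ (X i) (hR i)) ≤ (X i).m)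
    (hC : ∀ i (E₀ : Dv k K₀ n) (E : Dv k (K i) n) (ρ : ℕ), 0 < ρ →
      (∀ f, f ≠ 0 → E.ord (j i f) = ρ * E₀.ord f) → (X₀.Centre E₀ ↔ (X i).Centre E))
    (hA : ∀ i (E₀ : Dv k K₀ n) (E : Dv k (K i) n) (ρ : ℕ), 0 < ρ →
      (∀ f, f ≠ 0 → E.ord (j i f) = ρ * E₀.ord f) →
      (X₀.logDisc E₀ = ⊤ ∧ (X i).logDisc E = ⊤) ∨
        ∃ A : ℝ, X₀.logDisc E₀ = (A : EReal) ∧ (X i).logDisc E = ((ρ * A : ℝ) : EReal))
    (hres : ∀ i (E : Dv k (K i) n), ∃ (E₀ : Dv k K₀ n) (ρ : ℕ), 0 < ρ ∧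
      ∀ f, f ≠ 0 → E.ord (j i f) = ρ * E₀.ord f)
    (hin : ∀ E₀ : Dv k K₀ n, ∃ (i : ι) (E : Dv k (K i) n), ∀ f, f ≠ 0 →
      E.ord (j i f) = E₀.ord f)
    (hQ : ∀ i, (X i).Q1) : X₀.Q1 := by
  classical
  refine Q1_of_semi X₀ fun r lam hlam => ?_
  have hfin : Fintype ι := Fintype.ofFinite ι
  choose s hs using fun i => hQ i (Set.range lam) (Set.finite_range lam)
    (by rintro _ ⟨t, rfl⟩; exact (hlam t).le)
  refine ⟨∑ i, s i, fun a b ha hb hab h0 => ?_⟩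
  refine le_mld lam b _ fun E hE => ?_
  obtain ⟨i, E₁, h1⟩ := hin E
  have h1' : ∀ f, f ≠ 0 → E₁.ord (j i f) = (1 : ℕ) * E.ord f := by
    intro f hf
    rw [h1 f hf, Nat.cast_one, one_mul]
  have hC1 := (hC i E E₁ 1 one_pos h1').1 hE
  have hsi : s i ≤ ∑ i, s i := Finset.single_le_sum (fun _ _ => Nat.zero_le _) (Finset.mem_univ i)
  have h2 : ∀ t, (a t).map (gmap (j i) X₀ (X i) (hR i)) ⊔ (X i).m ^ s i =
      (b t).map (gmap (j i) X₀ (X i) (hR i)) ⊔ (X i).m ^ s i := by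
    intro t
    have h3 : (X₀.m ^ (∑ i, s i)).map (gmap (j i) X₀ (X i) (hR i)) ≤ (X i).m ^ s i := by
      rw [Ideal.map_pow]
      exact (Ideal.pow_right_mono (hm i) _).trans (Ideal.pow_le_pow_right hsi)
    have h4 := congrArg (Ideal.map (gmap (j i) X₀ (X i) (hR i))) (hab t)
    rw [Ideal.map_sup, Ideal.map_sup] at h4
    have h5 : ∀ I : Ideal (X i).R, I ⊔ (X i).m ^ s i =
        I ⊔ (X₀.m ^ ∑ i, s i).map (gmap (j i) X₀ (X i) (hR i)) ⊔ (X i).m ^ s i := by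
      intro I
      rw [sup_assoc, sup_eq_right.2 h3]
    rw [h5 ((a t).map (gmap (j i) X₀ (X i) (hR i))),
      h5 ((b t).map (gmap (j i) X₀ (X i) (hR i))), h4]
  have h6 : (X i).aDisc E₁ lam (fun t => (b t).map (gmap (j i) X₀ (X i) (hR i))) =
      X₀.aDisc E lam b := by
    have h7 : ∀ t, (X i).ordI E₁ ((b t).map (gmap (j i) X₀ (X i) (hR i))) = X₀.ordI E (b t) := by
      intro t
      rw [ordI_gmap (j i) X₀ (X i) (hR i) E E₁ 1 one_pos h1' hC1.reg (b t) (hb t), one_mul]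
    unfold Germ.aDisc
    rcases hA i E E₁ 1 one_pos h1' with ⟨h8, h9⟩ | ⟨A, h8, h9⟩
    · rw [h8, h9, EReal.top_sub_coe, EReal.top_sub_coe]
    · rw [h8, h9]
      simp only [h7, Nat.cast_one, one_mul]
  have h10 : X₀.mld lam a ≤
      (X i).mld lam (fun t => (a t).map (gmap (j i) X₀ (X i) (hR i))) := by
    refine le_mld lam _ _ fun F hF => ?_
    obtain ⟨F₀, ρ, hρ, h11⟩ := hres i F
    have hC0 := (hC i F₀ F ρ hρ h11).2 hF
    have h12 := mld_le hC0 lam a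
    rcases hA i F₀ F ρ hρ h11 with ⟨h8, h9⟩ | ⟨A, h8, h9⟩
    · unfold Germ.aDisc
      rw [h9, EReal.top_sub_coe]
      exact le_top
    · rw [aDisc_real F₀ lam a h8] at h12
      rw [aDisc_real F lam _ h9]
      refine h12.trans ?_
      have h13 := h0.trans h12
      have h14 : (0 : ℝ) ≤ A - ∑ j, lam j * (X₀.ordI F₀ (a j) : ℝ) := by exact_mod_cast h13
      rw [EReal.coe_le_coe_iff]
      have h15 : ∀ t, ((X i).ordI F ((a t).map (gmap (j i) X₀ (X i) (hR i))) : ℝ) =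
          ρ * (X₀.ordI F₀ (a t) : ℝ) := by
        intro t
        rw [ordI_gmap (j i) X₀ (X i) (hR i) F₀ F ρ hρ h11 hF.reg (a t) (ha t)]
        push_cast
        rfl
      have h16 : ∑ t, lam t * ((X i).ordI F ((a t).map (gmap (j i) X₀ (X i) (hR i))) : ℝ) =
          ρ * ∑ t, lam t * (X₀.ordI F₀ (a t) : ℝ) := by
        rw [Finset.mul_sum]
        exact Finset.sum_congr rfl fun t _ => by rw [h15 t]; ring
      rw [h16, ← mul_sub]
      have h17 : (1 : ℝ) ≤ ρ := by exact_mod_cast hρ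
      exact le_mul_of_one_le_left h14 h17
  have h18 : 0 ≤ (X i).mld lam (fun t => (a t).map (gmap (j i) X₀ (X i) (hR i))) := h0.trans h10
  have h19 := (hs i).2 r lam (fun t => (a t).map (gmap (j i) X₀ (X i) (hR i)))
    (fun t => (b t).map (gmap (j i) X₀ (X i) (hR i))) (fun t => ⟨t, rfl⟩)
    (fun t => map_gmap_ne_bot (j i) X₀ (X i) (hR i) (ha t))
    (fun t => map_gmap_ne_bot (j i) X₀ (X i) (hR i) (hb t)) h2
  have h20 := h19.1.1 h18
  have h21 := h19.2 h18 h20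
  refine h10.trans (h21.trans_le ?_)
  exact (mld_le hC1 lam _).trans h6.le

end M5
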