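import Pool.Agent.M5.QF1
import Pool.Agent.M5.QE2

/-!
PIECE M5-QF2: the quotients by subgroups.

`inc_R`, `inc_m`: PROOF. immediate: the conditions on `f` only depend on `f` as an element of `FF k (Fin 3)` (`(inc f : FF) = f`,
`IntermediateField.coe_inclusion`); `Ideal.map_span`, `Ideal.span_le`.

`inc_centre`: PROOF. Let `hE : E.ord (inc f) = ρ * E₀.ord f` (`f ≠ 0`).  (←) `inc` maps `quoR G` to `quoR H` and the ideal into the ideal; `ρ > 0`.
(→) MONIC EQUATION: for `p : MvPolynomial (Fin 3) k` let `Q := ∏ γ : G, (X - C (γ (toFF p))) : Polynomial (FF k (Fin 3))` (`Finite G` → `Fintype`).  Its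
coefficients are invariant under `G` (apply `γ'`: `Polynomial.map` permutes the factors) and they are polynomials in the `γ (toFF p)`,
`γ (toFF p) = toFF p_γ` (`HasMat.poly`), so they are `toFF c_i` with `c_i` the coefficients of `∏ (X - C p_γ)` over `MvPolynomial (Fin 3) k`; and if `constantCoeff p = 0` all
`p_γ` have constant term `0`, so `constantCoeff c_i = 0` for `i < card G` (map the polynomial by `constantCoeff`: `∏ (X - 0) = X ^ card G`).
Let `f ∈ quoR H`, `(f : FF) = toFF p`: `f ^ d + ∑ i < d, inc (c_i) * f ^ i = 0` in `fixedField H`, `c_i ∈ quoR G`.  If `f ≠ 0` and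
`E.ord f < 0` then every term `inc (c_i) * f ^ i`, `i < d`, is `0` or has order `≥ i * E.ord f > d * E.ord f` (`E₀` is `≥ 0` on `quoR G`), contradiction (use `OrdFn.ge`
from MLD/Ord.lean: `ge_sum`, `ge_mul` ...).  If `constantCoeff p = 0` and `E.ord f = 0` then every term is `0` or has positive order (the `c_i` lie in the ideal of
`quoGerm G`), but `f ^ d` has order `0`, contradiction; so `E.ord f > 0` for the generators of the ideal, hence for all elements `≠ 0` of the span
(`Submodule.span_induction` with `E.ge 1`; see `ge_span` in G1).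
-/

open MvPolynomial

namespace M5

open MLD

universe u

variable {k : Type u} [Field k]

/-- the inclusion of the fields of invariants -/
noncomputable def inc {K : Type u} [Field K] [Algebra k K] {H G : Subgroup (K ≃ₐ[k] K)}
    (h : H ≤ G) : IntermediateField.fixedField G →ₐ[k] IntermediateField.fixedField H :=
  IntermediateField.inclusion fun _ hx => fun g => hx ⟨g.1, h g.2⟩

theorem inc_coe {K : Type u} [Field K] [Algebra k K] {H G : Subgroup (K ≃ₐ[k] K)}
    (h : H ≤ G) (f : IntermediateField.fixedField G) :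
    ((inc h f : IntermediateField.fixedField H) : K) = f := rfl

/-- the coefficients of the product of a set of linear factors which is permuted by the group -/
private theorem QF2_monic {G : Subgroup (FF k (Fin 3) ≃ₐ[k] FF k (Fin 3))} [Finite G]
    (hG : ∀ γ ∈ G, IsLin γ) (p : MvPolynomial (Fin 3) k) :
    ∃ (d : ℕ) (c : ℕ → quoR G) (q : ℕ → MvPolynomial (Fin 3) k), 0 < d ∧
      (∀ i, toFF k (Fin 3) (q i) = ((c i : IntermediateField.fixedField G) : FF k (Fin 3))) ∧
      (constantCoeff p = 0 → ∀ i < d, constantCoeff (q i) = 0) ∧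
      toFF k (Fin 3) p ^ d +
        ∑ i ∈ Finset.range d, ((c i : IntermediateField.fixedField G) : FF k (Fin 3)) *
          toFF k (Fin 3) p ^ i = 0 := by
  classical
  cases nonempty_fintype G
  have hex : ∀ γ : G, ∃ p' : MvPolynomial (Fin 3) k,
      γ.1 (toFF k (Fin 3) p) = toFF k (Fin 3) p' ∧ constantCoeff p' = constantCoeff p := by
    intro γ
    obtain ⟨A, hA⟩ := hG γ.1 γ.2
    exact HasMat.poly (A := A) hA p
  choose pg hpg hcg using hex
  obtain ⟨Q, hQ⟩ : ∃ Q : Polynomial (MvPolynomial (Fin 3) k),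
      Q = ∏ γ : G, (Polynomial.X - Polynomial.C (pg γ)) := ⟨_, rfl⟩
  have hmon : Q.Monic := by
    rw [hQ]
    exact Polynomial.monic_prod_of_monic _ _ fun γ _ => Polynomial.monic_X_sub_C _
  have hdeg : Q.natDegree = Fintype.card G := by
    rw [hQ, Polynomial.natDegree_prod_of_monic _ _ fun γ _ => Polynomial.monic_X_sub_C _]
    simp
  have hmap : Q.map (toFF k (Fin 3) : MvPolynomial (Fin 3) k →+* FF k (Fin 3)) =
      ∏ γ : G, (Polynomial.X - Polynomial.C (γ.1 (toFF k (Fin 3) p))) := by
    rw [hQ, Polynomial.map_prod]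
    refine Finset.prod_congr rfl fun γ _ => ?_
    rw [Polynomial.map_sub, Polynomial.map_X, Polynomial.map_C, hpg γ]
    rfl
  have hinv : ∀ (γ' : G) (i : ℕ), γ'.1 (toFF k (Fin 3) (Q.coeff i)) =
      toFF k (Fin 3) (Q.coeff i) := by
    intro γ' i
    have h1 : (Q.map (toFF k (Fin 3) : MvPolynomial (Fin 3) k →+* FF k (Fin 3))).map
        (γ'.1 : FF k (Fin 3) →+* FF k (Fin 3)) =
        Q.map (toFF k (Fin 3) : MvPolynomial (Fin 3) k →+* FF k (Fin 3)) := by
      rw [hmap, Polynomial.map_prod]
      have h2 : ∀ γ : G, Polynomial.map (γ'.1 : FF k (Fin 3) →+* FF k (Fin 3))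
          (Polynomial.X - Polynomial.C (γ.1 (toFF k (Fin 3) p))) =
          Polynomial.X - Polynomial.C ((γ' * γ).1 (toFF k (Fin 3) p)) := by
        intro γ
        rw [Polynomial.map_sub, Polynomial.map_X, Polynomial.map_C]
        rfl
      rw [Finset.prod_congr rfl fun γ _ => h2 γ]
      exact Equiv.prod_comp (Equiv.mulLeft γ')
        (fun γ : G => (Polynomial.X - Polynomial.C (γ.1 (toFF k (Fin 3) p)) :
          Polynomial (FF k (Fin 3))))
    have h2 := congrArg (fun P => Polynomial.coeff P i) h1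
    simp only [Polynomial.coeff_map] at h2
    exact h2
  have hroot : Polynomial.eval (toFF k (Fin 3) p)
      (Q.map (toFF k (Fin 3) : MvPolynomial (Fin 3) k →+* FF k (Fin 3))) = 0 := by
    rw [hmap, Polynomial.eval_prod]
    refine Finset.prod_eq_zero (Finset.mem_univ (1 : G)) ?_
    rw [Polynomial.eval_sub, Polynomial.eval_X, Polynomial.eval_C]
    exact sub_self _
  have hmem : ∀ i, toFF k (Fin 3) (Q.coeff i) ∈ IntermediateField.fixedField G := by
    intro i
    rw [IntermediateField.mem_fixedField_iff]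
    intro γ hγ
    exact hinv ⟨γ, hγ⟩ i
  refine ⟨Fintype.card G, fun i => ⟨⟨toFF k (Fin 3) (Q.coeff i), hmem i⟩, ⟨Q.coeff i, rfl⟩⟩,
    fun i => Q.coeff i, Fintype.card_pos, fun i => rfl, ?_, ?_⟩
  · intro h0 i hi
    have h1 : Q.map (constantCoeff (R := k) (σ := Fin 3)) = Polynomial.X ^ Fintype.card G := by
      rw [hQ, Polynomial.map_prod]
      have h2 : ∀ γ : G, Polynomial.map (constantCoeff (R := k) (σ := Fin 3))
          (Polynomial.X - Polynomial.C (pg γ)) = Polynomial.X := by
        intro γ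
        rw [Polynomial.map_sub, Polynomial.map_X, Polynomial.map_C, hcg γ, h0, map_zero,
          sub_zero]
      rw [Finset.prod_congr rfl fun γ _ => h2 γ, Finset.prod_const, Finset.card_univ]
    have h2 := congrArg (fun P => Polynomial.coeff P i) h1
    simp only [Polynomial.coeff_map, Polynomial.coeff_X_pow] at h2
    rw [h2, if_neg (ne_of_lt hi)]
  · rw [Polynomial.eval_eq_sum_range, hmon.natDegree_map, hdeg, Finset.sum_range_succ] at hroot
    have h1 : (Q.map (toFF k (Fin 3) : MvPolynomial (Fin 3) k →+* FF k (Fin 3))).coeff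
        (Fintype.card G) = 1 := by
      have h2 : Q.coeff (Fintype.card G) = 1 := by
        rw [← hdeg]
        exact hmon.coeff_natDegree
      rw [Polynomial.coeff_map, h2, map_one]
    rw [h1, one_mul] at hroot
    rw [← hroot, add_comm]
    congr 1
    refine Finset.sum_congr rfl fun i _ => ?_
    rw [Polynomial.coeff_map]
    rfl

section
variable {G H : Subgroup (FF k (Fin 3) ≃ₐ[k] FF k (Fin 3))} (h : H ≤ G) (N : ℕ)
  (y : Fin 3 → IntermediateField.fixedField G) (g : IntermediateField.fixedField G)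

theorem inc_R (f : quoR G) : inc h f ∈ quoR H := by
  obtain ⟨p, hp⟩ := f.2
  exact ⟨p, hp⟩

theorem inc_m : (quoGerm G N y g).m.map (gmap (inc h) (quoGerm G N y g)
    (quoGerm H N (fun j => inc h (y j)) (inc h g)) (inc_R h)) ≤
      (quoGerm H N (fun j => inc h (y j)) (inc h g)).m := by
  refine Ideal.map_le_iff_le_comap.2 (Ideal.span_le.2 ?_)
  rintro f ⟨p, hp0, hp⟩
  exact Ideal.subset_span ⟨p, hp0, hp⟩

/-- the algebraic equation in the field of invariants of the subgroup -/
private theorem QF2_eq [Finite G] (hG : ∀ γ ∈ G, IsLin γ) (f : IntermediateField.fixedField H)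
    (p : MvPolynomial (Fin 3) k) (hp : toFF k (Fin 3) p = (f : FF k (Fin 3))) :
    ∃ (d : ℕ) (c : ℕ → quoR G), 0 < d ∧
      (constantCoeff p = 0 → ∀ i < d, ∃ q : MvPolynomial (Fin 3) k, constantCoeff q = 0 ∧
        toFF k (Fin 3) q = ((c i : IntermediateField.fixedField G) : FF k (Fin 3))) ∧
      f ^ d + ∑ i ∈ Finset.range d, inc h (c i) * f ^ i = 0 := by
  obtain ⟨d, c, q, hd, hq, h0, heq⟩ := QF2_monic hG p
  refine ⟨d, c, hd, ?_, ?_⟩
  · intro hc i hi
    exact ⟨q i, h0 hc i hi, hq i⟩
  · apply Subtype.ext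
    rw [hp] at heq
    refine Eq.trans ?_ heq
    push_cast
    rfl

private theorem QF2_reg [Finite G] (hG : ∀ γ ∈ G, IsLin γ)
    (E₀ : Dv k (IntermediateField.fixedField G) 3) (E : Dv k (IntermediateField.fixedField H) 3)
    (ρ : ℕ) (hE : ∀ f, f ≠ 0 → E.ord (inc h f) = ρ * E₀.ord f)
    (hr : ∀ f : quoR G, f ≠ 0 → 0 ≤ E₀.ord (f : IntermediateField.fixedField G))
    (f : quoR H) (hf : f ≠ 0) : 0 ≤ E.ord (f : IntermediateField.fixedField H) := by
  obtain ⟨p, hp⟩ := f.2
  obtain ⟨d, c, hd, -, heq⟩ := QF2_eq h hG (f : IntermediateField.fixedField H) p hp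
  have hf0 : (f : IntermediateField.fixedField H) ≠ 0 := fun h0 => hf (Subtype.ext h0)
  by_contra hneg
  push Not at hneg
  have hc : ∀ i, E.ge 0 (inc h (c i)) := by
    intro i
    by_cases hci : c i = 0
    · left
      rw [hci]
      exact map_zero _
    · right
      have h1 : ((c i : quoR G) : IntermediateField.fixedField G) ≠ 0 :=
        fun h0 => hci (Subtype.ext h0)
      rw [hE _ h1]
      exact mul_nonneg (Int.natCast_nonneg _) (hr _ hci)
  have h2 : E.ge (d * E.ord (f : IntermediateField.fixedField H) + 1)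
      (∑ i ∈ Finset.range d, inc h (c i) * (f : IntermediateField.fixedField H) ^ i) := by
    refine E.ge_sum _ _ fun i hi => ?_
    have h3 := E.ge_mul (hc i) (E.ge_pow (E.ge_self (f : IntermediateField.fixedField H)) i)
    refine E.ge_mono ?_ h3
    have h4 : (i : ℤ) + 1 ≤ d := by exact_mod_cast Finset.mem_range.1 hi
    nlinarith
  have h3 := E.ge_neg h2
  rw [← eq_neg_of_add_eq_zero_left heq] at h3
  rcases h3 with h3 | h3
  · exact pow_ne_zero d hf0 h3
  · rw [E.ord_pow hf0] at h3
    omega

private theorem QF2_pos [Finite G] (hG : ∀ γ ∈ G, IsLin γ)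
    (E₀ : Dv k (IntermediateField.fixedField G) 3) (E : Dv k (IntermediateField.fixedField H) 3)
    (ρ : ℕ) (hρ : 0 < ρ) (hE : ∀ f, f ≠ 0 → E.ord (inc h f) = ρ * E₀.ord f)
    (hr : (quoGerm G N y g).Centre E₀)
    (f : quoR H) (hf : f ≠ 0) (p : MvPolynomial (Fin 3) k) (h0 : constantCoeff p = 0)
    (hp : toFF k (Fin 3) p = ((f : IntermediateField.fixedField H) : FF k (Fin 3))) :
    0 < E.ord (f : IntermediateField.fixedField H) := by
  obtain ⟨d, c, hd, hm, heq⟩ := QF2_eq h hG (f : IntermediateField.fixedField H) p hp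
  have hf0 : (f : IntermediateField.fixedField H) ≠ 0 := fun h0 => hf (Subtype.ext h0)
  have h1 := QF2_reg h hG E₀ E ρ hE hr.1 f hf
  by_contra hneg
  have h2 : E.ord (f : IntermediateField.fixedField H) = 0 := by omega
  have hc : ∀ i < d, E.ge 1 (inc h (c i)) := by
    intro i hi
    by_cases hci : c i = 0
    · left
      rw [hci]
      exact map_zero _
    · right
      have h1 : ((c i : quoR G) : IntermediateField.fixedField G) ≠ 0 :=
        fun h0 => hci (Subtype.ext h0)
      rw [hE _ h1]
      have h3 : 0 < E₀.ord ((c i : quoR G) : IntermediateField.fixedField G) :=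
        hr.2 (c i) (Ideal.subset_span (hm h0 i hi)) hci
      have h4 : (0 : ℤ) < ρ := by exact_mod_cast hρ
      have h5 := mul_pos h4 h3
      omega
  have h3 : E.ge 1
      (∑ i ∈ Finset.range d, inc h (c i) * (f : IntermediateField.fixedField H) ^ i) := by
    refine E.ge_sum _ _ fun i hi => ?_
    have h4 := E.ge_mul (hc i (Finset.mem_range.1 hi))
      (E.ge_pow (E.ge_self (f : IntermediateField.fixedField H)) i)
    rw [h2, mul_zero, add_zero] at h4
    exact h4
  have h4 := E.ge_neg h3
  rw [← eq_neg_of_add_eq_zero_left heq] at h4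
  rcases h4 with h4 | h4
  · exact pow_ne_zero d hf0 h4
  · rw [E.ord_pow hf0, h2, mul_zero] at h4
    omega

theorem inc_centre [Finite G] (hG : ∀ γ ∈ G, IsLin γ)
    (E₀ : Dv k (IntermediateField.fixedField G) 3) (E : Dv k (IntermediateField.fixedField H) 3)
    (ρ : ℕ) (hρ : 0 < ρ) (hE : ∀ f, f ≠ 0 → E.ord (inc h f) = ρ * E₀.ord f) :
    (quoGerm G N y g).Centre E₀ ↔
      (quoGerm H N (fun j => inc h (y j)) (inc h g)).Centre E := by
  have hρ' : (0 : ℤ) < ρ := by exact_mod_cast hρ
  constructor
  · intro hr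
    have hreg : (quoGerm H N (fun j => inc h (y j)) (inc h g)).Reg E :=
      QF2_reg h hG E₀ E ρ hE hr.1
    refine ⟨hreg, fun f hf hf0 => ?_⟩
    have h1 := M5.ge_span (X := quoGerm H N (fun j => inc h (y j)) (inc h g)) hreg
      (S := {f | ∃ p : MvPolynomial (Fin 3) k, constantCoeff p = 0 ∧
        toFF k (Fin 3) p = ((f : IntermediateField.fixedField H) : FF k (Fin 3))}) 1
      (fun f hf => by
        by_cases hf0 : f = 0
        · left
          rw [hf0]
          rfl
        · right
          obtain ⟨p, h0, hp⟩ := hf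
          have h2 := QF2_pos h N y g hG E₀ E ρ hρ hE hr f hf0 p h0 hp
          have h3 : (((1 : ℕ) : ℤ)) = 1 := rfl
          rw [h3]
          omega) f hf
    rcases h1 with h1 | h1
    · exact absurd (Subtype.ext h1) hf0
    · have h3 : (((1 : ℕ) : ℤ)) = 1 := rfl
      rw [h3] at h1
      omega
  · intro hr
    have key : ∀ f : quoR G, f ≠ 0 →
        (gmap (inc h) (quoGerm G N y g) (quoGerm H N (fun j => inc h (y j)) (inc h g))
          (inc_R h) f) ≠ 0 ∧
        E.ord (inc h (f : IntermediateField.fixedField G)) =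
          ρ * E₀.ord (f : IntermediateField.fixedField G) := by
      intro f hf
      have h1 : (f : IntermediateField.fixedField G) ≠ 0 := fun h0 => hf (Subtype.ext h0)
      refine ⟨fun h0 => ?_, hE _ h1⟩
      have h2 := congrArg Subtype.val h0
      have h3 : inc h (f : IntermediateField.fixedField G) = 0 := h2
      exact h1 ((map_eq_zero _).1 h3)
    refine ⟨fun f hf => ?_, fun f hfm hf => ?_⟩
    · obtain ⟨h1, h2⟩ := key f hf
      have h3 : 0 ≤ E.ord (inc h (f : IntermediateField.fixedField G)) := hr.1 _ h1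
      rw [h2] at h3
      exact nonneg_of_mul_nonneg_right h3 hρ'
    · obtain ⟨h1, h2⟩ := key f hf
      have h3 : 0 < E.ord (inc h (f : IntermediateField.fixedField G)) :=
        hr.2 _ (inc_m h N y g (Ideal.mem_map_of_mem _ hfm)) h1
      rw [h2] at h3
      exact (mul_pos_iff_of_pos_left hρ').1 h3

end

end M5
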