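import Pool.Agent.M5.S0

/-!
PROJECT M5, PIECE S1: the ideals `cut s a`.

PROOF. `map_pow`: `Ideal.map_pow`, `Ideal.map_le_iff_le_comap` (or induction). `pow_le_cut`: clear.
`cut_eq`: let `P ∈ cut s a`: `φ P = f + g`, `f ∈ a`, `g ∈ m ^ s`; `Q` with `f - φ Q ∈ m ^ t` (`app`); `Q ∈ cut t a`;
`φ (P - Q) = g + (f - φ Q) ∈ m ^ s`, so `P - Q ∈ m₀ ^ s` (`inj'`). The other inclusion: `m ^ t ≤ m ^ s`.
`cut_ne`: `m₀ ^ s ≠ ⊥` (`R₀` is a domain, `hm0`). `cut_congr`: clear.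
-/

set_option autoImplicit false

open MLD MvPolynomial

namespace M5

universe u

variable {k K₀ K : Type u} [Field k] [Field K₀] [Algebra k K₀] [Field K] [Algebra k K] {n : ℕ}
variable {j : K₀ →ₐ[k] K} {X₀ : Germ k K₀ n} {X : Germ k K n}

theorem EtOver.map_pow (h : EtOver j X₀ X) (s : ℕ) {a : X₀.R} (ha : a ∈ X₀.m ^ s) :
    h.φ a ∈ X.m ^ s := by
  have h1 : Ideal.map h.φ X₀.m ≤ X.m := by
    rw [Ideal.map_le_iff_le_comap]
    intro x hx
    exact h.mapm' hx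
  have h2 : h.φ a ∈ Ideal.map h.φ (X₀.m ^ s) := Ideal.mem_map_of_mem _ ha
  rw [Ideal.map_pow] at h2
  exact Ideal.pow_right_mono h1 s h2

theorem EtOver.pow_le_cut (h : EtOver j X₀ X) (s : ℕ) (a : Ideal X.R) :
    X₀.m ^ s ≤ h.cut s a := by
  intro x hx
  exact Ideal.mem_comap.2 (Ideal.mem_sup_right (h.map_pow s hx))

theorem EtOver.cut_eq (h : EtOver j X₀ X) {s t : ℕ} (hst : s ≤ t) (a : Ideal X.R) :
    h.cut s a = h.cut t a ⊔ X₀.m ^ s := by
  apply le_antisymm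
  · intro P hP
    obtain ⟨f, hf, g, hg, hfg⟩ := Submodule.mem_sup.1 (Ideal.mem_comap.1 hP)
    obtain ⟨Q, hQ⟩ := h.app t f
    have h1 : Q ∈ h.cut t a := by
      refine Ideal.mem_comap.2 ?_
      have h2 : h.φ Q = f + -(f - h.φ Q) := by ring
      rw [h2]
      exact Ideal.add_mem _ (Ideal.mem_sup_left hf)
        (Ideal.mem_sup_right (neg_mem hQ))
    have h3 : P - Q ∈ X₀.m ^ s := by
      apply h.inj' s
      have h4 : h.φ (P - Q) = g + (f - h.φ Q) := by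
        rw [map_sub, ← hfg]
        ring
      rw [h4]
      exact Ideal.add_mem _ hg (Ideal.pow_le_pow_right hst hQ)
    have h5 : P = Q + (P - Q) := by ring
    rw [h5]
    exact Ideal.add_mem _ (Ideal.mem_sup_left h1) (Ideal.mem_sup_right h3)
  · refine sup_le ?_ (h.pow_le_cut s a)
    exact Ideal.comap_mono (sup_le_sup le_rfl (Ideal.pow_le_pow_right hst))

theorem EtOver.cut_ne (h : EtOver j X₀ X) (s : ℕ) (a : Ideal X.R) : h.cut s a ≠ ⊥ := by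
  intro h0
  have h1 : X₀.m ^ s ≤ ⊥ := h0 ▸ h.pow_le_cut s a
  have h2 : X₀.m ^ s ≠ 0 := pow_ne_zero s h.hm0
  exact h2 (le_bot_iff.1 h1)

theorem EtOver.cut_congr (h : EtOver j X₀ X) (s : ℕ) (a b : Ideal X.R)
    (hab : a ⊔ X.m ^ s = b ⊔ X.m ^ s) : h.cut s a = h.cut s b := by
  unfold EtOver.cut
  rw [hab]

end M5
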