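import Pool.Agent.M5.S1
import Pool.Agent.M5.D4

/-!
PROJECT M5, PIECE S2: restriction of divisors with centre `x`.

PROOF. `E₀, ρ` from `exists_restrict`. Let `f : R`, `f ≠ 0`, `s > E.ord f`, `a : R₀` with `f - φ a ∈ m ^ s` (`app`):
`E.ge s (f - φ a)` (`Germ.Centre.ge_pow`), so `a ≠ 0` and `E.ord f = E.ord (j a) = ρ * E₀.ord a`
(`OrdFn.ord_add_eq`). So all orders are divisible by `ρ` (`frac`), and one is `1`: `ρ = 1`. Centre: `map`,
`mapm`.
-/

set_option autoImplicit false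

open MLD MvPolynomial

namespace M5

universe u

variable {k K₀ K : Type u} [Field k] [Field K₀] [Algebra k K₀] [Field K] [Algebra k K] {n : ℕ}
variable {j : K₀ →ₐ[k] K} {X₀ : Germ k K₀ n} {X : Germ k K n}

/-- a good approximation has the same order -/
theorem EtOver.ord_eq (h : EtOver j X₀ X) {E : Dv k K n} (hE : X.Centre E) {f : X.R}
    (hf : f ≠ 0) {s : ℕ} (hs : E.ord (f : K) < s) {a : X₀.R} (ha : f - h.φ a ∈ X.m ^ s) :
    a ≠ 0 ∧ E.ord (j (a : K₀)) = E.ord (f : K) := by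
  have hfK : (f : K) ≠ 0 := G1_ne hf
  have h1 : E.ge (E.ord (f : K) + 1) (-((f - h.φ a : X.R) : K)) :=
    E.ge_neg (E.ge_mono (by omega) (hE.ge_pow s ha))
  obtain ⟨h2, h3⟩ := E.ord_add_eq hfK h1
  have h4 : (f : K) + -((f - h.φ a : X.R) : K) = j (a : K₀) := by
    have h5 : ((f - h.φ a : X.R) : K) = (f : K) - j (a : K₀) := rfl
    rw [h5]
    ring
  rw [h4] at h2 h3
  refine ⟨?_, h3⟩
  rintro rfl
  apply h2
  rw [show ((0 : X₀.R) : K₀) = 0 from rfl, map_zero]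

theorem EtOver.exists_down (h : EtOver j X₀ X) {E : Dv k K n} (hE : X.Centre E) :
    ∃ E₀ : Dv k K₀ n, X₀.Centre E₀ ∧ ∀ a, a ≠ 0 → E.ord (j a) = E₀.ord a := by
  obtain ⟨E₀, ρ, hρ, hord⟩ := exists_restrict j h.alg E
  have hdvd : ∀ f : X.R, f ≠ 0 → (ρ : ℤ) ∣ E.ord (f : K) := by
    intro f hf
    obtain ⟨a, ha⟩ := h.app ((E.ord (f : K)).toNat + 1) f
    have hs : E.ord (f : K) < (((E.ord (f : K)).toNat + 1 : ℕ) : ℤ) := by
      have := Int.self_le_toNat (E.ord (f : K))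
      push_cast
      omega
    obtain ⟨h1, h2⟩ := h.ord_eq hE hf hs ha
    rw [← h2, hord _ (G1_ne h1)]
    exact dvd_mul_right _ _
  obtain ⟨x, hx0, hx1⟩ := E.ord_surj'
  obtain ⟨a, b, hb, hab⟩ := h.frac x
  have hbK : (b : K) ≠ 0 := G1_ne hb
  have ha : a ≠ 0 := by
    rintro rfl
    apply hx0
    rw [hab, show ((0 : X.R) : K) = 0 from rfl, zero_div]
  have hρ1 : (ρ : ℤ) ∣ 1 := by
    rw [← hx1, hab, E.ord_div (G1_ne ha) hbK]
    exact dvd_sub (hdvd a ha) (hdvd b hb)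
  have hρ2 : ρ = 1 := by
    have : ρ ∣ 1 := by exact_mod_cast hρ1
    exact Nat.dvd_one.1 this
  have hfin : ∀ a, a ≠ 0 → E.ord (j a) = E₀.ord a := by
    intro a ha
    rw [hord a ha, hρ2]
    simp
  refine ⟨E₀, ⟨fun f hf => ?_, fun f hfm hf => ?_⟩, hfin⟩
  · rw [← hfin _ (G1_ne hf)]
    refine hE.1 ⟨j (f : K₀), h.map f⟩ ?_
    intro h0
    exact (map_ne_zero j).2 (G1_ne hf) (congrArg Subtype.val h0)
  · rw [← hfin _ (G1_ne hf)]
    refine hE.2 ⟨j (f : K₀), h.map f⟩ (h.mapm f hfm) ?_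
    intro h0
    exact (map_ne_zero j).2 (G1_ne hf) (congrArg Subtype.val h0)

end M5
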