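import Pool.Agent.M5.S1
import Pool.Agent.MLD.ExtVal

/-!
PROJECT M5, PIECE S3: extension of divisors with centre `x₀`.

PROOF. `up_bdd`: clear denominators in an algebraic equation (`alg`, `frac₀`): `∑ φ(b_i) f ^ i = 0` with
`b_i : R₀`, `b_0 ≠ 0` (divide by a power of `f`). Let `c > E₀.ord b_0`. Let `s > c` and `f - φ a ∈ m ^ s`; then
`φ (∑ b_i a ^ i) ∈ m ^ s`, so `∑ b_i a ^ i ∈ m₀ ^ s` has `E₀.ge s`; if `E₀.ge c a` then the terms with
`i ≥ 1` have `E₀.ge c`, so `b_0` too: contradiction. `up_eq`: `f - φ a ∈ m ^ s`, `f - φ a' ∈ m ^ s'`,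
`s, s' > c`: `a - a' ∈ m₀ ^ min s s'` has order `> c` and `a`, `a'` have order `≤ c`.
`exists_u`: by choice. `exists_up`: `u (f g) = u f + u g` (approximations `a`, `b` of `f`, `g` modulo `m ^ s`,
`s` large: `f g - φ (a b) ∈ m ^ s`), `u (f + g) ≥ min`, `u c = 0` for constants (`a = c`), `extend_ord`
(MLD/ExtVal.lean; `K` is a fraction field of `R` by `frac`: `IsFractionRing.of_field` or the definition).
`E.ord (j a) = E₀.ord a` for `a : R₀` (approximation `a` of `φ a`), then for `K₀` by `frac₀`. `ord_surj'`,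
`residue'`: from `E₀` (`aeval (j ∘ g) P = j (aeval g P)`). Centre: `f ∈ m`: `φ a ∈ m`, `a ∈ m₀` (`inj'` for `s = 1`),
so `u f = E₀.ord a > 0`.
-/

set_option autoImplicit false

open MLD MvPolynomial

namespace M5

universe u

variable {k K₀ K : Type u} [Field k] [Field K₀] [Algebra k K₀] [Field K] [Algebra k K] {n : ℕ}
variable {j : K₀ →ₐ[k] K} {X₀ : Germ k K₀ n} {X : Germ k K n}

private theorem S3_div {A B : Type*} [CommRing A] [IsDomain A] [CommRing B] [IsDomain B]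
    (φ : A →+* B) {f : B} (hf : f ≠ 0) :
    ∀ (d : ℕ) (Q : Polynomial A), Q.natDegree ≤ d → Q ≠ 0 → Q.eval₂ φ f = 0 →
      ∃ Q' : Polynomial A, Q'.coeff 0 ≠ 0 ∧ Q'.eval₂ φ f = 0 := by
  intro d
  induction d with
  | zero =>
    intro Q hd h0 he
    refine ⟨Q, fun hc => h0 ?_, he⟩
    rw [Polynomial.eq_C_of_natDegree_le_zero hd, hc, Polynomial.C_0]
  | succ d ih =>
    intro Q hd h0 he
    by_cases hc : Q.coeff 0 = 0
    · have h1 : Q.divX * Polynomial.X = Q := by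
        have := Polynomial.divX_mul_X_add Q
        rwa [hc, Polynomial.C_0, add_zero] at this
      refine ih Q.divX ?_ ?_ ?_
      · rw [Polynomial.natDegree_divX_eq_natDegree_tsub_one]
        omega
      · intro h2
        rw [h2, zero_mul] at h1
        exact h0 h1.symm
      · rw [← h1, Polynomial.eval₂_mul, Polynomial.eval₂_X] at he
        exact (mul_eq_zero.1 he).resolve_right hf
    · exact ⟨Q, hc, he⟩

private theorem S3_poly (h : EtOver j X₀ X) {f : X.R} (hf : f ≠ 0) :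
    ∃ Q : Polynomial X₀.R, Q.coeff 0 ≠ 0 ∧ Q.eval₂ h.φ f = 0 := by
  obtain ⟨P, hP, hPe⟩ := h.alg (f : K)
  haveI : IsFractionRing X₀.R K₀ := by
    refine IsFractionRing.of_field X₀.R K₀ fun z => ?_
    obtain ⟨a, b, _, hab⟩ := h.frac₀ z
    exact ⟨a, b, hab⟩
  obtain ⟨b, hb⟩ := IsLocalization.integerNormalization_map_to_map (nonZeroDivisors X₀.R) P
  set Q := IsLocalization.integerNormalization (nonZeroDivisors X₀.R) P with hQ
  have hb0 : (b : X₀.R) ≠ 0 := nonZeroDivisors.ne_zero b.2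
  refine S3_div h.φ hf Q.natDegree Q le_rfl ?_ ?_
  · intro h0
    rw [h0, Polynomial.map_zero] at hb
    have h1 : (algebraMap X₀.R K₀ (b : X₀.R)) • P = 0 := by
      rw [algebraMap_smul]
      exact hb.symm
    rcases smul_eq_zero.1 h1 with h2 | h2
    · exact hb0 ((IsFractionRing.injective X₀.R K₀) (by rw [h2, map_zero]))
    · exact hP h2
  · apply Subtype.ext
    have h1 : ((Q.eval₂ h.φ f : X.R) : K) =
        Q.eval₂ ((algebraMap X.R K).comp h.φ) (algebraMap X.R K f) :=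
      Polynomial.hom_eval₂ Q h.φ (algebraMap X.R K) f
    rw [h1]
    have h2 : (algebraMap X.R K).comp h.φ = (j : K₀ →+* K).comp (algebraMap X₀.R K₀) := rfl
    rw [h2, ← Polynomial.eval₂_map, hb, ← algebraMap_smul K₀ (b : X₀.R) P,
      Polynomial.eval₂_smul]
    have h3 : P.eval₂ (j : K₀ →+* K) (algebraMap X.R K f) = 0 := hPe
    rw [h3, mul_zero]
    rfl

theorem EtOver.up_bdd (h : EtOver j X₀ X) {E₀ : Dv k K₀ n} (hE : X₀.Centre E₀) {f : X.R}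
    (hf : f ≠ 0) : ∃ c : ℕ, ∀ s : ℕ, c < s → ∀ a : X₀.R, f - h.φ a ∈ X.m ^ s →
      a ≠ 0 ∧ E₀.ord (a : K₀) ≤ c := by
  obtain ⟨Q, hQ0, hQe⟩ := S3_poly h hf
  have hb0 : 0 ≤ E₀.ord ((Q.coeff 0 : X₀.R) : K₀) := hE.1 _ hQ0
  refine ⟨(E₀.ord ((Q.coeff 0 : X₀.R) : K₀)).toNat, fun s hs a ha => ?_⟩
  set c := (E₀.ord ((Q.coeff 0 : X₀.R) : K₀)).toNat with hc
  have hcz : (c : ℤ) = E₀.ord ((Q.coeff 0 : X₀.R) : K₀) := Int.toNat_of_nonneg hb0
  by_contra hcon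
  have hge : E₀.ge ((c : ℤ) + 1) (a : K₀) := by
    by_cases ha0 : a = 0
    · left
      rw [ha0]
      rfl
    · right
      by_contra hlt
      exact hcon ⟨ha0, by omega⟩
  -- φ (Q a) ∈ m ^ s
  have h1 : h.φ (Q.eval a) ∈ X.m ^ s := by
    have h2 : h.φ (Q.eval a) = (Q.map h.φ).eval (h.φ a) := by
      rw [Polynomial.eval_map, Polynomial.eval₂_hom]
    have h3 : (Q.map h.φ).eval f = 0 := by rw [Polynomial.eval_map, hQe]
    have h4 : f - h.φ a ∣ (Q.map h.φ).eval f - (Q.map h.φ).eval (h.φ a) :=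
      Polynomial.sub_dvd_eval_sub _ _ _
    rw [h3, zero_sub, dvd_neg] at h4
    rw [h2]
    exact Ideal.mem_of_dvd _ h4 ha
  have h2 : Q.eval a ∈ X₀.m ^ s := h.inj' s _ h1
  have h3 : E₀.ge ((c : ℤ) + 1) ((Q.eval a : X₀.R) : K₀) :=
    E₀.ge_mono (by exact_mod_cast hs) (hE.ge_pow s h2)
  have h4 : Q.eval a = Q.divX.eval a * a + Q.coeff 0 := by
    conv_lhs => rw [← Polynomial.divX_mul_X_add Q]
    rw [Polynomial.eval_add, Polynomial.eval_mul, Polynomial.eval_X, Polynomial.eval_C]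
  have h5 : ((Q.coeff 0 : X₀.R) : K₀) =
      ((Q.eval a : X₀.R) : K₀) - ((Q.divX.eval a : X₀.R) : K₀) * (a : K₀) := by
    rw [h4]
    push_cast
    ring
  have h6 : E₀.ge ((c : ℤ) + 1) ((Q.coeff 0 : X₀.R) : K₀) := by
    rw [h5]
    refine E₀.ge_sub h3 ?_
    have := E₀.ge_mul (hE.reg.ge (Q.divX.eval a)) hge
    rwa [zero_add] at this
  rcases h6 with h7 | h7
  · exact G1_ne hQ0 h7
  · omega

theorem EtOver.exists_u (h : EtOver j X₀ X) {E₀ : Dv k K₀ n} (hE : X₀.Centre E₀) :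
    ∃ u : X.R → ℕ, ∀ f : X.R, f ≠ 0 → ∃ c : ℕ, ∀ s : ℕ, c < s → ∀ a : X₀.R,
      f - h.φ a ∈ X.m ^ s → a ≠ 0 ∧ E₀.ord (a : K₀) = u f := by
  have key : ∀ f : X.R, ∃ v : ℕ, f ≠ 0 → ∃ c : ℕ, ∀ s : ℕ, c < s → ∀ a : X₀.R,
      f - h.φ a ∈ X.m ^ s → a ≠ 0 ∧ E₀.ord (a : K₀) = v := by
    intro f
    by_cases hf : f = 0
    · exact ⟨0, fun h0 => absurd hf h0⟩
    obtain ⟨c, hc⟩ := h.up_bdd hE hf
    obtain ⟨a₁, ha₁⟩ := h.app (c + 1) f
    obtain ⟨ha₁0, ha₁c⟩ := hc (c + 1) (Nat.lt_succ_self c) a₁ ha₁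
    refine ⟨(E₀.ord (a₁ : K₀)).toNat, fun _ => ⟨c, fun s hs a ha => ?_⟩⟩
    have hz : ((E₀.ord (a₁ : K₀)).toNat : ℤ) = E₀.ord (a₁ : K₀) :=
      Int.toNat_of_nonneg (hE.1 _ ha₁0)
    refine ⟨(hc s hs a ha).1, ?_⟩
    rw [hz]
    have h1 : h.φ (a - a₁) ∈ X.m ^ (c + 1) := by
      have h2 : h.φ (a - a₁) = (f - h.φ a₁) - (f - h.φ a) := by
        rw [map_sub]
        ring
      rw [h2]
      exact Ideal.sub_mem _ ha₁ (Ideal.pow_le_pow_right hs ha)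
    have h3 : E₀.ge ((c : ℤ) + 1) ((a - a₁ : X₀.R) : K₀) := by
      have := hE.ge_pow (c + 1) (h.inj' (c + 1) _ h1)
      exact_mod_cast this
    have h4 := (E₀.ord_add_eq (G1_ne ha₁0) (g := ((a - a₁ : X₀.R) : K₀))
      (E₀.ge_mono (by omega) h3)).2
    rw [← h4]
    congr 1
    push_cast
    ring
  choose u hu using key
  exact ⟨u, fun f hf => hu f hf⟩

theorem EtOver.exists_up (h : EtOver j X₀ X) {E₀ : Dv k K₀ n} (hE : X₀.Centre E₀) :
    ∃ E : Dv k K n, X.Centre E ∧ ∀ a, a ≠ 0 → E.ord (j a) = E₀.ord a := by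
  classical
  obtain ⟨u, hu⟩ := h.exists_u hE
  haveI : IsFractionRing X.R K := by
    refine IsFractionRing.of_field X.R K fun z => ?_
    obtain ⟨a, b, -, hz⟩ := h.frac z
    exact ⟨a, b, hz⟩
  have hmul : ∀ f g : X.R, f ≠ 0 → g ≠ 0 → u (f * g) = u f + u g := by
    intro f g hf hg
    obtain ⟨c₁, h₁⟩ := hu f hf
    obtain ⟨c₂, h₂⟩ := hu g hg
    obtain ⟨c₃, h₃⟩ := hu (f * g) (mul_ne_zero hf hg)
    obtain ⟨a, ha⟩ := h.app (c₁ + c₂ + c₃ + 1) f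
    obtain ⟨b, hb⟩ := h.app (c₁ + c₂ + c₃ + 1) g
    obtain ⟨ha0, ha1⟩ := h₁ _ (by omega) a ha
    obtain ⟨hb0, hb1⟩ := h₂ _ (by omega) b hb
    have hab : f * g - h.φ (a * b) ∈ X.m ^ (c₁ + c₂ + c₃ + 1) := by
      have : f * g - h.φ (a * b) = g * (f - h.φ a) + h.φ a * (g - h.φ b) := by
        rw [map_mul]
        ring
      rw [this]
      exact Ideal.add_mem _ (Ideal.mul_mem_left _ _ ha) (Ideal.mul_mem_left _ _ hb)
    obtain ⟨-, h4⟩ := h₃ _ (by omega) (a * b) hab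
    have h5 : E₀.ord ((a * b : X₀.R) : K₀) = E₀.ord (a : K₀) + E₀.ord (b : K₀) :=
      E₀.ord_mul (G1_ne ha0) (G1_ne hb0)
    omega
  have hadd : ∀ f g : X.R, f ≠ 0 → g ≠ 0 → f + g ≠ 0 → min (u f) (u g) ≤ u (f + g) := by
    intro f g hf hg hfg
    obtain ⟨c₁, h₁⟩ := hu f hf
    obtain ⟨c₂, h₂⟩ := hu g hg
    obtain ⟨c₃, h₃⟩ := hu (f + g) hfg
    obtain ⟨a, ha⟩ := h.app (c₁ + c₂ + c₃ + 1) f
    obtain ⟨b, hb⟩ := h.app (c₁ + c₂ + c₃ + 1) g
    obtain ⟨ha0, ha1⟩ := h₁ _ (by omega) a ha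
    obtain ⟨hb0, hb1⟩ := h₂ _ (by omega) b hb
    have hab : f + g - h.φ (a + b) ∈ X.m ^ (c₁ + c₂ + c₃ + 1) := by
      have : f + g - h.φ (a + b) = (f - h.φ a) + (g - h.φ b) := by
        rw [map_add]
        ring
      rw [this]
      exact Ideal.add_mem _ ha hb
    obtain ⟨h6, h4⟩ := h₃ _ (by omega) (a + b) hab
    have h5 : min (E₀.ord (a : K₀)) (E₀.ord (b : K₀)) ≤ E₀.ord ((a + b : X₀.R) : K₀) :=
      E₀.ord_add' _ _ (G1_ne ha0) (G1_ne hb0) (G1_ne h6)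
    omega
  have hφ : ∀ a : X₀.R, a ≠ 0 → h.φ a ≠ 0 ∧ (u (h.φ a) : ℤ) = E₀.ord (a : K₀) := by
    intro a ha
    have h0 : h.φ a ≠ 0 := by
      intro h0
      have h1 : ((h.φ a : X.R) : K) = 0 := by
        rw [h0]
        rfl
      rw [h.φ_coe, map_eq_zero] at h1
      exact G1_ne ha h1
    refine ⟨h0, ?_⟩
    obtain ⟨c, hc⟩ := hu _ h0
    obtain ⟨-, h1⟩ := hc (c + 1) (by omega) a (by rw [sub_self]; exact Ideal.zero_mem _)
    exact h1.symm
  have hconst : ∀ c : k, c ≠ 0 → u (algebraMap k X.R c) = 0 := by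
    intro c hc
    have h1 : h.φ (algebraMap k X₀.R c) = algebraMap k X.R c := by
      apply Subtype.ext
      rw [h.φ_coe]
      exact j.commutes c
    have h2 : algebraMap k X₀.R c ≠ 0 := by
      rw [Ne, map_eq_zero]
      exact hc
    obtain ⟨-, h3⟩ := hφ _ h2
    rw [h1] at h3
    have h4 : E₀.ord ((algebraMap k X₀.R c : X₀.R) : K₀) = 0 := E₀.ord_const' c hc
    omega
  obtain ⟨v, hv⟩ := extend_ord (k := k) (R := X.R) (F := K) u hmul hadd hconst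
  have hv' : ∀ f : X.R, f ≠ 0 → v.ord (f : K) = u f := hv
  have hj : ∀ a, a ≠ 0 → v.ord (j a) = E₀.ord a := by
    intro x hx
    obtain ⟨a, b, hb, rfl⟩ := h.frac₀ x
    have ha : a ≠ 0 := by
      rintro rfl
      exact hx (by rw [show ((0 : X₀.R) : K₀) = 0 from rfl, zero_div])
    obtain ⟨ha1, ha2⟩ := hφ a ha
    obtain ⟨hb1, hb2⟩ := hφ b hb
    have ha3 := hv' _ ha1
    have hb3 := hv' _ hb1
    rw [h.φ_coe] at ha3 hb3
    rw [map_div₀, v.ord_div, E₀.ord_div (G1_ne ha) (G1_ne hb), ha3, hb3, ha2, hb2]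
    · rw [← h.φ_coe]
      exact G1_ne ha1
    · rw [← h.φ_coe]
      exact G1_ne hb1
  refine ⟨⟨v, ?_, ?_⟩, ⟨?_, ?_⟩, hj⟩
  · obtain ⟨f, hf, hf1⟩ := E₀.ord_surj'
    refine ⟨j f, ?_, ?_⟩
    · rw [Ne, map_eq_zero]
      exact hf
    · rw [hj f hf, hf1]
  · obtain ⟨g, hg⟩ := E₀.residue'
    refine ⟨fun i => j (g i), fun P hP => ?_⟩
    have h1 : aeval (fun i => j (g i)) P = j (aeval g P) := by
      rw [← AlgHom.comp_apply, comp_aeval]
    obtain ⟨h2, h3⟩ := hg P hP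
    rw [h1]
    refine ⟨?_, ?_⟩
    · rw [Ne, map_eq_zero]
      exact h2
    · rw [hj _ h2, h3]
  · intro f hf
    show 0 ≤ v.ord (f : K)
    rw [hv' f hf]
    exact Int.natCast_nonneg _
  · intro f hfm hf
    show 0 < v.ord (f : K)
    rw [hv' f hf]
    obtain ⟨c, hc⟩ := hu f hf
    obtain ⟨a, ha⟩ := h.app (c + 1) f
    obtain ⟨ha0, ha1⟩ := hc (c + 1) (by omega) a ha
    rw [← ha1]
    refine hE.2 a ?_ ha0
    have h1 : h.φ a ∈ X.m := by
      have h2 : f - h.φ a ∈ X.m := Ideal.pow_le_self (by omega) ha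
      have h3 := Ideal.sub_mem _ hfm h2
      rwa [sub_sub_cancel] at h3
    have h2 := h.inj' 1 a (by rw [pow_one]; exact h1)
    rwa [pow_one] at h2

end M5
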