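import Pool.Agent.M5.S2
import Pool.Agent.M5.D3

/-!
PROJECT M5, PIECE S4: orders of ideals and log discrepancies of corresponding divisors.

PROOF. `ordI_cut_le`: `f ∈ a` with `E.ord f = ordI E a` (`ordI_mem`), `t ≥ s`, `t > E.ord f`, `f - φ P ∈ m ^ t`:
`E₀.ord P = E.ord (j P) = E.ord f` (`ord_eq`), `P ∈ cut t a ≤ cut s a`, `ordI_le`. `ordI_cut_eq`: `≥`
(`le_ordI`, `cut_ne`): `P ∈ cut t a`: `φ P = f + g`, `f ∈ a`, `g ∈ m ^ t`, both of order `≥ ordI E a`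
(`ordI_ge`, `ge_pow`). `logDisc_et`: `ram` with `ρ = 1`.
-/

set_option autoImplicit false

open MLD MvPolynomial

namespace M5

universe u

variable {k K₀ K : Type u} [Field k] [Field K₀] [Algebra k K₀] [Field K] [Algebra k K] {n : ℕ}
variable {j : K₀ →ₐ[k] K} {X₀ : Germ k K₀ n} {X : Germ k K n}

theorem EtOver.ordI_cut_le (h : EtOver j X₀ X) {E : Dv k K n} {E₀ : Dv k K₀ n}
    (hE : X.Centre E) (hE₀ : X₀.Centre E₀) (hEE : ∀ a, a ≠ 0 → E.ord (j a) = E₀.ord a)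
    {a : Ideal X.R} (ha : a ≠ ⊥) (s : ℕ) : X₀.ordI E₀ (h.cut s a) ≤ X.ordI E a := by
  obtain ⟨f, hf, hf0, hf1⟩ := ordI_mem hE.reg ha
  obtain ⟨P, hP⟩ := h.app (max s (X.ordI E a + 1)) f
  have hlt : E.ord (f : K) < ((max s (X.ordI E a + 1) : ℕ) : ℤ) := by
    rw [hf1]
    have : X.ordI E a + 1 ≤ max s (X.ordI E a + 1) := le_max_right _ _
    omega
  obtain ⟨hP0, hP1⟩ := h.ord_eq hE hf0 hlt hP
  have hmem : P ∈ h.cut s a := by
    refine Ideal.mem_comap.2 ?_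
    have h2 : h.φ P = f + -(f - h.φ P) := by ring
    rw [h2]
    exact Ideal.add_mem _ (Ideal.mem_sup_left hf)
      (Ideal.mem_sup_right (neg_mem (Ideal.pow_le_pow_right (le_max_left _ _) hP)))
  have h3 := ordI_le hE₀.reg hmem hP0
  rw [← hEE _ (G1_ne hP0), hP1, hf1] at h3
  exact_mod_cast h3

theorem EtOver.ordI_cut_eq (h : EtOver j X₀ X) {E : Dv k K n} {E₀ : Dv k K₀ n}
    (hE : X.Centre E) (hE₀ : X₀.Centre E₀) (hEE : ∀ a, a ≠ 0 → E.ord (j a) = E₀.ord a)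
    {a : Ideal X.R} (ha : a ≠ ⊥) {t : ℕ} (ht : X.ordI E a < t) :
    X₀.ordI E₀ (h.cut t a) = X.ordI E a := by
  refine le_antisymm (h.ordI_cut_le hE hE₀ hEE ha t)
    (le_ordI hE₀.reg (h.cut_ne t a) _ fun P hP hP0 => ?_)
  obtain ⟨f, hf, g, hg, hfg⟩ := Submodule.mem_sup.1 (Ideal.mem_comap.1 hP)
  have h1 : E.ge (X.ordI E a) (j (P : K₀)) := by
    have h2 : j (P : K₀) = (f : K) + (g : K) := by
      rw [← h.φ_coe, ← hfg]
      rfl
    rw [h2]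
    exact E.ge_add (ordI_ge hE.reg hf) (E.ge_mono (by omega) (hE.ge_pow t hg))
  rw [← hEE _ (G1_ne hP0)]
  rcases h1 with h1 | h1
  · exact absurd h1 ((map_ne_zero j).2 (G1_ne hP0))
  · exact h1

theorem EtOver.logDisc_et [CharZero k] {d : ℕ} {X₀ : Germ k K₀ (d + 1)} {X : Germ k K (d + 1)}
    (h : EtOver j X₀ X) (hK : TrLe k K (d + 1)) {E : Dv k K (d + 1)} {E₀ : Dv k K₀ (d + 1)}
    (hEE : ∀ a, a ≠ 0 → E.ord (j a) = E₀.ord a) : X.logDisc E = X₀.logDisc E₀ := by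
  rcases ram hK j h.alg E₀ E 1 one_pos (fun a ha => by rw [hEE a ha]; simp) X₀ X h.hN h.hN0
    h.hy h.hg h.hg0 with ⟨h1, h2⟩ | ⟨A, h1, h2⟩
  · rw [h1, h2]
  · rw [h1, h2, Nat.cast_one, one_mul]

end M5
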