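import Pool.Agent.M5.S3
import Pool.Agent.M5.S4

/-!
PROJECT M5, PIECE S5: `Q1` for `X₀` implies `Q1` for `X`, if `X → X₀` is etale at the point.

PROOF. `mld_le_cut`: for `E₀` with centre `x₀` take `E` (`exists_up`); `aDisc E a ≤ aDisc E₀ (cut s a)`
(`logDisc_et`, `ordI_cut_le`, `lam ≥ 0`; `EReal.sub_le_sub`). `cut_le_mld`: for `E` with centre `x` take `E₀`
(`exists_down`) and `t ≥ s` larger than all `ordI E (a j)`: `aDisc E a = aDisc E₀ (cut t a)` (`ordI_cut_eq`)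
`≥ mld (cut t a) = mld (cut s a)`: `hs` for `cut s a` and `cut t a`, `cut_eq`.
`et_Q1`: `s` from `X₀.Q1`; `a ⊔ m ^ s = b ⊔ m ^ s` gives `cut s a = cut s b` (`cut_congr`); so `X.mld a ≤ μ` and
`X.mld b ≤ μ` for `μ = X₀.mld (cut s a)`, with equality if `μ ≥ 0`; if `μ < 0` both are negative.
-/

set_option autoImplicit false

open MLD MvPolynomial

namespace M5

universe u

variable {k K₀ K : Type u} [Field k] [CharZero k] [Field K₀] [Algebra k K₀] [Field K]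
  [Algebra k K] {d : ℕ}
variable {j : K₀ →ₐ[k] K} {X₀ : Germ k K₀ (d + 1)} {X : Germ k K (d + 1)}

theorem EtOver.mld_le_cut (h : EtOver j X₀ X) (hK : TrLe k K (d + 1)) {r : ℕ} (lam : Fin r → ℝ)
    (hlam : ∀ i, 0 ≤ lam i) (a : Fin r → Ideal X.R) (ha : ∀ i, a i ≠ ⊥) (s : ℕ) :
    X.mld lam a ≤ X₀.mld lam fun i => h.cut s (a i) := by
  refine le_mld _ _ _ fun E₀ hE₀ => ?_
  obtain ⟨E, hE, hEE⟩ := h.exists_up hE₀
  refine (mld_le hE lam a).trans ?_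
  unfold Germ.aDisc
  rw [h.logDisc_et hK hEE]
  refine EReal.sub_le_sub le_rfl (EReal.coe_le_coe_iff.2 (Finset.sum_le_sum fun i _ => ?_))
  refine mul_le_mul_of_nonneg_left ?_ (hlam i)
  exact_mod_cast h.ordI_cut_le hE hE₀ hEE (ha i) s

theorem EtOver.cut_le_mld (h : EtOver j X₀ X) (hK : TrLe k K (d + 1)) {r : ℕ} (lam : Fin r → ℝ)
    (s : ℕ) (hs : ∀ a b : Fin r → Ideal X₀.R, (∀ i, a i ≠ ⊥) → (∀ i, b i ≠ ⊥) →
      (∀ i, a i ⊔ X₀.m ^ s = b i ⊔ X₀.m ^ s) → (0 ≤ X₀.mld lam a ↔ 0 ≤ X₀.mld lam b) ∧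
        (0 ≤ X₀.mld lam a → 0 ≤ X₀.mld lam b → X₀.mld lam a = X₀.mld lam b))
    (a : Fin r → Ideal X.R) (ha : ∀ i, a i ≠ ⊥)
    (h0 : 0 ≤ X₀.mld lam fun i => h.cut s (a i)) :
    (X₀.mld lam fun i => h.cut s (a i)) ≤ X.mld lam a := by
  refine le_mld _ _ _ fun E hE => ?_
  obtain ⟨E₀, hE₀, hEE⟩ := h.exists_down hE
  obtain ⟨t, hst, ht⟩ : ∃ t : ℕ, s ≤ t ∧ ∀ i, X.ordI E (a i) < t := by
    refine ⟨s + 1 + ∑ i, X.ordI E (a i), by omega, fun i => ?_⟩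
    have h1 : X.ordI E (a i) ≤ ∑ i, X.ordI E (a i) :=
      Finset.single_le_sum (f := fun i => X.ordI E (a i)) (fun _ _ => Nat.zero_le _)
        (Finset.mem_univ i)
    omega
  have h1 : X.aDisc E lam a = X₀.aDisc E₀ lam fun i => h.cut t (a i) := by
    unfold Germ.aDisc
    rw [h.logDisc_et hK hEE]
    congr 2
    refine Finset.sum_congr rfl fun i _ => ?_
    rw [h.ordI_cut_eq hE hE₀ hEE (ha i) (ht i)]
  have h2 := hs (fun i => h.cut s (a i)) (fun i => h.cut t (a i)) (fun i => h.cut_ne s (a i))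
    (fun i => h.cut_ne t (a i)) (fun i => by
      rw [h.cut_eq hst (a i), sup_assoc, sup_idem])
  rw [h1, h2.2 h0 (h2.1.1 h0)]
  exact mld_le hE₀ lam _

theorem et_Q1 (h : EtOver j X₀ X) (hK : TrLe k K (d + 1)) (hQ : X₀.Q1) : X.Q1 := by
  intro I hI hI0
  obtain ⟨s, hs1, hs⟩ := hQ I hI hI0
  refine ⟨s, hs1, fun r lam a b hlam ha hb hab => ?_⟩
  have hlam0 : ∀ i, 0 ≤ lam i := fun i => hI0 _ (hlam i)
  have hcut : (fun i => h.cut s (b i)) = fun i => h.cut s (a i) :=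
    funext fun i => (h.cut_congr s (a i) (b i) (hab i)).symm
  have h1 := h.mld_le_cut hK lam hlam0 a ha s
  have h2 := h.mld_le_cut hK lam hlam0 b hb s
  rw [hcut] at h2
  have hs' := fun a b ha hb hab => hs r lam a b hlam ha hb hab
  rcases le_or_gt 0 (X₀.mld lam fun i => h.cut s (a i)) with h0 | h0
  · have h3 := h.cut_le_mld hK lam s hs' a ha h0
    have h4 := h.cut_le_mld hK lam s hs' b hb (by rw [hcut]; exact h0)
    rw [hcut] at h4
    have h5 := le_antisymm h1 h3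
    have h6 := le_antisymm h2 h4
    rw [h5, h6]
    exact ⟨Iff.rfl, fun _ _ => rfl⟩
  · have h3 := not_le.2 (h1.trans_lt h0)
    have h4 := not_le.2 (h2.trans_lt h0)
    exact ⟨⟨fun h => absurd h h3, fun h => absurd h h4⟩, fun h => absurd h h3⟩

end M5
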