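import Pool.Agent.M5.TDefs

/-!
PIECE M5-TA1: Gordan's lemma: the semigroup `SG ρ` is finitely generated.

PROOF. `Φ : (Fin 3 → ℤ) →+ (Fin q → ℤ)`, `m ↦ (pr m (ρ i))_i`, injective by `hf`; `Λ := range Φ`. The submonoid of `t : Fin q → ℕ` with
`(t : Fin q → ℤ) ∈ Λ` is the equalizer of the homomorphism `(Fin q → ℕ) →+ (Fin q → ℤ) ⧸ Λ` and `0`, so finitely generated
(`AddSubmonoid.fg_eqLocusM` in `Mathlib.GroupTheory.Finiteness`; `Fin q → ℕ` is well quasi ordered (Dickson) and canonically ordered, the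
quotient group is cancellative). It is isomorphic to `SG ρ` by `Φ` (a member `m` of `SG ρ` corresponds to `t i = (pr m (ρ i)).toNat`). Take the
preimages of the generators, without the zero vector.
-/

open MvPolynomial

namespace M5

open MLD M3

theorem exists_gens {q : ℕ} (ρ : Fin q → Fin 3 → ℤ)
    (hf : ∀ m : Fin 3 → ℤ, (∀ i, pr m (ρ i) = 0) → m = 0) :
    ∃ (p : ℕ) (s : Fin p → Fin 3 → ℤ), (∀ l, s l ∈ SG ρ ∧ s l ≠ 0) ∧
      ∀ m ∈ SG ρ, m ∈ AddSubmonoid.closure (Set.range s) := by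
  classical
  have pr_add : ∀ m m' v : Fin 3 → ℤ, pr (m + m') v = pr m v + pr m' v := by
    intro m m' v
    unfold pr
    rw [← Finset.sum_add_distrib]
    exact Finset.sum_congr rfl fun j _ => by rw [Pi.add_apply, add_mul]
  have pr_sub : ∀ m m' v : Fin 3 → ℤ, pr (m - m') v = pr m v - pr m' v := by
    intro m m' v
    unfold pr
    rw [← Finset.sum_sub_distrib]
    exact Finset.sum_congr rfl fun j _ => by rw [Pi.sub_apply, sub_mul]
  have hinj : ∀ m m' : Fin 3 → ℤ, (∀ i, pr m (ρ i) = pr m' (ρ i)) → m = m' := by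
    intro m m' h
    refine sub_eq_zero.1 (hf (m - m') fun i => ?_)
    rw [pr_sub, h, sub_self]
  let S : AddSubmonoid (Fin q → ℕ) :=
    { carrier := {t | ∃ m : Fin 3 → ℤ, ∀ i, pr m (ρ i) = (t i : ℤ)}
      zero_mem' := ⟨0, fun i => by simp [pr]⟩
      add_mem' := by
        rintro a b ⟨m, hm⟩ ⟨m', hm'⟩
        exact ⟨m + m', fun i => by rw [pr_add, hm, hm', Pi.add_apply]; push_cast; rfl⟩ }
  have memS : ∀ t : Fin q → ℕ, t ∈ S ↔ ∃ m : Fin 3 → ℤ, ∀ i, pr m (ρ i) = (t i : ℤ) :=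
    fun t => Iff.rfl
  have hS : S.FG := by
    refine AddSubmonoid.fg_of_subtractive (fun x hx y hxy => ?_)
    rw [memS] at hx hxy ⊢
    obtain ⟨m, hm⟩ := hx
    obtain ⟨m', hm'⟩ := hxy
    refine ⟨m' - m, fun i => ?_⟩
    rw [pr_sub, hm, hm', Pi.add_apply]
    push_cast
    ring
  obtain ⟨T, hT⟩ := hS
  have hTm : ∀ t : T, ∃ m : Fin 3 → ℤ, ∀ i, pr m (ρ i) = (t.1 i : ℤ) := fun t => by
    have h1 : t.1 ∈ S := by
      rw [← hT]
      exact AddSubmonoid.subset_closure t.2
    exact h1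
  choose g hg using hTm
  obtain ⟨T', hT'⟩ : ∃ T' : Finset T, ∀ t, t ∈ T' ↔ g t ≠ 0 :=
    ⟨Finset.univ.filter fun t => g t ≠ 0, fun t => by simp⟩
  refine ⟨T'.card, fun l => g (T'.equivFin.symm l).1, fun l => ⟨?_, ?_⟩, ?_⟩
  · intro i
    rw [hg]
    exact Int.natCast_nonneg _
  · exact (hT' _).1 (T'.equivFin.symm l).2
  · have key : ∀ t ∈ AddSubmonoid.closure (T : Set (Fin q → ℕ)), ∀ m : Fin 3 → ℤ,
        (∀ i, pr m (ρ i) = (t i : ℤ)) → m ∈ AddSubmonoid.closure
          (Set.range fun l : Fin T'.card => g (T'.equivFin.symm l).1) := by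
      intro t ht
      induction ht using AddSubmonoid.closure_induction with
      | mem x hx =>
        intro m hm
        have h1 : m = g ⟨x, hx⟩ := hinj _ _ fun i => by rw [hm, hg]
        by_cases h0 : g ⟨x, hx⟩ = 0
        · rw [h1, h0]
          exact AddSubmonoid.zero_mem _
        · rw [h1]
          refine AddSubmonoid.subset_closure
            ⟨T'.equivFin ⟨⟨x, hx⟩, (hT' _).2 h0⟩, ?_⟩
          simp
      | zero =>
        intro m hm
        have h1 : m = 0 := hf m fun i => by rw [hm]; simp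
        rw [h1]
        exact AddSubmonoid.zero_mem _
      | add x y hx hy ihx ihy =>
        intro m hm
        have hx' : x ∈ S := by rw [← hT]; exact hx
        have hy' : y ∈ S := by rw [← hT]; exact hy
        rw [memS] at hx' hy'
        obtain ⟨m1, h1⟩ := hx'
        obtain ⟨m2, h2⟩ := hy'
        have h3 : m = m1 + m2 := hinj _ _ fun i => by
          rw [hm, pr_add, h1, h2, Pi.add_apply]
          push_cast
          rfl
        rw [h3]
        exact AddSubmonoid.add_mem _ (ihx m1 h1) (ihy m2 h2)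
    intro m hm
    have h1 : ∀ i, pr m (ρ i) = (((pr m (ρ i)).toNat : ℕ) : ℤ) := fun i =>
      (Int.toNat_of_nonneg (hm i)).symm
    refine key (fun i => (pr m (ρ i)).toNat) ?_ m h1
    rw [hT, memS]
    exact ⟨m, h1⟩

end M5
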