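import Pool.Agent.M5.TA1

/-!
PIECE M5-TA2: the star subdivision of the cone spanned by the `ρ i` at `v := ∑ i, ρ i`: every vector `w` of the interior of the
cone is a combination of `v` and two of the `ρ i`.

PROOF. Work over `ℝ`.  `u` with `pr u (ρ i) > 0`.  `Kc := convexHull` of the vectors `ρ i / pr u (ρ i)` (finitely many, compact), in the plane
`u = 1`.  `Cone := {t • x | t ≥ 0, x ∈ Kc} = {∑ β i ρ i | β i ≥ 0}`, closed (compact base not containing `0`), convex.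
(1) FARKAS. If `w : Fin 3 → ℝ`, `u w > 0`, is not in `Cone`, then `w / u(w) ∉ Kc`, so there is a linear form `f` and a number `s₀` with
`f (w / u w) < s₀ < f x` for `x ∈ Kc` (`geometric_hahn_banach_point_compact` or similar); `m := f - s₀ u` is `> 0` at all `ρ i` and `< 0` at `w`;
approximate by a rational one and multiply by a denominator: `m ∈ SG ρ`, `pr m (ρ i) > 0`, `pr m w < 0` (for real `w` as well).
(2) `w` as in the theorem: for small real `ε > 0` the vector `w - ε v` is in `Cone`: `u (w - ε v) > 0` and for `m ∈ SG ρ`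
`pr m (w - ε v) ≥ 0` if it holds for the finitely many generators `s l` (`exists_gens`), `pr (s l) w ≥ 1`; so (1) cannot give an `m`.
(3) Let `a₀ := sup {a | w - a v ∈ Cone}` (bounded: `u`), attained since `Cone` is closed, `a₀ > 0` by (2).  `w₁ := w - a₀ v ∈ Cone`,
`w₁ = ∑ β i ρ i` with a linearly independent set `S` of `ρ i` with `β i > 0` (Caratheodory, minimal number of `β i ≠ 0`).
If `v ∈ span S` then `w₁ - ε v ∈ Cone` for small `ε` (all `β i > 0`; if `S = ∅` then `v ∈ span S` would be `v = 0`, impossible as `u v > 0`), contradiction.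
So `v ∉ span S`, `#S ≤ 2`, and `S ∪ {v}` extends by some `ρ j` to a basis of `ℝ^3` with `v` and two of the `ρ` (`hf`: they span).  So
`w = a₀ v + b ρ i + c ρ j`, `a₀ > 0`, `b, c ≥ 0`, `dt v (ρ i) (ρ j) ≠ 0`; exchange `i`, `j` if it is negative.  By Cramer's rule
`dt v (ρ i) (ρ j) * a₀ = dt w (ρ i) (ρ j)` etc. are integers.
(Any other proof is fine.)
-/

open MvPolynomial

namespace M5

open MLD M3

/-- the sum of the `ρ i` -/
def vs {q : ℕ} (ρ : Fin q → Fin 3 → ℤ) : Fin 3 → ℤ := fun t => ∑ i, ρ i t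

theorem pr_vs {q : ℕ} (ρ : Fin q → Fin 3 → ℤ) (m : Fin 3 → ℤ) :
    pr m (vs ρ) = ∑ i, pr m (ρ i) := by
  unfold pr vs
  simp only [Finset.mul_sum]
  exact Finset.sum_comm

theorem pr_vs_pos {q : ℕ} {ρ : Fin q → Fin 3 → ℤ}
    (hf : ∀ m : Fin 3 → ℤ, (∀ i, pr m (ρ i) = 0) → m = 0) {m : Fin 3 → ℤ} (hm : m ∈ SG ρ)
    (h0 : m ≠ 0) : 0 < pr m (vs ρ) := by
  have hm' : ∀ i ∈ Finset.univ, 0 ≤ pr m (ρ i) := fun i _ => hm i
  rw [pr_vs]
  refine lt_of_le_of_ne (Finset.sum_nonneg hm') fun h => h0 (hf m fun i => ?_)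
  exact (Finset.sum_eq_zero_iff_of_nonneg hm').1 h.symm i (Finset.mem_univ i)

private theorem ta2_pr (m x : Fin 3 → ℤ) : pr m x = m 0 * x 0 + m 1 * x 1 + m 2 * x 2 := by
  unfold pr
  rw [Fin.sum_univ_three]

private theorem ta2_dt (u v w : Fin 3 → ℤ) : dt u v w =
    u 0 * v 1 * w 2 - u 0 * v 2 * w 1 - u 1 * v 0 * w 2 + u 1 * v 2 * w 0 + u 2 * v 0 * w 1 -
      u 2 * v 1 * w 0 := by
  unfold dt
  rw [Matrix.det_fin_three]
  simp

/-- cross product -/
private def ta2_crs (x y : Fin 3 → ℤ) : Fin 3 → ℤ :=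
  ![x 1 * y 2 - x 2 * y 1, x 2 * y 0 - x 0 * y 2, x 0 * y 1 - x 1 * y 0]

private theorem ta2_pr_crs (x y z : Fin 3 → ℤ) : pr (ta2_crs x y) z = dt z x y := by
  rw [ta2_pr, ta2_dt]
  simp only [ta2_crs, Matrix.cons_val_zero, Matrix.cons_val_one, Matrix.cons_val]
  ring

private theorem ta2_cramer (v x y w : Fin 3 → ℤ) (t : Fin 3) :
    dt v x y * w t = dt w x y * v t + dt v w y * x t + dt v x w * y t := by
  simp only [ta2_dt]
  fin_cases t <;> simp <;> ring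

/-- a vector outside finitely many planes -/
private theorem ta2_gen {q : ℕ} (n : Fin q → Fin 3 → ℤ) :
    ∃ z : Fin 3 → ℤ, ∀ k, pr (n k) z = 0 → n k = 0 := by
  classical
  obtain ⟨p, hp⟩ : ∃ p : Fin q → Polynomial ℤ, p = fun k => Polynomial.C (n k 0) +
      Polynomial.C (n k 1) * Polynomial.X + Polynomial.C (n k 2) * Polynomial.X ^ 2 := ⟨_, rfl⟩
  have hp0 : ∀ k, p k = 0 → n k = 0 := by
    intro k hk
    have h0 := congrArg (fun r => Polynomial.coeff r 0) hk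
    have h1 := congrArg (fun r => Polynomial.coeff r 1) hk
    have h2 := congrArg (fun r => Polynomial.coeff r 2) hk
    rw [hp] at h0 h1 h2
    simp [-eq_intCast, Polynomial.coeff_X, Polynomial.coeff_C, Polynomial.coeff_X_pow] at h0 h1 h2
    funext t
    fin_cases t
    · exact h0
    · exact h1
    · exact h2
  have hP : (∏ k, (if n k = 0 then (1 : Polynomial ℤ) else p k)) ≠ 0 := by
    rw [Finset.prod_ne_zero_iff]
    intro k _
    split_ifs with h
    · exact one_ne_zero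
    · exact fun h1 => h (hp0 k h1)
  obtain ⟨T, hT⟩ : ∃ T : ℤ, (∏ k, (if n k = 0 then (1 : Polynomial ℤ) else p k)).eval T ≠ 0 := by
    by_contra hcon
    push Not at hcon
    exact hP (Polynomial.funext fun r => by rw [hcon r, Polynomial.eval_zero])
  refine ⟨![1, T, T ^ 2], fun k hk => ?_⟩
  by_contra h
  rw [Polynomial.eval_prod, Finset.prod_ne_zero_iff] at hT
  have h1 := hT k (Finset.mem_univ k)
  rw [if_neg h] at h1
  apply h1
  rw [hp, ← hk, ta2_pr]
  simp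

/-- the facets of the cone seen from `v` in a generic direction `w` -/
private theorem ta2_facet {q : ℕ} (ρ : Fin q → Fin 3 → ℤ) (u : Fin 3 → ℤ)
    (hu : ∀ i, 0 < pr u (ρ i)) (huv : 0 < pr u (vs ρ))
    (hf : ∀ m : Fin 3 → ℤ, (∀ i, pr m (ρ i) = 0) → m = 0) (w : Fin 3 → ℤ)
    (hg : ∀ k, dt (vs ρ) w (ρ k) = 0 → ta2_crs (ρ k) (vs ρ) = 0) :
    ∃ i j, 0 < dt (vs ρ) (ρ i) (ρ j) ∧ 0 < dt (vs ρ) w (ρ j) ∧ 0 < dt (vs ρ) (ρ i) w ∧
      ∀ k, 0 ≤ dt (ρ k) (ρ i) (ρ j) := by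
  classical
  obtain ⟨v, hv⟩ : ∃ v, v = vs ρ := ⟨_, rfl⟩
  rw [← hv] at huv hg ⊢
  have hanti : ∀ x y : Fin 3 → ℤ, dt v x y = -dt v y x := by
    intro x y
    simp only [ta2_dt]
    ring
  have hsum : ∀ x : Fin 3 → ℤ, ∑ k, dt v x (ρ k) = 0 := by
    intro x
    have h1 := pr_vs ρ (ta2_crs v x)
    rw [← hv, ta2_pr_crs] at h1
    have h2 : dt v v x = 0 := by
      simp only [ta2_dt]
      ring
    rw [h2] at h1
    rw [h1]
    refine Finset.sum_congr rfl fun k _ => ?_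
    rw [ta2_pr_crs]
    simp only [ta2_dt]
    ring
  have hg' : ∀ k, dt v w (ρ k) = 0 → ∀ y, dt v y (ρ k) = 0 := by
    intro k hk y
    have h1 := hg k hk
    have h2 : pr (ta2_crs (ρ k) v) y = 0 := by
      rw [h1, ta2_pr]
      simp
    rw [ta2_pr_crs] at h2
    rw [← h2]
    simp only [ta2_dt]
    ring
  have hzero : ∀ x : Fin 3 → ℤ, (∀ k, dt v x (ρ k) = 0) → ∀ y, dt v x y = 0 := by
    intro x hx y
    have h1 : ta2_crs v x = 0 := by
      apply hf
      intro i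
      rw [ta2_pr_crs, ← hx i]
      simp only [ta2_dt]
      ring
    have h2 : pr (ta2_crs v x) y = 0 := by
      rw [h1, ta2_pr]
      simp
    rw [ta2_pr_crs] at h2
    rw [← h2]
    simp only [ta2_dt]
    ring
  -- some `ρ k` is not on the line through `v` and `w`
  have hex : ∃ k ∈ Finset.univ, dt v w (ρ k) ≠ 0 := by
    by_contra hcon
    push Not at hcon
    have h1 : ∀ x y, dt v x y = 0 := fun x y =>
      hzero x (fun k => hg' k (hcon k (Finset.mem_univ k)) x) y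
    have e0 := h1 ![1, 0, 0] ![0, 1, 0]
    have e1 := h1 ![0, 1, 0] ![0, 0, 1]
    have e2 := h1 ![0, 0, 1] ![1, 0, 0]
    simp [ta2_dt] at e0 e1 e2
    rw [ta2_pr, e0, e1, e2] at huv
    simp at huv
  obtain ⟨i0, -, hi0⟩ : ∃ k ∈ Finset.univ, 0 < dt v (ρ k) w := by
    refine Finset.exists_pos_of_sum_zero_of_exists_nonzero (fun k => dt v (ρ k) w) ?_ ?_
    · have h1 := hsum w
      rw [← neg_zero, ← h1, ← Finset.sum_neg_distrib]
      exact Finset.sum_congr rfl fun k _ => hanti _ _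
    · obtain ⟨k, hk, h1⟩ := hex
      exact ⟨k, hk, by rw [hanti]; exact neg_ne_zero.2 h1⟩
  -- the extreme one of the `ρ i` on one side
  obtain ⟨i1, hi1, hmax1⟩ := Finset.exists_max_image
    (Finset.univ.filter fun i => 0 < dt v (ρ i) w)
    (fun i => (dt v (ρ i0) (ρ i) : ℚ) / (dt v (ρ i) w : ℚ))
    ⟨i0, Finset.mem_filter.2 ⟨Finset.mem_univ _, hi0⟩⟩
  rw [Finset.mem_filter] at hi1
  have hneg1 : ∀ i, 0 < dt v (ρ i) w → dt v (ρ i1) (ρ i) ≤ 0 := by
    intro i hi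
    have h1 := hmax1 i (Finset.mem_filter.2 ⟨Finset.mem_univ _, hi⟩)
    have p1 : (0 : ℚ) < (dt v (ρ i) w : ℚ) := by exact_mod_cast hi
    have p2 : (0 : ℚ) < (dt v (ρ i1) w : ℚ) := by exact_mod_cast hi1.2
    rw [div_le_div_iff₀ p1 p2] at h1
    have h2 : dt v (ρ i0) (ρ i) * dt v (ρ i1) w ≤ dt v (ρ i0) (ρ i1) * dt v (ρ i) w := by
      exact_mod_cast h1
    have h3 : dt v (ρ i0) w * dt v (ρ i1) (ρ i) =
        dt v (ρ i0) (ρ i) * dt v (ρ i1) w - dt v (ρ i0) (ρ i1) * dt v (ρ i) w := by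
      simp only [ta2_dt]
      ring
    by_contra h4
    have h5 := mul_pos hi0 (not_le.1 h4)
    omega
  obtain ⟨j1, hj1, hj1'⟩ : ∃ j, 0 < dt v w (ρ j) ∧ 0 < dt v (ρ i1) (ρ j) := by
    by_contra hcon
    push Not at hcon
    have h1 : ∀ k ∈ Finset.univ, dt v (ρ i1) (ρ k) ≤ 0 := by
      intro k _
      rcases lt_trichotomy (dt v w (ρ k)) 0 with h | h | h
      · exact hneg1 k (by rw [hanti]; omega)
      · exact (hg' k h _).le
      · exact hcon k h
    have h2 := (Finset.sum_eq_zero_iff_of_nonpos h1).1 (hsum (ρ i1))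
    have h3 := hzero (ρ i1) (fun k => h2 k (Finset.mem_univ k)) w
    have h4 := hi1.2
    omega
  -- the best pair
  obtain ⟨⟨i, j⟩, hij, hmax⟩ := Finset.exists_max_image
    (Finset.univ.filter fun r : Fin q × Fin q => 0 < dt v (ρ r.1) (ρ r.2) ∧
      0 < dt v w (ρ r.2) ∧ 0 < dt v (ρ r.1) w)
    (fun r => (dt w (ρ r.1) (ρ r.2) : ℚ) / (dt v (ρ r.1) (ρ r.2) : ℚ))
    ⟨(i1, j1), Finset.mem_filter.2 ⟨Finset.mem_univ _, hj1', hj1, hi1.2⟩⟩
  rw [Finset.mem_filter] at hij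
  obtain ⟨-, hD, hb, hc⟩ := hij
  simp only at hD hb hc
  refine ⟨i, j, hD, hb, hc, fun k => ?_⟩
  by_contra hk
  have hal : dt (ρ k) (ρ i) (ρ j) < 0 := not_le.1 hk
  have F1 : dt v (ρ i) (ρ j) * pr u (ρ k) = dt (ρ k) (ρ i) (ρ j) * pr u v +
      dt v (ρ k) (ρ j) * pr u (ρ i) + dt v (ρ i) (ρ k) * pr u (ρ j) := by
    simp only [ta2_dt, ta2_pr]
    ring
  have F2 : dt v (ρ i) (ρ j) * dt v w (ρ k) =
      dt v w (ρ j) * dt v (ρ i) (ρ k) - dt v (ρ i) w * dt v (ρ k) (ρ j) := by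
    simp only [ta2_dt]
    ring
  have F3 : dt v (ρ i) (ρ j) * dt w (ρ i) (ρ k) =
      dt w (ρ i) (ρ j) * dt v (ρ i) (ρ k) - dt v (ρ i) w * dt (ρ k) (ρ i) (ρ j) := by
    simp only [ta2_dt]
    ring
  have F4 : dt v (ρ i) (ρ j) * dt w (ρ k) (ρ j) =
      dt w (ρ i) (ρ j) * dt v (ρ k) (ρ j) - dt v w (ρ j) * dt (ρ k) (ρ i) (ρ j) := by
    simp only [ta2_dt]
    ring
  have hL : 0 < dt v (ρ i) (ρ j) * pr u (ρ k) := mul_pos hD (hu k)
  have hA : dt (ρ k) (ρ i) (ρ j) * pr u v < 0 := mul_neg_of_neg_of_pos hal huv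
  -- not both other coefficients are nonpositive
  have hnb : ¬ (dt v (ρ k) (ρ j) ≤ 0 ∧ dt v (ρ i) (ρ k) ≤ 0) := by
    rintro ⟨h1, h2⟩
    have h3 := mul_nonpos_of_nonpos_of_nonneg h1 (hu i).le
    have h4 := mul_nonpos_of_nonpos_of_nonneg h2 (hu j).le
    omega
  have pD : (0 : ℚ) < (dt v (ρ i) (ρ j) : ℚ) := by exact_mod_cast hD
  rcases lt_trichotomy (dt v w (ρ k)) 0 with h | h | h
  · have hbe : 0 < dt v (ρ k) (ρ j) := by
      by_contra h1
      rw [not_lt] at h1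
      apply hnb
      refine ⟨h1, ?_⟩
      by_contra h2
      rw [not_le] at h2
      have h3 := mul_neg_of_pos_of_neg hD h
      have h4 := mul_pos hb h2
      have h5 := mul_nonpos_of_nonneg_of_nonpos hc.le h1
      omega
    have h1 := hmax (k, j) (Finset.mem_filter.2 ⟨Finset.mem_univ _, hbe, hb, by
      simp only
      rw [hanti]
      omega⟩)
    simp only at h1
    have pB : (0 : ℚ) < (dt v (ρ k) (ρ j) : ℚ) := by exact_mod_cast hbe
    rw [div_le_div_iff₀ pB pD] at h1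
    have h2 : dt w (ρ k) (ρ j) * dt v (ρ i) (ρ j) ≤ dt w (ρ i) (ρ j) * dt v (ρ k) (ρ j) := by
      exact_mod_cast h1
    have h3 := mul_neg_of_pos_of_neg hb hal
    have h4 := mul_comm (dt w (ρ k) (ρ j)) (dt v (ρ i) (ρ j))
    omega
  · have h1 : dt v (ρ i) (ρ k) = 0 := hg' k h _
    have h2 : dt v (ρ k) (ρ j) = 0 := by
      rw [hanti, hg' k h _, neg_zero]
    exact hnb ⟨h2.le, h1.le⟩
  · have hga : 0 < dt v (ρ i) (ρ k) := by
      by_contra h1
      rw [not_lt] at h1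
      apply hnb
      refine ⟨?_, h1⟩
      by_contra h2
      rw [not_le] at h2
      have h3 := mul_pos hD h
      have h4 := mul_pos hc h2
      have h5 := mul_nonpos_of_nonneg_of_nonpos hb.le h1
      omega
    have h1 := hmax (i, k) (Finset.mem_filter.2 ⟨Finset.mem_univ _, hga, h, hc⟩)
    simp only at h1
    have pG : (0 : ℚ) < (dt v (ρ i) (ρ k) : ℚ) := by exact_mod_cast hga
    rw [div_le_div_iff₀ pG pD] at h1
    have h2 : dt w (ρ i) (ρ k) * dt v (ρ i) (ρ j) ≤ dt w (ρ i) (ρ j) * dt v (ρ i) (ρ k) := by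
      exact_mod_cast h1
    have h3 := mul_neg_of_pos_of_neg hc hal
    have h4 := mul_comm (dt w (ρ i) (ρ k)) (dt v (ρ i) (ρ j))
    omega

theorem star {q : ℕ} (ρ : Fin q → Fin 3 → ℤ) (hp : ∃ u, ∀ i, 0 < pr u (ρ i))
    (hf : ∀ m : Fin 3 → ℤ, (∀ i, pr m (ρ i) = 0) → m = 0) (w : Fin 3 → ℤ)
    (hw : ∀ m ∈ SG ρ, m ≠ 0 → 0 < pr m w) :
    ∃ (i j : Fin q) (a b c : ℤ), 0 < a ∧ 0 ≤ b ∧ 0 ≤ c ∧ 0 < dt (vs ρ) (ρ i) (ρ j) ∧
      ∀ t, dt (vs ρ) (ρ i) (ρ j) * w t = a * vs ρ t + b * ρ i t + c * ρ j t := by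
  obtain ⟨u, hu⟩ := hp
  have hu0 : u ≠ 0 := by
    rintro rfl
    have h1 : (![1, 0, 0] : Fin 3 → ℤ) = 0 := by
      apply hf
      intro i
      have h2 := hu i
      rw [ta2_pr] at h2
      simp at h2
    have h3 := congrFun h1 0
    simp at h3
  have huv : 0 < pr u (vs ρ) := pr_vs_pos hf (fun i => (hu i).le) hu0
  obtain ⟨z, hz⟩ := ta2_gen (fun k => ta2_crs (ρ k) (vs ρ))
  obtain ⟨v, hv⟩ : ∃ v, v = vs ρ := ⟨_, rfl⟩
  have hz' : ∀ k, dt v z (ρ k) = 0 → ta2_crs (ρ k) (vs ρ) = 0 := by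
    intro k hk
    apply hz k
    rw [ta2_pr_crs, ← hv, ← hk]
    simp only [ta2_dt]
    ring
  obtain ⟨N, hN⟩ : ∃ N : ℤ, N = 1 + ∑ k, |dt v z (ρ k)| := ⟨_, rfl⟩
  have hNk : ∀ k, |dt v z (ρ k)| < N := by
    intro k
    have h1 := Finset.single_le_sum (f := fun k => |dt v z (ρ k)|)
      (fun k _ => abs_nonneg _) (Finset.mem_univ k)
    omega
  have hlin : ∀ k, dt v (fun t => N * w t + z t) (ρ k) = N * dt v w (ρ k) + dt v z (ρ k) := by
    intro k
    simp only [ta2_dt]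
    ring
  have hpos : ∀ k, dt v w (ρ k) < 0 → dt v (fun t => N * w t + z t) (ρ k) < 0 := by
    intro k hk
    have h1 := hNk k
    have h2 := le_abs_self (dt v z (ρ k))
    have h3 := abs_nonneg (dt v z (ρ k))
    have h4 : N * dt v w (ρ k) ≤ N * (-1) := mul_le_mul_of_nonneg_left (by omega) (by omega)
    rw [hlin]
    omega
  have hneg : ∀ k, 0 < dt v w (ρ k) → 0 < dt v (fun t => N * w t + z t) (ρ k) := by
    intro k hk
    have h1 := hNk k
    have h2 := neg_abs_le (dt v z (ρ k))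
    have h3 := abs_nonneg (dt v z (ρ k))
    have h4 : N * 1 ≤ N * dt v w (ρ k) := mul_le_mul_of_nonneg_left (by omega) (by omega)
    rw [hlin]
    omega
  obtain ⟨i, j, hD, hb, hc, hk⟩ := ta2_facet ρ u hu huv hf (fun t => N * w t + z t) (by
    intro k hk
    rw [← hv] at hk
    rcases lt_trichotomy (dt v w (ρ k)) 0 with h | h | h
    · have := hpos k h
      omega
    · apply hz' k
      have h1 := hlin k
      rw [hk, h, mul_zero, zero_add] at h1
      exact h1.symm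
    · have := hneg k h
      omega)
  rw [← hv] at hD hb hc ⊢
  have hanti : ∀ x y : Fin 3 → ℤ, dt v x y = -dt v y x := by
    intro x y
    simp only [ta2_dt]
    ring
  have hm : 0 < pr (ta2_crs (ρ i) (ρ j)) w := by
    apply hw
    · intro k
      rw [ta2_pr_crs]
      exact hk k
    · intro h
      have h1 : pr (ta2_crs (ρ i) (ρ j)) v = 0 := by
        rw [h, ta2_pr]
        simp
      rw [ta2_pr_crs] at h1
      omega
  rw [ta2_pr_crs] at hm
  refine ⟨i, j, dt w (ρ i) (ρ j), dt v w (ρ j), dt v (ρ i) w, hm, ?_, ?_, hD, ?_⟩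
  · by_contra h
    have := hpos j (not_le.1 h)
    omega
  · by_contra h
    rw [not_le] at h
    rw [hanti] at h hc
    have := hneg i (by omega)
    omega
  · intro t
    exact ta2_cramer v (ρ i) (ρ j) w t

end M5
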