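import Pool.Agent.M5.TDefs
import Pool.Agent.MLD.Ord

/-!
PIECE M5-TB0: clearing denominators.

PROOF. `κ j := D * N₀`, `N₀` a bound of all `|s l j|`.  For a monomial `Z^α` of `F` (`|α| ≤ D`) put `v := ∑ α l • s l`; all
entries of `v + κ` are `≥ 0`, `G := ∑ over α of coeff α F • monomial (v + κ) 1`.  First equation: `toFF (monomial e 1) = chi k (e)` (product
of powers, `zpow`), `chi` is multiplicative (`zpow_add₀`, `xx k j ≠ 0`), `tK s (monomial α a) = a • chi k v`.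
Second equation: `tc` of `Z^α` is `X^(∑ α l * pr (s l) w) * ..`, all `pr (s l) w ≥ 0`, so `∑ α l * (pr (s l) w).toNat = pr v w`, and `yc` of
`monomial (v + κ) 1` is `X^(∑ j, (v + κ) j * w j) * ..`, `∑ j (v + κ) j * w j = pr v w + ∑ κ j w j`.
`tc_ge`: every monomial of degree `≥ n` of `F` gives a multiple of `X^n`, since `(pr (s l) w).toNat ≥ 1`.
`tK_ge`: `ge_aeval` with weights `1`.
-/

open MvPolynomial

namespace M5

open MLD M3

universe u

section
variable {k : Type u} [Field k] {p : ℕ}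

theorem xx_ne (j : Fin 3) : (xx k j : FF k (Fin 3)) ≠ 0 := by
  intro h
  have h1 : algebraMap (MvPolynomial (Fin 3) k) (FF k (Fin 3)) (X j) = 0 := h
  exact X_ne_zero j ((IsFractionRing.to_map_eq_zero_iff).1 h1)

theorem chi_ne (m : Fin 3 → ℤ) : chi k m ≠ 0 :=
  Finset.prod_ne_zero_iff.mpr fun j _ => zpow_ne_zero _ (xx_ne j)

theorem chi_add (m n : Fin 3 → ℤ) : chi k (m + n) = chi k m * chi k n := by
  unfold chi
  rw [← Finset.prod_mul_distrib]
  exact Finset.prod_congr rfl fun j _ => zpow_add₀ (xx_ne j) _ _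

private theorem TB0_zpow {K : Type u} [Field K] [Algebra k K] (v : OrdFn k K) {f : K}
    (hf : f ≠ 0) (n : ℤ) : v.ord (f ^ n) = n * v.ord f := by
  obtain ⟨m, rfl | rfl⟩ := n.eq_nat_or_neg
  · rw [zpow_natCast, v.ord_pow hf]
  · rw [zpow_neg, zpow_natCast, v.ord_inv _ (pow_ne_zero _ hf), v.ord_pow hf]
    ring

/-- the order of a character -/
theorem ord_chi (v : OrdFn k (FF k (Fin 3))) (m : Fin 3 → ℤ) :
    v.ord (chi k m) = pr m fun j => v.ord (xx k j) := by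
  unfold chi pr
  rw [v.ord_prod _ _ fun j _ => zpow_ne_zero _ (xx_ne j)]
  exact Finset.sum_congr rfl fun j _ => TB0_zpow v (xx_ne j) _

private theorem TB0_chi_zero : chi k 0 = 1 := by
  unfold chi
  exact Finset.prod_eq_one fun j _ => by rw [Pi.zero_apply, zpow_zero]

private theorem TB0_chi_nsmul (m : Fin 3 → ℤ) (n : ℕ) : chi k (n • m) = chi k m ^ n := by
  induction n with
  | zero => rw [zero_smul, pow_zero, TB0_chi_zero]
  | succ n ih => rw [succ_nsmul, chi_add, ih, pow_succ]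

private theorem TB0_chi_sum {ι : Type} (t : Finset ι) (m : ι → Fin 3 → ℤ) :
    chi k (∑ i ∈ t, m i) = ∏ i ∈ t, chi k (m i) := by
  classical
  induction t using Finset.induction_on with
  | empty => rw [Finset.sum_empty, Finset.prod_empty, TB0_chi_zero]
  | insert a t ha ih => rw [Finset.sum_insert ha, Finset.prod_insert ha, chi_add, ih]

private theorem TB0_toFF (e : Fin 3 →₀ ℕ) (a : k) : toFF k (Fin 3) (monomial e a) =
    algebraMap k (FF k (Fin 3)) a * chi k (fun j => (e j : ℤ)) := by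
  have h1 : (monomial e a : MvPolynomial (Fin 3) k) = C a * ∏ j, X j ^ e j := by
    rw [monomial_eq, Finsupp.prod_fintype _ _ fun j => pow_zero _]
  have h2 : toFF k (Fin 3) (C a) = algebraMap k (FF k (Fin 3)) a := (toFF k (Fin 3)).commutes a
  rw [h1, map_mul, map_prod, h2]
  congr 1
  unfold chi
  refine Finset.prod_congr rfl fun j _ => ?_
  rw [map_pow, zpow_natCast]
  rfl

private theorem TB0_tK (s : Fin p → Fin 3 → ℤ) (α : Fin p →₀ ℕ) (a : k) :
    tK s (monomial α a) = algebraMap k (FF k (Fin 3)) a * chi k (∑ l, α l • s l) := by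
  unfold tK
  rw [aeval_monomial, Finsupp.prod_fintype _ _ fun j => pow_zero _, TB0_chi_sum]
  congr 1
  exact Finset.prod_congr rfl fun l _ => (TB0_chi_nsmul _ _).symm

private theorem TB0_yc (w r₁ r₂ : Fin 3 → ℕ) (e : Fin 3 →₀ ℕ) (a : k) :
    yc w r₁ r₂ (monomial e a) = algebraMap k (AA k) a * (PowerSeries.X ^ (∑ j, w j * e j) *
      xA 0 ^ (∑ j, r₁ j * e j) * xA 1 ^ (∑ j, r₂ j * e j)) := by
  unfold yc
  rw [aeval_monomial, Finsupp.prod_fintype _ _ fun j => pow_zero _]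
  congr 1
  simp only [mul_pow, Finset.prod_mul_distrib, ← pow_mul, Finset.prod_pow_eq_pow_sum]

private theorem TB0_tc (s : Fin p → Fin 3 → ℤ) (w r₁ r₂ : Fin 3 → ℕ) (α : Fin p →₀ ℕ) (a : k) :
    tc s w r₁ r₂ (monomial α a) = algebraMap k (AA k) a *
      (PowerSeries.X ^ (∑ l, (pr (s l) (vz w)).toNat * α l) *
      xA 0 ^ (∑ l, (pr (s l) (vz r₁)).toNat * α l) *
      xA 1 ^ (∑ l, (pr (s l) (vz r₂)).toNat * α l)) := by
  unfold tc
  rw [aeval_monomial, Finsupp.prod_fintype _ _ fun j => pow_zero _]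
  congr 1
  simp only [mul_pow, Finset.prod_mul_distrib, ← pow_mul, Finset.prod_pow_eq_pow_sum]

/-- the exponents of the cleared monomials -/
private theorem TB0_exp (s : Fin p → Fin 3 → ℤ) (κ e : Fin 3 →₀ ℕ) (α : Fin p →₀ ℕ)
    (he : ∀ j, (e j : ℤ) = κ j + ∑ l, (α l : ℤ) * s l j) (w : Fin 3 → ℕ)
    (hw : ∀ l, 0 ≤ pr (s l) (vz w)) :
    ∑ j, w j * e j = ∑ j, w j * κ j + ∑ l, (pr (s l) (vz w)).toNat * α l := by
  have h1 : ((∑ j, w j * e j : ℕ) : ℤ) =
      ((∑ j, w j * κ j + ∑ l, (pr (s l) (vz w)).toNat * α l : ℕ) : ℤ) := by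
    push_cast
    have h2 : ∀ l, (((pr (s l) (vz w)).toNat : ℤ)) * α l =
        ∑ j, (w j : ℤ) * ((α l : ℤ) * s l j) := by
      intro l
      rw [Int.toNat_of_nonneg (hw l)]
      unfold pr vz
      rw [Finset.sum_mul]
      exact Finset.sum_congr rfl fun j _ => by ring
    simp only [he, h2]
    rw [Finset.sum_comm, ← Finset.sum_add_distrib]
    refine Finset.sum_congr rfl fun j _ => ?_
    rw [mul_add, Finset.mul_sum]
  exact_mod_cast h1

theorem clear_den (s : Fin p → Fin 3 → ℤ) (D : ℕ) : ∃ κ : Fin 3 →₀ ℕ,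
    ∀ w r₁ r₂ : Fin 3 → ℕ, (∀ l, 0 ≤ pr (s l) (vz w)) → (∀ l, 0 ≤ pr (s l) (vz r₁)) →
      (∀ l, 0 ≤ pr (s l) (vz r₂)) → ∀ F : MvPolynomial (Fin p) k, F.totalDegree ≤ D →
      ∃ G : MvPolynomial (Fin 3) k,
        toFF k (Fin 3) G = toFF k (Fin 3) (monomial κ 1) * tK s F ∧
        yc w r₁ r₂ G = yc w r₁ r₂ (monomial κ 1) * tc s w r₁ r₂ F := by
  classical
  obtain ⟨N₀, hN₀⟩ : ∃ N₀ : ℕ, ∀ l j, |s l j| ≤ (N₀ : ℤ) := by
    refine ⟨∑ l, ∑ j, (s l j).natAbs, fun l j => ?_⟩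
    have h1 : (s l j).natAbs ≤ ∑ j, (s l j).natAbs :=
      Finset.single_le_sum (f := fun j => (s l j).natAbs) (fun _ _ => Nat.zero_le _)
        (Finset.mem_univ j)
    have h2 : ∑ j, (s l j).natAbs ≤ ∑ l, ∑ j, (s l j).natAbs :=
      Finset.single_le_sum (f := fun l => ∑ j, (s l j).natAbs) (fun _ _ => Nat.zero_le _)
        (Finset.mem_univ l)
    rw [Int.abs_eq_natAbs]
    exact_mod_cast h1.trans h2
  obtain ⟨κ, hκ⟩ : ∃ κ : Fin 3 →₀ ℕ, ∀ j, κ j = D * N₀ :=
    ⟨Finsupp.equivFunOnFinite.symm fun _ => D * N₀, fun j => rfl⟩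
  have hex : ∀ α : Fin p →₀ ℕ, ∑ l, α l ≤ D →
      ∃ e : Fin 3 →₀ ℕ, ∀ j, (e j : ℤ) = κ j + ∑ l, (α l : ℤ) * s l j := by
    intro α hα
    refine ⟨Finsupp.equivFunOnFinite.symm fun j =>
      ((κ j : ℤ) + ∑ l, (α l : ℤ) * s l j).toNat, fun j => ?_⟩
    have h1 : |∑ l, (α l : ℤ) * s l j| ≤ (D : ℤ) * N₀ := by
      calc |∑ l, (α l : ℤ) * s l j| ≤ ∑ l, |(α l : ℤ) * s l j| :=
            Finset.abs_sum_le_sum_abs _ _
        _ ≤ ∑ l, (α l : ℤ) * N₀ := by
            refine Finset.sum_le_sum fun l _ => ?_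
            rw [abs_mul, Nat.abs_cast]
            exact mul_le_mul_of_nonneg_left (hN₀ l j) (Int.natCast_nonneg _)
        _ = ((∑ l, α l : ℕ) : ℤ) * N₀ := by rw [← Finset.sum_mul]; push_cast; ring
        _ ≤ (D : ℤ) * N₀ := by
            refine mul_le_mul_of_nonneg_right ?_ (Int.natCast_nonneg _)
            exact_mod_cast hα
    have h2 : 0 ≤ (κ j : ℤ) + ∑ l, (α l : ℤ) * s l j := by
      have h3 := (abs_le.1 h1).1
      rw [hκ j]
      push_cast
      linarith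
    change ((((κ j : ℤ) + ∑ l, (α l : ℤ) * s l j).toNat : ℕ) : ℤ) = _
    exact Int.toNat_of_nonneg h2
  refine ⟨κ, fun w r₁ r₂ hw h₁ h₂ F hF => ?_⟩
  have hdeg : ∀ α ∈ F.support, ∑ l, α l ≤ D := by
    intro α hα
    have h1 := le_totalDegree hα
    rw [Finsupp.sum_fintype _ _ fun _ => rfl] at h1
    exact h1.trans hF
  obtain ⟨e, he⟩ : ∃ e : (Fin p →₀ ℕ) → (Fin 3 →₀ ℕ), ∀ α ∈ F.support, ∀ j,
      (e α j : ℤ) = κ j + ∑ l, (α l : ℤ) * s l j := by
    refine ⟨fun α => if h : ∑ l, α l ≤ D then (hex α h).choose else 0, fun α hα j => ?_⟩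
    beta_reduce
    rw [dif_pos (hdeg α hα)]
    exact (hex α (hdeg α hα)).choose_spec j
  refine ⟨∑ α ∈ F.support, monomial (e α) (coeff α F), ?_, ?_⟩
  · rw [map_sum]
    conv_rhs => rw [← F.support_sum_monomial_coeff, map_sum, Finset.mul_sum]
    refine Finset.sum_congr rfl fun α hα => ?_
    rw [TB0_toFF, TB0_toFF, TB0_tK, map_one, one_mul]
    have h1 : (fun j => (e α j : ℤ)) = (fun j => (κ j : ℤ)) + ∑ l, α l • s l := by
      funext j
      have h2 : (∑ l, α l • s l) j = ∑ l, (α l : ℤ) * s l j := by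
        rw [Finset.sum_apply]
        exact Finset.sum_congr rfl fun l _ => by rw [Pi.smul_apply, nsmul_eq_mul]
      rw [he α hα j, Pi.add_apply, h2]
    rw [h1, chi_add]
    ring
  · rw [map_sum]
    conv_rhs => rw [← F.support_sum_monomial_coeff, map_sum, Finset.mul_sum]
    refine Finset.sum_congr rfl fun α hα => ?_
    rw [TB0_yc, TB0_yc, TB0_tc, map_one, one_mul, TB0_exp s κ (e α) α (he α hα) w hw,
      TB0_exp s κ (e α) α (he α hα) r₁ h₁, TB0_exp s κ (e α) α (he α hα) r₂ h₂]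
    simp only [pow_add]
    ring

theorem tc_ge (s : Fin p → Fin 3 → ℤ) (w r₁ r₂ : Fin 3 → ℕ) (hw : ∀ l, 0 < pr (s l) (vz w))
    (n : ℕ) (F : MvPolynomial (Fin p) k) (hF : ∀ α : Fin p →₀ ℕ, α.degree < n → coeff α F = 0) :
    (PowerSeries.X : AA k) ^ n ∣ tc s w r₁ r₂ F := by
  rw [← F.support_sum_monomial_coeff, map_sum]
  refine Finset.dvd_sum fun α hα => ?_
  have h1 : n ≤ α.degree := by
    by_contra h
    exact (mem_support_iff.1 hα) (hF α (not_le.1 h))
  rw [Finsupp.degree_eq_sum] at h1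
  have h2 : n ≤ ∑ l, (pr (s l) (vz w)).toNat * α l := by
    refine h1.trans (Finset.sum_le_sum fun l _ => ?_)
    have h3 := hw l
    exact Nat.le_mul_of_pos_left _ (by omega)
  rw [TB0_tc]
  refine Dvd.dvd.mul_left ?_ _
  rw [mul_assoc]
  exact (pow_dvd_pow _ h2).mul_right _

theorem tK_ge (s : Fin p → Fin 3 → ℤ) (v : OrdFn k (FF k (Fin 3))) (c : ℕ)
    (hv : ∀ l, (c : ℤ) ≤ v.ord (chi k (s l))) (n : ℕ) (F : MvPolynomial (Fin p) k)
    (hF : ∀ α : Fin p →₀ ℕ, α.degree < n → coeff α F = 0) : v.ge (n * c : ℕ) (tK s F) := by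
  refine v.ge_aeval _ (fun _ => (c : ℤ)) (fun l => Or.inr (hv l)) F _ fun α hα => ?_
  have h1 : n ≤ α.degree := by
    by_contra h
    exact hα (hF α (not_le.1 h))
  rw [Finsupp.degree_eq_sum] at h1
  rw [Finsupp.sum_fintype _ _ fun _ => by simp, ← Finset.sum_mul]
  push_cast
  refine mul_le_mul_of_nonneg_right ?_ (Int.natCast_nonneg _)
  exact_mod_cast h1

/-- splitting off the terms of high degree -/
theorem low_high (n : ℕ) (F : MvPolynomial (Fin p) k) : ∃ F₁ F₂ : MvPolynomial (Fin p) k,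
    F = F₁ + F₂ ∧ F₁.totalDegree ≤ n ∧ ∀ α : Fin p →₀ ℕ, α.degree < n → coeff α F₂ = 0 := by
  classical
  refine ⟨∑ i ∈ Finset.range n, homogeneousComponent i F,
    F - ∑ i ∈ Finset.range n, homogeneousComponent i F, by ring, ?_, fun α hα => ?_⟩
  · refine (totalDegree_finsetSum _ _).trans (Finset.sup_le fun i hi => ?_)
    exact (homogeneousComponent_isHomogeneous i F).totalDegree_le.trans
      (Finset.mem_range.1 hi).le
  · rw [coeff_sub, coeff_sum]
    simp only [coeff_homogeneousComponent]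
    rw [Finset.sum_ite_eq, if_pos (Finset.mem_range.2 hα), sub_self]

end

end M5
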