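import Pool.Agent.M5.TDefs
import Pool.Agent.M3.Param

/-!
PIECE M5-TB1: solving monomial equations for the reparametrization.

PROOF. `D := |det|`, `ε` its sign.  Let `λ, μ, ν : Fin 3 → ℤ` be the cofactors (cross products `w = ..`): `λ = r₁ × r₂`,
`μ = r₂ × w`, `ν = w × r₁`, so that `w i * λ j + r₁ i * μ j + r₂ i * ν j = det * δ i j` (check by `Matrix.det_fin_three`, `ring`).
(1) Every power series `q` over `L` with `q(0) ≠ 0` has a root `h^D = q` (`L` algebraically closed, char 0; or only modulo `X^K`,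
take `h` a polynomial with `X^K ∣ h^D - q`: `IsAlgClosed.exists_pow_nat_eq` for the constant term and Hensel / successive
approximation, cf. `MLD/Sqrt.lean` and `M3/Param.lean` `Param_hensel` applied to the polynomial `Y^D - q`).  So take polynomials
`h j` with `h j (0) ≠ 0`, `X^K ∣ (h j)^D - q j`, and polynomials `h' j` with `X^K ∣ h j * h' j - 1` (inverse modulo `X^K`).
For `a : ℤ` let `hp j a := (h j)^a.toNat * (h' j)^(-a).toNat`, a polynomial with nonzero constant term which behaves like `(h j)^a`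
modulo `X^K`.
(2) `exists_param 1` with `q := ∏ j, hp j (ε * λ j)`: `T` with `T(0) ≠ 0`, `T * aeval (X * T) q = 1`.
(3) `U₁ := aeval (X * T) (∏ j, hp j (ε * μ j))`, `U₂ := aeval (X * T) (∏ j, hp j (ε * ν j))`.
(4) `X^K ∣ a - b` for polynomials implies `X^K ∣ aeval (X * T) a - aeval (X * T) b` (`aeval (X * T) (X^K * c)` is divisible by
`(X * T)^K`). Modulo `X^K` (all series are units) `U₁^(r₁ j) * U₂^(r₂ j) * T^(-w j)` is the value at `X * T` of
`∏ i, (h i)^(ε * (r₁ j * μ i + r₂ j * ν i + w j * λ i)) = (h j)^D = q j`.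
-/

open MvPolynomial

namespace M5

open MLD M3

universe u

/-- roots of power series -/
private theorem TB1_root {L : Type*} [Field L] [IsAlgClosed L] [CharZero L] (D : ℕ) (hD : 0 < D)
    (u : PowerSeries L) (hu : PowerSeries.constantCoeff u ≠ 0) : ∃ w : PowerSeries L, w ^ D = u := by
  obtain ⟨c, hc⟩ := IsAlgClosed.exists_pow_nat_eq (PowerSeries.constantCoeff u) hD
  have h1 : PowerSeries.constantCoeff
      (PowerSeries.C (PowerSeries.constantCoeff u)⁻¹ * u - 1 : PowerSeries L) = 0 := by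
    simp [hu]
  have hs : PowerSeries.HasSubst
      (PowerSeries.C (PowerSeries.constantCoeff u)⁻¹ * u - 1 : PowerSeries L) :=
    PowerSeries.HasSubst.of_constantCoeff_zero' h1
  have hpw : ∀ n : ℕ, (PowerSeries.binomialSeries L (1 / D : ℚ)) ^ n =
      PowerSeries.binomialSeries L (n * (1 / D) : ℚ) := by
    intro n
    induction n with
    | zero =>
      rw [pow_zero, Nat.cast_zero, zero_mul, PowerSeries.binomialSeries_zero]
    | succ n ih =>
      rw [pow_succ, ih, ← PowerSeries.binomialSeries_add, Nat.cast_succ, add_mul, one_mul]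
  have hb : (PowerSeries.binomialSeries L (1 / D : ℚ)) ^ D = 1 + PowerSeries.X := by
    have hD' : (D : ℚ) ≠ 0 := Nat.cast_ne_zero.mpr hD.ne'
    have : ((D : ℚ) * (1 / D) : ℚ) = ((1 : ℕ) : ℚ) := by
      rw [mul_one_div_cancel hD', Nat.cast_one]
    rw [hpw, this, PowerSeries.binomialSeries_nat, pow_one]
  refine ⟨PowerSeries.C c * PowerSeries.subst
    (PowerSeries.C (PowerSeries.constantCoeff u)⁻¹ * u - 1 : PowerSeries L)
    (PowerSeries.binomialSeries L (1 / D : ℚ)), ?_⟩
  rw [mul_pow, ← PowerSeries.subst_pow hs, hb, PowerSeries.subst_add hs, PowerSeries.subst_X hs,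
    ← map_pow, hc]
  have h2 : PowerSeries.subst
      (PowerSeries.C (PowerSeries.constantCoeff u)⁻¹ * u - 1 : PowerSeries L)
      (1 : PowerSeries L) = 1 := by
    rw [← PowerSeries.coe_substAlgHom hs, map_one]
  rw [h2, add_sub_cancel, ← mul_assoc, ← map_mul, mul_inv_cancel₀ hu, map_one, one_mul]

/-- exponents of products of powers -/
private theorem TB1_units {G : Type*} [CommGroup G] (A : Matrix (Fin 3) (Fin 3) ℤ) (ε : ℤ)
    (D : ℕ) (hε : ε * A.det = D) (w r₁ r₂ : Fin 3 → ℕ) (h0 : ∀ j, A 0 j = w j)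
    (h1 : ∀ j, A 1 j = r₁ j) (h2 : ∀ j, A 2 j = r₂ j) (H : Fin 3 → G) (j : Fin 3) :
    (∏ i, H i ^ (ε * A.adjugate i 0)) ^ w j * (∏ i, H i ^ (ε * A.adjugate i 1)) ^ r₁ j *
      (∏ i, H i ^ (ε * A.adjugate i 2)) ^ r₂ j = H j ^ D := by
  have hadj : ∀ i, A.adjugate i 0 * A 0 j + A.adjugate i 1 * A 1 j + A.adjugate i 2 * A 2 j =
      if i = j then A.det else 0 := by
    intro i
    have h := congrFun (congrFun (Matrix.adjugate_mul A) i) j
    rw [Matrix.mul_apply, Fin.sum_univ_three, Matrix.smul_apply, Matrix.one_apply, smul_eq_mul,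
      mul_ite, mul_one, mul_zero] at h
    exact h
  rw [← Finset.prod_pow, ← Finset.prod_pow, ← Finset.prod_pow, ← Finset.prod_mul_distrib,
    ← Finset.prod_mul_distrib]
  have hterm : ∀ i, (H i ^ (ε * A.adjugate i 0)) ^ w j * (H i ^ (ε * A.adjugate i 1)) ^ r₁ j *
      (H i ^ (ε * A.adjugate i 2)) ^ r₂ j = if i = j then H i ^ D else 1 := by
    intro i
    rw [← zpow_natCast (H i ^ (ε * A.adjugate i 0)), ← zpow_natCast (H i ^ (ε * A.adjugate i 1)),
      ← zpow_natCast (H i ^ (ε * A.adjugate i 2)), ← zpow_mul, ← zpow_mul, ← zpow_mul,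
      ← zpow_add, ← zpow_add, ← h0 j, ← h1 j, ← h2 j]
    have e : ε * A.adjugate i 0 * A 0 j + ε * A.adjugate i 1 * A 1 j +
        ε * A.adjugate i 2 * A 2 j = ε * (if i = j then A.det else 0) := by
      rw [← hadj i]
      ring
    rw [e]
    split_ifs with hij
    · rw [hε, zpow_natCast]
    · rw [mul_zero, zpow_zero]
  rw [Finset.prod_congr rfl (fun i _ => hterm i), Finset.prod_ite_eq' Finset.univ j,
    if_pos (Finset.mem_univ j)]

theorem mono_solve {L : Type*} [Field L] [IsAlgClosed L] [CharZero L] (w r₁ r₂ : Fin 3 → ℕ)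
    (hdet : dt (vz w) (vz r₁) (vz r₂) ≠ 0) (q : Fin 3 → Polynomial L) (hq : ∀ j, (q j).coeff 0 ≠ 0)
    (K : ℕ) :
    ∃ T U₁ U₂ : PowerSeries L, PowerSeries.coeff 0 T ≠ 0 ∧ PowerSeries.coeff 0 U₁ ≠ 0 ∧
      PowerSeries.coeff 0 U₂ ≠ 0 ∧ ∀ j, (PowerSeries.X : PowerSeries L) ^ K ∣
        T ^ w j * Polynomial.aeval (PowerSeries.X * T) (q j) - U₁ ^ r₁ j * U₂ ^ r₂ j := by
  classical
  set A : Matrix (Fin 3) (Fin 3) ℤ := Matrix.of ![vz w, vz r₁, vz r₂] with hA
  have hdet' : A.det ≠ 0 := hdet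
  have hD : 0 < A.det.natAbs := Int.natAbs_pos.mpr hdet'
  have hε : A.det.sign * A.det = (A.det.natAbs : ℤ) := Int.sign_mul_self_eq_natAbs A.det
  -- roots
  have hroot : ∀ j, ∃ H : (PowerSeries L)ˣ, (H : PowerSeries L) ^ A.det.natAbs =
      ((q j : Polynomial L) : PowerSeries L) := by
    intro j
    have hc : PowerSeries.constantCoeff ((q j : Polynomial L) : PowerSeries L) ≠ 0 := by
      rw [← PowerSeries.coeff_zero_eq_constantCoeff_apply, Polynomial.coeff_coe]
      exact hq j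
    obtain ⟨v, hv⟩ := TB1_root A.det.natAbs hD _ hc
    have hv0 : IsUnit v := by
      rw [PowerSeries.isUnit_iff_constantCoeff, isUnit_iff_ne_zero]
      intro h0
      apply hc
      rw [← hv, map_pow, h0, zero_pow hD.ne']
    exact ⟨hv0.unit, hv⟩
  choose H hH using hroot
  set Q : (PowerSeries L)ˣ := ∏ i, H i ^ (A.det.sign * A.adjugate i 0) with hQ
  set M : (PowerSeries L)ˣ := ∏ i, H i ^ (A.det.sign * A.adjugate i 1) with hM
  set N : (PowerSeries L)ˣ := ∏ i, H i ^ (A.det.sign * A.adjugate i 2) with hN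
  have key : ∀ j, (Q : PowerSeries L) ^ w j * (M : PowerSeries L) ^ r₁ j *
      (N : PowerSeries L) ^ r₂ j = ((q j : Polynomial L) : PowerSeries L) := by
    intro j
    have h := TB1_units A A.det.sign A.det.natAbs hε w r₁ r₂ (fun _ => rfl) (fun _ => rfl)
      (fun _ => rfl) H j
    rw [← hH j, ← Units.val_pow_eq_pow_val, ← Units.val_pow_eq_pow_val,
      ← Units.val_pow_eq_pow_val, ← Units.val_mul, ← Units.val_mul, ← Units.val_pow_eq_pow_val]
    exact congrArg (fun z : (PowerSeries L)ˣ => (z : PowerSeries L)) h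
  -- the parameter
  have hQ0 : (PowerSeries.trunc (K + 1) (Q : PowerSeries L)).coeff 0 ≠ 0 := by
    rw [PowerSeries.coeff_trunc, if_pos (Nat.succ_pos K),
      PowerSeries.coeff_zero_eq_constantCoeff_apply]
    have := (PowerSeries.isUnit_iff_constantCoeff (φ := (Q : PowerSeries L))).mp Q.isUnit
    exact this.ne_zero
  obtain ⟨T, hT0, hT⟩ := exists_param 1 one_pos (PowerSeries.trunc (K + 1) (Q : PowerSeries L)) hQ0
  have hs : PowerSeries.HasSubst (PowerSeries.X * T : PowerSeries L) := by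
    apply PowerSeries.HasSubst.of_constantCoeff_zero'
    rw [map_mul, PowerSeries.constantCoeff_X, zero_mul]
  set φ : PowerSeries L →ₐ[L] PowerSeries L := PowerSeries.substAlgHom hs with hφ
  have hφp : ∀ P : Polynomial L, φ (P : PowerSeries L) = Polynomial.aeval (PowerSeries.X * T) P :=
    fun P => PowerSeries.substAlgHom_coe hs P
  have hφX : φ (PowerSeries.X : PowerSeries L) = PowerSeries.X * T :=
    PowerSeries.substAlgHom_X hs
  have hdvd : (PowerSeries.X : PowerSeries L) ^ K ∣ T * φ (Q : PowerSeries L) - 1 := by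
    have h1 : (PowerSeries.X : PowerSeries L) ^ K ∣
        (Q : PowerSeries L) - (PowerSeries.trunc (K + 1) (Q : PowerSeries L) : PowerSeries L) := by
      rw [PowerSeries.X_pow_dvd_iff]
      intro m hm
      rw [map_sub, Polynomial.coeff_coe, PowerSeries.coeff_trunc, if_pos (by omega), sub_self]
    obtain ⟨c, hc⟩ := h1
    have h2 : T * φ (Q : PowerSeries L) - 1 = T * φ ((Q : PowerSeries L) -
        (PowerSeries.trunc (K + 1) (Q : PowerSeries L) : PowerSeries L)) := by
      rw [map_sub, hφp, mul_sub]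
      rw [pow_one] at hT
      rw [hT]
    rw [h2, hc, map_mul, map_pow, hφX, mul_pow]
    exact Dvd.dvd.mul_left (Dvd.dvd.mul_right (Dvd.intro _ rfl) _) _
  have hunit : ∀ V : (PowerSeries L)ˣ, PowerSeries.coeff 0 (φ (V : PowerSeries L)) ≠ 0 := by
    intro V
    have h1 : IsUnit (φ (V : PowerSeries L)) := V.isUnit.map φ
    rw [PowerSeries.isUnit_iff_constantCoeff] at h1
    rw [PowerSeries.coeff_zero_eq_constantCoeff_apply]
    exact h1.ne_zero
  refine ⟨T, φ (M : PowerSeries L), φ (N : PowerSeries L), hT0, hunit M, hunit N, fun j => ?_⟩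
  rw [← hφp (q j), ← key j, map_mul, map_mul, map_pow, map_pow, map_pow]
  have h3 : T ^ w j * (φ (Q : PowerSeries L) ^ w j * φ (M : PowerSeries L) ^ r₁ j *
      φ (N : PowerSeries L) ^ r₂ j) - φ (M : PowerSeries L) ^ r₁ j * φ (N : PowerSeries L) ^ r₂ j =
      ((T * φ (Q : PowerSeries L)) ^ w j - 1 ^ w j) *
        (φ (M : PowerSeries L) ^ r₁ j * φ (N : PowerSeries L) ^ r₂ j) := by
    rw [one_pow, mul_pow]
    ring
  rw [h3]
  exact Dvd.dvd.mul_right (hdvd.trans (sub_dvd_pow_sub_pow _ _ _)) _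

end M5
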