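import Pool.Agent.M5.TB1
import Pool.Agent.M3.ArcIn

/-!
PIECE M5-TB3: from jets of the coordinates to arcs in a toric chart (generalization of `M3.jet_to_arc`, copy
`M3/ArcIn.lean` `ArcIn_closed` and adapt).

PROOF. Pass to the algebraic closure of `L` (as in `jet_to_arc`).  The jets are polynomials `J j = X^(w j) * q j`, `q j (0) ≠ 0`
(`h1`, `h2`).  `mono_solve` for `(w, r₁, r₂)`: `dt w r₁ r₂ = dt w₀ r₁ r₂ ≠ 0` since `w = w₀ + b r₁ + c r₂`.  `P₀ 0 := X^b * U₁`,
`P₀ 1 := X^c * U₂`.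
COUNT (level `K`). Let `x : Fin K ⊕ (Fin 2 × Fin K) → L` be the coefficients of `X^n`, `n < K`, of `T`, `U₁`, `U₂`, `F₀ := adjoin k (range x)`.
By `coeffs_of_comp` (with the congruence modulo `X^K`: the coefficients of order `< K` of `T^(w j) * aeval (X T) (q j)` are those of
`U₁^(r₁ j) * U₂^(r₂ j)`, in `F₀`) the coefficients of order `< K` of `q j` are in `F₀`.  `T₀` contains only indices `(j, n)` with
`n + 1 ≥ w j` (the other `c j n` are `0`, not algebraically independent); let `T₁` be the subset of the `(j, n)` with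
`n + 1 < w j + K`; the number of the removed ones is at most `∑ j, (m + 1 - w j - K)`, so `3 K ≤ T₁.card + A - ∑ w j` (in `ℤ`).
`alg_exchange`: a subset `T₂` of the index set of `x` with `T₁.card ≤ T₂.card`, independent.  So `A - ∑ w j ≥ 0` (`T₂.card ≤ 3 K`), and at
least `2 K - (A - ∑ w j)` of the coefficients of `U₁, U₂` are independent (drop the coefficients of `T`).  For `CodLe k P₀ K C`,
`C := A - ∑ w j + b + c`: the coefficient of `X^(n+b)` of `P₀ 0` is the one of `X^n` of `U₁`; drop the ones with `n + b ≥ K` (`≤ b` many), the same for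
`U₂`.  (If `K < b` etc. everything is dropped: `2 K ≤ C` is then still true? The number of dropped elements of `Fin K` is at most
`min b K`, fine.)
ORDERS. `y j (X T) = X^(w j) T^(w j) aeval (X T) (q j) ≡ X^(w j) U₁^(r₁ j) U₂^(r₂ j) = X^(w₀ j) (P₀ 0)^(r₁ j) (P₀ 1)^(r₂ j)` modulo `X^K`, and
`ev P₀ (yc w₀ r₁ r₂ f) = aeval (fun j => X^(w₀ j) (P₀ 0)^(r₁ j) (P₀ 1)^(r₂ j)) f` (`ev` is a ring homomorphism `evH`, `ev_X`, `ev_xA`).  If
`X^n ∣ aeval (jetS c) f`, `n ≤ K`, then `X^n` divides the value at `X T` (see `ArcIn_main`), so `X^n ∣ ev P₀ (yc .. f)`.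
Finally pass to `Om k` and all levels by `exists_cont P₀ K C` for the functions `f` of order `≤ K` at `P₀`; the exact orders: the
functions `xA 0`, `xA 1` have order `≥ b`, `≥ c` at the new arc `P` (`X^b ∣ P 0`, as `b ≤ K`), and for the upper bound use that
`exists_cont` only gives divisibility. If needed use instead `exists_gen P₀ K C h` (same coefficients of order `< K`, `Cod`), then
`exists_Om` (equivalence of divisibility): so the orders of `P 0`, `P 1` are exactly `b`, `c` (`b, c < K`).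
-/

open MvPolynomial

namespace M5

open MLD M3

universe u

/-- the polynomials with the power series `jetS c j` -/
private noncomputable def TB3_J {L : Type*} [CommRing L] {m : ℕ} (c : Fin 3 → Fin m → L)
    (j : Fin 3) : Polynomial L :=
  ∑ i : Fin m, Polynomial.C (c j i) * Polynomial.X ^ (i.val + 1)

private theorem TB3_J_coe {L : Type*} [CommRing L] {m : ℕ} (c : Fin 3 → Fin m → L)
    (j : Fin 3) : (TB3_J c j : PowerSeries L) = jetS c j := by
  unfold TB3_J jetS
  rw [← Polynomial.coeToPowerSeries.ringHom_apply, map_sum]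
  refine Finset.sum_congr rfl fun i _ => ?_
  rw [map_mul, map_pow, Polynomial.coeToPowerSeries.ringHom_apply,
    Polynomial.coeToPowerSeries.ringHom_apply, Polynomial.coe_C, Polynomial.coe_X]

private theorem TB3_J_coeff {L : Type*} [CommRing L] {m : ℕ} (c : Fin 3 → Fin m → L)
    (j : Fin 3) (i : Fin m) : (TB3_J c j).coeff (i.val + 1) = c j i := by
  unfold TB3_J
  rw [Polynomial.finsetSum_coeff, Finset.sum_eq_single i]
  · rw [Polynomial.coeff_C_mul_X_pow, if_pos rfl]
  · intro i' _ hi'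
    rw [Polynomial.coeff_C_mul_X_pow, if_neg]
    intro h
    apply hi'
    apply Fin.ext
    omega
  · intro h
    exact absurd (Finset.mem_univ i) h

private theorem TB3_dvd_coe {L : Type*} [CommRing L] (p : Polynomial L) (n : ℕ) :
    (PowerSeries.X : PowerSeries L) ^ n ∣ (p : PowerSeries L) ↔ Polynomial.X ^ n ∣ p := by
  rw [PowerSeries.X_pow_dvd_iff, Polynomial.X_pow_dvd_iff]
  simp only [Polynomial.coeff_coe]

private theorem TB3_aeval_coe {k L : Type*} [CommRing k] [CommRing L] [Algebra k L]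
    (J : Fin 3 → Polynomial L) (f : MvPolynomial (Fin 3) k) :
    ((aeval J f : Polynomial L) : PowerSeries L) =
      aeval (fun j => (J j : PowerSeries L)) f := by
  induction f using MvPolynomial.induction_on with
  | C a =>
    rw [aeval_C, aeval_C, Polynomial.algebraMap_apply, Polynomial.coe_C,
      PowerSeries.algebraMap_apply]
  | add p q hp hq => rw [map_add, map_add, Polynomial.coe_add, hp, hq]
  | mul_X p j hp => rw [map_mul, map_mul, Polynomial.coe_mul, hp, aeval_X, aeval_X]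

private theorem TB3_aeval_comp {k L : Type*} [CommRing k] [CommRing L] [Algebra k L]
    (v : PowerSeries L) (J : Fin 3 → Polynomial L) (f : MvPolynomial (Fin 3) k) :
    Polynomial.aeval v (aeval J f : Polynomial L) =
      aeval (fun j => Polynomial.aeval v (J j)) f := by
  induction f using MvPolynomial.induction_on with
  | C a =>
    rw [aeval_C, aeval_C, Polynomial.algebraMap_apply, Polynomial.aeval_C,
      ← IsScalarTower.algebraMap_apply k L (PowerSeries L)]
  | add p q hp hq => rw [map_add, map_add, map_add, hp, hq]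
  | mul_X p j hp => rw [map_mul, map_mul, map_mul, hp, aeval_X, aeval_X]

private theorem TB3_congr {k R : Type*} [CommRing k] [CommRing R] [Algebra k R]
    {a z : Fin 3 → PowerSeries R} {N : ℕ}
    (h : ∀ j, (PowerSeries.X : PowerSeries R) ^ N ∣ a j - z j) (p : MvPolynomial (Fin 3) k) :
    (PowerSeries.X : PowerSeries R) ^ N ∣ aeval a p - aeval z p := by
  induction p using MvPolynomial.induction_on with
  | C a => rw [aeval_C, aeval_C, sub_self]; exact dvd_zero _
  | add p q hp hq =>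
    rw [map_add, map_add, add_sub_add_comm]
    exact dvd_add hp hq
  | mul_X p j hp =>
    rw [map_mul, map_mul, aeval_X, aeval_X]
    have : aeval a p * a j - aeval z p * z j =
        (aeval a p - aeval z p) * a j + aeval z p * (a j - z j) := by ring
    rw [this]
    exact dvd_add (Dvd.dvd.mul_right hp _) (Dvd.dvd.mul_left (h j) _)

/-- the value of a polynomial in the coordinates in the chart -/
private theorem TB3_ev_yc {k : Type u} [Field k] {R : Type*} [CommRing R] [Algebra k R]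
    (P : Fin 2 → PowerSeries R) (w r₁ r₂ : Fin 3 → ℕ) (f : MvPolynomial (Fin 3) k) :
    ev P (yc w r₁ r₂ f) =
      aeval (fun j => PowerSeries.X ^ w j * P 0 ^ r₁ j * P 1 ^ r₂ j) f := by
  induction f using MvPolynomial.induction_on with
  | C a =>
    rw [yc, aeval_C, aeval_C, PowerSeries.algebraMap_apply, PowerSeries.algebraMap_apply, ev_C,
      MvPolynomial.algebraMap_apply, aeval_C, PowerSeries.algebraMap_apply]
    rfl
  | add p q hp hq => rw [map_add, map_add, ev_add, hp, hq]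
  | mul_X p j hp =>
    have h1 : ev P (yc w r₁ r₂ (X j) : AA k) = PowerSeries.X ^ w j * P 0 ^ r₁ j * P 1 ^ r₂ j := by
      rw [yc, aeval_X, ev_mul, ev_mul, ev_pow, ev_pow, ev_pow, ev_X, ev_xA, ev_xA]
    rw [map_mul, map_mul, ev_mul, hp, aeval_X, h1]

private theorem TB3_pow_mem {k L : Type*} [Field k] [Field L] [Algebra k L]
    (K : IntermediateField k L) (M : ℕ) (T : PowerSeries L)
    (hTK : ∀ n < M, PowerSeries.coeff n T ∈ K) (j : ℕ) :
    ∀ m < M, PowerSeries.coeff m (T ^ j) ∈ K := by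
  induction j with
  | zero =>
    intro m _
    rw [pow_zero, PowerSeries.coeff_one]
    split_ifs
    · exact one_mem K
    · exact zero_mem K
  | succ j ih =>
    intro m hm
    rw [pow_succ, PowerSeries.coeff_mul]
    refine sum_mem fun x hx => ?_
    rw [Finset.HasAntidiagonal.mem_antidiagonal] at hx
    exact mul_mem (ih _ (by omega)) (hTK _ (by omega))

private theorem TB3_mul_mem {k L : Type*} [Field k] [Field L] [Algebra k L]
    (K : IntermediateField k L) (M : ℕ) (S T : PowerSeries L)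
    (hS : ∀ n < M, PowerSeries.coeff n S ∈ K)
    (hT : ∀ n < M, PowerSeries.coeff n T ∈ K) :
    ∀ m < M, PowerSeries.coeff m (S * T) ∈ K := by
  intro m hm
  rw [PowerSeries.coeff_mul]
  refine sum_mem fun x hx => ?_
  rw [Finset.HasAntidiagonal.mem_antidiagonal] at hx
  exact mul_mem (hS _ (by omega)) (hT _ (by omega))

private theorem TB3_dvd {k : Type u} [Field k] {L L' : Type*} [Field L] [Algebra k L] [Field L']
    [Algebra k L'] (φ : L →ₐ[k] L') (P : Fin 2 → PowerSeries L) (f : AA k) (n : ℕ) :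
    (PowerSeries.X : PowerSeries L') ^ n ∣
      ev (fun j => PowerSeries.map (φ : L →+* L') (P j)) f ↔
    (PowerSeries.X : PowerSeries L) ^ n ∣ ev P f := by
  rw [← ev_map, PowerSeries.X_pow_dvd_iff, PowerSeries.X_pow_dvd_iff]
  refine forall_congr' fun i => forall_congr' fun _ => ?_
  rw [PowerSeries.coeff_map]
  exact map_eq_zero_iff _ (φ : L →+* L').injective

/-- generic continuation over `Om k`, with exact orders -/
private theorem TB3_cont {k : Type u} [Field k] {L : Type u} [Field L] [Algebra k L]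
    (P : Fin 2 → PowerSeries L) (m C : ℕ) (h : CodLe k P m C) :
    ∃ Q : Fin 2 → PowerSeries (Om k), Cod k Q C ∧ ∀ (f : AA k) (r : ℕ), r ≤ m →
      ((PowerSeries.X : PowerSeries L) ^ r ∣ ev P f ↔
      (PowerSeries.X : PowerSeries (Om k)) ^ r ∣ ev Q f) := by
  obtain ⟨L', _, _, _, _, Q, hQ1, hQ2⟩ := exists_gen P m C h
  obtain ⟨Q', hQ3, hQ4⟩ := exists_Om (k := k) Q
  refine ⟨Q', fun m => hQ3 m C (hQ2 m), fun f r hr => ?_⟩
  rw [← hQ4, ← TB3_dvd (IsScalarTower.toAlgHom k L L') P f r]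
  have h2 : ∀ j, (PowerSeries.X : PowerSeries L') ^ m ∣ Q j -
      PowerSeries.map ((IsScalarTower.toAlgHom k L L' : L →ₐ[k] L') : L →+* L') (P j) := by
    intro j
    rw [PowerSeries.X_pow_dvd_iff]
    intro n hn
    rw [map_sub, hQ1 j n hn, PowerSeries.coeff_map]
    exact sub_self _
  have h3 := (pow_dvd_pow (PowerSeries.X : PowerSeries L') hr).trans (ev_congr h2 f)
  constructor
  · intro h1
    exact (dvd_sub_left h1).1 h3
  · intro h1
    exact (dvd_sub_right h1).1 h3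

/-- the number of positions above a bound -/
private theorem TB3_card_fin (m c : ℕ) :
    (Finset.univ.filter fun n : Fin m => c ≤ n.val).card ≤ m - c := by
  rw [← Nat.card_Ico c m]
  refine Finset.card_le_card_of_injOn (fun n : Fin m => n.val) ?_ ?_
  · intro n hn
    have := (Finset.mem_filter.1 hn).2
    exact Finset.mem_coe.2 (Finset.mem_Ico.2 ⟨this, n.2⟩)
  · intro n _ n' _ hh
    exact Fin.ext hh

private theorem TB3_card {ι : Type*} [Fintype ι] [DecidableEq ι] (m : ℕ) (c : ι → ℕ) :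
    (Finset.univ.filter fun s : ι × Fin m => c s.1 ≤ s.2.val).card ≤ ∑ j, (m - c j) := by
  classical
  have h1 : (Finset.univ.filter fun s : ι × Fin m => c s.1 ≤ s.2.val) ⊆
      Finset.univ.biUnion fun j : ι =>
        (Finset.univ.filter fun n : Fin m => c j ≤ n.val).image fun n => (j, n) := by
    rintro ⟨j, n⟩ hs
    rw [Finset.mem_biUnion]
    exact ⟨j, Finset.mem_univ _, Finset.mem_image.2 ⟨n, Finset.mem_filter.2
      ⟨Finset.mem_univ _, (Finset.mem_filter.1 hs).2⟩, rfl⟩⟩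
  refine (Finset.card_le_card h1).trans (Finset.card_biUnion_le.trans ?_)
  exact Finset.sum_le_sum fun j _ => Finset.card_image_le.trans (TB3_card_fin m (c j))

/-- the arithmetic part -/
private theorem TB3_main {k : Type u} [Field k] {L : Type u} [Field L] [Algebra k L]
    {m : ℕ} (c : Fin 3 → Fin m → L) (w w₀ r₁ r₂ : Fin 3 → ℕ)
    (b c' : ℕ) (hw : ∀ j, w j = w₀ j + b * r₁ j + c' * r₂ j)
    (q : Fin 3 → Polynomial L) (hq : ∀ j, TB3_J c j = Polynomial.X ^ w j * q j)
    (K : ℕ) (T U₁ U₂ : PowerSeries L)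
    (hTU : ∀ j, (PowerSeries.X : PowerSeries L) ^ K ∣
        T ^ w j * Polynomial.aeval (PowerSeries.X * T) (q j) - U₁ ^ r₁ j * U₂ ^ r₂ j)
    (P : Fin 2 → PowerSeries L) (hP0 : P 0 = PowerSeries.X ^ b * U₁)
    (hP1 : P 1 = PowerSeries.X ^ c' * U₂)
    (f : MvPolynomial (Fin 3) k) (n : ℕ) (hn : n ≤ K)
    (h : (PowerSeries.X : PowerSeries L) ^ n ∣ aeval (jetS c) f) :
    (PowerSeries.X : PowerSeries L) ^ n ∣ ev P (yc w₀ r₁ r₂ f) := by
  have h1 : (Polynomial.X : Polynomial L) ^ n ∣ aeval (TB3_J c) f := by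
    rw [← TB3_dvd_coe, TB3_aeval_coe]
    simp only [TB3_J_coe]
    exact h
  obtain ⟨g, hg⟩ := h1
  have h2 := congrArg (Polynomial.aeval (PowerSeries.X * T)) hg
  rw [TB3_aeval_comp, map_mul, map_pow, Polynomial.aeval_X, mul_pow] at h2
  have h3 : (PowerSeries.X : PowerSeries L) ^ n ∣
      aeval (fun j => Polynomial.aeval (PowerSeries.X * T) (TB3_J c j)) f := by
    rw [h2, mul_assoc]
    exact Dvd.intro _ rfl
  have h4 : ∀ j, (PowerSeries.X : PowerSeries L) ^ K ∣
      Polynomial.aeval (PowerSeries.X * T) (TB3_J c j) -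
        PowerSeries.X ^ w₀ j * P 0 ^ r₁ j * P 1 ^ r₂ j := by
    intro j
    have h5 : Polynomial.aeval (PowerSeries.X * T) (TB3_J c j) -
        PowerSeries.X ^ w₀ j * P 0 ^ r₁ j * P 1 ^ r₂ j = PowerSeries.X ^ w j *
        (T ^ w j * Polynomial.aeval (PowerSeries.X * T) (q j) - U₁ ^ r₁ j * U₂ ^ r₂ j) := by
      have h6 : (PowerSeries.X : PowerSeries L) ^ w j =
          PowerSeries.X ^ w₀ j * (PowerSeries.X ^ b) ^ r₁ j * (PowerSeries.X ^ c') ^ r₂ j := by
        rw [hw j, pow_add, pow_add, pow_mul, pow_mul]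
      rw [hq, map_mul, map_pow, Polynomial.aeval_X, mul_pow, hP0, hP1, mul_pow, mul_pow]
      linear_combination (U₁ ^ r₁ j * U₂ ^ r₂ j) * h6
    rw [h5]
    exact Dvd.dvd.mul_left (hTU j) _
  have h5 := (pow_dvd_pow (PowerSeries.X : PowerSeries L) hn).trans (TB3_congr h4 f)
  rw [TB3_ev_yc]
  exact (dvd_sub_right h3).1 h5

/-- the count -/
private theorem TB3_cod {k : Type u} [Field k] {L : Type u} [Field L] [Algebra k L]
    {K C₀ : ℕ} (x : Fin K ⊕ (Fin 2 × Fin K) → L) (U P : Fin 2 → PowerSeries L)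
    (hxr : ∀ s : Fin 2 × Fin K, x (Sum.inr s) = PowerSeries.coeff s.2.val (U s.1))
    (β : Fin 2 → ℕ) (hβ : ∀ j, β j ≤ K) (hP : ∀ j, P j = PowerSeries.X ^ β j * U j)
    (T₂ : Finset (Fin K ⊕ (Fin 2 × Fin K)))
    (hi : AlgebraicIndependent k (fun t : T₂ => x t)) (hc : 3 * K ≤ T₂.card + C₀) :
    CodLe k P K (C₀ + β 0 + β 1) := by
  classical
  have h5 := Finset.card_toLeft_add_card_toRight (u := T₂)
  have h6 : T₂.toLeft.card ≤ K := by
    refine (Finset.card_le_univ _).trans ?_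
    rw [Fintype.card_fin]
  let g : Fin 2 × Fin K → Fin 2 × Fin K := fun t =>
    (t.1, ⟨t.2.val - β t.1, lt_of_le_of_lt (Nat.sub_le _ _) t.2.2⟩)
  let T₃ : Finset (Fin 2 × Fin K) :=
    Finset.univ.filter fun t => β t.1 ≤ t.2.val ∧ g t ∈ T₂.toRight
  refine ⟨T₃, ?_, ?_⟩
  · have h7 : T₂.toRight ⊆ T₃.image g ∪
        Finset.univ.filter fun s : Fin 2 × Fin K => K - β s.1 ≤ s.2.val := by
      rintro ⟨i, n⟩ hs
      by_cases hh : K - β i ≤ n.val
      · exact Finset.mem_union_right _ (Finset.mem_filter.2 ⟨Finset.mem_univ _, hh⟩)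
      · refine Finset.mem_union_left _ (Finset.mem_image.2 ⟨(i, ⟨n.val + β i, by omega⟩), ?_, ?_⟩)
        · refine Finset.mem_filter.2 ⟨Finset.mem_univ _, Nat.le_add_left _ _, ?_⟩
          have : g (i, ⟨n.val + β i, by omega⟩) = (i, n) := by
            refine Prod.ext rfl (Fin.ext ?_)
            show n.val + β i - β i = n.val
            omega
          rw [this]
          exact hs
        · refine Prod.ext rfl (Fin.ext ?_)
          show n.val + β i - β i = n.val
          omega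
    have h8 := (Finset.card_le_card h7).trans (Finset.card_union_le _ _)
    have h9 : (T₃.image g).card ≤ T₃.card := Finset.card_image_le
    have h10 := TB3_card K (fun i : Fin 2 => K - β i)
    rw [Fin.sum_univ_two] at h10
    have h11 := hβ 0
    have h12 := hβ 1
    omega
  · have hmem : ∀ t : T₃, Sum.inr (g t.1) ∈ T₂ := fun t =>
      Finset.mem_toRight.1 (Finset.mem_filter.1 t.2).2.2
    have h7 : Function.Injective (fun t : T₃ => (⟨Sum.inr (g t.1), hmem t⟩ : T₂)) := by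
      intro s t hst
      simp only [Subtype.mk.injEq, Sum.inr.injEq, g, Prod.mk.injEq, Fin.mk.injEq] at hst
      obtain ⟨h1, h2⟩ := hst
      have h3 := (Finset.mem_filter.1 s.2).2.1
      have h4 := (Finset.mem_filter.1 t.2).2.1
      apply Subtype.ext
      refine Prod.ext h1 (Fin.ext ?_)
      rw [h1] at h2 h3
      omega
    have h8 := hi.comp _ h7
    have h9 : (fun t : T₃ => PowerSeries.coeff t.1.2.val (P t.1.1)) =
        (fun t : T₂ => x t) ∘ (fun t : T₃ => (⟨Sum.inr (g t.1), hmem t⟩ : T₂)) := by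
      funext t
      have h3 := (Finset.mem_filter.1 t.2).2.1
      show PowerSeries.coeff t.1.2.val (P t.1.1) = x (Sum.inr (g t.1))
      rw [hxr, hP, PowerSeries.coeff_X_pow_mul', if_pos h3]
    rw [h9]
    exact h8

private theorem TB3_det (w w₀ r₁ r₂ : Fin 3 → ℕ)
    (b c' : ℕ) (hw : ∀ j, w j = w₀ j + b * r₁ j + c' * r₂ j) :
    dt (vz w) (vz r₁) (vz r₂) = dt (vz w₀) (vz r₁) (vz r₂) := by
  unfold dt vz
  simp only [Matrix.det_fin_three, Matrix.of_apply, Matrix.cons_val_zero, Matrix.cons_val_one,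
    Matrix.cons_val]
  simp only [hw]
  push_cast
  ring

private theorem TB3_closed {k : Type u} [Field k] [CharZero k] {L : Type u} [Field L]
    [Algebra k L] [IsAlgClosed L]
    {m : ℕ} (c : Fin 3 → Fin m → L) (A : ℕ) (T₀ : Finset (Fin 3 × Fin m))
    (hT : 3 * (m + 1) ≤ T₀.card + A)
    (hind : AlgebraicIndependent k (fun t : T₀ => c t.1.1 t.1.2)) (w w₀ r₁ r₂ : Fin 3 → ℕ)
    (b c' : ℕ) (hw : ∀ j, w j = w₀ j + b * r₁ j + c' * r₂ j)
    (hdet : dt (vz w₀) (vz r₁) (vz r₂) ≠ 0)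
    (h1 : ∀ j, (PowerSeries.X : PowerSeries L) ^ w j ∣ jetS c j)
    (h2 : ∀ j, ¬ (PowerSeries.X : PowerSeries L) ^ (w j + 1) ∣ jetS c j) (hw0 : ∀ j, 0 < w j)
    (K : ℕ) (hK : ∀ j, K + w j ≤ m + 1) (hb : b < K) (hc : c' < K) :
    ∃ (C : ℕ) (P : Fin 2 → PowerSeries (Om k)), (C : ℤ) + ∑ j, (w j : ℤ) = A + b + c' ∧
      Cod k P C ∧ (PowerSeries.X : PowerSeries (Om k)) ^ b ∣ P 0 ∧
      ¬ (PowerSeries.X : PowerSeries (Om k)) ^ (b + 1) ∣ P 0 ∧
      (PowerSeries.X : PowerSeries (Om k)) ^ c' ∣ P 1 ∧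
      ¬ (PowerSeries.X : PowerSeries (Om k)) ^ (c' + 1) ∣ P 1 ∧
      ∀ (f : MvPolynomial (Fin 3) k) (n : ℕ), n ≤ K →
        (PowerSeries.X : PowerSeries L) ^ n ∣ aeval (jetS c) f →
        (PowerSeries.X : PowerSeries (Om k)) ^ n ∣ ev P (yc w₀ r₁ r₂ f) := by
  classical
  have : CharZero L := charZero_of_injective_algebraMap (algebraMap k L).injective
  have hJ : ∀ j, (Polynomial.X : Polynomial L) ^ w j ∣ TB3_J c j := by
    intro j
    rw [← TB3_dvd_coe, TB3_J_coe]
    exact h1 j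
  choose q hq using hJ
  have hq0 : ∀ j, (q j).coeff 0 ≠ 0 := by
    intro j h0
    apply h2 j
    rw [← TB3_J_coe, TB3_dvd_coe, hq, pow_succ]
    exact mul_dvd_mul_left _ (Polynomial.X_dvd_iff.2 h0)
  obtain ⟨T, U₁, U₂, hT0, hU₁, hU₂, hTU⟩ := mono_solve w r₁ r₂
    (by rw [TB3_det w w₀ r₁ r₂ b c' hw]; exact hdet) q hq0 K
  obtain ⟨U, hU0, hU1⟩ : ∃ U : Fin 2 → PowerSeries L, U 0 = U₁ ∧ U 1 = U₂ :=
    ⟨![U₁, U₂], rfl, rfl⟩
  obtain ⟨β, hβ0, hβ1⟩ : ∃ β : Fin 2 → ℕ, β 0 = b ∧ β 1 = c' := ⟨![b, c'], rfl, rfl⟩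
  obtain ⟨P, hP⟩ : ∃ P : Fin 2 → PowerSeries L, ∀ j, P j = PowerSeries.X ^ β j * U j :=
    ⟨_, fun j => rfl⟩
  obtain ⟨x, hxl, hxr⟩ : ∃ x : Fin K ⊕ (Fin 2 × Fin K) → L,
      (∀ n : Fin K, x (Sum.inl n) = PowerSeries.coeff n.val T) ∧
      ∀ s : Fin 2 × Fin K, x (Sum.inr s) = PowerSeries.coeff s.2.val (U s.1) :=
    ⟨Sum.elim (fun n => PowerSeries.coeff n.val T) (fun s => PowerSeries.coeff s.2.val (U s.1)),
      fun _ => rfl, fun _ => rfl⟩
  obtain ⟨F, hF⟩ : ∃ F : IntermediateField k L,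
      F = IntermediateField.adjoin k (Set.range x) := ⟨_, rfl⟩
  have hx : ∀ s, x s ∈ F := fun s => by
    rw [hF]
    exact IntermediateField.subset_adjoin k _ ⟨s, rfl⟩
  have htK : ∀ n < K, PowerSeries.coeff n T ∈ F := fun n hn => by
    rw [← hxl ⟨n, hn⟩]
    exact hx _
  have hUK : ∀ j, ∀ n < K, PowerSeries.coeff n (U j) ∈ F := fun j n hn => by
    rw [← hxr (j, ⟨n, hn⟩)]
    exact hx _
  have hqK : ∀ j, ∀ n < K, (q j).coeff n ∈ F := by
    intro j
    refine coeffs_of_comp F (w j) K T hT0 htK (q j) fun n hn => ?_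
    have h3 := (PowerSeries.X_pow_dvd_iff.1 (hTU j)) n hn
    rw [map_sub, sub_eq_zero] at h3
    rw [h3, ← hU0, ← hU1]
    exact TB3_mul_mem F K _ _ (TB3_pow_mem F K _ (hUK 0) _) (TB3_pow_mem F K _ (hUK 1) _) n hn
  obtain ⟨y, hy1, hy2⟩ : ∃ y : Fin 3 × Fin m → L,
      (∀ s : Fin 3 × Fin m, ¬ w s.1 + K ≤ s.2.val + 1 → y s = c s.1 s.2) ∧
      (∀ s : Fin 3 × Fin m, w s.1 + K ≤ s.2.val + 1 → y s = 0) :=
    ⟨fun s => if w s.1 + K ≤ s.2.val + 1 then 0 else c s.1 s.2,
      fun s h => if_neg h, fun s h => if_pos h⟩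
  have hyK : ∀ s : Fin 3 × Fin m, y s ∈ F := by
    intro s
    by_cases hs : w s.1 + K ≤ s.2.val + 1
    · rw [hy2 s hs]
      exact F.zero_mem
    · rw [hy1 s hs, ← TB3_J_coeff c s.1 s.2, hq, Polynomial.coeff_X_pow_mul']
      split_ifs with h
      · refine hqK _ _ ?_
        omega
      · exact F.zero_mem
  let T₁ : Finset (Fin 3 × Fin m) := T₀.filter fun s => ¬ w s.1 + K ≤ s.2.val + 1
  have hT₁ : T₀.card ≤ T₁.card + ∑ j, (m - (w j + K - 1)) := by
    have h3 : T₀ ⊆ T₁ ∪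
        Finset.univ.filter fun s : Fin 3 × Fin m => w s.1 + K - 1 ≤ s.2.val := by
      intro s hs
      by_cases hh : w s.1 + K ≤ s.2.val + 1
      · exact Finset.mem_union_right _ (Finset.mem_filter.2 ⟨Finset.mem_univ _, by omega⟩)
      · exact Finset.mem_union_left _ (Finset.mem_filter.2 ⟨hs, hh⟩)
    refine (Finset.card_le_card h3).trans ((Finset.card_union_le _ _).trans ?_)
    exact Nat.add_le_add_left (TB3_card m fun j => w j + K - 1) _
  have hi₁ : AlgebraicIndependent k (fun t : T₁ => y t) := by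
    have h3 : (fun t : T₁ => y t) = (fun t : T₀ => c t.1.1 t.1.2) ∘
        (fun t : T₁ => (⟨t.1, (Finset.mem_filter.1 t.2).1⟩ : T₀)) := by
      funext t
      exact hy1 t.1 (Finset.mem_filter.1 t.2).2
    rw [h3]
    exact hind.comp _ fun s t hst => Subtype.ext (congrArg (fun z : T₀ => z.1) hst)
  obtain ⟨T₂, hT₂, hi₂⟩ := alg_exchange x y
    (fun s => by
      rw [← hF]
      exact isAlgebraic_algebraMap (⟨y s, hyK s⟩ : F)) T₁ hi₁
  have hc1 : T₂.card ≤ 3 * K := by
    refine (Finset.card_le_univ T₂).trans ?_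
    rw [Fintype.card_sum, Fintype.card_prod, Fintype.card_fin, Fintype.card_fin]
    omega
  have hsum : ∑ j, (m - (w j + K - 1)) + ∑ j, w j + 3 * K = 3 * (m + 1) := by
    rw [Fin.sum_univ_three, Fin.sum_univ_three]
    have h3 := hK 0
    have h4 := hK 1
    have h5 := hK 2
    have h6 := hw0 0
    have h7 := hw0 1
    have h8 := hw0 2
    omega
  have hA : ∑ j, w j ≤ A := by omega
  have hcod := TB3_cod (C₀ := A - ∑ j, w j) x U P hxr β
    (fun j => by
      fin_cases j
      · show β 0 ≤ K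
        omega
      · show β 1 ≤ K
        omega) hP T₂ hi₂ (by omega)
  have hcont := TB3_cont P K _ hcod
  obtain ⟨Q, hQ1, hQ2⟩ := hcont
  have hP0 : P 0 = PowerSeries.X ^ b * U₁ := by rw [hP, hβ0, hU0]
  have hP1 : P 1 = PowerSeries.X ^ c' * U₂ := by rw [hP, hβ1, hU1]
  have hne : ∀ (n : ℕ) (V : PowerSeries L), PowerSeries.coeff 0 V ≠ 0 →
      ¬ (PowerSeries.X : PowerSeries L) ^ (n + 1) ∣ PowerSeries.X ^ n * V := by
    intro n V hV h
    rw [pow_succ] at h
    have h3 := (mul_dvd_mul_iff_left (pow_ne_zero n (PowerSeries.X_ne_zero (R := L)))).1 h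
    rw [PowerSeries.X_dvd_iff] at h3
    exact hV (by rw [PowerSeries.coeff_zero_eq_constantCoeff_apply]; exact h3)
  have hev : ∀ j (n : ℕ), n ≤ K → ((PowerSeries.X : PowerSeries L) ^ n ∣ P j ↔
      (PowerSeries.X : PowerSeries (Om k)) ^ n ∣ Q j) := by
    intro j n hn
    have h3 := hQ2 (xA j) n hn
    rwa [ev_xA, ev_xA] at h3
  refine ⟨A - ∑ j, w j + β 0 + β 1, Q, ?_, hQ1, ?_, ?_, ?_, ?_, ?_⟩
  · rw [hβ0, hβ1]
    have h3 : ((∑ j, w j : ℕ) : ℤ) = ∑ j, (w j : ℤ) := by push_cast; rfl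
    rw [← h3]
    omega
  · rw [← hev 0 b hb.le, hP0]
    exact Dvd.intro _ rfl
  · rw [← hev 0 (b + 1) hb, hP0]
    exact hne b U₁ hU₁
  · rw [← hev 1 c' hc.le, hP1]
    exact Dvd.intro _ rfl
  · rw [← hev 1 (c' + 1) hc, hP1]
    exact hne c' U₂ hU₂
  · intro f n hn hf
    rw [← hQ2 _ n hn]
    exact TB3_main c w w₀ r₁ r₂ b c' hw q hq K T U₁ U₂ hTU P hP0 hP1 f n hn hf

private theorem TB3_map {L L' : Type*} [CommRing L] [CommRing L'] (φ : L →+* L') {m : ℕ}
    (c : Fin 3 → Fin m → L) (j : Fin 3) :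
    PowerSeries.map φ (jetS c j) = jetS (fun j i => φ (c j i)) j := by
  unfold jetS
  rw [map_sum]
  refine Finset.sum_congr rfl fun i _ => ?_
  rw [map_mul, map_pow, PowerSeries.map_C, PowerSeries.map_X]

private theorem TB3_map_dvd {L L' : Type*} [Field L] [Field L'] (φ : L →+* L')
    (p : PowerSeries L) (n : ℕ) :
    (PowerSeries.X : PowerSeries L') ^ n ∣ PowerSeries.map φ p ↔
      (PowerSeries.X : PowerSeries L) ^ n ∣ p := by
  rw [PowerSeries.X_pow_dvd_iff, PowerSeries.X_pow_dvd_iff]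
  simp only [PowerSeries.coeff_map, map_eq_zero]

private theorem TB3_map_aeval {k L L' : Type*} [CommRing k] [CommRing L] [CommRing L']
    [Algebra k L] [Algebra k L'] (φ : L →ₐ[k] L') (a : Fin 3 → PowerSeries L)
    (f : MvPolynomial (Fin 3) k) :
    PowerSeries.map (φ : L →+* L') (aeval a f) =
      aeval (fun j => PowerSeries.map (φ : L →+* L') (a j)) f := by
  induction f using MvPolynomial.induction_on with
  | C c =>
    rw [aeval_C, aeval_C, PowerSeries.algebraMap_apply, PowerSeries.algebraMap_apply,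
      PowerSeries.map_C]
    congr 1
    exact φ.commutes c
  | add p q hp hq => rw [map_add, map_add, map_add, hp, hq]
  | mul_X p j hp => rw [map_mul, map_mul, map_mul, hp, aeval_X, aeval_X]

theorem tjet_to_arc {k : Type u} [Field k] [CharZero k] {L : Type u} [Field L] [Algebra k L]
    {m : ℕ} (c : Fin 3 → Fin m → L) (A : ℕ) (T₀ : Finset (Fin 3 × Fin m))
    (hT : 3 * (m + 1) ≤ T₀.card + A)
    (hind : AlgebraicIndependent k (fun t : T₀ => c t.1.1 t.1.2)) (w w₀ r₁ r₂ : Fin 3 → ℕ)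
    (b c' : ℕ) (hw : ∀ j, w j = w₀ j + b * r₁ j + c' * r₂ j)
    (hdet : dt (vz w₀) (vz r₁) (vz r₂) ≠ 0)
    (h1 : ∀ j, (PowerSeries.X : PowerSeries L) ^ w j ∣ jetS c j)
    (h2 : ∀ j, ¬ (PowerSeries.X : PowerSeries L) ^ (w j + 1) ∣ jetS c j) (hw0 : ∀ j, 0 < w j)
    (K : ℕ) (hK : ∀ j, K + w j ≤ m + 1) (hb : b < K) (hc : c' < K) :
    ∃ (C : ℕ) (P : Fin 2 → PowerSeries (Om k)), (C : ℤ) + ∑ j, (w j : ℤ) = A + b + c' ∧
      Cod k P C ∧ (PowerSeries.X : PowerSeries (Om k)) ^ b ∣ P 0 ∧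
      ¬ (PowerSeries.X : PowerSeries (Om k)) ^ (b + 1) ∣ P 0 ∧
      (PowerSeries.X : PowerSeries (Om k)) ^ c' ∣ P 1 ∧
      ¬ (PowerSeries.X : PowerSeries (Om k)) ^ (c' + 1) ∣ P 1 ∧
      ∀ (f : MvPolynomial (Fin 3) k) (n : ℕ), n ≤ K →
        (PowerSeries.X : PowerSeries L) ^ n ∣ aeval (jetS c) f →
        (PowerSeries.X : PowerSeries (Om k)) ^ n ∣ ev P (yc w₀ r₁ r₂ f) := by
  let φ : L →ₐ[k] AlgebraicClosure L := IsScalarTower.toAlgHom k L (AlgebraicClosure L)
  have hj : ∀ j, jetS (fun j i => φ (c j i)) j = PowerSeries.map (φ : L →+* AlgebraicClosure L)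
      (jetS c j) := fun j => (TB3_map (φ : L →+* AlgebraicClosure L) c j).symm
  have hφ : Function.Injective φ := φ.toRingHom.injective
  obtain ⟨C, P, hC, hP1, hP2, hP3, hP4, hP5, hP6⟩ := TB3_closed (k := k)
    (L := AlgebraicClosure L) (fun j i => φ (c j i)) A T₀ hT (hind.map' hφ) w w₀ r₁ r₂ b c' hw
    hdet (fun j => by rw [hj, TB3_map_dvd]; exact h1 j)
    (fun j => by rw [hj, TB3_map_dvd]; exact h2 j) hw0 K hK hb hc
  refine ⟨C, P, hC, hP1, hP2, hP3, hP4, hP5, fun f n hn h => hP6 f n hn ?_⟩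
  have h4 : (jetS fun j i => φ (c j i)) =
      fun j => PowerSeries.map (φ : L →+* AlgebraicClosure L) (jetS c j) := funext hj
  rw [h4, ← TB3_map_aeval, TB3_map_dvd]
  exact h

end M5
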