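import Pool.Agent.M5.TB3
import Pool.Agent.M5.TB0
import Pool.Agent.M3.JetE
import Pool.Agent.M3.Ev

/-!
PIECE M5-TB4: from divisors to arcs in a toric chart.

PROOF. `w' j := E.ord (xx k j) = w j + b r₁ j + c r₂ j` (natural numbers `> 0`).  `clear_den s m`: `κ`; `κ₀ := ∑ j, κ j * w' j`.
`K := m + κ₀ + b + c + 1`, `exists_jetE E hE A hA m' _` with `m' := K + ∑ w' j`: jets `c`, `T₀`; `h1`, `h2` of `tjet_to_arc` by the two order
statements for `f = X j`.  `tjet_to_arc` gives `C, P`.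
For `F`, `n ≤ m`: `low_high m F`: `F = F₁ + F₂`.  `X^m ∣ ev P (tc .. F₂)` (`tc_ge`, `ev_dvd`: `X^m ∣ f → X^m ∣ ev P f`).  `E.ge n (tK s F₁)` since `E.ge n (tK s F)`
and `E.ge m (tK s F₂)` (`tK_ge` with `c = 1`: `ord (chi (s l)) = pr (s l) w' = pr (s l) w + b pr (s l) r₁ + c pr (s l) r₂ ≥ 1`).  `clear_den`: `G` with
`toFF G = toFF (monomial κ 1) * tK s F₁`, so `G = 0` or `E.ord (toFF G) ≥ n + κ₀`, so `X^(n + κ₀) ∣ aeval (jetS c) G` (exists_jetE), so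
`X^(n + κ₀) ∣ ev P (yc .. G) = ev P (yc .. (monomial κ 1)) * ev P (tc .. F₁)`; the order of
`ev P (yc .. (monomial κ 1)) = ∏ j, (X^(w j) * (P 0)^(r₁ j) * (P 1)^(r₂ j))^(κ j)` is exactly `κ₀` (orders of `P 0`, `P 1` are `b`, `c`), so
`X^n ∣ ev P (tc .. F₁)`.
-/

open MvPolynomial

namespace M5

open MLD M3

universe u

private theorem TB4_not_dvd_prod {R : Type*} [CommRing R] [IsDomain R] {U V : PowerSeries R}
    (hU : ¬ PowerSeries.X ∣ U) (hV : ¬ PowerSeries.X ∣ V) (κ r₁ r₂ : Fin 3 → ℕ) :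
    ¬ PowerSeries.X ∣ ∏ j, (U ^ r₁ j * V ^ r₂ j) ^ κ j := by
  intro h
  obtain ⟨j, -, hj⟩ := (PowerSeries.X_prime (R := R)).exists_mem_finset_dvd h
  have h1 := (PowerSeries.X_prime (R := R)).dvd_of_dvd_pow hj
  rcases (PowerSeries.X_prime (R := R)).dvd_or_dvd h1 with h2 | h2
  · exact hU ((PowerSeries.X_prime (R := R)).dvd_of_dvd_pow h2)
  · exact hV ((PowerSeries.X_prime (R := R)).dvd_of_dvd_pow h2)

private theorem TB4_cancel {R : Type*} [CommRing R] [IsDomain R] {Y Z : PowerSeries R}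
    (hY : ¬ PowerSeries.X ∣ Y) {n a : ℕ}
    (h : (PowerSeries.X : PowerSeries R) ^ (n + a) ∣ PowerSeries.X ^ a * Y * Z) :
    (PowerSeries.X : PowerSeries R) ^ n ∣ Z := by
  have h1 : (PowerSeries.X : PowerSeries R) ^ a * PowerSeries.X ^ n ∣
      PowerSeries.X ^ a * (Y * Z) := by
    rw [← pow_add, add_comm, ← mul_assoc]
    exact h
  have h2 : (PowerSeries.X : PowerSeries R) ^ n ∣ Y * Z :=
    (mul_dvd_mul_iff_left (pow_ne_zero _ PowerSeries.X_ne_zero)).1 h1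
  exact (PowerSeries.X_prime (R := R)).pow_dvd_of_dvd_mul_left n hY h2

private theorem TB4_fac {R : Type*} [CommRing R] [IsDomain R] {Q : PowerSeries R} {b : ℕ}
    (h1 : (PowerSeries.X : PowerSeries R) ^ b ∣ Q)
    (h2 : ¬ (PowerSeries.X : PowerSeries R) ^ (b + 1) ∣ Q) :
    ∃ U : PowerSeries R, Q = PowerSeries.X ^ b * U ∧ ¬ PowerSeries.X ∣ U := by
  obtain ⟨U, hU⟩ := h1
  refine ⟨U, hU, fun h => h2 ?_⟩
  rw [hU, pow_succ]
  exact mul_dvd_mul_left _ h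

private theorem TB4_mono {k : Type u} [Field k] (κ : Fin 3 →₀ ℕ) :
    (monomial κ (1 : k)) = ∏ j, (X j : MvPolynomial (Fin 3) k) ^ κ j := by
  rw [monomial_eq, C_1, one_mul, Finsupp.prod_fintype _ _ fun i => pow_zero _]

private theorem TB4_ev_mono {k : Type u} [Field k] (P : Fin 2 → PowerSeries (Om k))
    (w r₁ r₂ : Fin 3 → ℕ) (κ : Fin 3 →₀ ℕ) :
    ev P (yc (k := k) w r₁ r₂ (monomial κ 1)) =
      ∏ j, (PowerSeries.X ^ w j * P 0 ^ r₁ j * P 1 ^ r₂ j) ^ κ j := by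
  rw [TB4_mono, map_prod]
  change evH P _ = _
  rw [map_prod]
  refine Finset.prod_congr rfl fun j _ => ?_
  rw [map_pow, map_pow, yc, aeval_X, map_mul, map_mul, map_pow, map_pow, map_pow]
  change (ev P PowerSeries.X ^ w j * ev P (xA 0) ^ r₁ j * ev P (xA 1) ^ r₂ j) ^ κ j = _
  rw [ev_X, ev_xA, ev_xA]

private theorem TB4_ord_mono {k : Type u} [Field k] (v : OrdFn k (FF k (Fin 3)))
    (κ : Fin 3 →₀ ℕ) :
    v.ord (toFF k (Fin 3) (monomial κ 1)) = ∑ j, (κ j : ℤ) * v.ord (xx k j) := by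
  rw [TB4_mono, map_prod, v.ord_prod]
  · refine Finset.sum_congr rfl fun j _ => ?_
    rw [map_pow]
    exact v.ord_pow (xx_ne j) _
  · intro j _
    rw [map_pow]
    exact pow_ne_zero _ (xx_ne j)

private theorem TB4_toFF_ne {k : Type u} [Field k] {G : MvPolynomial (Fin 3) k} (hG : G ≠ 0) :
    toFF k (Fin 3) G ≠ 0 := by
  intro h0
  apply hG
  have h2 : (algebraMap (MvPolynomial (Fin 3) k) (FF k (Fin 3))) G = 0 := h0
  exact (map_eq_zero_iff _ (IsFractionRing.injective _ _)).mp h2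

private theorem TB4_pr (m w r₁ r₂ : Fin 3 → ℤ) (b c : ℤ) :
    pr m (fun j => w j + b * r₁ j + c * r₂ j) = pr m w + b * pr m r₁ + c * pr m r₂ := by
  unfold pr
  rw [Finset.mul_sum, Finset.mul_sum, ← Finset.sum_add_distrib, ← Finset.sum_add_distrib]
  refine Finset.sum_congr rfl fun j _ => ?_
  ring

theorem tdiv_to_arc {k : Type u} [Field k] [CharZero k] {p : ℕ} (s : Fin p → Fin 3 → ℤ)
    (w r₁ r₂ : Fin 3 → ℕ) (hdet : dt (vz w) (vz r₁) (vz r₂) ≠ 0)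
    (hs0 : ∀ l, 0 < pr (s l) (vz w)) (hs1 : ∀ l, 0 ≤ pr (s l) (vz r₁))
    (hs2 : ∀ l, 0 ≤ pr (s l) (vz r₂)) (E : DivisorOver k (Fin 3)) (hE : E.CenterZero) (b c : ℕ)
    (hwE : ∀ j, E.ord (xx k j) = w j + b * r₁ j + c * r₂ j) (A : ℕ)
    (hA : E.logDisc ≤ (((A : ℕ) : ℝ) : EReal)) (m : ℕ) :
    ∃ (C : ℕ) (P : Fin 2 → PowerSeries (Om k)), (C : ℤ) + ∑ j, E.ord (xx k j) = A + b + c ∧
      Cod k P C ∧ ∀ (F : MvPolynomial (Fin p) k) (n : ℕ), n ≤ m →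
        (tK s F = 0 ∨ (n : ℤ) ≤ E.ord (tK s F)) →
        (PowerSeries.X : PowerSeries (Om k)) ^ n ∣ ev P (tc s w r₁ r₂ F) := by
  classical
  obtain ⟨w', hw'⟩ : ∃ w' : Fin 3 → ℕ, ∀ j, w' j = w j + b * r₁ j + c * r₂ j :=
    ⟨fun j => w j + b * r₁ j + c * r₂ j, fun _ => rfl⟩
  have hE' : ∀ j, E.ord (xx k j) = (w' j : ℤ) := by
    intro j
    rw [hwE, hw']
    push_cast
    ring
  have hw0 : ∀ j, 0 < w' j := by
    intro j
    have h1 := hE j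
    rw [hE' j] at h1
    exact_mod_cast h1
  obtain ⟨κ, hκ⟩ := clear_den (k := k) s m
  obtain ⟨κ₀, hκ₀⟩ : ∃ κ₀ : ℕ, κ₀ = ∑ j, κ j * w' j := ⟨_, rfl⟩
  obtain ⟨K, hK⟩ : ∃ K : ℕ, K = m + κ₀ + b + c + 1 := ⟨_, rfl⟩
  obtain ⟨m', hm'⟩ : ∃ m' : ℕ, m' = K + ∑ j, w' j := ⟨_, rfl⟩
  have hle : ∀ j, w' j ≤ ∑ j, w' j := fun j =>
    Finset.single_le_sum (f := w') (fun i _ => Nat.zero_le _) (Finset.mem_univ j)
  obtain ⟨L, _, _, cc, hj1, hj2, ⟨T, hTc, hTi⟩, -⟩ := exists_jetE E hE A hA m' (by omega)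
  have hx : ∀ j, aeval (jetS cc) (X j : MvPolynomial (Fin 3) k) = jetS cc j := fun j =>
    aeval_X _ _
  have h1 : ∀ j, (PowerSeries.X : PowerSeries L) ^ w' j ∣ jetS cc j := by
    intro j
    rw [← hx j]
    refine hj1 _ (X_ne_zero j) _ (hE' j).ge ?_
    have := hle j
    omega
  have h2 : ∀ j, ¬ (PowerSeries.X : PowerSeries L) ^ (w' j + 1) ∣ jetS cc j := by
    intro j
    rw [← hx j]
    refine hj2 _ (X_ne_zero j) _ (hE' j) ?_
    have := hle j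
    omega
  rw [Fintype.card_fin] at hTc
  obtain ⟨C, P, hC, hCod, hb1, hb2, hc1, hc2, hev⟩ := tjet_to_arc cc A T hTc hTi w' w r₁ r₂ b c
    hw' hdet h1 h2 hw0 K (fun j => by have := hle j; omega) (by omega) (by omega)
  refine ⟨C, P, ?_, hCod, ?_⟩
  · rw [← hC]
    congr 1
    exact Finset.sum_congr rfl fun j _ => hE' j
  intro F n hn hF
  obtain ⟨F₁, F₂, rfl, hF1, hF2⟩ := low_high m F
  have hchi : ∀ l, ((1 : ℕ) : ℤ) ≤ E.toOrdFn.ord (chi k (s l)) := by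
    intro l
    rw [ord_chi]
    have e1 : (fun j => E.toOrdFn.ord (xx k j)) =
        fun j => vz w j + (b : ℤ) * vz r₁ j + (c : ℤ) * vz r₂ j := by
      funext j
      exact hwE j
    rw [e1, TB4_pr]
    have a0 := hs0 l
    have a1 := mul_nonneg (Int.natCast_nonneg b) (hs1 l)
    have a2 := mul_nonneg (Int.natCast_nonneg c) (hs2 l)
    push_cast
    omega
  have hge2 : E.toOrdFn.ge (m : ℤ) (tK s F₂) := by
    have h3 := tK_ge s E.toOrdFn 1 hchi m F₂ hF2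
    rwa [mul_one] at h3
  have hge : E.toOrdFn.ge (n : ℤ) (tK s (F₁ + F₂)) := hF
  have hge1 : E.toOrdFn.ge (n : ℤ) (tK s F₁) := by
    have e1 : tK s F₁ = tK s (F₁ + F₂) - tK s F₂ := by
      rw [map_add, add_sub_cancel_right]
    rw [e1]
    exact E.toOrdFn.ge_sub hge (E.toOrdFn.ge_mono (by exact_mod_cast hn) hge2)
  obtain ⟨G, hG1, hG2⟩ := hκ w r₁ r₂ (fun l => (hs0 l).le) hs1 hs2 F₁ hF1
  have hG3 : (PowerSeries.X : PowerSeries L) ^ (n + κ₀) ∣ aeval (jetS cc) G := by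
    by_cases hG0 : G = 0
    · rw [hG0, map_zero]
      exact dvd_zero _
    refine hj1 G hG0 _ ?_ (by omega)
    have hne : toFF k (Fin 3) G ≠ 0 := TB4_toFF_ne hG0
    rw [hG1] at hne ⊢
    have hne1 := left_ne_zero_of_mul hne
    have hne2 := right_ne_zero_of_mul hne
    rw [E.toOrdFn.ord_mul hne1 hne2, TB4_ord_mono]
    have h4 : (n : ℤ) ≤ E.toOrdFn.ord (tK s F₁) := by
      rcases hge1 with h | h
      · exact absurd h hne2
      · exact h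
    have h5 : ∑ j, (κ j : ℤ) * E.toOrdFn.ord (xx k j) = (κ₀ : ℤ) := by
      rw [hκ₀]
      push_cast
      exact Finset.sum_congr rfl fun j _ => by rw [hE' j]
    rw [h5]
    push_cast
    linarith
  have hG4 := hev G (n + κ₀) (by omega) hG3
  rw [hG2, ev_mul, TB4_ev_mono] at hG4
  obtain ⟨U, hU, hU'⟩ := TB4_fac hb1 hb2
  obtain ⟨V, hV, hV'⟩ := TB4_fac hc1 hc2
  have e2 : ∏ j, (PowerSeries.X ^ w j * P 0 ^ r₁ j * P 1 ^ r₂ j) ^ κ j =
      PowerSeries.X ^ κ₀ * ∏ j, (U ^ r₁ j * V ^ r₂ j) ^ κ j := by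
    rw [hκ₀, ← Finset.prod_pow_eq_pow_sum, ← Finset.prod_mul_distrib]
    refine Finset.prod_congr rfl fun j _ => ?_
    rw [hU, hV, hw' j, mul_comm (κ j), pow_mul, ← mul_pow]
    congr 1
    rw [mul_pow, mul_pow, ← pow_mul, ← pow_mul, pow_add, pow_add]
    ring
  rw [e2] at hG4
  have hres1 : (PowerSeries.X : PowerSeries (Om k)) ^ n ∣ ev P (tc s w r₁ r₂ F₁) :=
    TB4_cancel (TB4_not_dvd_prod hU' hV' _ _ _) hG4
  have hres2 : (PowerSeries.X : PowerSeries (Om k)) ^ n ∣ ev P (tc s w r₁ r₂ F₂) :=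
    (pow_dvd_pow _ hn).trans (ev_dvd P (tc_ge s w r₁ r₂ hs0 m F₂ hF2))
  rw [map_add, ev_add]
  exact dvd_add hres1 hres2

end M5
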