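import Pool.Agent.M5.TDefs
import Pool.Agent.M3.Param

/-!
PIECE M5-TB5: the coefficients of the reparametrization and of the arc are algebraic over the ones of the
coordinates.

PROOF. Cofactors as in `TB1`: `λ, μ, ν : Fin 3 → ℤ`, `∑ j, w j * λ j = D`, `∑ j, r₁ j * λ j = 0`, `∑ j, r₂ j * λ j = 0`; `∑ w μ = 0`, `∑ r₁ μ = D`,
`∑ r₂ μ = 0`; `∑ w ν = 0`, `∑ r₁ ν = 0`, `∑ r₂ ν = D`; `D = dt w r₁ r₂ ≠ 0`.
The power series with nonzero constant term whose coefficients of order `< K` are in `F₀` are closed under products and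
inverses (modulo `X^K`).  `∏ j, (v j)^(λ j) = T^D` (products of powers with negative exponents on the other side), so the
coefficients of order `< K` of `T^|D|` are in `F₀`; `T(0)` is algebraic over `F₀` (a root of `Y^|D| - (T(0))^|D|`), so in `F₀`;
`coeffs_of_pow` gives the first claim.  In the same way `∏ (v j)^(μ j) = (aeval (X T) p₁)^D`, so the coefficients of
`aeval (X T) p₁` are in `F₀` (`coeffs_of_pow`; its constant term is `p₁(0)`), and `coeffs_of_comp` with `e = 0` gives the second claim.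
-/

open MvPolynomial

namespace M5

open MLD M3

universe u

/-- the units whose coefficients of order `< K` are in `F₀` -/
private theorem TB5_inv {k L : Type*} [Field k] [Field L] [Algebra k L] (F₀ : IntermediateField k L)
    (K : ℕ) (g h : PowerSeries L) (hgh : g * h = 1)
    (hg : ∀ n < K, PowerSeries.coeff n g ∈ F₀) : ∀ n < K, PowerSeries.coeff n h ∈ F₀ := by
  have h0 : PowerSeries.coeff 0 g ≠ 0 := by
    intro h1
    have h2 := congrArg PowerSeries.constantCoeff hgh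
    rw [PowerSeries.coeff_zero_eq_constantCoeff_apply] at h1
    rw [map_mul, h1, zero_mul, map_one] at h2
    exact zero_ne_one h2
  intro n
  induction n using Nat.strong_induction_on with
  | _ n ih =>
    intro hn
    have h1 : PowerSeries.coeff n (g * h) ∈ F₀ := by
      rw [hgh, PowerSeries.coeff_one]
      split_ifs
      · exact one_mem F₀
      · exact zero_mem F₀
    rw [PowerSeries.coeff_mul, Finset.Nat.sum_antidiagonal_eq_sum_range_succ_mk,
      Finset.sum_range_succ'] at h1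
    simp only [Nat.sub_zero] at h1
    have h2 : ∑ i ∈ Finset.range n, PowerSeries.coeff (i + 1) g *
        PowerSeries.coeff (n - (i + 1)) h ∈ F₀ := by
      refine sum_mem fun i hi => ?_
      rw [Finset.mem_range] at hi
      exact mul_mem (hg _ (by omega)) (ih _ (by omega) (by omega))
    have h3 : PowerSeries.coeff 0 g * PowerSeries.coeff n h ∈ F₀ := by
      have h4 := sub_mem h1 h2
      rwa [add_sub_cancel_left] at h4
    have h5 := mul_mem (inv_mem (hg 0 (by omega))) h3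
    rwa [inv_mul_cancel_left₀ h0] at h5

/-- the subgroup of units with coefficients in `F₀` -/
private def TB5_sub {k L : Type*} [Field k] [Field L] [Algebra k L] (F₀ : IntermediateField k L)
    (K : ℕ) : Subgroup (PowerSeries L)ˣ where
  carrier := {g | ∀ n < K, PowerSeries.coeff n (g : PowerSeries L) ∈ F₀}
  one_mem' := by
    intro n _
    rw [Units.val_one, PowerSeries.coeff_one]
    split_ifs
    · exact one_mem F₀
    · exact zero_mem F₀
  mul_mem' := by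
    intro a b ha hb n hn
    rw [Units.val_mul, PowerSeries.coeff_mul]
    refine sum_mem fun x hx => ?_
    rw [Finset.HasAntidiagonal.mem_antidiagonal] at hx
    exact mul_mem (ha _ (by omega)) (hb _ (by omega))
  inv_mem' := by
    intro a ha
    exact TB5_inv F₀ K a _ (by rw [← Units.val_mul, mul_inv_cancel, Units.val_one]) ha

private theorem TB5_prod {G : Type*} [CommGroup G] (a b c : G) (w r s : Fin 3 → ℕ)
    (l : Fin 3 → ℤ) (S : Subgroup G) (h : ∀ j, a ^ w j * b ^ r j * c ^ s j ∈ S) :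
    a ^ (∑ j, vz w j * l j) * b ^ (∑ j, vz r j * l j) * c ^ (∑ j, vz s j * l j) ∈ S := by
  have h1 : ∀ j, a ^ (vz w j * l j) * b ^ (vz r j * l j) * c ^ (vz s j * l j) ∈ S := by
    intro j
    have h2 := S.zpow_mem (h j) (l j)
    rw [mul_zpow, mul_zpow, ← zpow_natCast, ← zpow_natCast, ← zpow_natCast, ← zpow_mul,
      ← zpow_mul, ← zpow_mul] at h2
    exact h2
  have h3 := mul_mem (mul_mem (h1 0) (h1 1)) (h1 2)
  rw [Fin.sum_univ_three, Fin.sum_univ_three, Fin.sum_univ_three, zpow_add, zpow_add, zpow_add,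
    zpow_add, zpow_add, zpow_add]
  refine (congrArg (· ∈ S) ?_).mp h3
  generalize a ^ (vz w 0 * l 0) = a0
  generalize a ^ (vz w 1 * l 1) = a1
  generalize a ^ (vz w 2 * l 2) = a2
  generalize b ^ (vz r 0 * l 0) = b0
  generalize b ^ (vz r 1 * l 1) = b1
  generalize b ^ (vz r 2 * l 2) = b2
  generalize c ^ (vz s 0 * l 0) = c0
  generalize c ^ (vz s 1 * l 1) = c1
  generalize c ^ (vz s 2 * l 2) = c2
  simp only [mul_comm, mul_left_comm]

private theorem TB5_abs {G : Type*} [Group G] (S : Subgroup G) (a : G) (D : ℤ) (h : a ^ D ∈ S) :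
    a ^ D.natAbs ∈ S := by
  rcases Int.natAbs_eq D with h1 | h1
  · rw [h1, zpow_natCast] at h
    exact h
  · rw [h1, zpow_neg, zpow_natCast] at h
    exact inv_mem_iff.1 h

private theorem TB5_const {L : Type*} [Field L] (T : PowerSeries L) (p : Polynomial L) :
    PowerSeries.coeff 0 (Polynomial.aeval (PowerSeries.X * T) p) = p.coeff 0 := by
  rw [PowerSeries.coeff_zero_eq_constantCoeff_apply, Polynomial.aeval_def,
    Polynomial.hom_eval₂, map_mul, PowerSeries.constantCoeff_X, zero_mul,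
    Polynomial.eval₂_at_zero]
  change PowerSeries.constantCoeff (algebraMap L (PowerSeries L) (p.coeff 0)) = _
  rw [PowerSeries.algebraMap_apply, PowerSeries.constantCoeff_C]
  rfl

private theorem TB5_unit {L : Type*} [Field L] (T : PowerSeries L)
    (h : PowerSeries.coeff 0 T ≠ 0) : ∃ u : (PowerSeries L)ˣ, (u : PowerSeries L) = T := by
  have h1 : IsUnit T := by
    rw [PowerSeries.isUnit_iff_constantCoeff, isUnit_iff_ne_zero,
      ← PowerSeries.coeff_zero_eq_constantCoeff_apply]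
    exact h
  exact h1

private theorem TB5_root {k L : Type*} [Field k] [Field L] [CharZero L] [Algebra k L]
    (F₀ : IntermediateField k L) (hF : ∀ x : L, IsAlgebraic F₀ x → x ∈ F₀) (K : ℕ) (hK : 0 < K)
    (D : ℤ) (hD : D ≠ 0) (u : (PowerSeries L)ˣ) (T : PowerSeries L) (hu : (u : PowerSeries L) = T)
    (hT : PowerSeries.coeff 0 T ≠ 0) (h : u ^ D ∈ TB5_sub F₀ K) :
    ∀ n < K, PowerSeries.coeff n T ∈ F₀ := by
  have h1 : ∀ n < K, PowerSeries.coeff n (T ^ D.natAbs) ∈ F₀ := by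
    intro n hn
    have h2 := TB5_abs _ _ _ h n hn
    rwa [Units.val_pow_eq_pow_val, hu] at h2
  have he : 0 < D.natAbs := Int.natAbs_pos.2 hD
  refine coeffs_of_pow F₀ D.natAbs K he T hT ?_ h1
  apply hF
  have h2 := h1 0 hK
  rw [PowerSeries.coeff_zero_eq_constantCoeff_apply, map_pow] at h2
  rw [PowerSeries.coeff_zero_eq_constantCoeff_apply]
  refine IsAlgebraic.of_pow he ?_
  exact isAlgebraic_algebraMap (⟨_, h2⟩ : F₀)

private theorem TB5_det (w r s : Fin 3 → ℕ) :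
    dt (vz w) (vz r) (vz s) =
      (w 0 : ℤ) * r 1 * s 2 - w 0 * r 2 * s 1 - w 1 * r 0 * s 2 + w 1 * r 2 * s 0 +
        w 2 * r 0 * s 1 - w 2 * r 1 * s 0 := by
  unfold dt vz
  rw [Matrix.det_fin_three]
  rfl

theorem count_out {k L : Type*} [Field k] [Field L] [CharZero L] [Algebra k L]
    (w r₁ r₂ : Fin 3 → ℕ) (hdet : dt (vz w) (vz r₁) (vz r₂) ≠ 0) (K : ℕ) (hK : 0 < K)
    (T : PowerSeries L) (hT : PowerSeries.coeff 0 T ≠ 0) (p₁ p₂ : Polynomial L)
    (hp₁ : p₁.coeff 0 ≠ 0) (hp₂ : p₂.coeff 0 ≠ 0) (F₀ : IntermediateField k L)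
    (hF : ∀ x : L, IsAlgebraic F₀ x → x ∈ F₀)
    (hx : ∀ j, ∀ n < K, PowerSeries.coeff n (T ^ w j *
      Polynomial.aeval (PowerSeries.X * T) p₁ ^ r₁ j *
      Polynomial.aeval (PowerSeries.X * T) p₂ ^ r₂ j) ∈ F₀) :
    (∀ n < K, PowerSeries.coeff n T ∈ F₀) ∧ (∀ n < K, p₁.coeff n ∈ F₀) ∧
      ∀ n < K, p₂.coeff n ∈ F₀ := by
  obtain ⟨a, ha⟩ := TB5_unit T hT
  have hq₁ : PowerSeries.coeff 0 (Polynomial.aeval (PowerSeries.X * T) p₁) ≠ 0 := by
    rw [TB5_const]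
    exact hp₁
  have hq₂ : PowerSeries.coeff 0 (Polynomial.aeval (PowerSeries.X * T) p₂) ≠ 0 := by
    rw [TB5_const]
    exact hp₂
  obtain ⟨b, hb⟩ := TB5_unit _ hq₁
  obtain ⟨c, hc⟩ := TB5_unit _ hq₂
  have hS : ∀ j, a ^ w j * b ^ r₁ j * c ^ r₂ j ∈ TB5_sub F₀ K := by
    intro j n hn
    have h1 := hx j n hn
    rwa [Units.val_mul, Units.val_mul, Units.val_pow_eq_pow_val, Units.val_pow_eq_pow_val,
      Units.val_pow_eq_pow_val, ha, hb, hc]
  obtain ⟨D, hD⟩ : ∃ D, D = dt (vz w) (vz r₁) (vz r₂) := ⟨_, rfl⟩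
  rw [← hD] at hdet
  rw [TB5_det] at hD
  have hA : a ^ D ∈ TB5_sub F₀ K := by
    have h1 := TB5_prod a b c w r₁ r₂ ![(r₁ 1 : ℤ) * r₂ 2 - r₁ 2 * r₂ 1,
      r₁ 2 * r₂ 0 - r₁ 0 * r₂ 2, r₁ 0 * r₂ 1 - r₁ 1 * r₂ 0] _ hS
    have e1 : (∑ j, vz w j * ![(r₁ 1 : ℤ) * r₂ 2 - r₁ 2 * r₂ 1,
      r₁ 2 * r₂ 0 - r₁ 0 * r₂ 2, r₁ 0 * r₂ 1 - r₁ 1 * r₂ 0] j) = D := by
      rw [hD, Fin.sum_univ_three]
      simp only [vz, Matrix.cons_val_zero, Matrix.cons_val_one, Matrix.cons_val]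
      ring
    have e2 : (∑ j, vz r₁ j * ![(r₁ 1 : ℤ) * r₂ 2 - r₁ 2 * r₂ 1,
      r₁ 2 * r₂ 0 - r₁ 0 * r₂ 2, r₁ 0 * r₂ 1 - r₁ 1 * r₂ 0] j) = 0 := by
      rw [Fin.sum_univ_three]
      simp only [vz, Matrix.cons_val_zero, Matrix.cons_val_one, Matrix.cons_val]
      ring
    have e3 : (∑ j, vz r₂ j * ![(r₁ 1 : ℤ) * r₂ 2 - r₁ 2 * r₂ 1,
      r₁ 2 * r₂ 0 - r₁ 0 * r₂ 2, r₁ 0 * r₂ 1 - r₁ 1 * r₂ 0] j) = 0 := by
      rw [Fin.sum_univ_three]
      simp only [vz, Matrix.cons_val_zero, Matrix.cons_val_one, Matrix.cons_val]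
      ring
    rwa [e1, e2, e3, zpow_zero, zpow_zero, mul_one, mul_one] at h1
  have hB : b ^ D ∈ TB5_sub F₀ K := by
    have h1 := TB5_prod a b c w r₁ r₂ ![(r₂ 1 : ℤ) * w 2 - r₂ 2 * w 1,
      r₂ 2 * w 0 - r₂ 0 * w 2, r₂ 0 * w 1 - r₂ 1 * w 0] _ hS
    have e1 : (∑ j, vz w j * ![(r₂ 1 : ℤ) * w 2 - r₂ 2 * w 1,
      r₂ 2 * w 0 - r₂ 0 * w 2, r₂ 0 * w 1 - r₂ 1 * w 0] j) = 0 := by
      rw [Fin.sum_univ_three]
      simp only [vz, Matrix.cons_val_zero, Matrix.cons_val_one, Matrix.cons_val]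
      ring
    have e2 : (∑ j, vz r₁ j * ![(r₂ 1 : ℤ) * w 2 - r₂ 2 * w 1,
      r₂ 2 * w 0 - r₂ 0 * w 2, r₂ 0 * w 1 - r₂ 1 * w 0] j) = D := by
      rw [hD, Fin.sum_univ_three]
      simp only [vz, Matrix.cons_val_zero, Matrix.cons_val_one, Matrix.cons_val]
      ring
    have e3 : (∑ j, vz r₂ j * ![(r₂ 1 : ℤ) * w 2 - r₂ 2 * w 1,
      r₂ 2 * w 0 - r₂ 0 * w 2, r₂ 0 * w 1 - r₂ 1 * w 0] j) = 0 := by
      rw [Fin.sum_univ_three]
      simp only [vz, Matrix.cons_val_zero, Matrix.cons_val_one, Matrix.cons_val]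
      ring
    rwa [e1, e2, e3, zpow_zero, zpow_zero, one_mul, mul_one] at h1
  have hC : c ^ D ∈ TB5_sub F₀ K := by
    have h1 := TB5_prod a b c w r₁ r₂ ![(w 1 : ℤ) * r₁ 2 - w 2 * r₁ 1,
      w 2 * r₁ 0 - w 0 * r₁ 2, w 0 * r₁ 1 - w 1 * r₁ 0] _ hS
    have e1 : (∑ j, vz w j * ![(w 1 : ℤ) * r₁ 2 - w 2 * r₁ 1,
      w 2 * r₁ 0 - w 0 * r₁ 2, w 0 * r₁ 1 - w 1 * r₁ 0] j) = 0 := by
      rw [Fin.sum_univ_three]
      simp only [vz, Matrix.cons_val_zero, Matrix.cons_val_one, Matrix.cons_val]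
      ring
    have e2 : (∑ j, vz r₁ j * ![(w 1 : ℤ) * r₁ 2 - w 2 * r₁ 1,
      w 2 * r₁ 0 - w 0 * r₁ 2, w 0 * r₁ 1 - w 1 * r₁ 0] j) = 0 := by
      rw [Fin.sum_univ_three]
      simp only [vz, Matrix.cons_val_zero, Matrix.cons_val_one, Matrix.cons_val]
      ring
    have e3 : (∑ j, vz r₂ j * ![(w 1 : ℤ) * r₁ 2 - w 2 * r₁ 1,
      w 2 * r₁ 0 - w 0 * r₁ 2, w 0 * r₁ 1 - w 1 * r₁ 0] j) = D := by
      rw [hD, Fin.sum_univ_three]
      simp only [vz, Matrix.cons_val_zero, Matrix.cons_val_one, Matrix.cons_val]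
      ring
    rwa [e1, e2, e3, zpow_zero, zpow_zero, one_mul, one_mul] at h1
  have hTK := TB5_root F₀ hF K hK D hdet a T ha hT hA
  have h1K := TB5_root F₀ hF K hK D hdet b _ hb hq₁ hB
  have h2K := TB5_root F₀ hF K hK D hdet c _ hc hq₂ hC
  refine ⟨hTK, ?_, ?_⟩
  · refine coeffs_of_comp F₀ 0 K T hT hTK p₁ fun n hn => ?_
    rw [pow_zero, one_mul]
    exact h1K n hn
  · refine coeffs_of_comp F₀ 0 K T hT hTK p₂ fun n hn => ?_
    rw [pow_zero, one_mul]
    exact h2K n hn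

end M5
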