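import Pool.Agent.M5.TB5
import Pool.Agent.M3.ArcOut

/-!
PIECE M5-TB6: from arcs in a toric chart to jets of the coordinates (generalization of the first part of
`M3.arc_to_div`; copy `M3/ArcOut.lean` and adapt).

PROOF. `b`, `c'` the orders of `P 0`, `P 1`: they are finite and `b + c' ≤ C` (`cod_vanish` at a large level; if `X^(C+1) ∣ P 0` then
`C + 1 ≤ C`).  `w j := w₀ j + b r₁ j + c' r₂ j`.  `K₁ := K + C + 1 + ∑ w j`, `m := K₁`.
`P 0 ≡ X^b * p₁`, `P 1 ≡ X^c' * p₂` modulo `X^(K₁ + b)` resp. `X^(K₁ + c')` with polynomials `p₁`, `p₂`, `p₁(0), p₂(0) ≠ 0` (truncations).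
`L' := FractionRing (MvPolynomial (Fin K₁) L)`, `T := ∑ n < K₁, v_n X^n` with `v_n` the variables.
`v j := T^(w j) * (aeval (X T) p₁)^(r₁ j) * (aeval (X T) p₂)^(r₂ j)`, `y j := X^(w j) * v j`, `c j n := coeff (n + 1) (y j)`, so
`jetS c j ≡ y j` modulo `X^(m+1)`; `v j` has a nonzero constant term.
COUNT. `CodLe k P M C` with `M := K₁ + b + c'`: at least `2 M - C` independent coefficients of `P`; the ones of `X^n` with `n < b` (`n < c'`) are
zero, drop the ones of `P 0` with `n ≥ b + K₁` and of `P 1` with `n ≥ c' + K₁`: at least `2 K₁ - (C - b - c')` independent coefficients of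
`p₁, p₂` of order `< K₁`, and together with the `K₁` variables `v_n` (independent over `L`) at least `3 K₁ - (C - b - c')` independent elements.
All of them are algebraic over `k(coefficients of order < K₁ of v j)` (`count_out` with `F₀` := the algebraic closure of
`adjoin k (..)` in `L'`, see `ArcOut`).  `alg_exchange`: an independent subset `T₂` of the coefficients `(j, n)`, `n < K₁`, of the `v j` with
`3 K₁ ≤ T₂.card + (C - b - c')`.  The coefficient of `X^n` of `v j` is `c j (n + w j - 1)` if `n + w j ≤ m`; drop the other ones: at most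
`∑ j, (K₁ - (m + 1 - w j))` many (`m + 1 - w j ≤ K₁`).  So `3 (m + 1) ≤ T₀.card + A`, `A := C - b - c' + ∑ w j`.
ORDERS. For `n ≤ K`: `X^n ∣ ev P (yc w₀ r₁ r₂ f)` implies the same for the polynomials `X^b p₁`, `X^c' p₂` (`ev_congr`), i.e. `X^n` divides the
polynomial `g := aeval (fun j => X^(w₀ j) (X^b p₁)^(r₁ j) (X^c' p₂)^(r₂ j)) f`; substitute `X T` (`ArcOut_hom`): `X^n ∣ aeval y f`, so
`X^n ∣ aeval (jetS c) f` (`n ≤ m + 1`).
-/

open MvPolynomial

namespace M5

open MLD M3

universe u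

private theorem TB6_hom {k A B : Type*} [CommRing k] [CommRing A] [CommRing B] [Algebra k A]
    [Algebra k B] {σ : Type*} (φ : A →+* B) (hφ : ∀ a : k, φ (algebraMap k A a) = algebraMap k B a)
    (x : σ → A) (f : MvPolynomial σ k) : φ (aeval x f) = aeval (fun i => φ (x i)) f := by
  induction f using MvPolynomial.induction_on with
  | C a => rw [aeval_C, aeval_C, hφ]
  | add p q hp hq => rw [map_add, map_add, map_add, hp, hq]
  | mul_X p i hp => rw [map_mul, map_mul, map_mul, hp, aeval_X, aeval_X]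

private theorem TB6_cong {k R : Type*} [CommRing k] [CommRing R] [Algebra k R] {σ : Type*}
    {d : R} (x y : σ → R) (h : ∀ i, d ∣ x i - y i) (f : MvPolynomial σ k) :
    d ∣ aeval x f - aeval y f := by
  induction f using MvPolynomial.induction_on with
  | C a => rw [aeval_C, aeval_C, sub_self]; exact dvd_zero _
  | add p q hp hq =>
    rw [map_add, map_add, add_sub_add_comm]
    exact dvd_add hp hq
  | mul_X p j hp =>
    rw [map_mul, map_mul, aeval_X, aeval_X]
    have : aeval x p * x j - aeval y p * y j =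
        (aeval x p - aeval y p) * x j + aeval y p * (x j - y j) := by ring
    rw [this]
    exact dvd_add (Dvd.dvd.mul_right hp _) (Dvd.dvd.mul_left (h j) _)

private theorem TB6_jet {K : Type*} [Field K] {m' : ℕ} (c : Fin 3 → Fin m' → K)
    (γ : Fin 3 → PowerSeries K) (h0 : ∀ i, PowerSeries.coeff 0 (γ i) = 0)
    (hc : ∀ i n, c i n = PowerSeries.coeff (n.val + 1) (γ i)) (i : Fin 3) :
    (PowerSeries.X : PowerSeries K) ^ (m' + 1) ∣ jetS c i - γ i := by
  rw [PowerSeries.X_pow_dvd_iff]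
  intro n hn
  rw [map_sub]
  unfold jetS
  rw [map_sum]
  simp only [PowerSeries.coeff_C_mul_X_pow]
  rcases Nat.eq_zero_or_pos n with hn0 | hn0
  · subst hn0
    rw [h0, sub_zero]
    exact Finset.sum_eq_zero fun j _ => if_neg (by omega)
  · obtain ⟨j, rfl⟩ : ∃ j, n = j + 1 := ⟨n - 1, by omega⟩
    rw [Finset.sum_eq_single (⟨j, by omega⟩ : Fin m')]
    · rw [if_pos rfl, hc, sub_self]
    · intro b _ hb
      refine if_neg fun h => hb ?_
      apply Fin.ext
      simp only
      omega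
    · intro h
      exact absurd (Finset.mem_univ _) h

private theorem TB6_order {L : Type*} [Field L] (F : PowerSeries L) (C : ℕ)
    (h : ¬ (PowerSeries.X : PowerSeries L) ^ (C + 1) ∣ F) :
    ∃ b ≤ C, (PowerSeries.X : PowerSeries L) ^ b ∣ F ∧
      ¬ (PowerSeries.X : PowerSeries L) ^ (b + 1) ∣ F := by
  induction C with
  | zero => exact ⟨0, le_rfl, by rw [pow_zero]; exact one_dvd _, h⟩
  | succ C ih =>
    by_cases h1 : (PowerSeries.X : PowerSeries L) ^ (C + 1) ∣ F
    · exact ⟨C + 1, le_rfl, h1, h⟩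
    · obtain ⟨b, hb, h2⟩ := ih h1
      exact ⟨b, hb.trans (Nat.le_succ C), h2⟩

private theorem TB6_dt (w₀ r₁ r₂ : Fin 3 → ℕ) (b c : ℕ) :
    dt (vz fun j => w₀ j + b * r₁ j + c * r₂ j) (vz r₁) (vz r₂) =
      dt (vz w₀) (vz r₁) (vz r₂) := by
  unfold dt vz
  rw [Matrix.det_fin_three, Matrix.det_fin_three]
  simp only [Matrix.of_apply, Matrix.cons_val_zero, Matrix.cons_val_one, Matrix.cons_val,
    Nat.cast_add, Nat.cast_mul]
  ring

/-- the coefficients are algebraic over the new ones -/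
private theorem TB6_alg {k K : Type*} [Field k] [Field K] [CharZero K] [Algebra k K]
    (w r₁ r₂ : Fin 3 → ℕ) (hdet : dt (vz w) (vz r₁) (vz r₂) ≠ 0) (M : ℕ) (hM : 0 < M)
    (T : PowerSeries K) (hT : PowerSeries.coeff 0 T ≠ 0) (p : Fin 2 → Polynomial K)
    (hp : ∀ j, (p j).coeff 0 ≠ 0) (x : Fin 3 × Fin M → K)
    (hx : ∀ i (n : Fin M), x (i, n) = PowerSeries.coeff n.val (T ^ w i *
      Polynomial.aeval (PowerSeries.X * T) (p 0) ^ r₁ i *
      Polynomial.aeval (PowerSeries.X * T) (p 1) ^ r₂ i)) :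
    (∀ n < M, IsAlgebraic (IntermediateField.adjoin k (Set.range x)) (PowerSeries.coeff n T)) ∧
    ∀ j, ∀ n < M, IsAlgebraic (IntermediateField.adjoin k (Set.range x)) ((p j).coeff n) := by
  obtain ⟨Ka, hKa⟩ : ∃ Ka : IntermediateField k K, ∀ a, a ∈ Ka ↔
      IsAlgebraic (IntermediateField.adjoin k (Set.range x)) a :=
    ⟨(algebraicClosure (IntermediateField.adjoin k (Set.range x)) K).restrictScalars k,
      fun a => mem_algebraicClosure_iff⟩
  have hcl : ∀ a : K, IsAlgebraic Ka a → a ∈ Ka := by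
    intro a ha
    rw [hKa]
    let F := IntermediateField.adjoin k (Set.range x)
    have h1 : ∀ y : K, y ∈ Ka → y ∈ algebraicClosure F K := fun y hy =>
      mem_algebraicClosure_iff.2 ((hKa y).1 hy)
    have h2 : IsAlgebraic (algebraicClosure F K) a := by
      obtain ⟨q, hq0, hq⟩ := ha
      let ι : Ka →+* algebraicClosure F K :=
        { toFun := fun y => ⟨y.1, h1 y.1 y.2⟩
          map_one' := rfl
          map_mul' := fun _ _ => rfl
          map_zero' := rfl
          map_add' := fun _ _ => rfl }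
      refine ⟨q.map ι, ?_, ?_⟩
      · rw [Ne, Polynomial.map_eq_zero]
        exact hq0
      · rw [Polynomial.aeval_def, Polynomial.eval₂_map]
        exact hq
    exact (IsAlgebraic.restrictScalars F h2)
  obtain ⟨h1, h2, h3⟩ := count_out (k := k) w r₁ r₂ hdet M hM T hT (p 0) (p 1) (hp 0) (hp 1) Ka hcl
    (by
      intro j n hn
      have h1 := hx j ⟨n, hn⟩
      rw [← h1, hKa]
      exact isAlgebraic_algebraMap (⟨x (j, ⟨n, hn⟩),
        IntermediateField.subset_adjoin _ _ ⟨_, rfl⟩⟩ : IntermediateField.adjoin k (Set.range x)))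
  refine ⟨fun n hn => (hKa _).1 (h1 n hn), fun j n hn => (hKa _).1 ?_⟩
  fin_cases j
  · exact h2 n hn
  · exact h3 n hn

/-- the value at the new arc -/
private theorem TB6_dvd {k : Type u} [Field k] {K : Type u} [Field K] [Algebra k K]
    (w₀ r₁ r₂ : Fin 3 → ℕ) (bb : Fin 2 → ℕ) (p : Fin 2 → Polynomial K) (T : PowerSeries K)
    (f : MvPolynomial (Fin 3) k) (n : ℕ)
    (h : (PowerSeries.X : PowerSeries K) ^ n ∣
      ev (fun j => ((Polynomial.X ^ bb j * p j : Polynomial K) : PowerSeries K))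
        (yc w₀ r₁ r₂ f)) :
    (PowerSeries.X : PowerSeries K) ^ n ∣ aeval (fun j =>
      PowerSeries.X ^ (w₀ j + bb 0 * r₁ j + bb 1 * r₂ j) * (T ^ (w₀ j + bb 0 * r₁ j + bb 1 * r₂ j) *
      Polynomial.aeval (PowerSeries.X * T) (p 0) ^ r₁ j *
      Polynomial.aeval (PowerSeries.X * T) (p 1) ^ r₂ j)) f := by
  obtain ⟨q, hq⟩ : ∃ q : Polynomial K, q = aeval (fun j => Polynomial.X ^ w₀ j *
    (Polynomial.X ^ bb 0 * p 0) ^ r₁ j * (Polynomial.X ^ bb 1 * p 1) ^ r₂ j) f := ⟨_, rfl⟩
  have h1 : ((q : Polynomial K) : PowerSeries K) =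
      ev (fun j => ((Polynomial.X ^ bb j * p j : Polynomial K) : PowerSeries K))
        (yc w₀ r₁ r₂ f) := by
    have h2 := TB6_hom (k := k)
      (Polynomial.coeToPowerSeries.ringHom : Polynomial K →+* PowerSeries K) (fun a => by
      rw [Polynomial.coeToPowerSeries.ringHom_apply, Polynomial.algebraMap_apply,
        Polynomial.coe_C, PowerSeries.algebraMap_apply])
      (fun j => Polynomial.X ^ w₀ j *
        (Polynomial.X ^ bb 0 * p 0) ^ r₁ j * (Polynomial.X ^ bb 1 * p 1) ^ r₂ j) f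
    rw [← hq, Polynomial.coeToPowerSeries.ringHom_apply] at h2
    rw [h2]
    have h3 := TB6_hom (k := k)
      (evH (fun j => ((Polynomial.X ^ bb j * p j : Polynomial K) : PowerSeries K)) :
        AA k →+* PowerSeries K) (fun a => by
        rw [evH_apply, PowerSeries.algebraMap_apply, ev_C, MvPolynomial.algebraMap_eq, aeval_C])
      (fun j => (PowerSeries.X ^ w₀ j * xA 0 ^ r₁ j * xA 1 ^ r₂ j : AA k)) f
    rw [evH_apply] at h3
    have h4 : (yc w₀ r₁ r₂ f : AA k) =
        aeval (fun j => (PowerSeries.X ^ w₀ j * xA 0 ^ r₁ j * xA 1 ^ r₂ j : AA k)) f := rfl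
    rw [h4, h3]
    congr 2
    funext j
    rw [evH_apply, ev_mul, ev_mul, ev_pow, ev_pow, ev_pow, ev_X, ev_xA, ev_xA]
    simp only [Polynomial.coeToPowerSeries.ringHom_apply, Polynomial.coe_pow, Polynomial.coe_mul,
      Polynomial.coe_X]
  have h2 : (PowerSeries.X : PowerSeries K) ^ n ∣ ((q : Polynomial K) : PowerSeries K) := by
    rw [h1]
    exact h
  have h3 : (Polynomial.X : Polynomial K) ^ n ∣ q := by
    rw [Polynomial.X_pow_dvd_iff]
    rw [PowerSeries.X_pow_dvd_iff] at h2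
    intro d hd
    have h4 := h2 d hd
    rwa [Polynomial.coeff_coe] at h4
  have h5 := TB6_hom (k := k)
      (Polynomial.aeval (PowerSeries.X * T) : Polynomial K →ₐ[K] PowerSeries K).toRingHom
      (fun a => by
        change Polynomial.aeval (PowerSeries.X * T) (algebraMap k (Polynomial K) a) = _
        rw [Polynomial.algebraMap_apply, Polynomial.aeval_C, PowerSeries.algebraMap_apply,
          PowerSeries.algebraMap_apply]
        rfl)
      (fun j => Polynomial.X ^ w₀ j *
        (Polynomial.X ^ bb 0 * p 0) ^ r₁ j * (Polynomial.X ^ bb 1 * p 1) ^ r₂ j) f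
  have h6 : (fun j => PowerSeries.X ^ (w₀ j + bb 0 * r₁ j + bb 1 * r₂ j) *
      (T ^ (w₀ j + bb 0 * r₁ j + bb 1 * r₂ j) *
      Polynomial.aeval (PowerSeries.X * T) (p 0) ^ r₁ j *
      Polynomial.aeval (PowerSeries.X * T) (p 1) ^ r₂ j)) =
      fun j => (Polynomial.aeval (PowerSeries.X * T) : Polynomial K →ₐ[K] PowerSeries K).toRingHom
        (Polynomial.X ^ w₀ j *
        (Polynomial.X ^ bb 0 * p 0) ^ r₁ j * (Polynomial.X ^ bb 1 * p 1) ^ r₂ j) := by
    funext j
    change _ = Polynomial.aeval (PowerSeries.X * T) (Polynomial.X ^ w₀ j *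
        (Polynomial.X ^ bb 0 * p 0) ^ r₁ j * (Polynomial.X ^ bb 1 * p 1) ^ r₂ j)
    rw [map_mul, map_mul, map_pow, map_pow, map_pow, map_mul, map_mul, map_pow, map_pow,
      Polynomial.aeval_X]
    generalize (Polynomial.aeval (PowerSeries.X * T)) (p 0) = a₁
    generalize (Polynomial.aeval (PowerSeries.X * T)) (p 1) = a₂
    rw [pow_add, pow_add, pow_add, pow_add, pow_mul, pow_mul, pow_mul, pow_mul]
    simp only [mul_pow]
    ring
  rw [h6, ← h5, ← hq]
  change _ ∣ Polynomial.aeval (PowerSeries.X * T) q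
  obtain ⟨q', rfl⟩ := h3
  rw [map_mul, map_pow, Polynomial.aeval_X, mul_pow, mul_assoc]
  exact Dvd.intro _ rfl

private theorem TB6_fib {a M : ℕ} (t : Fin a → ℕ) :
    ((Finset.univ : Finset (Fin a × Fin M)).filter fun s => t s.1 ≤ s.2.val).card ≤
      ∑ j, (M - t j) := by
  classical
  have h1 : ((Finset.univ : Finset (Fin a × Fin M)).filter fun s => t s.1 ≤ s.2.val) ⊆
      Finset.univ.biUnion fun j => ((Finset.univ : Finset (Fin M)).filter fun n =>
        t j ≤ n.val).image fun n => (j, n) := by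
    rintro ⟨j, n⟩ hs
    have h2 := (Finset.mem_filter.1 hs).2
    exact Finset.mem_biUnion.2 ⟨j, Finset.mem_univ _, Finset.mem_image.2 ⟨n,
      Finset.mem_filter.2 ⟨Finset.mem_univ _, h2⟩, rfl⟩⟩
  refine (Finset.card_le_card h1).trans (Finset.card_biUnion_le.trans ?_)
  refine Finset.sum_le_sum fun j _ => Finset.card_image_le.trans ?_
  rw [← Nat.card_Ico (t j) M]
  refine Finset.card_le_card_of_injOn (fun n : Fin M => n.val) ?_ ?_
  · intro n hn
    have := (Finset.mem_filter.1 hn).2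
    exact Finset.mem_coe.2 (Finset.mem_Ico.2 ⟨this, n.2⟩)
  · intro n _ n' _ hh
    exact Fin.ext hh

theorem tarc_to_jet {k : Type u} [Field k] [CharZero k] {L : Type u} [Field L] [Algebra k L]
    (w₀ r₁ r₂ : Fin 3 → ℕ) (hdet : dt (vz w₀) (vz r₁) (vz r₂) ≠ 0) (hw : ∀ j, 0 < w₀ j)
    (P : Fin 2 → PowerSeries L) (C : ℕ) (hP : ∀ M, CodLe k P M C) (K : ℕ) :
    ∃ (b c' : ℕ) (L' : Type u) (_ : Field L') (_ : Algebra k L') (m A : ℕ) (c : Fin 3 → Fin m → L')
      (T₀ : Finset (Fin 3 × Fin m)), K ≤ m ∧ (∀ j, w₀ j + b * r₁ j + c' * r₂ j ≤ m) ∧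
      (A : ℤ) + b + c' = C + ∑ j, ((w₀ j : ℤ) + b * r₁ j + c' * r₂ j) ∧
      (PowerSeries.X : PowerSeries L) ^ b ∣ P 0 ∧ ¬ (PowerSeries.X : PowerSeries L) ^ (b + 1) ∣ P 0 ∧
      (PowerSeries.X : PowerSeries L) ^ c' ∣ P 1 ∧
      ¬ (PowerSeries.X : PowerSeries L) ^ (c' + 1) ∣ P 1 ∧
      3 * (m + 1) ≤ T₀.card + A ∧ AlgebraicIndependent k (fun t : T₀ => c t.1.1 t.1.2) ∧
      (∀ j, (PowerSeries.X : PowerSeries L') ^ (w₀ j + b * r₁ j + c' * r₂ j) ∣ jetS c j) ∧
      (∀ j, ¬ (PowerSeries.X : PowerSeries L') ^ (w₀ j + b * r₁ j + c' * r₂ j + 1) ∣ jetS c j) ∧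
      ∀ (f : MvPolynomial (Fin 3) k) (n : ℕ), n ≤ K →
        (PowerSeries.X : PowerSeries L) ^ n ∣ ev P (yc w₀ r₁ r₂ f) →
        (PowerSeries.X : PowerSeries L') ^ n ∣ aeval (jetS c) f := by
  classical
  obtain ⟨b, hbC, hb1, hb2⟩ := TB6_order (P 0) C (fun h => by
    have := cod_vanish (hP (C + 1)) h (b := 0) (by rw [pow_zero]; exact one_dvd _) le_rfl
      (Nat.zero_le _)
    omega)
  obtain ⟨c', hcC, hc1, hc2⟩ := TB6_order (P 1) C (fun h => by
    have := cod_vanish (hP (C + 1)) (a := 0) (by rw [pow_zero]; exact one_dvd _) h (Nat.zero_le _)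
      le_rfl
    omega)
  have hbc : b + c' ≤ C := cod_vanish (hP C) hb1 hc1 hbC hcC
  obtain ⟨bb, hbb0, hbb1⟩ : ∃ bb : Fin 2 → ℕ, bb 0 = b ∧ bb 1 = c' := ⟨![b, c'], rfl, rfl⟩
  obtain ⟨w, hwd⟩ : ∃ w : Fin 3 → ℕ, w = fun j => w₀ j + b * r₁ j + c' * r₂ j := ⟨_, rfl⟩
  have hwj : ∀ j, w j = w₀ j + b * r₁ j + c' * r₂ j := fun j => by rw [hwd]
  have hw1 : ∀ j, 0 < w j := fun j => by rw [hwj]; have := hw j; omega
  have hdet' : dt (vz w) (vz r₁) (vz r₂) ≠ 0 := by rw [hwd, TB6_dt]; exact hdet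
  obtain ⟨K₁, hK₁⟩ : ∃ K₁, K₁ = K + C + 1 + ∑ j, w j := ⟨_, rfl⟩
  have hwK : ∀ j, w j < K₁ := by
    intro j
    have h1 := Finset.single_le_sum (f := w) (fun i _ => Nat.zero_le _) (Finset.mem_univ j)
    omega
  have hK₁0 : 0 < K₁ := by omega
  have hdv : ∀ j, ∃ F, P j = PowerSeries.X ^ bb j * F := by
    intro j
    fin_cases j
    · show ∃ F, P 0 = PowerSeries.X ^ bb 0 * F
      rw [hbb0]; exact hb1
    · show ∃ F, P 1 = PowerSeries.X ^ bb 1 * F
      rw [hbb1]; exact hc1
  choose Pq hPq using hdv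
  have hPq0 : ∀ j, PowerSeries.coeff 0 (Pq j) ≠ 0 := by
    have key : ∀ j, ¬ (PowerSeries.X : PowerSeries L) ^ (bb j + 1) ∣ P j →
        PowerSeries.coeff 0 (Pq j) ≠ 0 := by
      intro j h h0
      apply h
      rw [hPq j, pow_succ]
      refine mul_dvd_mul_left _ ?_
      rw [PowerSeries.X_dvd_iff, ← PowerSeries.coeff_zero_eq_constantCoeff_apply]
      exact h0
    intro j
    fin_cases j
    · exact key 0 (by rw [hbb0]; exact hb2)
    · exact key 1 (by rw [hbb1]; exact hc2)
  have hPqc : ∀ j n, PowerSeries.coeff (n + bb j) (P j) = PowerSeries.coeff n (Pq j) := by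
    intro j n
    rw [hPq j, PowerSeries.coeff_X_pow_mul]
  have hbb : ∀ j, bb j ≤ b + c' := by
    intro j
    fin_cases j
    · show bb 0 ≤ b + c'
      omega
    · show bb 1 ≤ b + c'
      omega
  -- the coefficients
  obtain ⟨S, hS, hSi⟩ := hP (K₁ + b + c')
  let emb : Fin 2 × Fin K₁ → Fin 2 × Fin (K₁ + b + c') := fun s =>
    (s.1, ⟨s.2.val + bb s.1, by have := hbb s.1; have := s.2.2; omega⟩)
  have hembi : Function.Injective emb := by
    rintro ⟨j, n⟩ ⟨j', n'⟩ h
    have h1 : j = j' := congrArg Prod.fst h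
    subst h1
    have h2 : n.val + bb j = n'.val + bb j := congrArg (fun s => s.2.val) h
    have h3 : n = n' := Fin.ext (by omega)
    rw [h3]
  let S' : Finset (Fin 2 × Fin K₁) := Finset.univ.filter fun s => emb s ∈ S
  have hS'c : 2 * K₁ + b + c' ≤ S'.card + C := by
    obtain ⟨Rf, hRf⟩ : ∃ Rf : Finset (Fin 2 × Fin (K₁ + b + c')), Rf = Finset.univ.filter
        fun s => bb s.1 + K₁ ≤ s.2.val := ⟨_, rfl⟩
    have h3 : Rf.card ≤ b + c' := by
      rw [hRf]
      refine (TB6_fib (M := K₁ + b + c') (fun j : Fin 2 => bb j + K₁)).trans ?_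
      rw [Fin.sum_univ_two, hbb0, hbb1]
      omega
    have h1 : S ⊆ S'.image emb ∪ Rf := by
      rw [hRf]
      intro s hs
      have h2 : PowerSeries.coeff s.2.val (P s.1) ≠ 0 := hSi.ne_zero ⟨s, hs⟩
      have h3 : bb s.1 ≤ s.2.val := by
        by_contra h4
        apply h2
        rw [hPq s.1, PowerSeries.coeff_X_pow_mul', if_neg h4]
      by_cases h4 : bb s.1 + K₁ ≤ s.2.val
      · exact Finset.mem_union_right _ (Finset.mem_filter.2 ⟨Finset.mem_univ _, h4⟩)
      · refine Finset.mem_union_left _ (Finset.mem_image.2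
          ⟨(s.1, ⟨s.2.val - bb s.1, by omega⟩), ?_, ?_⟩)
        · refine Finset.mem_filter.2 ⟨Finset.mem_univ _, ?_⟩
          have h5 : emb (s.1, ⟨s.2.val - bb s.1, by omega⟩) = s := by
            refine Prod.ext rfl (Fin.ext ?_)
            show s.2.val - bb s.1 + bb s.1 = s.2.val
            omega
          rw [h5]
          exact hs
        · refine Prod.ext rfl (Fin.ext ?_)
          show s.2.val - bb s.1 + bb s.1 = s.2.val
          omega
    have h2 := (Finset.card_le_card h1).trans (Finset.card_union_le _ _)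
    have h4 : (S'.image emb).card ≤ S'.card := Finset.card_image_le
    omega
  have hS'i : AlgebraicIndependent k
      (fun t : S' => PowerSeries.coeff t.1.2.val (Pq t.1.1)) := by
    have h1 := hSi.comp (fun t : S' => (⟨emb t.1, (Finset.mem_filter.1 t.2).2⟩ : S))
      (fun s t h => Subtype.ext (hembi (congrArg Subtype.val h)))
    have h2 : (fun t : S' => PowerSeries.coeff t.1.2.val (Pq t.1.1)) =
        (fun t : S => PowerSeries.coeff t.1.2.val (P t.1.1)) ∘
          (fun t : S' => (⟨emb t.1, (Finset.mem_filter.1 t.2).2⟩ : S)) := by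
      funext t
      exact (hPqc t.1.1 t.1.2.val).symm
    rw [h2]
    exact h1
  -- the field
  let R := MvPolynomial (Fin K₁) L
  let L' : Type u := FractionRing R
  have ht : IsScalarTower k L L' := inferInstance
  have hchL : CharZero L := charZero_of_injective_algebraMap (algebraMap k L).injective
  have hch : CharZero L' := charZero_of_injective_algebraMap (algebraMap L L').injective
  let v : Fin K₁ → L' := fun i => algebraMap R L' (X i)
  have hv : AlgebraicIndependent L v := by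
    have h1 : AlgebraicIndependent L (X : Fin K₁ → R) :=
      MvPolynomial.algebraicIndependent_X _ _
    exact h1.map' (f := IsScalarTower.toAlgHom L R L') (IsFractionRing.injective R L')
  let T : PowerSeries L' := PowerSeries.mk fun n => if h : n < K₁ then v ⟨n, h⟩ else 0
  have hTc : ∀ n (h : n < K₁), PowerSeries.coeff n T = v ⟨n, h⟩ := by
    intro n h
    simp only [T, PowerSeries.coeff_mk, dif_pos h]
  have hT0 : PowerSeries.coeff 0 T ≠ 0 := by
    rw [hTc 0 hK₁0]
    exact hv.ne_zero _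
  let p : Fin 2 → Polynomial L' := fun j =>
    (PowerSeries.trunc K₁ (Pq j)).map (algebraMap L L')
  have hpc : ∀ j n, n < K₁ → (p j).coeff n = algebraMap L L' (PowerSeries.coeff n (Pq j)) := by
    intro j n hn
    simp only [p, Polynomial.coeff_map, PowerSeries.coeff_trunc, if_pos hn]
  have hp0 : ∀ j, (p j).coeff 0 ≠ 0 := by
    intro j
    rw [hpc j 0 hK₁0, Ne, map_eq_zero]
    exact hPq0 j
  let V : Fin 3 → PowerSeries L' := fun j => T ^ w j *
    Polynomial.aeval (PowerSeries.X * T) (p 0) ^ r₁ j *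
    Polynomial.aeval (PowerSeries.X * T) (p 1) ^ r₂ j
  have hcomp0 : ∀ q : Polynomial L', PowerSeries.constantCoeff
      (Polynomial.aeval (PowerSeries.X * T) q) = q.coeff 0 := by
    intro q
    induction q using Polynomial.induction_on' with
    | add q q' h h' => rw [map_add, map_add, h, h', Polynomial.coeff_add]
    | monomial n a =>
      rw [Polynomial.aeval_monomial, map_mul, map_pow, map_mul, PowerSeries.constantCoeff_X,
        zero_mul, PowerSeries.algebraMap_apply, PowerSeries.constantCoeff_C,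
        Polynomial.coeff_monomial]
      rcases Nat.eq_zero_or_pos n with h | h
      · subst h
        rw [pow_zero, mul_one, if_pos rfl]
        rfl
      · rw [zero_pow h.ne', mul_zero, if_neg h.ne']
  have hV0 : ∀ j, PowerSeries.constantCoeff (V j) ≠ 0 := by
    intro j
    simp only [V]
    rw [map_mul, map_mul, map_pow, map_pow, map_pow, hcomp0, hcomp0]
    rw [PowerSeries.coeff_zero_eq_constantCoeff_apply] at hT0
    exact mul_ne_zero (mul_ne_zero (pow_ne_zero _ hT0) (pow_ne_zero _ (hp0 0)))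
      (pow_ne_zero _ (hp0 1))
  let x : Fin 3 × Fin K₁ → L' := fun s => PowerSeries.coeff s.2.val (V s.1)
  obtain ⟨ha1, ha2⟩ := TB6_alg (k := k) w r₁ r₂ hdet' K₁ hK₁0 T hT0 p hp0 x (fun i n => rfl)
  have hy := hS'i.sumElim_comp hv
  let y : Fin K₁ ⊕ (Fin 2 × Fin K₁) → L' :=
    Sum.elim v (fun s => algebraMap L L' (PowerSeries.coeff s.2.val (Pq s.1)))
  let T' : Finset (Fin K₁ ⊕ (Fin 2 × Fin K₁)) := Finset.univ.disjSum S'
  have hT'i : AlgebraicIndependent k (fun t : T' => y t) := by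
    have hT'1 : ∀ t : T', ∀ s, t.1 = Sum.inr s → s ∈ S' := by
      intro t s hs
      have h1 := t.2
      rw [hs] at h1
      exact Finset.inr_mem_disjSum.1 h1
    let g : T' → Fin K₁ ⊕ S' := fun t => match h : t.1 with
      | Sum.inl i => Sum.inl i
      | Sum.inr s => Sum.inr ⟨s, hT'1 t s h⟩
    have hg : ∀ t : T', Sum.map id Subtype.val (g t) = t.1 := by
      rintro ⟨t, ht⟩
      rcases t with i | s <;> rfl
    have hginj : Function.Injective g := by
      intro a b hab
      apply Subtype.ext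
      rw [← hg a, ← hg b, hab]
    have h1 := hy.comp g hginj
    have h2 : (fun t : T' => y t) = (Sum.elim v ((algebraMap L L') ∘ fun t : S' =>
        PowerSeries.coeff t.1.2.val (Pq t.1.1))) ∘ g := by
      funext t
      have h3 : ∀ w : Fin K₁ ⊕ S', y (Sum.map id Subtype.val w) = Sum.elim v
          ((algebraMap L L') ∘ fun t : S' => PowerSeries.coeff t.1.2.val (Pq t.1.1)) w := by
        rintro (i | s) <;> rfl
      exact (congrArg y (hg t)).symm.trans (h3 (g t))
    rw [h2]
    exact h1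
  obtain ⟨T₂, hT₂, hT₂i⟩ := alg_exchange (k := k) x y
    (by
      rintro (i | s)
      · have h1 := ha1 i.val i.2
        rw [hTc i.val i.2] at h1
        exact h1
      · have h1 := ha2 s.1 s.2.val s.2.2
        rw [hpc _ _ s.2.2] at h1
        exact h1) T' hT'i
  have hT'c : T'.card = K₁ + S'.card := by
    rw [Finset.card_disjSum, Finset.card_univ, Fintype.card_fin]
  -- the jets
  let Y : Fin 3 → PowerSeries L' := fun j => PowerSeries.X ^ w j * V j
  let c : Fin 3 → Fin K₁ → L' := fun j n => PowerSeries.coeff (n.val + 1) (Y j)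
  have hY0 : ∀ j, PowerSeries.coeff 0 (Y j) = 0 := by
    intro j
    simp only [Y]
    rw [PowerSeries.coeff_X_pow_mul', if_neg (by have := hw1 j; omega)]
  have hjet := TB6_jet c Y hY0 (fun i n => rfl)
  let g : Fin 3 × Fin K₁ → Fin 3 × Fin K₁ := fun s =>
    (s.1, ⟨s.2.val + 1 - w s.1, by have := hw1 s.1; have := s.2.2; omega⟩)
  let T₀ : Finset (Fin 3 × Fin K₁) := Finset.univ.filter fun s =>
    w s.1 ≤ s.2.val + 1 ∧ g s ∈ T₂
  have hT₀c : T₂.card + 3 ≤ T₀.card + ∑ j, w j := by
    obtain ⟨Rf, hRf⟩ : ∃ Rf : Finset (Fin 3 × Fin K₁), Rf = Finset.univ.filter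
        fun s => K₁ + 1 - w s.1 ≤ s.2.val := ⟨_, rfl⟩
    have h3 : Rf.card + 3 ≤ ∑ j, w j := by
      have h4 := TB6_fib (M := K₁) (fun j : Fin 3 => K₁ + 1 - w j)
      rw [← hRf, Fin.sum_univ_three] at h4
      rw [Fin.sum_univ_three]
      have h5 := hw1 0
      have h6 := hw1 1
      have h7 := hw1 2
      have h8 := hwK 0
      have h9 := hwK 1
      have h10 := hwK 2
      omega
    have h1 : T₂ ⊆ T₀.image g ∪ Rf := by
      rw [hRf]
      intro s hs
      by_cases h4 : K₁ + 1 - w s.1 ≤ s.2.val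
      · exact Finset.mem_union_right _ (Finset.mem_filter.2 ⟨Finset.mem_univ _, h4⟩)
      · have h5 := hw1 s.1
        have h6 := hwK s.1
        have h7 := s.2.2
        have h8 : g (s.1, ⟨s.2.val + w s.1 - 1, by omega⟩) = s := by
          refine Prod.ext rfl (Fin.ext ?_)
          show s.2.val + w s.1 - 1 + 1 - w s.1 = s.2.val
          omega
        refine Finset.mem_union_left _ (Finset.mem_image.2
          ⟨(s.1, ⟨s.2.val + w s.1 - 1, by omega⟩), ?_, h8⟩)
        refine Finset.mem_filter.2 ⟨Finset.mem_univ _, ?_, ?_⟩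
        · show w s.1 ≤ s.2.val + w s.1 - 1 + 1
          omega
        · rw [h8]
          exact hs
    have h2 := (Finset.card_le_card h1).trans (Finset.card_union_le _ _)
    have h4 : (T₀.image g).card ≤ T₀.card := Finset.card_image_le
    omega
  have hcx : ∀ s : Fin 3 × Fin K₁, w s.1 ≤ s.2.val + 1 → c s.1 s.2 = x (g s) := by
    intro s hs
    show PowerSeries.coeff (s.2.val + 1) (PowerSeries.X ^ w s.1 * V s.1) =
      PowerSeries.coeff (s.2.val + 1 - w s.1) (V s.1)
    rw [PowerSeries.coeff_X_pow_mul', if_pos hs]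
  have hT₀i : AlgebraicIndependent k (fun t : T₀ => c t.1.1 t.1.2) := by
    have hm : ∀ t : T₀, w t.1.1 ≤ t.1.2.val + 1 ∧ g t.1 ∈ T₂ := fun t =>
      (Finset.mem_filter.1 t.2).2
    have h1 := hT₂i.comp (fun t : T₀ => (⟨g t.1, (hm t).2⟩ : T₂)) (by
      intro s t h
      have h2 : g s.1 = g t.1 := congrArg Subtype.val h
      have h3' : (g s.1).1 = (g t.1).1 := by rw [h2]
      have h4' : (g s.1).2.val = (g t.1).2.val := by rw [h2]
      have h3 : s.1.1 = t.1.1 := h3'
      have h4 : s.1.2.val + 1 - w s.1.1 = t.1.2.val + 1 - w t.1.1 := h4'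
      have h5 := (hm s).1
      have h6 := (hm t).1
      rw [h3] at h4 h5
      exact Subtype.ext (Prod.ext h3 (Fin.ext (by omega))))
    have h2 : (fun t : T₀ => c t.1.1 t.1.2) = (fun t : T₂ => x t.1) ∘
        (fun t : T₀ => (⟨g t.1, (hm t).2⟩ : T₂)) := by
      funext t
      exact hcx t.1 (hm t).1
    rw [h2]
    exact h1
  have hsum : ∑ j, ((w₀ j : ℤ) + b * r₁ j + c' * r₂ j) = ((∑ j, w j : ℕ) : ℤ) := by
    rw [Nat.cast_sum]
    refine Finset.sum_congr rfl fun j _ => ?_
    rw [hwj]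
    push_cast
    ring
  have hwX : ∀ j, (PowerSeries.X : PowerSeries L') ^ w j ∣ jetS c j := by
    intro j
    have h1 := (pow_dvd_pow (PowerSeries.X : PowerSeries L')
      (show w j ≤ K₁ + 1 by have := hwK j; omega)).trans (hjet j)
    exact (dvd_sub_left (Dvd.intro _ rfl : PowerSeries.X ^ w j ∣ Y j)).1 h1
  have hwX' : ∀ j, ¬ (PowerSeries.X : PowerSeries L') ^ (w j + 1) ∣ jetS c j := by
    intro j hdj
    have h1 := (pow_dvd_pow (PowerSeries.X : PowerSeries L')
      (show w j + 1 ≤ K₁ + 1 by have := hwK j; omega)).trans (hjet j)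
    have h2 : PowerSeries.X ^ (w j + 1) ∣ PowerSeries.X ^ w j * V j := (dvd_sub_right hdj).1 h1
    rw [pow_succ] at h2
    have h3 := (mul_dvd_mul_iff_left (pow_ne_zero (w j) PowerSeries.X_ne_zero)).1 h2
    rw [PowerSeries.X_dvd_iff] at h3
    exact hV0 j h3
  refine ⟨b, c', L', inferInstance, inferInstance, K₁, C - b - c' + ∑ j, w j, c, T₀, by omega,
    fun j => ?_, ?_, hb1, hb2, hc1, hc2, ?_, hT₀i, fun j => ?_, fun j => ?_, ?_⟩
  · rw [← hwj]
    exact (hwK j).le
  · rw [hsum]
    have h1 : C - b - c' + b + c' = C := by omega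
    omega
  · omega
  · rw [← hwj]
    exact hwX j
  · rw [← hwj]
    exact hwX' j
  · intro f n hn hdiv
    have h6 : (PowerSeries.X : PowerSeries L') ^ n ∣
        ev (fun j => ((Polynomial.X ^ bb j * p j : Polynomial L') : PowerSeries L'))
          (yc w₀ r₁ r₂ f) := by
      have h7 : (PowerSeries.X : PowerSeries L') ^ n ∣
          ev (fun j => PowerSeries.map (algebraMap L L') (P j)) (yc w₀ r₁ r₂ f) := by
        have h8 := ev_map (IsScalarTower.toAlgHom k L L') P (yc w₀ r₁ r₂ f)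
        have h9 : (PowerSeries.X : PowerSeries L') ^ n ∣
            PowerSeries.map ((IsScalarTower.toAlgHom k L L' : L →ₐ[k] L') : L →+* L')
              (ev P (yc w₀ r₁ r₂ f)) := by
          obtain ⟨q, hq⟩ := hdiv
          rw [hq, map_mul, map_pow, PowerSeries.map_X]
          exact Dvd.intro _ rfl
        rw [h8] at h9
        exact h9
      have h8 : ∀ j, (PowerSeries.X : PowerSeries L') ^ K₁ ∣
          ((Polynomial.X ^ bb j * p j : Polynomial L') : PowerSeries L') -
            PowerSeries.map (algebraMap L L') (P j) := by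
        intro j
        rw [hPq j, map_mul, map_pow, PowerSeries.map_X, Polynomial.coe_mul, Polynomial.coe_pow,
          Polynomial.coe_X, ← mul_sub]
        refine Dvd.dvd.mul_left ?_ _
        rw [PowerSeries.X_pow_dvd_iff]
        intro i hi
        rw [map_sub, Polynomial.coeff_coe, hpc j i hi, PowerSeries.coeff_map, sub_self]
      have h9 := (pow_dvd_pow (PowerSeries.X : PowerSeries L') (show n ≤ K₁ by omega)).trans
        (ev_congr h8 (yc w₀ r₁ r₂ f))
      exact (dvd_sub_left h7).1 h9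
    have h7 := TB6_dvd w₀ r₁ r₂ bb p T f n h6
    have h7' : (PowerSeries.X : PowerSeries L') ^ n ∣ aeval Y f := by
      have h10 : Y = fun j =>
          PowerSeries.X ^ (w₀ j + bb 0 * r₁ j + bb 1 * r₂ j) *
          (T ^ (w₀ j + bb 0 * r₁ j + bb 1 * r₂ j) *
          Polynomial.aeval (PowerSeries.X * T) (p 0) ^ r₁ j *
          Polynomial.aeval (PowerSeries.X * T) (p 1) ^ r₂ j) := by
        funext j
        simp only [Y, V]
        rw [hwj, hbb0, hbb1]
      rw [h10]
      exact h7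
    have h8 := TB6_cong (jetS c) Y hjet f
    have h9 := (pow_dvd_pow (PowerSeries.X : PowerSeries L')
      (show n ≤ K₁ + 1 by omega)).trans h8
    exact (dvd_sub_left h7').1 h9

end M5
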