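import Pool.Agent.M5.TB6
import Pool.Agent.M5.TB0

/-!
PIECE M5-TB7: from arcs in a toric chart to divisors.

PROOF. `clear_den s m`: `κ`.  The order `b, c'` of `P 0, P 1` are at most `C` (`cod_vanish`), so `κ₀ := ∑ κ j * (w j + b r₁ j + c' r₂ j)` is bounded
in advance by `κ₁ := ∑ κ j * (w j + C r₁ j + C r₂ j)`; take `tarc_to_jet` with `K := m + κ₁`, then `exists_divisor_of_jetE` for the jets:
`E, g, A₁`.  `g * E.ord (xx k j) = w' j := w j + b r₁ j + c' r₂ j` by both order statements for `f = X j`, `r = w' j`.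
For `F`, `n ≤ m`, `X^n ∣ ev P (tc .. F)`: `low_high m`: `F = F₁ + F₂`, `X^m ∣ tc .. F₂` (`tc_ge`), so `X^n ∣ ev P (tc .. F₁)`; `clear_den`: `G` with
`yc .. G = yc .. (monomial κ 1) * tc .. F₁`, and `ev P (yc .. (monomial κ 1)) = ∏ (X^(w j) (P 0)^(r₁ j) (P 1)^(r₂ j))^(κ j)` is divisible by
`X^κ₀`, so `X^(n + κ₀) ∣ ev P (yc .. G)`, so `X^(n + κ₀) ∣ aeval (jetS c) G`, so (if `G ≠ 0`) `n + κ₀ ≤ g * E.ord (toFF G)` and
`g * E.ord (toFF (monomial κ 1)) = κ₀`: `tK s F₁ = 0` or `n ≤ g * E.ord (tK s F₁)`.  Also `g * E.ord (chi (s l)) = pr (s l) w' ≥ 1`, so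
`n ≤ g * E.ord (tK s F₂)` or `tK s F₂ = 0`: every monomial of degree `≥ m` has `g * ord ≥ m` (as in `tK_ge`, but with the factor `g`:
use the smallest integer `N` with `g * N ≥ n`, see `ord_gen` in `M3/LDisc.lean`).
-/

open MvPolynomial

namespace M5

open MLD M3

universe u

/-- a multiple of an order function -/
private noncomputable def TB7_scale {k : Type u} [Field k] (v : OrdFn k (FF k (Fin 3))) (g : ℕ) :
    OrdFn k (FF k (Fin 3)) where
  ord f := g * v.ord f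
  ord_mul' f h hf hh := by rw [v.ord_mul' f h hf hh]; ring
  ord_add' f h hf hh hfh := by
    have h1 := v.ord_add' f h hf hh hfh
    have hg : (0 : ℤ) ≤ g := Int.natCast_nonneg g
    rcases min_le_iff.1 h1 with h2 | h2
    · exact (min_le_left _ _).trans (mul_le_mul_of_nonneg_left h2 hg)
    · exact (min_le_right _ _).trans (mul_le_mul_of_nonneg_left h2 hg)
  ord_const' c hc := by rw [v.ord_const' c hc, mul_zero]

private theorem TB7_scale_ord {k : Type u} [Field k] (v : OrdFn k (FF k (Fin 3))) (g : ℕ)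
    (f : FF k (Fin 3)) : (TB7_scale v g).ord f = g * v.ord f := rfl

/-- the order of a monomial -/
private theorem TB7_mono {k : Type u} [Field k] (v : OrdFn k (FF k (Fin 3))) (κ : Fin 3 →₀ ℕ) :
    toFF k (Fin 3) (monomial κ 1) ≠ 0 ∧
      v.ord (toFF k (Fin 3) (monomial κ 1)) = ∑ j, (κ j : ℤ) * v.ord (xx k j) := by
  have h1 : toFF k (Fin 3) (monomial κ 1) = ∏ j, (xx k j : FF k (Fin 3)) ^ κ j := by
    have h2 : (monomial κ (1 : k) : MvPolynomial (Fin 3) k) = ∏ j, X j ^ κ j := by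
      rw [monomial_eq, C_1, one_mul, Finsupp.prod_fintype]
      intro i
      rw [pow_zero]
    rw [h2, map_prod]
    refine Finset.prod_congr rfl fun j _ => ?_
    rw [map_pow]
    rfl
  have h3 : ∀ j ∈ (Finset.univ : Finset (Fin 3)), (xx k j : FF k (Fin 3)) ^ κ j ≠ 0 :=
    fun j _ => pow_ne_zero _ (xx_ne j)
  refine ⟨?_, ?_⟩
  · rw [h1]
    exact Finset.prod_ne_zero_iff.2 h3
  · rw [h1, v.ord_prod _ _ h3]
    exact Finset.sum_congr rfl fun j _ => v.ord_pow (xx_ne j) _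

/-- the value of a monomial at the arc -/
private theorem TB7_yc {k : Type u} [Field k] {L : Type u} [Field L] [Algebra k L]
    (w r₁ r₂ : Fin 3 → ℕ) (P : Fin 2 → PowerSeries L) (b c : ℕ)
    (hb : (PowerSeries.X : PowerSeries L) ^ b ∣ P 0) (hc : (PowerSeries.X : PowerSeries L) ^ c ∣ P 1)
    (κ : Fin 3 →₀ ℕ) : (PowerSeries.X : PowerSeries L) ^ (∑ j, κ j * (w j + b * r₁ j + c * r₂ j)) ∣
      ev P (yc w r₁ r₂ (monomial κ (1 : k))) := by
  have h1 : yc w r₁ r₂ (monomial κ (1 : k)) =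
      ∏ j, (PowerSeries.X ^ w j * xA 0 ^ r₁ j * xA 1 ^ r₂ j : AA k) ^ κ j := by
    unfold yc
    rw [aeval_monomial, map_one, one_mul, Finsupp.prod_fintype]
    intro i
    rw [pow_zero]
  have h2 : ∀ t : Finset (Fin 3), (PowerSeries.X : PowerSeries L) ^
      (∑ j ∈ t, κ j * (w j + b * r₁ j + c * r₂ j)) ∣
      ev P (∏ j ∈ t, (PowerSeries.X ^ w j * xA 0 ^ r₁ j * xA 1 ^ r₂ j : AA k) ^ κ j) := by
    intro t
    induction t using Finset.induction_on with
    | empty => rw [Finset.sum_empty, pow_zero]; exact one_dvd _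
    | insert a t ha ih =>
      rw [Finset.sum_insert ha, Finset.prod_insert ha, ev_mul, pow_add]
      refine mul_dvd_mul ?_ ih
      rw [ev_pow, ev_mul, ev_mul, ev_pow, ev_pow, ev_pow, ev_X, ev_xA, ev_xA, mul_comm (κ a),
        pow_mul]
      refine pow_dvd_pow_of_dvd ?_ _
      rw [pow_add, pow_add]
      refine mul_dvd_mul (mul_dvd_mul dvd_rfl ?_) ?_
      · rw [pow_mul]; exact pow_dvd_pow_of_dvd hb _
      · rw [pow_mul]; exact pow_dvd_pow_of_dvd hc _
  rw [h1]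
  exact h2 Finset.univ

theorem tarc_to_div {k : Type u} [Field k] [CharZero k] {L : Type u} [Field L] [Algebra k L]
    {p : ℕ} (s : Fin p → Fin 3 → ℤ) (w r₁ r₂ : Fin 3 → ℕ)
    (hdet : dt (vz w) (vz r₁) (vz r₂) ≠ 0) (hw : ∀ j, 0 < w j)
    (hs0 : ∀ l, 0 < pr (s l) (vz w)) (hs1 : ∀ l, 0 ≤ pr (s l) (vz r₁))
    (hs2 : ∀ l, 0 ≤ pr (s l) (vz r₂)) (P : Fin 2 → PowerSeries L) (C : ℕ)
    (hP : ∀ M, CodLe k P M C) (m : ℕ) :
    ∃ (E : DivisorOver k (Fin 3)) (g A₁ b c : ℕ), 0 < g ∧ E.CenterZero ∧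
      E.logDisc ≤ (((A₁ : ℕ) : ℝ) : EReal) ∧
      (∀ j, (g : ℤ) * E.ord (xx k j) = w j + b * r₁ j + c * r₂ j) ∧
      ((g * A₁ : ℕ) : ℤ) + b + c ≤ C + ∑ j, ((w j : ℤ) + b * r₁ j + c * r₂ j) ∧
      ∀ (F : MvPolynomial (Fin p) k) (n : ℕ), n ≤ m →
        (PowerSeries.X : PowerSeries L) ^ n ∣ ev P (tc s w r₁ r₂ F) →
        tK s F = 0 ∨ (n : ℤ) ≤ g * E.ord (tK s F) := by
  obtain ⟨κ, hκ⟩ := clear_den (k := k) s m
  obtain ⟨κ₁, hκ₁⟩ : ∃ κ₁ : ℕ, κ₁ = ∑ j, κ j * (w j + C * r₁ j + C * r₂ j) := ⟨_, rfl⟩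
  obtain ⟨b, c', L', iF, iA, m', A, c, T₀, hKm, hwm, hA, hb, -, hc, -, hcard, hind, hj1, hj2,
    hall⟩ := tarc_to_jet w r₁ r₂ hdet hw P C hP (m + κ₁)
  have hbc : b + c' ≤ C := cod_vanish (hP (b + c')) hb hc (Nat.le_add_right _ _)
    (Nat.le_add_left _ _)
  obtain ⟨E, g, A₁, hg, hcz, hld, hgA, hord1, hord2⟩ := exists_divisor_of_jetE c A T₀
    (by rw [Fintype.card_fin]; exact hcard) hind
  have hX : ∀ j, (g : ℤ) * E.ord (xx k j) = w j + b * r₁ j + c' * r₂ j := by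
    intro j
    have h1 := hord1 (X j) (X_ne_zero j) (w j + b * r₁ j + c' * r₂ j)
      ((hwm j).trans (Nat.le_succ m')) (by rw [aeval_X]; exact hj1 j)
    have h2 := hord2 (X j) (X_ne_zero j) (w j + b * r₁ j + c' * r₂ j) (hwm j)
      (by rw [aeval_X]; exact hj2 j)
    have h3 : (xx k j : FF k (Fin 3)) = toFF k (Fin 3) (X j) := rfl
    rw [h3]
    push_cast at h1 h2
    exact le_antisymm h2 h1
  refine ⟨E, g, A₁, b, c', hg, hcz, hld, hX, ?_, ?_⟩
  · have h1 : ((g * A₁ : ℕ) : ℤ) ≤ (A : ℤ) := by exact_mod_cast hgA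
    have h2 : ((g * A₁ : ℕ) : ℤ) + b + c' ≤ (A : ℤ) + b + c' := by linarith
    exact h2.trans hA.le
  · intro F n hn hdiv
    obtain ⟨v, hv⟩ : ∃ v : OrdFn k (FF k (Fin 3)), v = TB7_scale E.toOrdFn g := ⟨_, rfl⟩
    have hvo : ∀ f, v.ord f = g * E.ord f := fun f => by rw [hv]; rfl
    obtain ⟨F₁, F₂, hF, hF₁, hF₂⟩ := low_high m F
    have hge2 : v.ge n (tK s F₂) := by
      have h1 : ∀ l, ((1 : ℕ) : ℤ) ≤ v.ord (chi k (s l)) := by
        intro l
        rw [ord_chi v (s l)]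
        have h2 : pr (s l) (fun j => v.ord (xx k j)) =
            pr (s l) (vz w) + b * pr (s l) (vz r₁) + c' * pr (s l) (vz r₂) := by
          unfold pr vz
          rw [Finset.mul_sum, Finset.mul_sum, ← Finset.sum_add_distrib, ← Finset.sum_add_distrib]
          refine Finset.sum_congr rfl fun j _ => ?_
          have h7 : v.ord (xx k j) = w j + b * r₁ j + c' * r₂ j := by rw [hvo, hX]
          simp only [h7]
          ring
        rw [h2]
        have h3 := hs0 l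
        have h4 := mul_nonneg (Int.natCast_nonneg b) (hs1 l)
        have h5 := mul_nonneg (Int.natCast_nonneg c') (hs2 l)
        push_cast
        linarith
      have h6 := tK_ge s v 1 h1 m F₂ hF₂
      refine v.ge_mono ?_ h6
      push_cast
      rw [mul_one]
      exact_mod_cast hn
    have hge1 : v.ge n (tK s F₁) := by
      obtain ⟨G, hG1, hG2⟩ := hκ w r₁ r₂ (fun l => (hs0 l).le) hs1 hs2 F₁ hF₁
      obtain ⟨κ₀, hκ₀⟩ : ∃ κ₀ : ℕ, κ₀ = ∑ j, κ j * (w j + b * r₁ j + c' * r₂ j) := ⟨_, rfl⟩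
      have hle : κ₀ ≤ κ₁ := by
        rw [hκ₀, hκ₁]
        refine Finset.sum_le_sum fun j _ => Nat.mul_le_mul_left _ ?_
        have e1 : b * r₁ j ≤ C * r₁ j := Nat.mul_le_mul_right _ (by omega)
        have e2 : c' * r₂ j ≤ C * r₂ j := Nat.mul_le_mul_right _ (by omega)
        omega
      have hd1 : (PowerSeries.X : PowerSeries L) ^ n ∣ ev P (tc s w r₁ r₂ F₁) := by
        have e1 : (PowerSeries.X : PowerSeries L) ^ n ∣ ev P (tc s w r₁ r₂ F₂) :=
          ev_dvd P ((pow_dvd_pow _ hn).trans (tc_ge s w r₁ r₂ hs0 m F₂ hF₂))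
        rw [hF, map_add, ev_add] at hdiv
        exact (dvd_add_left e1).1 hdiv
      have hd2 : (PowerSeries.X : PowerSeries L) ^ (n + κ₀) ∣ ev P (yc w r₁ r₂ G) := by
        rw [hG2, ev_mul, add_comm, pow_add]
        refine mul_dvd_mul ?_ hd1
        rw [hκ₀]
        exact TB7_yc w r₁ r₂ P b c' hb hc κ
      have hd3 := hall G (n + κ₀) (by omega) hd2
      obtain ⟨hm0, hmo⟩ := TB7_mono E.toOrdFn κ
      by_cases ht : tK s F₁ = 0
      · exact Or.inl ht
      · right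
        have hG0 : G ≠ 0 := by
          rintro rfl
          rw [map_zero] at hG1
          exact (mul_ne_zero hm0 ht) hG1.symm
        have e1 := hord1 G hG0 (n + κ₀) (by omega) hd3
        rw [hG1, E.toOrdFn.ord_mul hm0 ht, hmo, mul_add, Finset.mul_sum] at e1
        have e2 : ∑ j, (g : ℤ) * ((κ j : ℤ) * E.ord (xx k j)) = (κ₀ : ℤ) := by
          rw [hκ₀]
          push_cast
          refine Finset.sum_congr rfl fun j _ => ?_
          rw [← hX j]
          ring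
        rw [e2] at e1
        rw [hvo]
        push_cast at e1
        linarith
    have hge := v.ge_add hge1 hge2
    rw [← map_add, ← hF] at hge
    rcases hge with h | h
    · exact Or.inl h
    · right
      rwa [hvo] at h

end M5
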