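import Pool.Agent.M5.TDefs
import Pool.Agent.MLD.Q1

/-!
PIECE M5-TC1: divisors of the function field with positive orders of the coordinates = divisors over `A^3` with
centre the origin; log discrepancies.

PROOF. `dv_to`: same `OrdFn`; `ord_poly'` from `OrdFn.ge_aeval` (weights `0`); `residue'`: `Fintype.card (Fin 3) - 1` is `2` (`rfl` or `Fintype.card_fin`, `by
simpa`/`subst`; do it with a general lemma for `n = n'`).  `dv_of`: the same.
`dv_logDisc`: the index sets of the two infima are the same (`Dv.IntegralDer` and `DivisorOver.IntegralDer` agree since the orders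
agree, `jac D xx = DivisorOver.jac D` by `rfl`) and the values differ by the real constant `E.ord X.g / X.N`.  The two
inequalities by `le_iInf` / `iInf_le`: for every `D` `1 + ord jac + c = (1 + ord jac) + c` (`EReal.coe_add`); for `≥`: use
`EReal.sub_le_iff_le_add`-like lemmas or `logDisc = ⊤` / `= A` separately (`exists_logDisc` in `M3/LDisc.lean`: `⊤` iff the index set is empty).
-/

open MvPolynomial

namespace M5

open MLD M3

universe u

variable {k : Type u} [Field k]

private lemma TC1_res {K : Type u} [Field K] [Algebra k K] {n n' : ℕ} (h : n = n')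
    (v : OrdFn k K)
    (hr : ∃ g : Fin n → K, ∀ P : MvPolynomial (Fin n) k, P ≠ 0 →
      aeval g P ≠ 0 ∧ v.ord (aeval g P) = 0) :
    ∃ g : Fin n' → K, ∀ P : MvPolynomial (Fin n') k, P ≠ 0 →
      aeval g P ≠ 0 ∧ v.ord (aeval g P) = 0 := by
  subst h
  exact hr

theorem dv_to (E : Dv k (FF k (Fin 3)) 3) (h : ∀ j, 0 < E.ord (xx k j)) :
    ∃ F : DivisorOver k (Fin 3), F.toOrdFn = E.toOrdFn ∧ F.CenterZero := by
  refine ⟨⟨E.toOrdFn, E.ord_surj', ?_, ?_⟩, rfl, h⟩
  · intro p hp
    have h1 : toFF k (Fin 3) p = aeval (fun j => (xx k j : FF k (Fin 3))) p := by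
      have h2 := MvPolynomial.aeval_unique (toFF k (Fin 3))
      have h3 : (toFF k (Fin 3) ∘ X : Fin 3 → FF k (Fin 3)) = fun j => xx k j := rfl
      rw [h3] at h2
      exact DFunLike.congr_fun h2 p
    have h4 : toFF k (Fin 3) p ≠ 0 := by
      intro h0
      exact hp (IsFractionRing.injective (MvPolynomial (Fin 3) k) (FF k (Fin 3))
        (by rw [map_zero]; exact h0))
    rcases E.toOrdFn.ge_zero_aeval (fun j => (xx k j : FF k (Fin 3)))
      (fun j => Or.inr (h j).le) p with h5 | h5
    · exact absurd (h1.trans h5) h4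
    · rw [← h1] at h5
      exact h5
  · exact TC1_res (by rw [Fintype.card_fin]) E.toOrdFn E.residue'

theorem dv_of (F : DivisorOver k (Fin 3)) :
    ∃ E : Dv k (FF k (Fin 3)) 3, E.toOrdFn = F.toOrdFn := by
  exact ⟨⟨F.toOrdFn, F.ord_surj', TC1_res (by rw [Fintype.card_fin]) F.toOrdFn F.residue'⟩, rfl⟩

theorem dv_logDisc (X : Germ k (FF k (Fin 3)) 3) (hX : X.y = fun j => xx k j)
    (E : Dv k (FF k (Fin 3)) 3) (F : DivisorOver k (Fin 3)) (h : F.toOrdFn = E.toOrdFn) :
    X.logDisc E = F.logDisc + (((E.ord X.g / X.N : ℝ)) : EReal) := by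
  obtain ⟨R, m, N, y, g⟩ := X
  have hX' : y = fun j => xx k j := hX
  subst hX'
  have hord : ∀ f, F.ord f = E.ord f := fun f => by rw [h]
  have hint : ∀ D, F.IntegralDer D ↔ E.IntegralDer D := by
    intro D
    constructor
    · intro h1 f hf h0
      have h2 := h1 f hf (by rw [hord]; exact h0)
      rwa [hord] at h2
    · intro h1 f hf h0
      have h2 := h1 f hf (by rw [← hord]; exact h0)
      rwa [hord]
  have hjac : ∀ D : Fin 3 → Derivation k (FF k (Fin 3)) (FF k (Fin 3)),
      jac D (fun j => xx k j) = DivisorOver.jac D := fun D => rfl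
  obtain ⟨c, hc⟩ : ∃ c : ℝ, c = (E.ord g / N : ℝ) := ⟨_, rfl⟩
  unfold Germ.logDisc DivisorOver.logDisc
  dsimp only
  rw [← hc]
  apply le_antisymm
  · rw [← EReal.sub_le_iff_le_add (Or.inl (EReal.coe_ne_bot c)) (Or.inl (EReal.coe_ne_top c))]
    refine le_iInf fun D => ?_
    rw [EReal.sub_le_iff_le_add (Or.inl (EReal.coe_ne_bot c)) (Or.inl (EReal.coe_ne_top c)),
      ← EReal.coe_add]
    refine (iInf_le _ ⟨D.1, fun i => (hint _).1 (D.2.1 i), by rw [hjac]; exact D.2.2⟩).trans ?_
    rw [hord]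
    push_cast
    exact le_rfl
  · refine le_iInf fun D => ?_
    have h1 := iInf_le (fun D : {D : Fin 3 → Derivation k (FF k (Fin 3)) (FF k (Fin 3)) //
      (∀ i, F.IntegralDer (D i)) ∧ DivisorOver.jac D ≠ 0} =>
      (((1 + F.ord (DivisorOver.jac D.1) : ℤ) : ℝ) : EReal))
      ⟨D.1, fun i => (hint _).2 (D.2.1 i), by rw [← hjac]; exact D.2.2⟩
    refine (add_le_add_left h1 _).trans ?_
    rw [← EReal.coe_add]
    dsimp only
    rw [hord, ← hjac]
    push_cast
    exact le_rfl

end M5
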