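import Pool.Agent.M5.TC1
import Pool.Agent.M5.TB0
import Pool.Agent.M5.TA2

/-!
PIECE M5-TC2: log discrepancies and centres for toric germs.

PROOF. `tlog`: `dv_logDisc` and `ord_chi`: `E.ord (chi k fun j => θ j - N) = pr θ w - N * ∑ j, w j`, divided by `N`.
`tcentre_pos`: `chi k m` is an element of the ideal `(torGerm ..).m` (`Ideal.subset_span`) and `≠ 0` (`chi_ne`).
`tcentre_of`: every element of `torR k ρ` is in the `k`-span of the `chi k m`, `m ∈ SG ρ` (closed under products: `SG ρ` is a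
monoid, `chi_add`; `Algebra.adjoin_induction`, or `Algebra.adjoin_eq_span`); `pr m w ≥ 0` for `m ∈ SG ρ` (`> 0` or `m = 0`), so `E.ge 0`
for all elements of `torR`.  For the ideal: `Submodule.span_induction` with `E.ge 1`: `r * f`, `E.ge 0 r`, `E.ge 1 f`.
`txx_pos`: `(fun t => if t = j then 1 else 0) ∈ SG ρ`, not zero, `chi k` of it is `xx k j`.
-/

open MvPolynomial

namespace M5

open MLD M3

universe u

variable {k : Type u} [Field k] {q : ℕ} {ρ : Fin q → Fin 3 → ℤ} {N : ℕ} {θ : Fin 3 → ℤ}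

private theorem TC2_pr_single (t : Fin 3) (v : Fin 3 → ℤ) :
    pr (fun j => if j = t then 1 else 0) v = v t := by
  unfold pr
  rw [Finset.sum_eq_single t]
  · beta_reduce
    rw [if_pos rfl, one_mul]
  · intro b _ hb
    beta_reduce
    rw [if_neg hb, zero_mul]
  · intro h
    exact absurd (Finset.mem_univ t) h

private theorem TC2_single_ne (t : Fin 3) :
    (fun j : Fin 3 => if j = t then (1 : ℤ) else 0) ≠ 0 := by
  intro h
  have h1 := congrFun h t
  simp at h1

theorem tlog (hN : 0 < N) (E : Dv k (FF k (Fin 3)) 3) (F : DivisorOver k (Fin 3))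
    (h : F.toOrdFn = E.toOrdFn) :
    (torGerm k ρ N θ).logDisc E = F.logDisc +
      ((((pr θ fun j => E.ord (xx k j) : ℤ) : ℝ) / N -
        ((∑ j, E.ord (xx k j) : ℤ) : ℝ) : ℝ) : EReal) := by
  rw [dv_logDisc (torGerm k ρ N θ) rfl E F h]
  have h1 : E.ord (torGerm k ρ N θ).g =
      (pr θ fun j => E.ord (xx k j)) - N * ∑ j, E.ord (xx k j) := by
    have h2 : E.ord (torGerm k ρ N θ).g = pr (fun j => θ j - N) fun j => E.ord (xx k j) :=
      ord_chi E.toOrdFn _
    rw [h2]
    unfold pr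
    rw [Finset.mul_sum, ← Finset.sum_sub_distrib]
    exact Finset.sum_congr rfl fun j _ => by ring
  have h3 : (E.ord (torGerm k ρ N θ).g : ℝ) / (torGerm k ρ N θ).N =
      ((pr θ fun j => E.ord (xx k j) : ℤ) : ℝ) / N - ((∑ j, E.ord (xx k j) : ℤ) : ℝ) := by
    have hN' : (N : ℝ) ≠ 0 := by exact_mod_cast hN.ne'
    have h4 : ((torGerm k ρ N θ).N : ℝ) = N := rfl
    rw [h1, h4, Int.cast_sub, Int.cast_mul, Int.cast_natCast, sub_div, mul_div_cancel_left₀ _ hN']
  rw [h3]

theorem tcentre_pos {E : Dv k (FF k (Fin 3)) 3} (hE : (torGerm k ρ N θ).Centre E)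
    {m : Fin 3 → ℤ} (hm : m ∈ SG ρ) (h0 : m ≠ 0) : 0 < pr m fun j => E.ord (xx k j) := by
  have h1 : chi k m ∈ torR k ρ := Algebra.subset_adjoin ⟨m, hm, rfl⟩
  have h2 := hE.2 (⟨chi k m, h1⟩ : torR k ρ)
    (Ideal.subset_span ⟨m, hm, h0, rfl⟩) (fun h => chi_ne m (congrArg Subtype.val h))
  have h3 : E.ord (chi k m) = pr m fun j => E.ord (xx k j) := ord_chi E.toOrdFn m
  rw [← h3]
  exact h2

theorem tcentre_of {E : Dv k (FF k (Fin 3)) 3}
    (hE : ∀ m ∈ SG ρ, m ≠ 0 → 0 < pr m fun j => E.ord (xx k j)) :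
    (torGerm k ρ N θ).Centre E := by
  have h0 : ∀ f ∈ torR k ρ, E.toOrdFn.ge 0 f := by
    intro f hf
    unfold torR at hf
    induction hf using Algebra.adjoin_induction with
    | mem x hx =>
      obtain ⟨m, hm, rfl⟩ := hx
      right
      have h3 : E.ord (chi k m) = pr m fun j => E.ord (xx k j) := ord_chi E.toOrdFn m
      rw [h3]
      by_cases hm0 : m = 0
      · rw [hm0]
        unfold pr
        simp
      · exact (hE m hm hm0).le
    | algebraMap c => exact E.toOrdFn.ge_const c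
    | add x y _ _ hx hy => exact E.toOrdFn.ge_add hx hy
    | mul x y _ _ hx hy =>
      have := E.toOrdFn.ge_mul hx hy
      rwa [add_zero] at this
  have h1 : ∀ f ∈ (torGerm k ρ N θ).m, E.toOrdFn.ge 1 ((f : torR k ρ) : FF k (Fin 3)) := by
    intro f hf
    change f ∈ Ideal.span {f : torR k ρ | ∃ m ∈ SG ρ, m ≠ 0 ∧ (f : FF k (Fin 3)) = chi k m} at hf
    induction hf using Submodule.span_induction with
    | mem x hx =>
      obtain ⟨m, hm, hm0, hx⟩ := hx
      right
      have h3 : E.ord (chi k m) = pr m fun j => E.ord (xx k j) := ord_chi E.toOrdFn m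
      rw [hx, h3]
      have := hE m hm hm0
      omega
    | zero => exact Or.inl rfl
    | add x y _ _ hx hy => exact E.toOrdFn.ge_add hx hy
    | smul a x _ hx =>
      have := E.toOrdFn.ge_mul (h0 a.1 a.2) hx
      rwa [zero_add] at this
  constructor
  · intro f hf
    rcases h0 f.1 f.2 with h2 | h2
    · exact absurd (Subtype.ext h2) hf
    · exact h2
  · intro f hf hf0
    rcases h1 f hf with h2 | h2
    · exact absurd (Subtype.ext h2) hf0
    · have h3 : 1 ≤ E.ord ((f : torR k ρ) : FF k (Fin 3)) := h2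
      omega

theorem txx_pos (hρ : ∀ i j, 0 ≤ ρ i j) {E : Dv k (FF k (Fin 3)) 3}
    (hE : (torGerm k ρ N θ).Centre E) (j : Fin 3) : 0 < E.ord (xx k j) := by
  have h1 : (fun t : Fin 3 => if t = j then (1 : ℤ) else 0) ∈ SG ρ := by
    intro i
    rw [TC2_pr_single]
    exact hρ i j
  have h2 := tcentre_pos hE h1 (TC2_single_ne j)
  rwa [TC2_pr_single] at h2

/-- the sum of the rays has positive entries -/
theorem tvs_pos (hρ : ∀ i j, 0 ≤ ρ i j)
    (hf : ∀ m : Fin 3 → ℤ, (∀ i, pr m (ρ i) = 0) → m = 0) (t : Fin 3) : 0 < vs ρ t := by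
  have h0 : 0 ≤ vs ρ t := Finset.sum_nonneg fun i _ => hρ i t
  rcases h0.lt_or_eq with h | h
  · exact h
  · exfalso
    have h1 : ∀ i ∈ Finset.univ, ρ i t = 0 :=
      (Finset.sum_eq_zero_iff_of_nonneg fun i _ => hρ i t).1 h.symm
    refine TC2_single_ne t (hf _ fun i => ?_)
    rw [TC2_pr_single]
    exact h1 i (Finset.mem_univ i)

end M5
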