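import Pool.Agent.M5.TC2

/-!
PIECE M5-TC3: ideals of the toric ring as sets of polynomials in the generators.

PROOF. `lf_surj`: `torR` is generated by the `chi k m`, `m ∈ SG ρ`; every `m ∈ SG ρ` is a sum of the `s l`
(`AddSubmonoid.closure_induction`), so `chi k m` is a product of the `chi k (s l)`, the value of a monomial (`chi_add`); `Algebra.adjoin_le` /
`Algebra.adjoin_induction` for the subalgebra `(tK s).range`.
`lf_high`: (key) every element of `(torGerm k ρ N θ).m ^ n` is `tK s H` with `coeff α H = 0` for `α.degree < n`.  The set of these elements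
is an ideal `J n` of `torR` (`lf_surj`; the polynomials `H` with `coeff α H = 0` for `α.degree < n` are the ideal
`MvPolynomial.idealOfVars ^ n`, see `mem_pow_idealOfVars_iff'` used in `M4/XArc.lean` `coeff_mm_pow`), `J 1` contains the generators
`chi k m`, `m ≠ 0` (a sum of at least one `s l`), `J 1 ^ n ≤ J n`.
`lf_congr`: `x ∈ a`, `x = y + z`, `y ∈ b`, `z ∈ m ^ n`, `z = tK s H`; `G := F - H`.
`ordI_le_lf`: `Nat.sInf_le` (the order is a natural number since `E.ord ≥ 0` on `R`).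
`le_ordI_lf`: the set in `ordI` is nonempty, so `Nat.sInf_mem`; lift its element by `lf_surj`.
-/

open MvPolynomial

namespace M5

open MLD M3

universe u

variable {k : Type u} [Field k] {q p : ℕ} {ρ : Fin q → Fin 3 → ℤ} {N : ℕ} {θ : Fin 3 → ℤ}
  {s : Fin p → Fin 3 → ℤ}

/-- the polynomials in the generators whose value is in the ideal -/
def lf (s : Fin p → Fin 3 → ℤ) (I : Ideal (torR k ρ)) : Set (MvPolynomial (Fin p) k) :=
  {F | ∃ x ∈ I, (x : FF k (Fin 3)) = tK s F}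

private theorem TC3_chi_zero : chi k 0 = 1 := by
  unfold chi
  simp

private theorem TC3_X (l : Fin p) : tK (k := k) s (X l) = chi k (s l) := by
  unfold tK
  rw [aeval_X]

private theorem TC3_chi_mem (hs : ∀ m ∈ SG ρ, m ∈ AddSubmonoid.closure (Set.range s))
    {m : Fin 3 → ℤ} (hm : m ∈ SG ρ) :
    m = 0 ∨ ∃ F ∈ MvPolynomial.idealOfVars (Fin p) k, tK s F = chi k m := by
  refine AddSubmonoid.closure_induction
    (motive := fun m _ => m = 0 ∨ ∃ F ∈ MvPolynomial.idealOfVars (Fin p) k, tK s F = chi k m)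
    ?_ ?_ ?_ (hs m hm)
  · rintro _ ⟨l, rfl⟩
    exact Or.inr ⟨X l, Ideal.subset_span ⟨l, rfl⟩, TC3_X l⟩
  · exact Or.inl rfl
  · rintro a b - - (ha | ⟨F, hF, hF'⟩) (hb | ⟨G, hG, hG'⟩)
    · exact Or.inl (by rw [ha, hb, add_zero])
    · exact Or.inr ⟨G, hG, by rw [hG', ha, zero_add]⟩
    · exact Or.inr ⟨F, hF, by rw [hF', hb, add_zero]⟩
    · exact Or.inr ⟨F * G, Ideal.mul_mem_right _ _ hF, by rw [map_mul, hF', hG', chi_add]⟩

private theorem TC3_le (hs : ∀ m ∈ SG ρ, m ∈ AddSubmonoid.closure (Set.range s)) :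
    torR k ρ ≤ (tK (k := k) s).range := by
  refine Algebra.adjoin_le ?_
  rintro _ ⟨m, hm, rfl⟩
  rcases TC3_chi_mem (k := k) hs hm with h | ⟨F, -, hF⟩
  · rw [h, TC3_chi_zero]
    exact one_mem _
  · exact ⟨F, hF⟩

private theorem TC3_mem (hs0 : ∀ l, s l ∈ SG ρ) (F : MvPolynomial (Fin p) k) :
    tK s F ∈ torR k ρ := by
  induction F using MvPolynomial.induction_on with
  | C a =>
    have h : tK s (C a) = algebraMap k (FF k (Fin 3)) a := by
      rw [← algebraMap_eq]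
      exact (tK s).commutes a
    rw [h]
    exact Subalgebra.algebraMap_mem _ a
  | add F G hF hG =>
    rw [map_add]
    exact add_mem hF hG
  | mul_X F l hF =>
    rw [map_mul, TC3_X]
    exact mul_mem hF (Algebra.subset_adjoin ⟨s l, hs0 l, rfl⟩)

theorem lf_zero (I : Ideal (torR k ρ)) : (0 : MvPolynomial (Fin p) k) ∈ lf s I := by
  exact ⟨0, I.zero_mem, by rw [map_zero]; rfl⟩

theorem lf_surj (hs : ∀ m ∈ SG ρ, m ∈ AddSubmonoid.closure (Set.range s)) (x : torR k ρ) :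
    ∃ F, (x : FF k (Fin 3)) = tK s F := by
  obtain ⟨F, hF⟩ := TC3_le hs x.2
  exact ⟨F, hF.symm⟩

theorem lf_high (hs0 : ∀ l, s l ∈ SG ρ) (hs : ∀ m ∈ SG ρ, m ∈ AddSubmonoid.closure (Set.range s))
    (n : ℕ) (x : torR k ρ) (hx : x ∈ (torGerm k ρ N θ).m ^ n) :
    ∃ F, (x : FF k (Fin 3)) = tK s F ∧ ∀ α : Fin p →₀ ℕ, α.degree < n → coeff α F = 0 := by
  let φ : MvPolynomial (Fin p) k →ₐ[k] torR k ρ := (tK s).codRestrict (torR k ρ) (TC3_mem hs0)
  have hφ : ∀ F, ((φ F : torR k ρ) : FF k (Fin 3)) = tK s F := fun F => rfl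
  have hsurj : Function.Surjective (φ : MvPolynomial (Fin p) k →+* torR k ρ) := by
    intro y
    obtain ⟨F, hF⟩ := lf_surj hs y
    exact ⟨F, Subtype.ext hF.symm⟩
  have hm : (torGerm k ρ N θ).m ≤ Ideal.map (φ : MvPolynomial (Fin p) k →+* torR k ρ)
      (MvPolynomial.idealOfVars (Fin p) k) := by
    refine Ideal.span_le.mpr ?_
    rintro f ⟨m, hm, h0, hf⟩
    rcases TC3_chi_mem (k := k) hs hm with h | ⟨F, hF, hF'⟩
    · exact absurd h h0
    · have h1 : f = φ F := Subtype.ext (by rw [hφ, hF']; exact hf)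
      rw [h1]
      exact Ideal.mem_map_of_mem (φ : MvPolynomial (Fin p) k →+* torR k ρ) hF
  have h1 : x ∈ Ideal.map (φ : MvPolynomial (Fin p) k →+* torR k ρ)
      (MvPolynomial.idealOfVars (Fin p) k ^ n) := by
    rw [Ideal.map_pow]
    exact Ideal.pow_right_mono hm n hx
  obtain ⟨F, hF, hFx⟩ := (Ideal.mem_map_iff_of_surjective _ hsurj).mp h1
  refine ⟨F, ?_, fun α hα => (mem_pow_idealOfVars_iff' n F).1 hF α hα⟩
  rw [← hFx]
  rfl

theorem lf_congr (hs0 : ∀ l, s l ∈ SG ρ)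
    (hs : ∀ m ∈ SG ρ, m ∈ AddSubmonoid.closure (Set.range s)) {n : ℕ} {a b : Ideal (torR k ρ)}
    (hab : a ⊔ (torGerm k ρ N θ).m ^ n = b ⊔ (torGerm k ρ N θ).m ^ n)
    {F : MvPolynomial (Fin p) k} (hF : F ∈ lf s a) :
    ∃ G ∈ lf s b, ∀ α : Fin p →₀ ℕ, α.degree < n → coeff α (F - G) = 0 := by
  obtain ⟨x, hx, hxF⟩ := hF
  have h1 : x ∈ b ⊔ (torGerm k ρ N θ).m ^ n := by
    rw [← hab]
    exact Ideal.mem_sup_left hx
  obtain ⟨y, hy, z, hz, rfl⟩ := Submodule.mem_sup.1 h1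
  obtain ⟨H, hH, hH'⟩ := lf_high hs0 hs n z hz
  refine ⟨F - H, ⟨y, hy, ?_⟩, fun α hα => ?_⟩
  · rw [map_sub, ← hxF, ← hH]
    push_cast
    ring
  · rw [sub_sub_cancel]
    exact hH' α hα

theorem ordI_le_lf {E : Dv k (FF k (Fin 3)) 3} (hE : (torGerm k ρ N θ).Centre E)
    (I : Ideal (torR k ρ)) {F : MvPolynomial (Fin p) k} (hF : F ∈ lf s I) (h0 : tK s F ≠ 0) :
    ((torGerm k ρ N θ).ordI E I : ℤ) ≤ E.ord (tK s F) := by
  obtain ⟨x, hx, hxF⟩ := hF
  have hx0 : x ≠ 0 := by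
    intro h
    apply h0
    rw [← hxF, h]
    rfl
  rw [← hxF]
  have h1 : 0 ≤ E.ord (x : FF k (Fin 3)) := hE.1 x hx0
  have h2 : (torGerm k ρ N θ).ordI E I ≤ (E.ord (x : FF k (Fin 3))).toNat :=
    Nat.sInf_le ⟨x, hx, hx0, (Int.toNat_of_nonneg h1).symm⟩
  omega

theorem le_ordI_lf (hs : ∀ m ∈ SG ρ, m ∈ AddSubmonoid.closure (Set.range s))
    {E : Dv k (FF k (Fin 3)) 3} (hE : (torGerm k ρ N θ).Centre E)
    {I : Ideal (torR k ρ)} (hI : I ≠ ⊥) (g v : ℕ)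
    (h : ∀ F ∈ lf s I, tK s F = 0 ∨ (v : ℤ) ≤ g * E.ord (tK s F)) :
    v ≤ g * (torGerm k ρ N θ).ordI E I := by
  obtain ⟨f, hf, hf0⟩ := Submodule.exists_mem_ne_zero_of_ne_bot hI
  have h1 : 0 ≤ E.ord (f : FF k (Fin 3)) := hE.1 f hf0
  have hne : {m : ℕ | ∃ f ∈ I, f ≠ 0 ∧ E.ord (f : FF k (Fin 3)) = m}.Nonempty :=
    ⟨(E.ord (f : FF k (Fin 3))).toNat, f, hf, hf0, (Int.toNat_of_nonneg h1).symm⟩
  obtain ⟨x, hx, hx0, hxo⟩ := Nat.sInf_mem hne
  obtain ⟨F, hF⟩ := lf_surj hs x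
  have hxo' : E.ord (x : FF k (Fin 3)) = ((torGerm k ρ N θ).ordI E I : ℕ) := hxo
  rcases h F ⟨x, hx, hF⟩ with h2 | h2
  · exfalso
    apply hx0
    apply Subtype.ext
    rw [hF, h2]
    rfl
  · rw [← hF, hxo'] at h2
    exact_mod_cast h2

end M5
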