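import Pool.Agent.M5.TDefs
import Pool.Agent.M3.GenSeq

/-!
PIECE M5-TC4: generators of the limit of sequences of sets of polynomials.

PROOF. `gen_seqS`: copy `M3/GenSeq.lean` `gen_seq` (`σ` instead of `Fin 3`, sets instead of ideals, without the two statements about `μ`;
no positivity of `N j` needed).
-/

open MvPolynomial Filter

namespace M5

open MLD M3

universe u

theorem gen_seqS {k : Type u} [Field k] {σ : Type} [Finite σ] {r : ℕ}
    (S : ℕ → Fin r → Set (MvPolynomial σ k)) (h0 : ∀ i j, (0 : MvPolynomial σ k) ∈ S i j) :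
    ∃ (J : Type) (_ : Fintype J) (grp : J → Fin r) (p : J → ℕ → MvPolynomial σ k),
      (∀ h i, p h i ∈ S i (grp h)) ∧
      ∀ s : ℕ, ∀ᶠ i in Uf, ∀ j, ∀ q ∈ S i j, ∃ H : J → MvPolynomial σ k,
        (∀ h, ¬ grp h = j → H h = 0) ∧
        ∀ m : σ →₀ ℕ, m.degree < s → coeff m (q - ∑ h, H h * p h i) = 0 := by
  classical
  choose N p hp1 hp2 hp3 using fun j : Fin r =>
    noeth_seq (k := k) (fun i => S i j) (fun i => ⟨0, h0 i j⟩)
  refine ⟨Σ j : Fin r, Fin (N j), inferInstance, fun h => h.1, fun h i => p h.1 h.2 i,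
    fun h i => hp1 h.1 h.2 i, ?_⟩
  intro s
  rw [Filter.eventually_all]
  intro j
  by_contra hcon
  have h1 := Ultrafilter.eventually_not.2 hcon
  have hq : ∀ i, ∃ q, q ∈ S i j ∧ ((¬ ∀ q ∈ S i j,
      ∃ H : (Σ j : Fin r, Fin (N j)) → MvPolynomial σ k, (∀ h, ¬ h.1 = j → H h = 0) ∧
      ∀ m : σ →₀ ℕ, m.degree < s → coeff m (q - ∑ h, H h * p h.1 h.2 i) = 0) →
      ¬ ∃ H : (Σ j : Fin r, Fin (N j)) → MvPolynomial σ k, (∀ h, ¬ h.1 = j → H h = 0) ∧
      ∀ m : σ →₀ ℕ, m.degree < s → coeff m (q - ∑ h, H h * p h.1 h.2 i) = 0) := by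
    intro i
    by_cases h : ∀ q ∈ S i j,
      ∃ H : (Σ j : Fin r, Fin (N j)) → MvPolynomial σ k, (∀ h, ¬ h.1 = j → H h = 0) ∧
      ∀ m : σ →₀ ℕ, m.degree < s → coeff m (q - ∑ h, H h * p h.1 h.2 i) = 0
    · exact ⟨0, h0 i j, fun h' => absurd h h'⟩
    · have h2 := h
      push Not at h2
      obtain ⟨q, hq, h3⟩ := h2
      refine ⟨q, hq, fun _ h4 => ?_⟩
      obtain ⟨H, hH1, hH2⟩ := h4
      obtain ⟨m, hm1, hm2⟩ := h3 H hH1
      exact hm2 (hH2 m hm1)
  choose q hq1 hq2 using hq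
  obtain ⟨h, hh⟩ := hp3 j q hq1 s
  obtain ⟨i, hi1, hi2⟩ := (h1.and hh).exists
  refine hq2 i hi1 ⟨fun x => if e : x.1 = j then h (e ▸ x.2) i else 0, fun x hx => dif_neg hx,
    fun m hm => ?_⟩
  have h5 : (∑ x : (Σ j : Fin r, Fin (N j)), (if e : x.1 = j then h (e ▸ x.2) i else 0) *
      p x.1 x.2 i) = ∑ l, h l i * p j l i := by
    rw [Fintype.sum_sigma, Finset.sum_eq_single j]
    · refine Finset.sum_congr rfl fun l _ => ?_
      rw [dif_pos rfl]
    · intro j' _ hj'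
      refine Finset.sum_eq_zero fun l _ => ?_
      rw [dif_neg hj', zero_mul]
    · intro hj
      exact absurd (Finset.mem_univ j) hj
  rw [h5]
  exact hi2 m hm

end M5
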