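import Pool.Agent.M5.TA2
import Pool.Agent.M4.Defs

/-!
PIECE M5-TC5: the functions in the toric charts are tame.

PROOF. `D := 2 * d * M`.  For `i` as in `hw`: the coefficient of `x^m` (`m : Fin 2 →₀ ℕ`, `m 0 + m 1 > D`) of
`tc s (w i) (r ι) (r κ) (F i) = ∑ over α of coeff α F • X^(..) * xA 0^(..) * xA 1^(..)`: only the `α` with
`∑ l, α l * (pr (s l) (vz (r ι))).toNat = m 0` and `∑ l, α l * (pr (s l) (vz (r κ))).toNat = m 1` contribute; put `v := vs (fun i => vz (r i))`,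
`S := ∑ l, α l * pr (s l) v`: `m 0 ≤ S`, `m 1 ≤ S` (`pr_vs`: `pr (s l) (vz (r ι)) ≤ pr (s l) v` since all terms are `≥ 0`), and the exponent of `τ`
is `T := ∑ l, α l * pr (s l) (vz (w i))`, `d * T ≥ E i * S` (`hw`), so `2 * d * T ≥ E i * (m 0 + m 1) > E i * 2 * d * M`: `T ≥ M * E i`.
Work with `mc` of a finite sum: `mc` is additive (`coeff_mc`), see `M3/Mc.lean`, `M4/ConeS.lean` for similar computations.
-/

open MvPolynomial Filter

namespace M5

open MLD M3

universe u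

/-- functions all of whose monomials `τ^n x^m` satisfy `a (m 0 + m 1) ≤ b n` -/
private def sub5 (k : Type u) [Field k] (a b : ℕ) : Subalgebra k (AA k) where
  carrier := {f | ∀ (n : ℕ) (m : Fin 2 →₀ ℕ), coeff m (PowerSeries.coeff n f) ≠ 0 →
    a * (m 0 + m 1) ≤ b * n}
  mul_mem' := by
    intro f g hf hg n m h
    rw [PowerSeries.coeff_mul, coeff_sum] at h
    obtain ⟨p, hp, h1⟩ := Finset.exists_ne_zero_of_sum_ne_zero h
    rw [coeff_mul] at h1
    obtain ⟨e, he, h2⟩ := Finset.exists_ne_zero_of_sum_ne_zero h1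
    have h3 := hf p.1 e.1 (left_ne_zero_of_mul h2)
    have h4 := hg p.2 e.2 (right_ne_zero_of_mul h2)
    rw [Finset.HasAntidiagonal.mem_antidiagonal] at hp he
    rw [← hp, ← he, Finsupp.add_apply, Finsupp.add_apply]
    calc a * (e.1 0 + e.2 0 + (e.1 1 + e.2 1)) = a * (e.1 0 + e.1 1) + a * (e.2 0 + e.2 1) := by
          ring
      _ ≤ b * p.1 + b * p.2 := add_le_add h3 h4
      _ = b * (p.1 + p.2) := by ring
  add_mem' := by
    intro f g hf hg n m h
    rw [map_add, coeff_add] at h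
    by_cases h1 : coeff m (PowerSeries.coeff n f) = 0
    · rw [h1, zero_add] at h
      exact hg n m h
    · exact hf n m h1
  algebraMap_mem' := by
    intro c n m h
    rw [PowerSeries.algebraMap_apply, PowerSeries.coeff_C] at h
    split_ifs at h with h1
    · rw [MvPolynomial.algebraMap_eq, coeff_C] at h
      split_ifs at h with h2
      · rw [← h2]
        simp
      · exact absurd rfl h
    · rw [coeff_zero] at h
      exact absurd rfl h

private theorem mem_sub5 {k : Type u} [Field k] {a b : ℕ} {f : AA k} :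
    f ∈ sub5 k a b ↔ ∀ (n : ℕ) (m : Fin 2 →₀ ℕ), coeff m (PowerSeries.coeff n f) ≠ 0 →
      a * (m 0 + m 1) ≤ b * n := Iff.rfl

private theorem gen_mem5 {k : Type u} [Field k] {a b A B C : ℕ} (h : a * (B + C) ≤ b * A) :
    (PowerSeries.X ^ A * xA 0 ^ B * xA 1 ^ C : AA k) ∈ sub5 k a b := by
  rw [mem_sub5]
  intro n m hnm
  have e1 : (PowerSeries.X ^ A * xA 0 ^ B * xA 1 ^ C : AA k) =
      PowerSeries.X ^ A * PowerSeries.C (monomial (Finsupp.single 0 B + Finsupp.single 1 C) 1) := by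
    rw [mul_assoc]
    congr 1
    unfold xA
    rw [← map_pow, ← map_pow, ← map_mul]
    congr 1
    rw [X_pow_eq_monomial, X_pow_eq_monomial, monomial_mul, mul_one]
  rw [e1, PowerSeries.coeff_X_pow_mul'] at hnm
  split_ifs at hnm with h1
  · rw [PowerSeries.coeff_C] at hnm
    split_ifs at hnm with h2
    · rw [coeff_monomial] at hnm
      split_ifs at hnm with h3
      · rw [← h3]
        have h4 : n = A := by omega
        rw [h4]
        simpa using h
      · exact absurd rfl hnm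
    · rw [coeff_zero] at hnm
      exact absurd rfl hnm
  · rw [coeff_zero] at hnm
    exact absurd rfl hnm

private theorem aeval_mem5 {k : Type u} [Field k] {a b p : ℕ} (g : Fin p → AA k)
    (hg : ∀ l, g l ∈ sub5 k a b) (F : MvPolynomial (Fin p) k) :
    aeval g F ∈ sub5 k a b := by
  induction F using MvPolynomial.induction_on with
  | C c =>
    rw [← MvPolynomial.algebraMap_eq, AlgHom.commutes]
    exact Subalgebra.algebraMap_mem _ _
  | add P Q hP hQ =>
    rw [map_add]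
    exact Subalgebra.add_mem _ hP hQ
  | mul_X P l hP =>
    rw [map_mul, aeval_X]
    exact Subalgebra.mul_mem _ hP (hg l)

private theorem pr_add5 (m v w r₁ r₂ : Fin 3 → ℤ) (d e y z : ℤ)
    (h : ∀ t, d * w t = e * v t + y * r₁ t + z * r₂ t) :
    d * pr m w = e * pr m v + y * pr m r₁ + z * pr m r₂ := by
  unfold pr
  rw [Finset.mul_sum, Finset.mul_sum, Finset.mul_sum, Finset.mul_sum, ← Finset.sum_add_distrib,
    ← Finset.sum_add_distrib]
  refine Finset.sum_congr rfl fun t _ => ?_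
  linear_combination m t * h t

theorem ttame {k : Type u} [Field k] {q p : ℕ} (r : Fin q → Fin 3 → ℕ) (s : Fin p → Fin 3 → ℤ)
    (hs : ∀ l, s l ∈ SG fun i => vz (r i)) (ι κ : Fin q) (d : ℕ) (hd : 0 < d) (E : ℕ → ℕ+)
    (w : ℕ → Fin 3 → ℕ) (β γ : ℕ → ℕ)
    (hw : ∀ᶠ i in Uf, ∀ t, (d : ℤ) * w i t =
      (E i : ℕ) * vs (fun i => vz (r i)) t + β i * r ι t + γ i * r κ t)
    (F : ℕ → MvPolynomial (Fin p) k) : M4.Tame E (fun i => tc s (w i) (r ι) (r κ) (F i)) := by
  intro M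
  refine ⟨2 * d * M, ?_⟩
  filter_upwards [hw] with i hi m hm
  have hEpos : 0 < (E i : ℕ) := (E i).pos
  have hmem : tc s (w i) (r ι) (r κ) (F i) ∈ sub5 k (E i : ℕ) (2 * d) := by
    unfold tc
    refine aeval_mem5 _ (fun l => gen_mem5 ?_) (F i)
    have h0 : ∀ j, 0 ≤ pr (s l) (vz (r j)) := fun j => hs l j
    have hS : pr (s l) (vs fun i => vz (r i)) = ∑ j, pr (s l) (vz (r j)) :=
      pr_vs (fun i => vz (r i)) (s l)
    have h1 : pr (s l) (vz (r ι)) ≤ pr (s l) (vs fun i => vz (r i)) := by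
      rw [hS]
      exact Finset.single_le_sum (fun j _ => h0 j) (Finset.mem_univ ι)
    have h2 : pr (s l) (vz (r κ)) ≤ pr (s l) (vs fun i => vz (r i)) := by
      rw [hS]
      exact Finset.single_le_sum (fun j _ => h0 j) (Finset.mem_univ κ)
    have h3 : (d : ℤ) * pr (s l) (vz (w i)) = ((E i : ℕ) : ℤ) * pr (s l) (vs fun i => vz (r i)) +
        (β i : ℤ) * pr (s l) (vz (r ι)) + (γ i : ℤ) * pr (s l) (vz (r κ)) :=
      pr_add5 (s l) _ _ _ _ _ _ _ _ fun t => hi t
    have h4 : 0 ≤ (β i : ℤ) * pr (s l) (vz (r ι)) := mul_nonneg (Int.natCast_nonneg _) (h0 ι)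
    have h5 : 0 ≤ (γ i : ℤ) * pr (s l) (vz (r κ)) := mul_nonneg (Int.natCast_nonneg _) (h0 κ)
    have hE0 : (0 : ℤ) ≤ ((E i : ℕ) : ℤ) := Int.natCast_nonneg _
    have h6 : ((E i : ℕ) : ℤ) * pr (s l) (vz (r ι)) ≤
        ((E i : ℕ) : ℤ) * pr (s l) (vs fun i => vz (r i)) := mul_le_mul_of_nonneg_left h1 hE0
    have h7 : ((E i : ℕ) : ℤ) * pr (s l) (vz (r κ)) ≤
        ((E i : ℕ) : ℤ) * pr (s l) (vs fun i => vz (r i)) := mul_le_mul_of_nonneg_left h2 hE0
    have h8 : ((E i : ℕ) : ℤ) * (pr (s l) (vz (r ι)) + pr (s l) (vz (r κ))) ≤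
        2 * (d : ℤ) * pr (s l) (vz (w i)) := by linarith
    have hd0 : (0 : ℤ) < d := by exact_mod_cast hd
    have h9 : 0 ≤ pr (s l) (vz (w i)) := by
      have h10 : 0 ≤ ((E i : ℕ) : ℤ) * pr (s l) (vz (r ι)) := mul_nonneg hE0 (h0 ι)
      have h11 : 0 ≤ (d : ℤ) * pr (s l) (vz (w i)) := by linarith
      exact nonneg_of_mul_nonneg_right h11 hd0
    have h12 : (((E i : ℕ) * ((pr (s l) (vz (r ι))).toNat + (pr (s l) (vz (r κ))).toNat) : ℕ) : ℤ) ≤
        ((2 * d * (pr (s l) (vz (w i))).toNat : ℕ) : ℤ) := by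
      push_cast
      rw [Int.toNat_of_nonneg (h0 ι), Int.toNat_of_nonneg (h0 κ), Int.toNat_of_nonneg h9]
      exact h8
    exact_mod_cast h12
  rw [PowerSeries.X_pow_dvd_iff]
  intro n hn
  rw [coeff_mc]
  by_contra hne
  have h1 := mem_sub5.1 hmem n m hne
  have h2 : 2 * d * n < 2 * d * (M * (E i : ℕ)) := Nat.mul_lt_mul_of_pos_left hn (by omega)
  have h3 : (E i : ℕ) * (m 0 + m 1) < (E i : ℕ) * (2 * d * M) := by
    calc (E i : ℕ) * (m 0 + m 1) ≤ 2 * d * n := h1
      _ < 2 * d * (M * (E i : ℕ)) := h2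
      _ = (E i : ℕ) * (2 * d * M) := by ring
  have h4 := Nat.lt_of_mul_lt_mul_left h3
  omega

end M5
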