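import Pool.Agent.M5.TC3
import Pool.Agent.M5.TB7
import Pool.Agent.M3.LDisc

/-!
PIECE M5-TC6: from arcs in the toric chart to divisors over the toric germ.

PROOF of `tdvs`. Notation `v := vs (fun i => vz (r i))`, `ρι := vz (r ι)`, `ρκ := vz (r κ)`.
`d * dt w ρι ρκ = e * dt v ρι ρκ = e * d` (multilinearity, `hw`; write out `dt` by `Matrix.det_fin_three`), so `dt w ρι ρκ = e ≠ 0`; `w t > 0` since
`v t > 0` (`tvs_pos`); `pr (s l) w > 0`: `d * pr (s l) w = e * pr (s l) v + β * pr (s l) ρι + γ * pr (s l) ρκ > 0` (`pr_vs_pos`).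
`tarc_to_div s w (r ι) (r κ) .. Q C hC (ℓ * e)`: `F, g, A₁, b, c`.  `E` from `dv_of F`.  Put `w' j := g * F.ord (xx k j) = w j + b * r ι j + c * r κ j`.
Centre: `tcentre_of`: `g * pr m (w(F)) = pr m w + b * pr m ρι + c * pr m ρκ > 0` for `m ∈ SG ρ`, `m ≠ 0`.
`exists_logDisc F`: `F.logDisc = B`, `B ≤ A₁`; `A := B + (pr θ w(F) / N - ∑ w(F) j)` by `tlog`; `g * A ≤ g * A₁ + pr θ w' / N - ∑ w' j ≤
C - b - c + pr θ w' / N`, and `pr θ w' = pr θ w + b * N + c * N` (`hθ`), so `g * A ≤ C + pr θ w / N`.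
Orders: `le_ordI_lf` with `v := nn j`: for `F₁ ∈ lf s (a j)`: `F₁ = ∑ h, H h * pp h + R`, the monomials of `R` have degree `≥ d * ℓ`.
`g * ord (chi (s l)) = pr (s l) w' ≥ pr (s l) w` and `d * pr (s l) w ≥ e * pr (s l) v ≥ e`, so `g * ord (tK s (monomial α 1)) * d ≥ e * |α| ≥ e * d * ℓ`,
`g * ord (tK s R) ≥ e * ℓ ≥ nn j` or `tK s R = 0`.  `h` in the group `j`: `X^(nn j) ∣ ev Q (tc .. (pp h))`, so `tK s (pp h) = 0` or
`nn j ≤ g * ord (tK s (pp h))`; `tK s (H h)` has order `≥ 0`.  For sums use the smallest integer `n₀` with `g * n₀ ≥ nn j` and `E.ge n₀` (see `ord_genS` in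
`M4/XArc.lean`).
-/

open MvPolynomial

namespace M5

open MLD M3

universe u

variable {k : Type u} [Field k] [CharZero k] {q p n : ℕ}

/-- a multiple of an order function -/
private noncomputable def TC6_scale {k : Type u} [Field k] (v : OrdFn k (FF k (Fin 3))) (g : ℕ) :
    OrdFn k (FF k (Fin 3)) where
  ord f := g * v.ord f
  ord_mul' f h hf hh := by rw [v.ord_mul' f h hf hh]; ring
  ord_add' f h hf hh hfh := by
    have h1 := v.ord_add' f h hf hh hfh
    have hg : (0 : ℤ) ≤ g := Int.natCast_nonneg g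
    rcases min_le_iff.1 h1 with h2 | h2
    · exact (min_le_left _ _).trans (mul_le_mul_of_nonneg_left h2 hg)
    · exact (min_le_right _ _).trans (mul_le_mul_of_nonneg_left h2 hg)
  ord_const' c hc := by rw [v.ord_const' c hc, mul_zero]

private theorem TC6_lin (m : Fin 3 → ℤ) (d e β γ : ℤ) (w v a b : Fin 3 → ℤ)
    (h : ∀ t, d * w t = e * v t + β * a t + γ * b t) :
    d * pr m w = e * pr m v + β * pr m a + γ * pr m b := by
  unfold pr
  rw [Finset.mul_sum, Finset.mul_sum, Finset.mul_sum, Finset.mul_sum, ← Finset.sum_add_distrib,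
    ← Finset.sum_add_distrib]
  refine Finset.sum_congr rfl fun t _ => ?_
  linear_combination m t * h t

private theorem TC6_det (u v w : Fin 3 → ℤ) : dt u v w =
    u 0 * v 1 * w 2 - u 0 * v 2 * w 1 - u 1 * v 0 * w 2 + u 1 * v 2 * w 0 + u 2 * v 0 * w 1 -
      u 2 * v 1 * w 0 := by
  unfold dt
  rw [Matrix.det_fin_three]
  simp

private theorem TC6_dlin (d e β γ : ℤ) (w v a b : Fin 3 → ℤ)
    (h : ∀ t, d * w t = e * v t + β * a t + γ * b t) :
    d * dt w a b = e * dt v a b := by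
  rw [TC6_det, TC6_det]
  linear_combination (a 1 * b 2 - a 2 * b 1) * h 0 + (a 2 * b 0 - a 0 * b 2) * h 1 +
    (a 0 * b 1 - a 1 * b 0) * h 2

theorem tdvs (r : Fin q → Fin 3 → ℕ)
    (hf : ∀ m : Fin 3 → ℤ, (∀ i, pr m (vz (r i)) = 0) → m = 0) {N : ℕ} (hN : 0 < N)
    (θ : Fin 3 → ℤ) (hθ : ∀ i, pr θ (vz (r i)) = N) (s : Fin p → Fin 3 → ℤ)
    (hs0 : ∀ l, s l ∈ SG (fun i => vz (r i)) ∧ s l ≠ 0)
    (hs : ∀ m ∈ SG (fun i => vz (r i)), m ∈ AddSubmonoid.closure (Set.range s)) (ι κ : Fin q)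
    (d : ℕ) (hd : dt (vs fun i => vz (r i)) (vz (r ι)) (vz (r κ)) = d) (hd0 : 0 < d)
    (w : Fin 3 → ℕ) (e β γ : ℕ) (he : 0 < e)
    (hw : ∀ t, (d : ℤ) * w t = e * vs (fun i => vz (r i)) t + β * r ι t + γ * r κ t) (ℓ : ℕ)
    {J : Type} [Fintype J] (grp : J → Fin n) (pp : J → MvPolynomial (Fin p) k)
    (a : Fin n → Ideal (torR k fun i => vz (r i))) (ha : ∀ j, a j ≠ ⊥)
    (hgen : ∀ j, ∀ F ∈ lf s (a j), ∃ H : J → MvPolynomial (Fin p) k,
      (∀ h, ¬ grp h = j → H h = 0) ∧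
      ∀ α : Fin p →₀ ℕ, α.degree < d * ℓ → coeff α (F - ∑ h, H h * pp h) = 0)
    {L : Type u} [Field L] [Algebra k L] (Q : Fin 2 → PowerSeries L) (C : ℕ) (nn : Fin n → ℕ)
    (hn : ∀ j, nn j ≤ ℓ * e) (hC : ∀ m, CodLe k Q m C)
    (hO : OrdGe grp (fun h => tc s w (r ι) (r κ) (pp h)) Q nn) :
    ∃ (E : Dv k (FF k (Fin 3)) 3) (g : ℕ) (A : ℝ), 0 < g ∧
      (torGerm k (fun i => vz (r i)) N θ).Centre E ∧
      (torGerm k (fun i => vz (r i)) N θ).logDisc E = (A : EReal) ∧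
      g * A ≤ C + (pr θ (vz w) : ℝ) / N ∧
      ∀ j, nn j ≤ g * (torGerm k (fun i => vz (r i)) N θ).ordI E (a j) := by
  classical
  have hdz : (0 : ℤ) < d := by exact_mod_cast hd0
  have hez : (0 : ℤ) < e := by exact_mod_cast he
  have hNz : (0 : ℤ) < N := by exact_mod_cast hN
  have hρ0 : ∀ (i : Fin q) (j : Fin 3), 0 ≤ vz (r i) j := fun i j => Int.natCast_nonneg _
  obtain ⟨v, hv⟩ : ∃ v, v = vs (fun i => vz (r i)) := ⟨_, rfl⟩
  rw [← hv] at hd
  have hvpos : ∀ t, 0 < v t := fun t => by rw [hv]; exact tvs_pos hρ0 hf t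
  have hw' : ∀ t, (d : ℤ) * vz w t = e * v t + β * vz (r ι) t + γ * vz (r κ) t := by
    intro t
    rw [hv]
    exact hw t
  -- `w` is positive
  have hwpos : ∀ t, 0 < w t := by
    intro t
    have h1 := hw' t
    have h2 : 0 < (d : ℤ) * vz w t := by
      rw [h1]
      have h3 := mul_pos hez (hvpos t)
      have h4 := mul_nonneg (Int.natCast_nonneg β) (hρ0 ι t)
      have h5 := mul_nonneg (Int.natCast_nonneg γ) (hρ0 κ t)
      omega
    have h3 : 0 < vz w t := pos_of_mul_pos_right h2 hdz.le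
    have h4 : (0 : ℤ) < (w t : ℤ) := h3
    exact_mod_cast h4
  have hdet : dt (vz w) (vz (r ι)) (vz (r κ)) ≠ 0 := by
    intro h0
    have h1 := TC6_dlin d e β γ (vz w) v (vz (r ι)) (vz (r κ)) hw'
    rw [h0, hd, mul_zero] at h1
    have h2 := mul_pos hez hdz
    omega
  -- lower bounds of the pairings with `w`
  have hprw : ∀ m ∈ SG (fun i => vz (r i)), m ≠ 0 → (e : ℤ) ≤ d * pr m (vz w) := by
    intro m hm h0
    rw [TC6_lin m d e β γ (vz w) v (vz (r ι)) (vz (r κ)) hw']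
    have h1 : 0 < pr m v := by rw [hv]; exact pr_vs_pos hf hm h0
    have h2 : (e : ℤ) * 1 ≤ e * pr m v := mul_le_mul_of_nonneg_left (by omega) hez.le
    have h3 := mul_nonneg (Int.natCast_nonneg β) (hm ι)
    have h4 := mul_nonneg (Int.natCast_nonneg γ) (hm κ)
    beta_reduce at h3 h4
    omega
  have hprw0 : ∀ m ∈ SG (fun i => vz (r i)), m ≠ 0 → 0 < pr m (vz w) := by
    intro m hm h0
    have h1 := hprw m hm h0
    exact pos_of_mul_pos_right (lt_of_lt_of_le hez h1) hdz.le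
  obtain ⟨F, g, A₁, b, c, hg, -, hFlog, hX, hgA, hall⟩ := tarc_to_div s w (r ι) (r κ) hdet hwpos
    (fun l => hprw0 _ (hs0 l).1 (hs0 l).2) (fun l => (hs0 l).1 ι) (fun l => (hs0 l).1 κ) Q C hC
    (ℓ * e)
  have hgz : (0 : ℤ) < g := by exact_mod_cast hg
  obtain ⟨E, hE⟩ := dv_of F
  have hord : ∀ x : FF k (Fin 3), E.ord x = F.ord x := fun x =>
    congrArg (fun v : OrdFn k (FF k (Fin 3)) => v.ord x) hE
  have hXE : ∀ j, (g : ℤ) * E.ord (xx k j) = 1 * vz w j + b * vz (r ι) j + c * vz (r κ) j := by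
    intro j
    rw [hord, hX j, one_mul]
    rfl
  have hprE : ∀ m : Fin 3 → ℤ, (g : ℤ) * pr m (fun j => E.ord (xx k j)) =
      1 * pr m (vz w) + b * pr m (vz (r ι)) + c * pr m (vz (r κ)) := fun m =>
    TC6_lin m g 1 b c (fun j => E.ord (xx k j)) (vz w) (vz (r ι)) (vz (r κ)) hXE
  have hgeE : ∀ m ∈ SG (fun i => vz (r i)), pr m (vz w) ≤
      (g : ℤ) * pr m (fun j => E.ord (xx k j)) := by
    intro m hm
    rw [hprE]
    have h3 := mul_nonneg (Int.natCast_nonneg b) (hm ι)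
    have h4 := mul_nonneg (Int.natCast_nonneg c) (hm κ)
    beta_reduce at h3 h4
    omega
  have hcen : (torGerm k (fun i => vz (r i)) N θ).Centre E := by
    refine tcentre_of fun m hm h0 => ?_
    have h1 := hprw0 m hm h0
    have h2 := hgeE m hm
    exact pos_of_mul_pos_right (lt_of_lt_of_le h1 h2) hgz.le
  have hFtop : F.logDisc ≠ ⊤ := by
    intro h
    rw [h, top_le_iff] at hFlog
    exact EReal.coe_ne_top _ hFlog
  obtain ⟨B, hB⟩ := exists_logDisc F hFtop
  have hBA : (B : ℝ) ≤ A₁ := by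
    rw [hB, EReal.coe_le_coe_iff] at hFlog
    exact hFlog
  have hlog := tlog (k := k) (ρ := fun i => vz (r i)) (θ := θ) hN E F hE.symm
  rw [hB, ← EReal.coe_add] at hlog
  refine ⟨E, g, _, hg, hcen, hlog, ?_, ?_⟩
  · have hN' : (0 : ℝ) < N := by exact_mod_cast hN
    have h1 : (g : ℤ) * pr θ (fun j => E.ord (xx k j)) = pr θ (vz w) + (b + c) * N := by
      rw [hprE, hθ, hθ]
      ring
    have h2 : (g : ℝ) * ((pr θ fun j => E.ord (xx k j) : ℤ) : ℝ) =
        (pr θ (vz w) : ℝ) + (b + c) * N := by exact_mod_cast h1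
    have h3 : (g : ℤ) * ∑ j, E.ord (xx k j) = ∑ j, ((w j : ℤ) + b * r ι j + c * r κ j) := by
      rw [Finset.mul_sum]
      refine Finset.sum_congr rfl fun j _ => ?_
      rw [hord, hX j]
    have h4 : (((g * A₁ : ℕ) : ℤ) : ℤ) + b + c ≤ C + (g : ℤ) * ∑ j, E.ord (xx k j) := by
      rw [h3]
      exact hgA
    have h5 : (g : ℝ) * A₁ + b + c ≤ C + (g : ℝ) * ((∑ j, E.ord (xx k j) : ℤ) : ℝ) := by
      exact_mod_cast h4
    have h6 : (g : ℝ) * B ≤ g * A₁ := mul_le_mul_of_nonneg_left hBA (Nat.cast_nonneg g)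
    have h7 : (g : ℝ) * (((pr θ fun j => E.ord (xx k j) : ℤ) : ℝ) / N) =
        (pr θ (vz w) : ℝ) / N + (b + c) := by
      rw [← mul_div_assoc, h2, add_div, mul_div_cancel_right₀ _ hN'.ne']
    rw [mul_add, mul_sub, h7]
    linarith
  · intro j
    obtain ⟨V, hV⟩ : ∃ V : OrdFn k (FF k (Fin 3)), V = TC6_scale E.toOrdFn g := ⟨_, rfl⟩
    have hVo : ∀ f, V.ord f = g * E.ord f := fun f => by rw [hV]; rfl
    have hchi : ∀ l, (e : ℤ) ≤ d * V.ord (chi k (s l)) := by
      intro l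
      have h1 := hprw _ (hs0 l).1 (hs0 l).2
      have h2 := hgeE _ (hs0 l).1
      have h3 : V.ord (chi k (s l)) = g * pr (s l) fun j => E.ord (xx k j) := by
        rw [hVo, ord_chi E.toOrdFn (s l)]
      rw [h3]
      exact h1.trans (mul_le_mul_of_nonneg_left h2 hdz.le)
    have hchi0 : ∀ l, 0 ≤ V.ord (chi k (s l)) := by
      intro l
      have h1 := hchi l
      exact (pos_of_mul_pos_right (lt_of_lt_of_le hez h1) hdz.le).le
    refine le_ordI_lf hs hcen (ha j) g (nn j) fun G hG => ?_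
    obtain ⟨H, hH1, hH2⟩ := hgen j G hG
    have hR : V.ge (nn j) (tK s (G - ∑ h, H h * pp h)) := by
      refine V.ge_aeval _ (fun l => V.ord (chi k (s l))) (fun l => Or.inr le_rfl) _ _
        fun α hα => ?_
      have h1 : d * ℓ ≤ α.degree := by
        by_contra h
        exact hα (hH2 α (not_le.1 h))
      rw [Finsupp.degree_eq_sum] at h1
      rw [Finsupp.sum_fintype _ _ fun _ => by simp]
      have h2 : ((∑ l, α l : ℕ) : ℤ) * e ≤ d * ∑ l, (α l : ℤ) * V.ord (chi k (s l)) := by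
        push_cast
        rw [Finset.sum_mul, Finset.mul_sum]
        refine Finset.sum_le_sum fun l _ => ?_
        have h3 := mul_le_mul_of_nonneg_left (hchi l) (Int.natCast_nonneg (α l))
        linarith [mul_left_comm (α l : ℤ) (d : ℤ) (V.ord (chi k (s l)))]
      have h3 : ((d * ℓ : ℕ) : ℤ) * e ≤ ((∑ l, α l : ℕ) : ℤ) * e :=
        mul_le_mul_of_nonneg_right (by exact_mod_cast h1) hez.le
      have h4 : (d : ℤ) * ((ℓ * e : ℕ) : ℤ) ≤ d * ∑ l, (α l : ℤ) * V.ord (chi k (s l)) := by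
        refine le_trans (le_of_eq ?_) (h3.trans h2)
        push_cast
        ring
      have h5 := le_of_mul_le_mul_left h4 hdz
      have h6 : ((nn j : ℕ) : ℤ) ≤ ((ℓ * e : ℕ) : ℤ) := by exact_mod_cast hn j
      exact h6.trans h5
    have hS : V.ge (nn j) (tK s (∑ h, H h * pp h)) := by
      rw [map_sum]
      refine V.ge_sum _ _ fun h _ => ?_
      rw [map_mul]
      by_cases hh : grp h = j
      · have h1 : V.ge (nn j) (tK s (pp h)) := by
          have h2 : (PowerSeries.X : PowerSeries L) ^ nn (grp h) ∣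
              ev Q (tc s w (r ι) (r κ) (pp h)) := hO h
          rw [hh] at h2
          rcases hall (pp h) (nn j) (hn j) h2 with h3 | h3
          · exact Or.inl h3
          · right
            rw [hVo, hord]
            exact h3
        have h2 : V.ge 0 (tK s (H h)) :=
          V.ge_zero_aeval _ (fun l => Or.inr (hchi0 l)) (H h)
        have h3 := V.ge_mul h2 h1
        rwa [zero_add] at h3
      · rw [hH1 h hh, map_zero, zero_mul]
        exact V.ge_zero _
    have hfin := V.ge_add hS hR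
    rw [← map_add, add_sub_cancel] at hfin
    rcases hfin with h | h
    · exact Or.inl h
    · right
      rwa [hVo] at h

end M5
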