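import Pool.Agent.M5.TC2
import Pool.Agent.M5.TB4
import Pool.Agent.M3.LDisc

/-!
PIECE M5-TC7: from divisors over the toric germ to arcs in the toric chart.

PROOF of `tarc_of`. `F` from `dv_to E` (`txx_pos`).  `F.logDisc = A'` natural (`exists_logDisc`; `F.logDisc ≠ ⊤` by `tlog`, as `X.logDisc E = A`).  So
`A = A' + (pr θ w(E) / N - ∑ w(E) j)`.  `tdiv_to_arc s w (r ι) (r κ) .. F .. b c hwE A' _ m`: `C, P`; `C + ∑ w(E) j = A' + b + c`;
`pr θ w(E) = pr θ w + (b + c) * N`, so `C + pr θ w / N = A' + b + c - ∑ w(E) j + pr θ w(E) / N - (b + c) = A`.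
-/

open MvPolynomial

namespace M5

open MLD M3

universe u

variable {k : Type u} [Field k] [CharZero k] {q p : ℕ}

theorem tarc_of (r : Fin q → Fin 3 → ℕ) {N : ℕ} (hN : 0 < N) (θ : Fin 3 → ℤ)
    (hθ : ∀ i, pr θ (vz (r i)) = N) (s : Fin p → Fin 3 → ℤ)
    (hs0 : ∀ l, s l ∈ SG (fun i => vz (r i))) (ι κ : Fin q) (w : Fin 3 → ℕ)
    (hw : ∀ l, 0 < pr (s l) (vz w)) (hdet : dt (vz w) (vz (r ι)) (vz (r κ)) ≠ 0)
    (E : Dv k (FF k (Fin 3)) 3) (hE : (torGerm k (fun i => vz (r i)) N θ).Centre E) (b c : ℕ)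
    (hwE : ∀ j, E.ord (xx k j) = w j + b * r ι j + c * r κ j) (A : ℝ)
    (hA : (torGerm k (fun i => vz (r i)) N θ).logDisc E = (A : EReal)) (m : ℕ) :
    ∃ (C : ℕ) (P : Fin 2 → PowerSeries (Om k)), (C : ℝ) + (pr θ (vz w) : ℝ) / N = A ∧
      Cod k P C ∧ ∀ (F : MvPolynomial (Fin p) k) (n : ℕ), n ≤ m →
        (tK s F = 0 ∨ (n : ℤ) ≤ E.ord (tK s F)) →
        (PowerSeries.X : PowerSeries (Om k)) ^ n ∣ ev P (tc s w (r ι) (r κ) F) := by
  classical
  have hρ0 : ∀ (i : Fin q) (j : Fin 3), 0 ≤ vz (r i) j := fun i j => Int.natCast_nonneg _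
  obtain ⟨F, hF, hFz⟩ := dv_to E (txx_pos hρ0 hE)
  have h1 := tlog (k := k) (ρ := fun i => vz (r i)) (θ := θ) hN E F hF
  have hFtop : F.logDisc ≠ ⊤ := by
    intro htop
    rw [htop, EReal.top_add_coe, hA] at h1
    exact EReal.coe_ne_top _ h1
  obtain ⟨A', hA'⟩ := exists_logDisc F hFtop
  have hord : ∀ x : FF k (Fin 3), F.ord x = E.ord x := fun x =>
    congrArg (fun v : OrdFn k (FF k (Fin 3)) => v.ord x) hF
  obtain ⟨C, P, hC, hcod, hP⟩ := tdiv_to_arc s w (r ι) (r κ) hdet hw (fun l => hs0 l ι)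
    (fun l => hs0 l κ) F hFz b c (fun j => by rw [hord, hwE]) A' (le_of_eq hA') m
  refine ⟨C, P, ?_, hcod, fun G n hn hG => hP G n hn ?_⟩
  · rw [hA, hA', ← EReal.coe_add, EReal.coe_eq_coe_iff] at h1
    have h2 : (pr θ fun j => E.ord (xx k j)) = pr θ (vz w) + (b + c) * N := by
      have h3 : (pr θ fun j => E.ord (xx k j)) =
          pr θ (vz w) + b * pr θ (vz (r ι)) + c * pr θ (vz (r κ)) := by
        unfold pr vz
        rw [Finset.mul_sum, Finset.mul_sum, ← Finset.sum_add_distrib, ← Finset.sum_add_distrib]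
        refine Finset.sum_congr rfl fun j _ => ?_
        beta_reduce
        rw [hwE]
        ring
      rw [h3, hθ, hθ]
      ring
    have h4 : (C : ℤ) + ∑ j, E.ord (xx k j) = A' + b + c := by
      rw [← hC]
      congr 1
      exact Finset.sum_congr rfl fun j _ => (hord _).symm
    have h5 : ((C : ℤ) + ∑ j, E.ord (xx k j) : ℤ) = ((A' : ℤ) + b + c : ℤ) := h4
    have h6 : (C : ℝ) + ((∑ j, E.ord (xx k j) : ℤ) : ℝ) = A' + b + c := by exact_mod_cast h5
    have hN' : (N : ℝ) ≠ 0 := by exact_mod_cast hN.ne'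
    have h7 : ((pr θ fun j => E.ord (xx k j) : ℤ) : ℝ) / N =
        (pr θ (vz w) : ℝ) / N + (b + c) := by
      rw [h2]
      push_cast
      field_simp
    rw [h7] at h1
    linarith
  · rcases hG with h | h
    · exact Or.inl h
    · right
      rw [hord]
      exact h

end M5
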