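import Pool.Agent.M5.TDefs
import Pool.Agent.M4.Defs
import Pool.Agent.M3.CodS
import Pool.Agent.M3.Ev

/-!
PIECE M5-TC8: functions not tending to zero.

PROOF. `ne_of_lowB`: suppose all `c · h` with `grp h = j` are null.  `K` from `hL`; `A : ℕ` with `lam j * A > K`; `P` an arc over `Om k` with
`Cod k P 0` (`exists_gen` with `K = 0`, `C = 0`, see `M3/CodS.lean` or where it is; or `P j = ∑ X (2 n + j) τ^n` over
`FractionRing (MvPolynomial ℕ k)`).  Apply `hL` with `ℓ := A`, `C := 0`, `n := Pi.single j (A * E i)`: `OrdGe` holds for almost all `i`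
(finitely many `h`; `X^(A * E i) ∣ c i h` implies `∣ ev P (c i h)`, `ev_dvd`).  So `-K * E i ≤ - lam j * (A * E i)`, contradiction.
-/

open MvPolynomial Filter

namespace M5

open MLD M3

universe u

theorem ne_of_lowB {k : Type u} [Field k] {r : ℕ} {J : Type} [Finite J] {E : ℕ → ℕ+}
    {lam : Fin r → ℝ} (hlam : ∀ j, 0 < lam j) {grp : J → Fin r} {c : ℕ → J → AA k}
    (hL : M4.LowB E lam grp c) (j : Fin r) :
    ∃ h, grp h = j ∧ ¬ M4.Nul E (fun i => c i h) := by
  classical
  obtain ⟨K, hK⟩ := hL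
  obtain ⟨Q, hQ⟩ := exists_generic k
  by_contra hcon
  push Not at hcon
  obtain ⟨A, hA⟩ := exists_nat_gt (K / lam j)
  have hA' : K < lam j * A := by
    rw [div_lt_iff₀ (hlam j)] at hA
    linarith
  have h2 : ∀ᶠ i in Uf, ∀ h, grp h = j →
      (PowerSeries.X : AA k) ^ (A * (E i : ℕ)) ∣ c i h := by
    rw [Filter.eventually_all]
    intro h
    by_cases hj : grp h = j
    · filter_upwards [hcon h hj A] with i hi _ using hi
    · exact Filter.Eventually.of_forall fun _ h1 => absurd h1 hj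
  obtain ⟨i, h3, h4⟩ := ((hK A).and h2).exists
  have h5 := h3 (Om k) Q 0 (Pi.single j (A * (E i : ℕ))) (Nat.zero_le _) (by
    intro j'
    by_cases hj : j' = j
    · rw [hj, Pi.single_eq_same]
    · rw [Pi.single_eq_of_ne hj]
      exact Nat.zero_le _) hQ (by
    intro h
    by_cases hj : grp h = j
    · rw [hj, Pi.single_eq_same]
      exact ev_dvd Q (h4 h hj)
    · rw [Pi.single_eq_of_ne hj, pow_zero]
      exact one_dvd _)
  have h6 : ∑ j', lam j' * ((Pi.single j (A * (E i : ℕ)) : Fin r → ℕ) j' : ℝ) =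
      lam j * (A * (E i : ℕ)) := by
    rw [Finset.sum_eq_single j]
    · rw [Pi.single_eq_same]
      push_cast
      ring
    · intro j' _ hj
      rw [Pi.single_eq_of_ne hj, Nat.cast_zero, mul_zero]
    · intro hj
      exact absurd (Finset.mem_univ j) hj
  rw [h6, Nat.cast_zero, zero_sub] at h5
  have h7 : (0 : ℝ) < ((E i : ℕ) : ℝ) := by exact_mod_cast (E i).pos
  nlinarith

end M5
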