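import Pool.Agent.M5.TC3
import Pool.Agent.M5.TC4
import Pool.Agent.M5.TC5
import Pool.Agent.M5.TC6
import Pool.Agent.M5.TC7
import Pool.Agent.M5.TC8
import Pool.Agent.M4.Rec
import Pool.Agent.M3.Bdd3

/-!
PIECE M5-TD: semicontinuity for fixed positive exponents on toric germs whose cone is contained in the octant.
-/

open MvPolynomial Filter

namespace M5

open MLD M3

universe u

section
variable {k K : Type u} [Field k] [Field K] [Algebra k K] {n : ℕ}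

theorem td_aDisc (X : Germ k K n) (E : Dv k K n) {r : ℕ} (lam : Fin r → ℝ)
    (a : Fin r → Ideal X.R) {A : ℝ} (hA : X.logDisc E = (A : EReal)) :
    X.aDisc E lam a = ((A - ∑ j, lam j * (X.ordI E (a j) : ℝ) : ℝ) : EReal) := by
  unfold Germ.aDisc
  rw [hA, ← EReal.coe_sub]

theorem td_mld_le (X : Germ k K n) {E : Dv k K n} (hE : X.Centre E) {r : ℕ} (lam : Fin r → ℝ)
    (a : Fin r → Ideal X.R) : X.mld lam a ≤ X.aDisc E lam a :=
  iInf_le (fun E : {E : Dv k K n // X.Centre E} => X.aDisc E.1 lam a) ⟨E, hE⟩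

/-- comparison of the discrepancy with the value of an arc -/
theorem td_aDisc_le (X : Germ k K n) {r : ℕ} {lam : Fin r → ℝ} (hlam : ∀ j, 0 ≤ lam j)
    (a : Fin r → Ideal X.R) (E : Dv k K n) (g : ℕ) (A B : ℝ)
    (hg : 0 < g) (hE : X.logDisc E = (A : EReal)) (hA : g * A ≤ B) (m : Fin r → ℕ)
    (hm : ∀ j, m j ≤ g * X.ordI E (a j)) (V : ℝ) (hV : B - ∑ j, lam j * m j ≤ V) :
    (V < 0 → X.aDisc E lam a < 0) ∧ (0 ≤ V → X.aDisc E lam a ≤ (V : EReal)) := by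
  rw [td_aDisc X E lam a hE]
  have hg1 : (1 : ℝ) ≤ g := by exact_mod_cast hg
  have h1 : (g : ℝ) * (A - ∑ j, lam j * (X.ordI E (a j) : ℝ)) ≤ V := by
    have h3 : ∑ j, lam j * (m j : ℝ) ≤ (g : ℝ) * ∑ j, lam j * (X.ordI E (a j) : ℝ) := by
      rw [Finset.mul_sum]
      refine Finset.sum_le_sum fun j _ => ?_
      have h4 : (m j : ℝ) ≤ (g : ℝ) * (X.ordI E (a j) : ℝ) := by exact_mod_cast hm j
      have h5 := mul_le_mul_of_nonneg_left h4 (hlam j)
      have h6 : (g : ℝ) * (lam j * (X.ordI E (a j) : ℝ)) = lam j * ((g : ℝ) * (X.ordI E (a j) : ℝ)) := by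
        ring
      rw [h6]
      exact h5
    rw [mul_sub]
    linarith
  constructor
  · intro hV0
    have h2 : (A - ∑ j, lam j * (X.ordI E (a j) : ℝ)) < 0 := by
      by_contra hc
      have h3 : 0 ≤ (g : ℝ) * (A - ∑ j, lam j * (X.ordI E (a j) : ℝ)) :=
        mul_nonneg (by linarith) (not_lt.1 hc)
      linarith
    exact_mod_cast h2
  · intro hV0
    refine EReal.coe_le_coe_iff.2 ?_
    by_cases hc : 0 ≤ (A - ∑ j, lam j * (X.ordI E (a j) : ℝ))
    · have h3 : 1 * (A - ∑ j, lam j * (X.ordI E (a j) : ℝ)) ≤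
          (g : ℝ) * (A - ∑ j, lam j * (X.ordI E (a j) : ℝ)) :=
        mul_le_mul_of_nonneg_right hg1 hc
      linarith
    · linarith [not_le.1 hc]

end

theorem pr_lin (m : Fin 3 → ℤ) (d e b c : ℤ) (w v u₁ u₂ : Fin 3 → ℤ)
    (h : ∀ t, d * w t = e * v t + b * u₁ t + c * u₂ t) :
    d * pr m w = e * pr m v + b * pr m u₁ + c * pr m u₂ := by
  unfold pr
  simp only [Finset.mul_sum, ← Finset.sum_add_distrib]
  refine Finset.sum_congr rfl fun t _ => ?_
  linear_combination m t * h t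

theorem dt_lin (d e b c : ℤ) (w v u₁ u₂ : Fin 3 → ℤ)
    (h : ∀ t, d * w t = e * v t + b * u₁ t + c * u₂ t) :
    d * dt w u₁ u₂ = e * dt v u₁ u₂ := by
  unfold dt
  simp only [Matrix.det_fin_three, Matrix.of_apply, Matrix.cons_val_zero, Matrix.cons_val_one,
    Matrix.cons_val_two, Matrix.head_cons, Matrix.tail_cons, Matrix.cons_val]
  have h0 := h 0
  have h1 := h 1
  have h2 := h 2
  linear_combination (u₁ 1 * u₂ 2 - u₁ 2 * u₂ 1) * h0 + (u₁ 2 * u₂ 0 - u₁ 0 * u₂ 2) * h1 +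
    (u₁ 0 * u₂ 1 - u₁ 1 * u₂ 0) * h2

section
variable {k : Type u} [Field k] [IsAlgClosed k] [CharZero k]

theorem oct_semi {q : ℕ} (r : Fin q → Fin 3 → ℕ) (hp : ∃ u, ∀ i, 0 < pr u (vz (r i)))
    (hf : ∀ m : Fin 3 → ℤ, (∀ i, pr m (vz (r i)) = 0) → m = 0) {N : ℕ} (hN : 0 < N)
    (θ : Fin 3 → ℤ) (hθ : ∀ i, pr θ (vz (r i)) = N) {n : ℕ} (lam : Fin n → ℝ)
    (hlam : ∀ j, 0 < lam j) :
    ∃ s : ℕ, ∀ a b : Fin n → Ideal (torGerm k (fun i => vz (r i)) N θ).R, (∀ j, a j ≠ ⊥) →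
      (∀ j, b j ≠ ⊥) →
      (∀ j, a j ⊔ (torGerm k (fun i => vz (r i)) N θ).m ^ s =
        b j ⊔ (torGerm k (fun i => vz (r i)) N θ).m ^ s) →
      0 ≤ (torGerm k (fun i => vz (r i)) N θ).mld lam a →
      (torGerm k (fun i => vz (r i)) N θ).mld lam a ≤
        (torGerm k (fun i => vz (r i)) N θ).mld lam b := by
  classical
  set X := torGerm k (fun i => vz (r i)) N θ with hX
  by_contra hcon
  push Not at hcon
  choose a b ha hb hab hlc hlt using hcon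
  obtain ⟨p, s, hs0, hs⟩ := exists_gens (fun i => vz (r i)) hf
  have hρ0 : ∀ (i : Fin q) (j : Fin 3), 0 ≤ vz (r i) j := fun i j => Int.natCast_nonneg _
  have hF : ∀ i, ∃ F : Dv k (FF k (Fin 3)) 3, X.Centre F ∧
      X.aDisc F lam (b i) < X.mld lam (a i) := by
    intro i
    obtain ⟨⟨F, hF1⟩, hF2⟩ := iInf_lt_iff.1 (hlt i)
    exact ⟨F, hF1, hF2⟩
  choose F hFz hFlt using hF
  have hreal : ∀ i, ∃ A : ℝ, X.logDisc (F i) = (A : EReal) := by
    intro i
    obtain ⟨F', hF', -⟩ := dv_to (F i) (txx_pos hρ0 (hFz i))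
    have h1 := tlog (k := k) (ρ := fun i => vz (r i)) (θ := θ) hN (F i) F' hF'
    by_cases htop : F'.logDisc = ⊤
    · exfalso
      have h2 : X.logDisc (F i) = ⊤ := by
        rw [hX, h1, htop, EReal.top_add_coe]
      have h3 := (hFlt i)
      unfold Germ.aDisc at h3
      rw [h2, EReal.top_sub_coe] at h3
      exact absurd h3 (not_lt.2 le_top)
    · obtain ⟨A', hA'⟩ := exists_logDisc F' htop
      exact ⟨_, by rw [hX, h1, hA', ← EReal.coe_add]⟩
  choose A hA using hreal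
  have hlca : ∀ i (F' : Dv k (FF k (Fin 3)) 3), X.Centre F' → ¬ X.aDisc F' lam (a i) < 0 :=
    fun i F' hF' => not_lt.2 ((hlc i).trans (td_mld_le X hF' lam (a i)))
  -- the chart
  choose ι' κ' av bv cv hav hbv hcv hdet' hstar using fun i =>
    star (fun i => vz (r i)) hp hf (fun j => (F i).ord (xx k j))
      fun m hm h0 => tcentre_pos (hFz i) hm h0
  obtain ⟨ι, κ, hικ⟩ : ∃ ι κ : Fin q, ∀ᶠ i in Uf, ι' i = ι ∧ κ' i = κ := by
    obtain ⟨x, hx⟩ : ∃ x : Fin q × Fin q, ∀ᶠ i in Uf, (ι' i, κ' i) = x :=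
      Ultrafilter.eventually_exists_iff.1 (Filter.Eventually.of_forall fun i => ⟨_, rfl⟩)
    refine ⟨x.1, x.2, hx.mono fun i hi => ?_⟩
    rw [← hi]
    exact ⟨rfl, rfl⟩
  obtain ⟨d, hd⟩ : ∃ d : ℕ, dt (vs fun i => vz (r i)) (vz (r ι)) (vz (r κ)) = d := by
    obtain ⟨i, hi1, hi2⟩ := hικ.exists
    have h1 := hdet' i
    rw [hi1, hi2] at h1
    exact ⟨_, (Int.toNat_of_nonneg h1.le).symm⟩
  have hd0 : 0 < d := by
    obtain ⟨i, hi1, hi2⟩ := hικ.exists
    have h1 := hdet' i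
    rw [hi1, hi2, hd] at h1
    exact_mod_cast h1
  let E : ℕ → ℕ+ := fun i => ⟨(av i).toNat, by have := hav i; omega⟩
  have hE : ∀ i, ((E i : ℕ) : ℤ) = av i := fun i => Int.toNat_of_nonneg (hav i).le
  let β : ℕ → ℕ := fun i => (bv i % d).toNat
  let γ : ℕ → ℕ := fun i => (cv i % d).toNat
  let bq : ℕ → ℕ := fun i => (bv i / d).toNat
  let cq : ℕ → ℕ := fun i => (cv i / d).toNat
  have hdz : (0 : ℤ) < d := by exact_mod_cast hd0
  have hβ : ∀ i, (β i : ℤ) = bv i % d := fun i => Int.toNat_of_nonneg (Int.emod_nonneg _ hdz.ne')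
  have hγ : ∀ i, (γ i : ℤ) = cv i % d := fun i => Int.toNat_of_nonneg (Int.emod_nonneg _ hdz.ne')
  have hbq : ∀ i, (bq i : ℤ) = bv i / d := fun i =>
    Int.toNat_of_nonneg (Int.ediv_nonneg (hbv i) hdz.le)
  have hcq : ∀ i, (cq i : ℤ) = cv i / d := fun i =>
    Int.toNat_of_nonneg (Int.ediv_nonneg (hcv i) hdz.le)
  let w : ℕ → Fin 3 → ℕ := fun i t =>
    ((F i).ord (xx k t) - bq i * r ι t - cq i * r κ t).toNat
  have hvpos : ∀ t, 0 < vs (fun i => vz (r i)) t := fun t => tvs_pos hρ0 hf t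
  have hw : ∀ᶠ i in Uf, (∀ t, (F i).ord (xx k t) = w i t + bq i * r ι t + cq i * r κ t) ∧
      ∀ t, (d : ℤ) * w i t =
        (E i : ℕ) * vs (fun i => vz (r i)) t + β i * r ι t + γ i * r κ t := by
    filter_upwards [hικ] with i hi
    have h1 := hstar i
    rw [hi.1, hi.2, hd] at h1
    have h2 : ∀ t, (d : ℤ) * ((F i).ord (xx k t) - bq i * r ι t - cq i * r κ t) =
        (E i : ℕ) * vs (fun i => vz (r i)) t + β i * r ι t + γ i * r κ t := by
      intro t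
      have h3 := h1 t
      have h4 : bv i = d * bq i + β i := by
        rw [hbq, hβ]
        exact (Int.mul_ediv_add_emod _ _).symm
      have h5 : cv i = d * cq i + γ i := by
        rw [hcq, hγ]
        exact (Int.mul_ediv_add_emod _ _).symm
      simp only [vz] at h3
      rw [hE]
      linear_combination h3 + (r ι t : ℤ) * h4 + (r κ t : ℤ) * h5
    have h3 : ∀ t, (w i t : ℤ) = (F i).ord (xx k t) - bq i * r ι t - cq i * r κ t := by
      intro t
      refine Int.toNat_of_nonneg ?_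
      have h4 := h2 t
      have h5 : 0 ≤ ((E i : ℕ) : ℤ) * vs (fun i => vz (r i)) t + β i * r ι t + γ i * r κ t := by
        have := hvpos t
        positivity
      by_contra hneg
      rw [not_le] at hneg
      have h6 : (d : ℤ) * ((F i).ord (xx k t) - bq i * r ι t - cq i * r κ t) < 0 :=
        mul_neg_of_pos_of_neg hdz hneg
      omega
    refine ⟨fun t => ?_, fun t => ?_⟩
    · rw [h3 t]
      ring
    · rw [h3 t]
      exact h2 t
  have hprw : ∀ᶠ i in Uf, ∀ m : Fin 3 → ℤ, (d : ℤ) * pr m (vz (w i)) =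
      (E i : ℕ) * pr m (vs fun i => vz (r i)) + β i * pr m (vz (r ι)) + γ i * pr m (vz (r κ)) := by
    filter_upwards [hw] with i hi m
    exact pr_lin m _ _ _ _ _ _ _ _ hi.2
  -- the generators
  obtain ⟨J, _, grp, pp, hpp, hH⟩ := gen_seqS (k := k) (fun i j => lf s (b i j))
    fun i j => lf_zero (b i j)
  have hHa : ∀ s₀ : ℕ, ∀ᶠ i in Uf, ∀ j, ∀ q ∈ lf s (a i j), ∃ H : J → MvPolynomial (Fin p) k,
      (∀ h, ¬ grp h = j → H h = 0) ∧
      ∀ m : Fin p →₀ ℕ, m.degree < s₀ → coeff m (q - ∑ h, H h * pp h i) = 0 := by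
    intro s₀
    filter_upwards [hH s₀, Bdd3_ge s₀] with i h1 hi j q hq
    obtain ⟨G, hG1, hG2⟩ := lf_congr (θ := θ) (N := N) (fun l => (hs0 l).1) hs (hab i j) hq
    obtain ⟨H, hH1, hH2⟩ := h1 j G hG1
    refine ⟨H, hH1, fun m hm => ?_⟩
    have h3 : q - ∑ h, H h * pp h i = (q - G) + (G - ∑ h, H h * pp h i) := by ring
    rw [h3, coeff_add, hG2 m (by omega), hH2 m hm, add_zero]
  set c : ℕ → J → AA k := fun i h => tc s (w i) (r ι) (r κ) (pp h i) with hc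
  have tm : ∀ h, M4.Tame E (fun i => c i h) := fun h =>
    ttame r s (fun l => (hs0 l).1) ι κ d hd0 E w β γ (hw.mono fun i hi => hi.2) (pp h)
  have hdvs : ∀ ℓ : ℕ, ∀ᶠ i in Uf, ∀ (L : Type u) [Field L] [Algebra k L]
      (Q : Fin 2 → PowerSeries L) (C : ℕ) (nn : Fin n → ℕ), (∀ j, nn j ≤ ℓ * (E i : ℕ)) →
      (∀ m, CodLe k Q m C) → OrdGe grp (c i) Q nn →
      ∃ (E' : Dv k (FF k (Fin 3)) 3) (g : ℕ) (A : ℝ), 0 < g ∧ X.Centre E' ∧
        X.logDisc E' = (A : EReal) ∧ g * A ≤ C + (pr θ (vz (w i)) : ℝ) / N ∧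
        ∀ j, nn j ≤ g * X.ordI E' (a i j) := by
    intro ℓ
    filter_upwards [hw, hHa (d * ℓ)] with i hi1 hi2
    intro L _ _ Q C nn hn hC hO
    exact tdvs r hf hN θ hθ s hs0 hs ι κ d hd hd0 (w i) (E i) (β i) (γ i) (E i).pos hi1.2 ℓ grp
      (fun h => pp h i) (a i) (ha i) hi2 Q C nn hn hC hO
  have hprv : pr θ (vs fun i => vz (r i)) = q * N := by
    rw [pr_vs]
    simp [hθ]
  have hN' : (0 : ℝ) < N := by exact_mod_cast hN
  have hbd : ∀ᶠ i in Uf, (pr θ (vz (w i)) : ℝ) / N ≤ (q + 2) * (E i : ℕ) := by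
    filter_upwards [hprw] with i hi
    rw [div_le_iff₀ hN']
    have h1 := hi θ
    rw [hprv, hθ, hθ] at h1
    have h2 : (β i : ℤ) ≤ d := by
      rw [hβ]
      exact (Int.emod_lt_of_pos _ hdz).le
    have h3 : (γ i : ℤ) ≤ d := by
      rw [hγ]
      exact (Int.emod_lt_of_pos _ hdz).le
    have h4 : (1 : ℤ) ≤ (E i : ℕ) := by exact_mod_cast (E i).pos
    have h5 : (0 : ℤ) < N := by exact_mod_cast hN
    have h6 : (d : ℤ) * pr θ (vz (w i)) ≤ d * ((q + 2) * (E i : ℕ) * N) := by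
      rw [h1]
      have h7 : (β i : ℤ) * N ≤ d * N * (E i : ℕ) := by
        have : (β i : ℤ) * N ≤ d * N := mul_le_mul_of_nonneg_right h2 h5.le
        nlinarith [mul_pos hdz h5]
      have h8 : (γ i : ℤ) * N ≤ d * N * (E i : ℕ) := by
        have : (γ i : ℤ) * N ≤ d * N := mul_le_mul_of_nonneg_right h3 h5.le
        nlinarith [mul_pos hdz h5]
      have h9 : ((E i : ℕ) : ℤ) * (q * N) ≤ d * (((E i : ℕ) : ℤ) * (q * N)) := by
        have h10 : (0 : ℤ) ≤ ((E i : ℕ) : ℤ) * (q * N) := by positivity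
        nlinarith
      nlinarith
    have h7 := le_of_mul_le_mul_left h6 hdz
    have h8 : ((pr θ (vz (w i)) : ℤ) : ℝ) ≤ (((q + 2) * (E i : ℕ) * N : ℤ) : ℝ) := by
      exact_mod_cast h7
    push_cast at h8 ⊢
    linarith
  have hL : M4.LowB E lam grp c := by
    refine ⟨q + 2, fun ℓ => ?_⟩
    filter_upwards [hdvs ℓ, hbd] with i hi hb2 L _ _ Q C nn _ hn hQ hO
    by_contra hlow
    rw [not_le] at hlow
    obtain ⟨F', g, A₁, hg, hF', hl', hgA, hord⟩ := hi L Q C nn hn hQ hO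
    exact hlca i F' hF' ((td_aDisc_le X (fun j => (hlam j).le) (a i) F' g A₁ _ hg hl'
      hgA nn hord _ le_rfl).1 (by linarith))
  have harc : ∀ᶠ i in Uf, ∃ (C : ℕ) (P : Fin 2 → PowerSeries (Om k)),
      (C : ℝ) + (pr θ (vz (w i)) : ℝ) / N = A i ∧ Cod k P C ∧
        OrdGe grp (c i) P fun j => X.ordI (F i) (b i j) := by
    filter_upwards [hw, hprw] with i hi1 hi2
    have hdet : dt (vz (w i)) (vz (r ι)) (vz (r κ)) ≠ 0 := by
      intro h0
      have h1 := dt_lin _ _ _ _ (vz (w i)) _ _ _ hi1.2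
      change (d : ℤ) * dt (vz (w i)) (vz (r ι)) (vz (r κ)) =
        ((E i : ℕ) : ℤ) * dt _ (vz (r ι)) (vz (r κ)) at h1
      rw [h0, hd, mul_zero] at h1
      have h2 : (0 : ℤ) < (E i : ℕ) := by exact_mod_cast (E i).pos
      have h3 := mul_pos h2 hdz
      omega
    have hsw : ∀ l, 0 < pr (s l) (vz (w i)) := by
      intro l
      have h1 := hi2 (s l)
      have h2 := pr_vs_pos hf (hs0 l).1 (hs0 l).2
      have h3 : 0 ≤ pr (s l) (vz (r ι)) := (hs0 l).1 ι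
      have h4 : 0 ≤ pr (s l) (vz (r κ)) := (hs0 l).1 κ
      have h5 : (0 : ℤ) < (E i : ℕ) := by exact_mod_cast (E i).pos
      have h6 : 0 < (d : ℤ) * pr (s l) (vz (w i)) := by
        rw [h1]
        have h7 := mul_pos h5 h2
        positivity
      exact (pos_iff_pos_of_mul_pos h6).1 hdz
    obtain ⟨C, P, h1, h2, h3⟩ := tarc_of r hN θ hθ s (fun l => (hs0 l).1) ι κ (w i) hsw hdet (F i)
      (hFz i) (bq i) (cq i) hi1.1 (A i) (hA i) (∑ j, X.ordI (F i) (b i j))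
    refine ⟨C, P, h1, h2, fun h => ?_⟩
    refine h3 (pp h i) _ (Finset.single_le_sum (f := fun j => X.ordI (F i) (b i j))
      (fun _ _ => Nat.zero_le _) (Finset.mem_univ (grp h))) ?_
    by_cases h0 : tK s (pp h i) = 0
    · exact Or.inl h0
    · exact Or.inr (ordI_le_lf (hFz i) (b i (grp h)) (hpp h i) h0)
  obtain ⟨C, hC⟩ := harc.choice
  obtain ⟨P, hP⟩ := hC.choice
  have hAdm : Adm grp c P C (fun i j => X.ordI (F i) (b i j)) :=
    hP.mono fun i hi => hi.2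
  obtain ⟨ℓ, hℓ⟩ := M4.m4_main hlam tm (ne_of_lowB hlam hL) hL hAdm
  obtain ⟨i, hi1, hi2, hi3⟩ := (hℓ.and ((hdvs ℓ).and hP)).exists
  obtain ⟨Q, C', n', hC', hn', hQ, hO, hval⟩ := hi1
  obtain ⟨F', g, A₁, hg, hF', hl', hgA, hord⟩ := hi2 (Om k) Q C' n' hn' hQ hO
  have hEi := td_aDisc X (F i) lam (b i) (hA i)
  obtain ⟨hc1, hc2⟩ := td_aDisc_le X (fun j => (hlam j).le) (a i) F' g A₁ _ hg hl'
    hgA n' hord (A i - ∑ j, lam j * (X.ordI (F i) (b i j) : ℝ)) (by linarith [hi3.1])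
  have hlt' := hFlt i
  rw [hEi] at hlt'
  rcases lt_or_ge (A i - ∑ j, lam j * (X.ordI (F i) (b i j) : ℝ)) 0 with h | h
  · exact hlca i F' hF' (hc1 h)
  · exact absurd ((td_mld_le X hF' lam (a i)).trans (hc2 h)) (not_le.2 hlt')

end

end M5
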