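import Pool.Agent.M5.Defs
import Pool.Agent.M3.Defs

/-!
PROJECT M5, PART T: toric charts.
-/

open MvPolynomial

namespace M5

open MLD M3

universe u

/-- the determinant of three vectors -/
def dt (u v w : Fin 3 → ℤ) : ℤ := Matrix.det (Matrix.of ![u, v, w])

/-- vectors with natural entries as integral vectors -/
def vz (w : Fin 3 → ℕ) : Fin 3 → ℤ := fun j => w j

section
variable {k : Type u} [Field k] {p : ℕ}

/-- polynomials in the characters `χ^(s l)` -/
noncomputable def tK (s : Fin p → Fin 3 → ℤ) : MvPolynomial (Fin p) k →ₐ[k] FF k (Fin 3) :=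
  aeval fun l => chi k (s l)

/-- polynomials in the characters as functions of the point `w(τ) r₁(x) r₂(y)` of the torus -/
noncomputable def tc (s : Fin p → Fin 3 → ℤ) (w r₁ r₂ : Fin 3 → ℕ) :
    MvPolynomial (Fin p) k →ₐ[k] AA k :=
  aeval fun l => PowerSeries.X ^ (pr (s l) (vz w)).toNat * xA 0 ^ (pr (s l) (vz r₁)).toNat *
    xA 1 ^ (pr (s l) (vz r₂)).toNat

/-- polynomials in the coordinates as functions of the point `w(τ) r₁(x) r₂(y)` of the torus -/
noncomputable def yc (w r₁ r₂ : Fin 3 → ℕ) : MvPolynomial (Fin 3) k →ₐ[k] AA k :=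
  aeval fun j => PowerSeries.X ^ w j * xA 0 ^ r₁ j * xA 1 ^ r₂ j

end

end M5
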