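import Pool.Agent.M5.TD
import Pool.Agent.M5.G1
import Pool.Agent.M5.QC2

/-!
PIECE M5-TE: Q1 for toric germs.
-/

open MvPolynomial Filter

namespace M5

open MLD M3

universe u

variable {k : Type u} [Field k] [IsAlgClosed k] [CharZero k]

theorem oct_Q1 {q : ℕ} (r : Fin q → Fin 3 → ℕ) (hp : ∃ u, ∀ i, 0 < pr u (vz (r i)))
    (hf : ∀ m : Fin 3 → ℤ, (∀ i, pr m (vz (r i)) = 0) → m = 0) {N : ℕ} (hN : 0 < N)
    (θ : Fin 3 → ℤ) (hθ : ∀ i, pr θ (vz (r i)) = N) :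
    (torGerm k (fun i => vz (r i)) N θ).Q1 :=
  Q1_of_semi _ fun _ lam hlam => oct_semi r hp hf hN θ hθ lam hlam

/-- Q1 for `ℚ`-Gorenstein affine toric threefolds at the torus fixed point -/
theorem toric_Q1 {q : ℕ} (ρ : Fin q → Fin 3 → ℤ) (hp : ∃ u, ∀ i, 0 < pr u (ρ i))
    (hf : ∀ m : Fin 3 → ℤ, (∀ i, pr m (ρ i) = 0) → m = 0) {N : ℕ} (hN : 0 < N)
    (θ : Fin 3 → ℤ) (hθ : ∀ i, pr θ (ρ i) = N) : (torGerm k ρ N θ).Q1 :=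
  toric_of_octant ρ hp hf hN θ hθ fun r _ h1 h2 h3 => oct_Q1 r h1 h2 hN _ h3

end M5
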